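import Pool.Agent.H52.MLG.Resid

/-! MLG As: the theorem for almost every random sequence with independent entries.

PROOF.  For every word l with entries >= 2, length n >= 1: let p = ∏ δ (l_i - 2) > 0 (p <= 1).
For j in ℕ let E_j = {e | ∀ i < n, e (j n + 1 + i) + 2 = l_i}.  The events E_j depend on disjoint sets of
coordinates, so they are independent, and their measure is ∏ μ_k{l_i - 2} >= p.  So the measure of
{no E_j, j < J} is <= (1-p)^J -> 0 (or use the second Borel-Cantelli lemma
`ProbabilityTheory.measure_limsup_eq_one`).  Hence almost surely l occurs.  Countably many words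
(`ae_all_iff`), the empty word is trivial.  Then `blk` for d k = e k + 2.
Useful: `MeasureTheory.Measure.infinitePi`, `infinitePi_pi`, `iIndepFun_infinitePi`. -/

namespace MLG

open MeasureTheory

/-- prescribed values. -/
private def As_val (l : List ℕ) (k : ℕ) : ℕ := l.getD ((k - 1) % l.length) 2 - 2

/-- the j-th block of coordinates. -/
private def As_blk (n j : ℕ) : Finset ℕ := (Finset.range n).image (fun i => j * n + 1 + i)

private theorem As_blk_disj (n : ℕ) (hn : 1 ≤ n) (j j' : ℕ) (h : j ≠ j') :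
    Disjoint (As_blk n j) (As_blk n j') := by
  rw [Finset.disjoint_left]
  intro k hk hk'
  obtain ⟨i, hi, rfl⟩ := Finset.mem_image.1 hk
  obtain ⟨i', hi', h1⟩ := Finset.mem_image.1 hk'
  rw [Finset.mem_range] at hi hi'
  have h2 : n * j' + i' = n * j + i := by
    have : j' * n + 1 + i' = j * n + 1 + i := h1
    rw [mul_comm j' n, mul_comm j n] at this
    omega
  have h3 : (n * j' + i') / n = (n * j + i) / n := by rw [h2]
  rw [Nat.mul_add_div (by omega), Nat.mul_add_div (by omega), Nat.div_eq_of_lt hi,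
    Nat.div_eq_of_lt hi'] at h3
  omega

private theorem As_val_blk (l : List ℕ) (j i : ℕ) (hi : i < l.length) :
    As_val l (j * l.length + 1 + i) = l.getD i 2 - 2 := by
  unfold As_val
  have h1 : (j * l.length + 1 + i - 1) % l.length = i := by
    have h2 : j * l.length + 1 + i - 1 = i + j * l.length := by omega
    rw [h2, Nat.add_mul_mod_self_right, Nat.mod_eq_of_lt hi]
  rw [h1]

private theorem As_word (μ : ℕ → Measure ℕ) [∀ k, IsProbabilityMeasure (μ k)] (δ : ℕ → ENNReal)
    (hδ : ∀ n, 0 < δ n) (h : ∀ k n, δ n ≤ μ k {n}) (l : List ℕ) (hl : ∀ a ∈ l, 2 ≤ a) :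
    ∀ᵐ e ∂(Measure.infinitePi μ), ∃ N : ℕ, ∀ i : ℕ, i < l.length →
      (fun k => e k + 2) (N + 1 + i) = l.getD i 2 := by
  classical
  rcases Nat.eq_zero_or_pos l.length with h0 | hn
  · refine Filter.Eventually.of_forall ?_
    intro e
    exact ⟨0, fun i hi => by omega⟩
  have hmeas : ∀ s : Finset ℕ, MeasurableSet (Set.pi (s : Set ℕ) (fun k => ({As_val l k} : Set ℕ))) :=
    fun s => MeasurableSet.pi s.countable_toSet (fun k _ => measurableSet_singleton _)
  have hpi : ∀ s : Finset ℕ,
      Measure.infinitePi μ (Set.pi (s : Set ℕ) (fun k => ({As_val l k} : Set ℕ))) =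
        ∏ k ∈ s, μ k {As_val l k} :=
    fun s => Measure.infinitePi_pi μ (fun k _ => measurableSet_singleton _)
  have hE : ∀ j, MeasurableSet
      (Set.pi (As_blk l.length j : Set ℕ) (fun k => ({As_val l k} : Set ℕ))) :=
    fun j => hmeas _
  have hind : ProbabilityTheory.iIndepSet
      (fun j => Set.pi (As_blk l.length j : Set ℕ) (fun k => ({As_val l k} : Set ℕ)))
      (Measure.infinitePi μ) := by
    rw [ProbabilityTheory.iIndepSet_iff_meas_biInter hE]
    intro t
    have h1 : (⋂ j ∈ t, Set.pi (As_blk l.length j : Set ℕ) (fun k => ({As_val l k} : Set ℕ))) =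
        Set.pi ((t.biUnion (As_blk l.length) : Finset ℕ) : Set ℕ)
          (fun k => ({As_val l k} : Set ℕ)) := by
      ext e
      simp only [Set.mem_iInter, Set.mem_pi, Finset.mem_coe, Finset.mem_biUnion]
      constructor
      · rintro h2 k ⟨j, hj, hk⟩
        exact h2 j hj k hk
      · intro h2 j hj k hk
        exact h2 k ⟨j, hj, hk⟩
    rw [h1, hpi, Finset.prod_biUnion]
    · refine Finset.prod_congr rfl ?_
      intro j _
      rw [hpi]
    · intro j _ j' _ hjj
      exact As_blk_disj l.length hn j j' hjj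
  have hsum : ∑' j : ℕ, Measure.infinitePi μ
      (Set.pi (As_blk l.length j : Set ℕ) (fun k => ({As_val l k} : Set ℕ))) = ⊤ := by
    have hp : (∏ i ∈ Finset.range l.length, δ (l.getD i 2 - 2)) ≠ 0 := by
      rw [Finset.prod_ne_zero_iff]
      intro i _
      exact (hδ _).ne'
    have h1 : ∑' _ : ℕ, (∏ i ∈ Finset.range l.length, δ (l.getD i 2 - 2)) = ⊤ :=
      ENNReal.tsum_const_eq_top_of_ne_zero hp
    rw [← top_le_iff, ← h1]
    refine ENNReal.tsum_le_tsum ?_
    intro j
    rw [hpi]
    unfold As_blk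
    rw [Finset.prod_image]
    · refine Finset.prod_le_prod' ?_
      intro i hi
      rw [As_val_blk l j i (Finset.mem_range.1 hi)]
      exact h _ _
    · intro i _ i' _ hii
      simpa using hii
  have h1 := ProbabilityTheory.measure_limsup_eq_one hE hind hsum
  have h2 : ∀ᵐ e ∂(Measure.infinitePi μ), e ∈ Filter.limsup
      (fun j => Set.pi (As_blk l.length j : Set ℕ) (fun k => ({As_val l k} : Set ℕ)))
        Filter.atTop := by
    rw [Filter.Eventually, ← mem_ae_iff_prob_eq_one₀ ?_] at *
    · exact h1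
    · exact (MeasurableSet.measurableSet_limsup hE).nullMeasurableSet
  filter_upwards [h2] with e he
  rw [Filter.mem_limsup_iff_frequently_mem] at he
  obtain ⟨j, hj⟩ := he.exists
  refine ⟨j * l.length, ?_⟩
  intro i hi
  have h3 := hj (j * l.length + 1 + i) (by
    rw [Finset.mem_coe]
    exact Finset.mem_image.2 ⟨i, Finset.mem_range.2 hi, rfl⟩)
  rw [Set.mem_singleton_iff, As_val_blk l j i hi] at h3
  have h4 : 2 ≤ l.getD i 2 := by
    rw [List.getD_eq_getElem _ _ hi]
    exact hl _ (List.getElem_mem hi)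
  change e (j * l.length + 1 + i) + 2 = l.getD i 2
  rw [h3]
  omega

theorem as (μ : ℕ → Measure ℕ) [∀ k, IsProbabilityMeasure (μ k)] (δ : ℕ → ENNReal)
    (hδ : ∀ n, 0 < δ n) (h : ∀ k n, δ n ≤ μ k {n}) :
    ∀ᵐ e ∂(Measure.infinitePi μ), MLC (fun k => e k + 2) := by
  have h1 : ∀ᵐ e ∂(Measure.infinitePi μ), ∀ l : List ℕ, (∀ a ∈ l, 2 ≤ a) →
      ∃ N : ℕ, ∀ i : ℕ, i < l.length → (fun k => e k + 2) (N + 1 + i) = l.getD i 2 := by
    rw [ae_all_iff]
    intro l
    by_cases hl : ∀ a ∈ l, 2 ≤ a
    · filter_upwards [As_word μ δ hδ h l hl] with e he _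
      exact he
    · exact Filter.Eventually.of_forall (fun e hl' => absurd hl' hl)
  filter_upwards [h1] with e he
  exact blk (fun k => e k + 2) (fun k _ => Nat.le_add_left 2 (e k)) he

end MLG
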