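import Pool.Agent.H52.MLG.EcA

/-! MLG Blk: the core theorem with prime ratios, and blocks of primes in d. -/

namespace MLG

private theorem Blk_two_pow {d : ℕ → ℕ} (hd : ∀ k, 1 ≤ k → 2 ≤ d k) (n : ℕ) :
    2 ^ n ≤ ∏ k ∈ Finset.Icc 1 n, d k := by
  induction n with
  | zero => simp
  | succ n ih =>
    rw [Finset.prod_Icc_succ_top (by omega), pow_succ]
    exact Nat.mul_le_mul ih (hd _ (by omega))

private theorem Blk_dvd (d : ℕ → ℕ) {m n : ℕ} (h : m ≤ n) :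
    (∏ k ∈ Finset.Icc 1 m, d k) ∣ ∏ k ∈ Finset.Icc 1 n, d k :=
  Finset.prod_dvd_prod_of_subset _ _ _ (Finset.Icc_subset_Icc le_rfl h)

private theorem Blk_bad {d : ℕ → ℕ} (hd : ∀ k, 1 ≤ k → 2 ≤ d k) {α ε : ℝ}
    (hbad : ∀ q : ℕ, 1 ≤ q → ∀ n : ℕ, (∏ k ∈ Finset.Icc 1 n, d k) ∣ q →
      ¬ ((∏ k ∈ Finset.Icc 1 (n + 1), d k) ∣ q) →
      ε ≤ (q : ℝ) / ((∏ k ∈ Finset.Icc 1 n, d k : ℕ) : ℝ) *
        |(q : ℝ) * α - ((round ((q : ℝ) * α) : ℤ) : ℝ)|) (M : ℕ) :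
    Bad ε (((∏ k ∈ Finset.Icc 1 M, d k : ℕ) : ℝ) * α) := by
  classical
  intro m hm n
  set t : ℕ → ℕ := fun m => ∏ k ∈ Finset.Icc 1 m, d k with ht
  have htpos : ∀ m, 0 < t m := fun m => lt_of_lt_of_le (by positivity) (Blk_two_pow hd m)
  have hdvd : ∀ {m m' : ℕ}, m ≤ m' → t m ∣ t m' := fun hm => Blk_dvd d hm
  have hqpos : 0 < t M * m := Nat.mul_pos (htpos M) hm
  have hex : ∃ j, ¬ t j ∣ t M * m := by
    refine ⟨t M * m, fun hdq => ?_⟩
    have h1 := Nat.le_of_dvd hqpos hdq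
    have h2 : 2 ^ (t M * m) ≤ t (t M * m) := Blk_two_pow hd _
    have h3 : t M * m < 2 ^ (t M * m) := Nat.lt_two_pow_self
    omega
  have hspec := Nat.find_spec hex
  have hmin : ∀ j, j < Nat.find hex → t j ∣ t M * m :=
    fun j hj => not_not.1 (Nat.find_min hex hj)
  have hMlt : M < Nat.find hex := by
    by_contra hcon
    exact hspec ((hdvd (not_lt.1 hcon)).trans (Dvd.intro _ rfl))
  obtain ⟨j, hj⟩ : ∃ j, Nat.find hex = j + 1 := ⟨Nat.find hex - 1, by omega⟩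
  rw [hj] at hspec hMlt
  have hjq : t j ∣ t M * m := hmin j (by omega)
  have h := hbad (t M * m) hqpos j hjq hspec
  have htj : (0 : ℝ) < (t j : ℝ) := by exact_mod_cast htpos j
  have htM : (t M : ℝ) ≤ (t j : ℝ) := by
    exact_mod_cast Nat.le_of_dvd (htpos j) (hdvd (by omega))
  have hm0 : (0 : ℝ) ≤ (m : ℝ) := Nat.cast_nonneg m
  have hle : ((t M * m : ℕ) : ℝ) / (t j : ℝ) ≤ (m : ℝ) := by
    rw [div_le_iff₀ htj]
    push_cast
    nlinarith
  have habs : |((t M * m : ℕ) : ℝ) * α - ((round (((t M * m : ℕ) : ℝ) * α) : ℤ) : ℝ)| ≤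
      |(m : ℝ) * ((t M : ℝ) * α) - n| := by
    have h1 := round_le (((t M * m : ℕ) : ℝ) * α) n
    have e : ((t M * m : ℕ) : ℝ) * α = (m : ℝ) * ((t M : ℝ) * α) := by
      push_cast
      ring
    rw [e] at h1 ⊢
    exact h1
  exact h.trans (mul_le_mul hle habs (abs_nonneg _) hm0)

private theorem Blk_chain {d : ℕ → ℕ} {α ε : ℝ}
    (hbad : ∀ M : ℕ, Bad ε (((∏ k ∈ Finset.Icc 1 M, d k : ℕ) : ℝ) * α)) (e : List ℕ) :
    ∀ N : ℕ, (∀ i : ℕ, i < e.length → d (N + 1 + i) = e.getD i 2) →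
      XE ε e (((∏ k ∈ Finset.Icc 1 N, d k : ℕ) : ℝ) * α) := by
  induction e with
  | nil =>
    intro N _
    exact hbad N
  | cons a e ih =>
    intro N h
    refine ⟨hbad N, ?_⟩
    have h0 : d (N + 1) = a := by
      have := h 0 (by simp)
      simpa using this
    have h1 := ih (N + 1) (fun i hi => by
      have := h (i + 1) (by simpa using hi)
      rw [show N + 1 + 1 + i = N + 1 + (i + 1) by ring, this]
      simp)
    have e1 : ((∏ k ∈ Finset.Icc 1 (N + 1), d k : ℕ) : ℝ) * α =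
        (a : ℝ) * (((∏ k ∈ Finset.Icc 1 N, d k : ℕ) : ℝ) * α) := by
      rw [Finset.prod_Icc_succ_top (by omega), h0]
      push_cast
      ring
    rw [e1] at h1
    exact h1

theorem Blk_app {c : ℝ} (f g : List ℕ) : ∀ x : ℝ, XE c (f ++ g) x → XE c g (((f.prod : ℕ) : ℝ) * x) := by
  induction f with
  | nil =>
    intro x h
    simpa using h
  | cons b f ih =>
    intro x h
    have h1 := ih _ h.2
    have e1 : (((b :: f).prod : ℕ) : ℝ) * x = ((f.prod : ℕ) : ℝ) * ((b : ℝ) * x) := by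
      rw [List.prod_cons]
      push_cast
      ring
    rw [e1]
    exact h1

theorem Blk_flat {c : ℝ} (e : List ℕ) : (∀ a ∈ e, 2 ≤ a) → ∀ x : ℝ,
    XE c (e.flatMap Nat.primeFactorsList) x → XE c e x := by
  induction e with
  | nil =>
    intro _ x h
    simpa using h
  | cons a e ih =>
    intro he x h
    have ha : 2 ≤ a := he a (by simp)
    have h1 : XE c (Nat.primeFactorsList a ++ e.flatMap Nat.primeFactorsList) x := by
      simpa using h
    refine ⟨XE_bad h1, ih (fun b hb => he b (by simp [hb])) _ ?_⟩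
    have h2 := Blk_app _ _ _ h1
    rwa [Nat.prod_primeFactorsList (by omega)] at h2

/-- the core theorem with a chain whose ratios are primes. -/
theorem ecP (c : ℝ) (hc : 0 < c) : ∃ e : List ℕ, (∀ p ∈ e, p.Prime) ∧ ∀ x : ℝ, ¬ XE c e x := by
  obtain ⟨e, he, hno⟩ := ec c hc
  refine ⟨e.flatMap Nat.primeFactorsList, ?_, fun x h => hno x (Blk_flat e he x h)⟩
  intro p hp
  obtain ⟨a, _, hpa⟩ := List.mem_flatMap.mp hp
  exact Nat.prime_of_mem_primeFactorsList hpa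

/-- if every finite word of primes occurs as a block in d then mixed Littlewood holds for d. -/
theorem blkP (d : ℕ → ℕ) (hd : ∀ k, 1 ≤ k → 2 ≤ d k)
    (hblk : ∀ l : List ℕ, (∀ p ∈ l, p.Prime) → ∃ N : ℕ, ∀ i : ℕ, i < l.length →
      d (N + 1 + i) = l.getD i 2) :
    ∀ α : ℝ, ∀ ε : ℝ, 0 < ε →
        ∃ q : ℕ, 1 ≤ q ∧ ∃ n : ℕ,
          (∏ k ∈ Finset.Icc 1 n, d k) ∣ q ∧
          ¬ ((∏ k ∈ Finset.Icc 1 (n + 1), d k) ∣ q) ∧
          (q : ℝ) / ((∏ k ∈ Finset.Icc 1 n, d k : ℕ) : ℝ) *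
            |(q : ℝ) * α - ((round ((q : ℝ) * α) : ℤ) : ℝ)| < ε := by
  intro α ε hε
  by_contra hcon
  obtain ⟨e, he, hno⟩ := ecP ε hε
  obtain ⟨N, hN⟩ := hblk e he
  refine hno _ (Blk_chain (d := d) (α := α) (ε := ε) (fun M => Blk_bad hd ?_ M) e N hN)
  intro q hq n h1 h2
  by_contra hlt
  exact hcon ⟨q, hq, n, h1, h2, not_le.1 hlt⟩

end MLG
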