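import Pool.Agent.H52.MLG.Gauss

/-! MLG BadDg: c-bad points have digits at most 1/c; formal properties of XE.

PROOFS.  `bad_irr`: if x = p/q then m = q.natAbs, n = ± p gives m |m x - n| = 0 < c.
`badTo_dg`: with w = wd x k, z = gs^[k] x: c <= qn w |qn w x - pn w| <= z (`err1`; 1 <= qn w <= M),
so 1/z <= 1/c <= A and dg z = floor(1/z) <= A.  `bad_dg`: the same for all k.
`bad_shift`: |m (x+n') - n| = |m x - (n - m n')|.  `XE_shift`: induction on e
(a (x + n) = a x + (a n)).  `XE_append`: induction on e, using prod of a::e is a * prod e. -/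

namespace MLG

theorem bad_irr {c x : ℝ} (hc : 0 < c) (h : Bad c x) : Irrational x := by
  rintro ⟨q, rfl⟩
  have h1 := h q.den q.pos q.num
  have hd : (q.den : ℝ) ≠ 0 := by exact_mod_cast q.pos.ne'
  have h2 : (q.den : ℝ) * (q : ℝ) - (q.num : ℤ) = 0 := by
    rw [Rat.cast_def q]
    field_simp
    ring
  rw [h2, abs_zero, mul_zero] at h1
  linarith

theorem badTo_dg {c x : ℝ} {A M : ℕ} (hc : 0 < c) (hA : 1 / c ≤ A) (hx : InI x)
    (h : BadTo c M x) (k : ℕ) (hk : qn (wd x k) ≤ M) : dg (gs^[k] x) ≤ A := by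
  have hz := iter_InI hx k
  have h1 : 1 ≤ qn (wd x k) := (entries_le (wd_pos hx k)).2.2.2
  have h2 := h (qn (wd x k)) h1 hk (pn (wd x k) : ℤ)
  have h3 := err1 hx k
  have h4 : c ≤ gs^[k] x := by
    refine le_trans ?_ h3
    simpa using h2
  unfold dg
  apply Nat.floor_le_of_le
  refine le_trans ?_ hA
  rw [one_div]
  exact inv_anti₀ hc h4

theorem bad_dg {c x : ℝ} {A : ℕ} (hc : 0 < c) (hA : 1 / c ≤ A) (h0 : 0 < x) (h1 : x < 1)
    (h : Bad c x) : Dg A x := by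
  exact ⟨⟨bad_irr hc h, h0, h1⟩, fun k => badTo_dg (M := qn (wd x k)) hc hA
    ⟨bad_irr hc h, h0, h1⟩ (fun m hm _ => h m hm) k le_rfl⟩

theorem bad_shift {c x : ℝ} (h : Bad c x) (n : ℤ) : Bad c (x + n) := by
  intro m hm n'
  have h1 := h m hm (n' - m * n)
  have h2 : (m : ℝ) * (x + n) - n' = (m : ℝ) * x - ((n' - m * n : ℤ) : ℝ) := by
    push_cast; ring
  rw [h2]
  exact h1

theorem XE_bad {c : ℝ} {e : List ℕ} {x : ℝ} (h : XE c e x) : Bad c x := by
  cases e with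
  | nil => exact h
  | cons a e => exact h.1

theorem XE_shift {c : ℝ} {e : List ℕ} {x : ℝ} (h : XE c e x) (n : ℤ) : XE c e (x + n) := by
  induction e generalizing x n with
  | nil => exact bad_shift h n
  | cons a e ih =>
      refine ⟨bad_shift h.1 n, ?_⟩
      have h1 := ih h.2 ((a : ℤ) * n)
      have h2 : (a : ℝ) * (x + n) = (a : ℝ) * x + (((a : ℤ) * n : ℤ) : ℝ) := by
        push_cast; ring
      rw [h2]
      exact h1

theorem XE_append (c : ℝ) (e : List ℕ) (s : ℕ) (e' : List ℕ) (x : ℝ) :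
    XE c (e ++ s :: e') x ↔ XE c e x ∧ XE c e' (((e.prod * s : ℕ) : ℝ) * x) := by
  induction e generalizing x with
  | nil => simp [XE]
  | cons a e ih =>
      have h1 : (((a :: e).prod * s : ℕ) : ℝ) * x = ((e.prod * s : ℕ) : ℝ) * ((a : ℝ) * x) := by
        rw [List.prod_cons]; push_cast; ring
      rw [h1, List.cons_append]
      simp only [XE]
      rw [ih, and_assoc]

theorem Tail_Dg {c : ℝ} {e : List ℕ} {A : ℕ} {z : ℝ} (hc : 0 < c) (hA : 1 / c ≤ A)
    (h : Tail c e z) : Dg A z := by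
  obtain ⟨x, k, h0, h1, hx, rfl⟩ := h
  exact Dg_iter (bad_dg hc hA h0 h1 (XE_bad hx)) k

theorem Lang_Bdd {c : ℝ} {e : List ℕ} {A : ℕ} {w : List ℕ} (hc : 0 < c) (hA : 1 / c ≤ A)
    (h : w ∈ Lang c e) : Bdd A w := by
  obtain ⟨z, hz, hw⟩ := h
  rw [← hw]
  exact wd_bdd (Tail_Dg hc hA hz) _

end MLG
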