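import Pool.Agent.H52.MLG.Defs

/-! MLG CfA (first half; CfB has the rest): algebra of the continued fraction matrices
M_w = [[pp w, pn w],[qp w, qn w]], M_{a::w} = [[0,1],[1,a]] * M_w.

PROOFS.  `*_append`: one induction on w for all four (M_{w++v} = M_w M_v); simp with the cons
lemmas, then ring.  `cf_det`: induction.
`entries_le`: prove by induction the stronger statement
  qp w <= qn w, pp w <= qn w, pn w <= qn w, 1 <= qn w and (w = [] or (1 <= pn w, pp w <= pn w, 1 <= qp w)).
`cf_inj`: induction on w, cases on v.  [] against b::v': qp (b::v') = pp v' + b qp v' >= 1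
(for v' = [] it is 1, otherwise qp v' >= 1) but qp [] = 0.  For a::w', b::v' the equalities give
qp w' = qp v', qn w' = qn v', pp w' + a qp w' = pp v' + b qp v', pn w' + a qn w' = pn v' + b qn v'.
If a = b use induction.  If a < b then pn w' = pn v' + (b-a) qn w' >= qn w' >= pn w', so pn v' = 0,
so v' = [] (otherwise pn v' >= 1), so qn w' = 1, qp w' = 0, so w' = [] and pn w' = 0 < 1 = qn w': contradiction.
Symmetric for b < a.
`length_le_log`: qn of a word of length >= 2n is >= 2^n by `qn_two` (and monotonicity). -/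

namespace MLG

private theorem CfA_app (w v : List ℕ) :
    pp (w ++ v) = pp w * pp v + pn w * qp v ∧ pn (w ++ v) = pp w * pn v + pn w * qn v ∧
    qp (w ++ v) = qp w * pp v + qn w * qp v ∧ qn (w ++ v) = qp w * pn v + qn w * qn v := by
  induction w with
  | nil => simp
  | cons a w ih =>
    obtain ⟨h1, h2, h3, h4⟩ := ih
    simp only [List.cons_append, pp_cons, pn_cons, qp_cons, qn_cons]
    refine ⟨h3, h4, ?_, ?_⟩
    · rw [h1, h3]
      ring
    · rw [h2, h4]
      ring

theorem pp_append (w v : List ℕ) : pp (w ++ v) = pp w * pp v + pn w * qp v :=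
  (CfA_app w v).1

theorem pn_append (w v : List ℕ) : pn (w ++ v) = pp w * pn v + pn w * qn v :=
  (CfA_app w v).2.1

theorem qp_append (w v : List ℕ) : qp (w ++ v) = qp w * pp v + qn w * qp v :=
  (CfA_app w v).2.2.1

theorem qn_append (w v : List ℕ) : qn (w ++ v) = qp w * pn v + qn w * qn v :=
  (CfA_app w v).2.2.2

theorem cf_det (w : List ℕ) : (pp w : ℤ) * qn w - pn w * qp w = (-1) ^ w.length := by
  induction w with
  | nil => simp
  | cons a w ih =>
    simp only [pp_cons, pn_cons, qp_cons, qn_cons, List.length_cons, pow_succ]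
    push_cast
    rw [← ih]
    ring

private theorem CfA_str (w : List ℕ) (hw : Pos w) :
    qp w ≤ qn w ∧ pp w ≤ qn w ∧ pn w ≤ qn w ∧ 1 ≤ qn w ∧
      (w = [] ∨ (1 ≤ pn w ∧ pp w ≤ pn w ∧ 1 ≤ qp w)) := by
  induction w with
  | nil => simp
  | cons a w ih =>
    have ha : 1 ≤ a := hw a (List.mem_cons_self)
    obtain ⟨h1, h2, h3, h4, h5⟩ := ih (fun b hb => hw b (List.mem_cons_of_mem a hb))
    simp only [pp_cons, pn_cons, qp_cons, qn_cons]
    rcases h5 with rfl | ⟨h5, h6, h7⟩
    · simp only [pp_nil, pn_nil, qp_nil, qn_nil]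
      refine ⟨by omega, by omega, by omega, by omega, Or.inr ⟨by omega, by omega, by omega⟩⟩
    · have e1 : a * qp w ≤ a * qn w := Nat.mul_le_mul_left a h1
      have e2 : qn w ≤ a * qn w := Nat.le_mul_of_pos_left _ ha
      have e3 : qp w ≤ a * qp w := Nat.le_mul_of_pos_left _ ha
      refine ⟨by omega, by omega, by omega, by omega, Or.inr ⟨by omega, by omega, by omega⟩⟩

theorem entries_le {w : List ℕ} (hw : Pos w) :
    pp w ≤ qn w ∧ pn w ≤ qn w ∧ qp w ≤ qn w ∧ 1 ≤ qn w := by
  obtain ⟨h1, h2, h3, h4, -⟩ := CfA_str w hw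
  exact ⟨h2, h3, h1, h4⟩

theorem qn_append_ge (w v : List ℕ) : qn w * qn v ≤ qn (w ++ v) := by
  rw [qn_append]
  exact Nat.le_add_left _ _

theorem qn_append_le {w v : List ℕ} (hw : Pos w) (hv : Pos v) :
    qn (w ++ v) ≤ 2 * (qn w * qn v) := by
  rw [qn_append]
  have h1 := (entries_le hw).2.2.1
  have h2 := (entries_le hv).2.1
  have h3 := Nat.mul_le_mul h1 h2
  omega

theorem qn_two {w : List ℕ} (hw : Pos w) {a b : ℕ} (ha : 1 ≤ a) (hb : 1 ≤ b) :
    2 * qn w ≤ qn (w ++ [a, b]) := by
  rw [qn_append]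
  simp only [pn_cons, qn_cons, pn_nil, qn_nil]
  have h1 : 1 ≤ a * (0 + b * 1) := by
    have := Nat.mul_le_mul ha hb
    simpa using this
  have h2 : qn w * 2 ≤ qn w * (1 + a * (0 + b * 1)) := Nat.mul_le_mul_left _ (by omega)
  omega

theorem qn_snoc_le {w : List ℕ} (hw : Pos w) (a : ℕ) : qn (w ++ [a]) ≤ (a + 1) * qn w := by
  rw [qn_append]
  simp only [pn_cons, qn_cons, pn_nil, qn_nil]
  have h1 := (entries_le hw).2.2.1
  have h2 : (a + 1) * qn w = qn w * (0 + a * 1) + qn w := by ring
  rw [h2]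
  omega

end MLG
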