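import Pool.Agent.H52.MLG.CfA

/-! MLG CfB (second half; the first half is in CfA): algebra of the continued fraction matrices
M_w = [[pp w, pn w],[qp w, qn w]], M_{a::w} = [[0,1],[1,a]] * M_w.

PROOFS.  `*_append`: one induction on w for all four (M_{w++v} = M_w M_v); simp with the cons
lemmas, then ring.  `cf_det`: induction.
`entries_le`: prove by induction the stronger statement
  qp w <= qn w, pp w <= qn w, pn w <= qn w, 1 <= qn w and (w = [] or (1 <= pn w, pp w <= pn w, 1 <= qp w)).
`cf_inj`: induction on w, cases on v.  [] against b::v': qp (b::v') = pp v' + b qp v' >= 1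
(for v' = [] it is 1, otherwise qp v' >= 1) but qp [] = 0.  For a::w', b::v' the equalities give
qp w' = qp v', qn w' = qn v', pp w' + a qp w' = pp v' + b qp v', pn w' + a qn w' = pn v' + b qn v'.
If a = b use induction.  If a < b then pn w' = pn v' + (b-a) qn w' >= qn w' >= pn w', so pn v' = 0,
so v' = [] (otherwise pn v' >= 1), so qn w' = 1, qp w' = 0, so w' = [] and pn w' = 0 < 1 = qn w': contradiction.
Symmetric for b < a.
`length_le_log`: qn of a word of length >= 2n is >= 2^n by `qn_two` (and monotonicity). -/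

namespace MLG

private theorem cfb_pos_tail {a : ℕ} {w : List ℕ} (h : Pos (a :: w)) : Pos w :=
  fun x hx => h x (List.mem_cons_of_mem _ hx)

private theorem cfb_pos_head {a : ℕ} {w : List ℕ} (h : Pos (a :: w)) : 1 ≤ a :=
  h a List.mem_cons_self

private theorem cfb_two_pow : ∀ (w : List ℕ), Pos w → 2 ^ (w.length / 2) ≤ qn w
  | [], _ => by simp
  | [a], h => by
    have := (entries_le h).2.2.2
    simpa using this
  | a :: b :: w, h => by
    have ih := cfb_two_pow w (cfb_pos_tail (cfb_pos_tail h))
    have ha := cfb_pos_head h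
    have hb := cfb_pos_head (cfb_pos_tail h)
    have hl : (a :: b :: w).length / 2 = w.length / 2 + 1 := by
      simp only [List.length_cons]
      omega
    rw [hl, pow_succ, qn_cons, pn_cons, qn_cons]
    have h1 : qn w ≤ b * qn w := Nat.le_mul_of_pos_left _ hb
    have h2 : pn w + b * qn w ≤ a * (pn w + b * qn w) := Nat.le_mul_of_pos_left _ ha
    omega

theorem length_le_log {w : List ℕ} (hw : Pos w) : w.length ≤ 2 * Nat.log 2 (qn w) + 1 := by
  have h1 := cfb_two_pow w hw
  have h2 : w.length / 2 ≤ Nat.log 2 (qn w) := Nat.le_log_of_pow_le (by norm_num) h1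
  omega

private theorem cfb_pn_pos {a : ℕ} {w : List ℕ} (h : Pos (a :: w)) : 1 ≤ pn (a :: w) := by
  rw [pn_cons]
  exact (entries_le (cfb_pos_tail h)).2.2.2

private theorem cfb_qp_pos : ∀ (a : ℕ) (w : List ℕ), Pos (a :: w) → 1 ≤ qp (a :: w)
  | a, [], _ => by simp
  | a, b :: w, h => by
    have ih := cfb_qp_pos b w (cfb_pos_tail h)
    have ha := cfb_pos_head h
    rw [qp_cons]
    have h2 : qp (b :: w) ≤ a * qp (b :: w) := Nat.le_mul_of_pos_left _ ha
    omega

private theorem cfb_aux {w v : List ℕ} {a b : ℕ} (hw : Pos w) (hv : Pos v) (hab : a < b)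
    (h2 : qn w = qn v) (h3 : pn w + a * qn w = pn v + b * qn v) (h4 : qp w = qp v) : False := by
  obtain ⟨d, rfl⟩ : ∃ d, b = a + 1 + d := ⟨b - (a + 1), by omega⟩
  have h5 : pn w = pn v + (1 + d) * qn w := by
    rw [← h2] at h3
    have h6 : (a + 1 + d) * qn w = a * qn w + (1 + d) * qn w := by ring
    omega
  have h7 : (1 + d) * qn w = qn w + d * qn w := by ring
  have h8 := (entries_le hw).2.1
  have h9 := (entries_le hw).2.2.2
  have h10 : pn v = 0 := by omega
  cases v with
  | cons c v =>
    have := cfb_pn_pos hv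
    omega
  | nil =>
    cases w with
    | nil =>
      rw [pn_nil, qn_nil] at h5
      omega
    | cons c w =>
      have := cfb_qp_pos c w hw
      rw [h4, qp_nil] at this
      omega

theorem cf_inj {w v : List ℕ} (hw : Pos w) (hv : Pos v) (h1 : pp w = pp v) (h2 : pn w = pn v)
    (h3 : qp w = qp v) (h4 : qn w = qn v) : w = v := by
  induction w generalizing v with
  | nil =>
    cases v with
    | nil => rfl
    | cons b v =>
      have := cfb_qp_pos b v hv
      rw [← h3, qp_nil] at this
      omega
  | cons a w ih =>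
    cases v with
    | nil =>
      have := cfb_qp_pos a w hw
      rw [h3, qp_nil] at this
      omega
    | cons b v =>
      rw [pp_cons, pp_cons] at h1
      rw [pn_cons, pn_cons] at h2
      rw [qp_cons, qp_cons] at h3
      rw [qn_cons, qn_cons] at h4
      rcases lt_trichotomy a b with hab | hab | hab
      · exact (cfb_aux (cfb_pos_tail hw) (cfb_pos_tail hv) hab h2 h4 h1).elim
      · subst hab
        rw [h1] at h3
        rw [h2] at h4
        rw [ih (cfb_pos_tail hw) (cfb_pos_tail hv) (by omega) (by omega) h1 h2]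
      · exact (cfb_aux (cfb_pos_tail hv) (cfb_pos_tail hw) hab h2.symm h4.symm h1.symm).elim

theorem fin_bdd_len (A L : ℕ) : {w : List ℕ | Bdd A w ∧ w.length ≤ L}.Finite := by
  induction L with
  | zero =>
    refine (Set.finite_singleton ([] : List ℕ)).subset ?_
    rintro w ⟨-, h⟩
    exact List.length_eq_zero_iff.1 (by omega)
  | succ L ih =>
    have h1 : (Set.image2 List.cons (Set.Iic A) {w : List ℕ | Bdd A w ∧ w.length ≤ L}).Finite :=
      (Set.finite_Iic A).image2 _ ih
    refine (h1.union (Set.finite_singleton ([] : List ℕ))).subset ?_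
    rintro w ⟨h2, h3⟩
    cases w with
    | nil => exact Or.inr rfl
    | cons a w =>
      left
      refine ⟨a, (h2 a List.mem_cons_self).2, w,
        ⟨fun x hx => h2 x (List.mem_cons_of_mem _ hx), ?_⟩, rfl⟩
      rw [List.length_cons] at h3
      omega

theorem fin_bdd (A Y : ℕ) : {w : List ℕ | Bdd A w ∧ qn w ≤ Y}.Finite := by
  refine (fin_bdd_len A (2 * Nat.log 2 Y + 1)).subset ?_
  rintro w ⟨h1, h2⟩
  refine ⟨h1, (length_le_log fun a ha => (h1 a ha).1).trans ?_⟩
  have := Nat.log_mono_right (b := 2) h2
  omega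

end MLG
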