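import Pool.Agent.H52.MLG.Stt

/-! MLG HpB (sec): walks and the Hilbert-Schmidt norm.

PROOF of `hp`.  Let P_r(u) be defined by P_0 = 1, P_{r+1}(u) = Σ_{w in Ww, ok u w} P_r(nx s u w).
card (Walk r u) <= P_r(u) (card_biUnion_le, card_image_le).  With b(u,v) = #{w in Ww : ok u w, nx s u w = v},
P_{r+1}(u) = Σ_{v <= s} b(u,v) P_r(v) (nx <= s), by Cauchy-Schwarz
Σ_u P_{r+1}(u)^2 <= Σ_{u,v} b(u,v)^2 Σ_v P_r(v)^2, and Σ_{u,v} b^2 = Σ_u Σ_{w ok} b(u, nx s u w) <= H^2.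
So Σ_u P_r(u)^2 <= (s+1) H^(2r) and Σ_u P_r(u) <= sqrt((s+1) Σ P_r^2) <= (s+1) H^r.
PROOF of `sec`.  b(u, nx s u w) <= 1 + #{w' ≠ w : Same s u w w'} (`nx_iff`), then Cauchy-Schwarz:
Σ_{(u,w) ok} a(u,w) <= (Σ_{ok} 1)^(1/2) (Σ_{ok} a^2)^(1/2). -/

namespace MLG

private lemma HpB_dbl {A : Finset ℕ} {B : Finset (List ℕ)} (ok : ℕ → List ℕ → Prop)
    [DecidablePred (fun p : ℕ × List ℕ => ok p.1 p.2)] [∀ u, DecidablePred (fun w => ok u w)]
    (F : ℕ → List ℕ → ℝ) :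
    ∑ u ∈ A, ∑ w ∈ B.filter (fun w => ok u w), F u w
      = ∑ p ∈ (A ×ˢ B).filter (fun p : ℕ × List ℕ => ok p.1 p.2), F p.1 p.2 := by
  rw [Finset.sum_filter, Finset.sum_product]
  apply Finset.sum_congr rfl
  intro u _
  rw [Finset.sum_filter]

open Classical in
theorem sec (s : ℕ) (hs : s.Prime) (Ww : Finset (List ℕ)) (ok : ℕ → List ℕ → Prop) :
    ∑ u ∈ Finset.range (s + 1), ∑ w ∈ Ww.filter (fun w => ok u w),
      ((Ww.filter (fun w' => ok u w' ∧ nx s u w' = nx s u w)).card : ℝ)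
    ≤ (((Finset.range (s + 1) ×ˢ Ww).filter (fun p : ℕ × List ℕ => ok p.1 p.2)).card : ℝ)
      + √((((Finset.range (s + 1) ×ˢ Ww).filter (fun p : ℕ × List ℕ => ok p.1 p.2)).card : ℝ)
        * ∑ u ∈ Finset.range (s + 1), ∑ w ∈ Ww,
          ((Ww.filter (fun w' => w' ≠ w ∧ Same s u w w')).card : ℝ) ^ 2) := by
  rw [HpB_dbl ok (fun u w => ((Ww.filter (fun w' => ok u w' ∧ nx s u w' = nx s u w)).card : ℝ))]
  set S := (Finset.range (s + 1) ×ˢ Ww).filter (fun p : ℕ × List ℕ => ok p.1 p.2) with hS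
  set a : ℕ × List ℕ → ℝ :=
    fun p => ((Ww.filter (fun w' => w' ≠ p.2 ∧ Same s p.1 p.2 w')).card : ℝ) with ha
  have h1 : ∀ p ∈ S, ((Ww.filter (fun w' => ok p.1 w' ∧ nx s p.1 w' = nx s p.1 p.2)).card : ℝ)
      ≤ 1 + a p := by
    intro p hp
    have hp1 := (Finset.mem_filter.1 hp).1
    have hu : p.1 ≤ s := by
      have := Finset.mem_range.1 (Finset.mem_product.1 hp1).1
      omega
    have hsub : Ww.filter (fun w' => ok p.1 w' ∧ nx s p.1 w' = nx s p.1 p.2) ⊆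
        insert p.2 (Ww.filter (fun w' => w' ≠ p.2 ∧ Same s p.1 p.2 w')) := by
      intro w' hw'
      obtain ⟨hw1, -, hw2⟩ := Finset.mem_filter.1 hw'
      rw [Finset.mem_insert]
      by_cases he : w' = p.2
      · exact Or.inl he
      · exact Or.inr (Finset.mem_filter.2 ⟨hw1, he, (nx_iff hs hu p.2 w').1 hw2.symm⟩)
    have h2 := (Finset.card_le_card hsub).trans (Finset.card_insert_le _ _)
    have h3 : ((Ww.filter (fun w' => ok p.1 w' ∧ nx s p.1 w' = nx s p.1 p.2)).card : ℝ)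
        ≤ ((Ww.filter (fun w' => w' ≠ p.2 ∧ Same s p.1 p.2 w')).card : ℝ) + 1 := by
      exact_mod_cast h2
    rw [ha]
    linarith
  have h4 : ∑ p ∈ S, (1 + a p) = (S.card : ℝ) + ∑ p ∈ S, a p := by
    rw [Finset.sum_add_distrib, Finset.sum_const, nsmul_eq_mul, mul_one]
  have h5 : (∑ p ∈ S, a p) ^ 2 ≤ (S.card : ℝ) * ∑ p ∈ S, a p ^ 2 := sq_sum_le_card_mul_sum_sq
  have h6 : ∑ p ∈ S, a p ^ 2 ≤ ∑ u ∈ Finset.range (s + 1), ∑ w ∈ Ww,
          ((Ww.filter (fun w' => w' ≠ w ∧ Same s u w w')).card : ℝ) ^ 2 := by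
    rw [← Finset.sum_product (s := Finset.range (s + 1)) (t := Ww) (f := fun p => a p ^ 2)]
    exact Finset.sum_le_sum_of_subset_of_nonneg (Finset.filter_subset _ _)
      (fun _ _ _ => sq_nonneg _)
  have h7 : ∑ p ∈ S, a p ≤ √((S.card : ℝ) * ∑ u ∈ Finset.range (s + 1), ∑ w ∈ Ww,
          ((Ww.filter (fun w' => w' ≠ w ∧ Same s u w w')).card : ℝ) ^ 2) := by
    apply Real.le_sqrt_of_sq_le
    exact h5.trans (mul_le_mul_of_nonneg_left h6 (Nat.cast_nonneg _))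
  calc _ ≤ ∑ p ∈ S, (1 + a p) := Finset.sum_le_sum h1
    _ = (S.card : ℝ) + ∑ p ∈ S, a p := h4
    _ ≤ _ := by linarith

end MLG
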