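import Pool.Agent.H52.MLG.Seg
import Pool.Agent.H52.MLG.Hp

/-! MLG Cnt: counting the new language.

PROOF.  Q = B^(k+1), N = e.prod * s, L0 = 2 * Nat.log 2 N + 4.  Let W be in Lang c (e ++ s :: e),
W = wd (gs^[i] x) n.  Let j0 be the least j with N <= (qn (wd x j))^2; j0 <= L0 (qn (wd x j) >= 2^((j-1)/2),
`length_le_log`).  Claim: W = W' ++ v ++ ρ with Bdd A W', length W' <= L0, v in Walk .. r u for some
u <= s, r, Q^r <= qn v, Bdd A ρ, qn ρ <= (A+1) Q.  If i >= j0: W' = [] and `seg` with j = i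
(qn (wd x i) >= qn (wd x j0)).  If i < j0, n <= j0 - i: W' = W, v = ρ = [] (r = 0, u = 0).
If i < j0, n > j0 - i: W' = wd (gs^[i] x) (j0 - i), the rest is wd (gs^[j0] x) (n - (j0 - i)) (`wd_add`),
apply `seg` with j = j0.
If qn W <= Y then Q^r <= qn v <= qn W <= Y.  So the set {W in Lang | qn W <= Y} is contained in the image
of (finite set of W') x (finite set of ρ) x U_{r : Q^r <= Y} U_{u<=s} Walk r u; its ncard is
<= C_early * C_rem * Σ_{r : Q^r <= Y} (s+1) H^r (`hp`), and with h = Q^(2κ') >= 2, H <= h: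
Σ_{r<=r0} h^r <= 2 h^(r0) = 2 (Q^(r0))^(2κ') <= 2 Y^(2κ'). -/

namespace MLG

private theorem Cnt_Pos {A : ℕ} {w : List ℕ} (h : Bdd A w) : Pos w := fun a ha => (h a ha).1

private theorem Cnt_qn_pos {A : ℕ} {w : List ℕ} (h : Bdd A w) : 1 ≤ qn w :=
  (entries_le (Cnt_Pos h)).2.2.2

private theorem Cnt_mid {A : ℕ} {a b c : List ℕ} (ha : Bdd A a) (hc : Bdd A c) :
    qn b ≤ qn (a ++ b ++ c) := by
  have h1 := qn_append_ge (a ++ b) c
  have h2 := qn_append_ge a b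
  have h3 := Cnt_qn_pos ha
  have h4 := Cnt_qn_pos hc
  calc qn b = 1 * qn b * 1 := by ring
    _ ≤ qn a * qn b * qn c := by gcongr
    _ ≤ qn (a ++ b) * qn c := by gcongr
    _ ≤ _ := h1

private theorem Cnt_large {x : ℝ} (hx : InI x) (N j : ℕ) (hj : 2 * Nat.log 2 N + 3 ≤ j) :
    N ≤ (qn (wd x j)) ^ 2 := by
  have h1 := length_le_log (wd_pos hx j)
  rw [wd_length] at h1
  have h2 : Nat.log 2 N + 1 ≤ Nat.log 2 (qn (wd x j)) := by omega
  have h3 : N < 2 ^ (Nat.log 2 N + 1) := Nat.lt_pow_succ_log_self (by norm_num) N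
  have h4 : qn (wd x j) ≠ 0 := by
    have := (entries_le (wd_pos hx j)).2.2.2
    omega
  have h5 : 2 ^ (Nat.log 2 N + 1) ≤ qn (wd x j) :=
    (Nat.pow_le_pow_right (by norm_num) h2).trans (Nat.pow_log_le_self 2 h4)
  calc N ≤ qn (wd x j) := by omega
    _ ≤ (qn (wd x j)) ^ 2 := Nat.le_self_pow (by norm_num) _

private theorem Cnt_struct {c : ℝ} (hc : 0 < c) {A : ℕ} (hA : 1 / c ≤ A) (e : List ℕ)
    (he : ∀ a ∈ e, 1 ≤ a) {k B s : ℕ} (hB : 2 ≤ B) (hk : 1 ≤ k) (hs : s.Prime)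
    (hsB : s ≤ B ^ (2 * k)) (W : List ℕ) (hW : W ∈ Lang c (e ++ s :: e)) :
    ∃ (W' v ρ : List ℕ) (r u : ℕ), u ≤ s ∧ Bdd A W' ∧
      W'.length ≤ 2 * Nat.log 2 (e.prod * s) + 3 ∧
      v ∈ Walk s (WwB c A e k B) (okB c A e k B s) r u ∧ Bdd A ρ ∧
      qn ρ ≤ (A + 1) * B ^ (k + 1) ∧ (B ^ (k + 1)) ^ r ≤ qn v ∧ W = W' ++ v ++ ρ := by
  obtain ⟨z, ⟨x, i, h0, h1, hx, rfl⟩, hz⟩ := hW
  have hD : Dg A x := bad_dg hc hA h0 h1 (XE_bad hx)
  have hI : InI x := hD.1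
  obtain ⟨n, hn⟩ : ∃ n, n = W.length := ⟨_, rfl⟩
  rw [← hn] at hz
  obtain ⟨j0, hj0⟩ : ∃ j0, j0 = 2 * Nat.log 2 (e.prod * s) + 3 := ⟨_, rfl⟩
  rw [← hj0]
  by_cases hij : j0 ≤ i
  · obtain ⟨r, v, ρ, h2, h3, h4, h5, h6⟩ := seg hc hA e he hB hk hs hsB h0 h1 hx n i
      (Cnt_large hI _ _ (by rw [← hj0]; exact hij))
    refine ⟨[], v, ρ, r, _, stt_le _ _ _, ?_, ?_, h2, h3, h4, h5, ?_⟩
    · intro a ha
      simp at ha
    · simp
    · rw [← hz, h6]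
      simp
  · push Not at hij
    by_cases hnj : n ≤ j0 - i
    · refine ⟨W, [], [], 0, 0, Nat.zero_le _, ?_, ?_, ?_, ?_, ?_, ?_, ?_⟩
      · rw [← hz]
        exact wd_bdd (Dg_iter hD i) n
      · rw [← hn]
        omega
      · simp [Walk]
      · intro a ha
        simp at ha
      · rw [qn_nil]
        have : 0 < (A + 1) * B ^ (k + 1) := by positivity
        omega
      · rw [qn_nil, pow_zero]
      · simp
    · push Not at hnj
      obtain ⟨r, v, ρ, h2, h3, h4, h5, h6⟩ := seg hc hA e he hB hk hs hsB h0 h1 hx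
        (n - (j0 - i)) j0 (Cnt_large hI _ _ (by rw [← hj0]))
      refine ⟨wd (gs^[i] x) (j0 - i), v, ρ, r, _, stt_le _ _ _, ?_, ?_, h2, h3, h4, h5, ?_⟩
      · exact wd_bdd (Dg_iter hD i) _
      · rw [wd_length]
        omega
      · have e1 : n = (j0 - i) + (n - (j0 - i)) := by omega
        have e2 : gs^[j0 - i] (gs^[i] x) = gs^[j0] x := by
          rw [← Function.iterate_add_apply]
          congr 1
          omega
        rw [← hz]
        conv_lhs => rw [e1]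
        rw [wd_add, e2, h6, List.append_assoc]

private theorem Cnt_geom {H h : ℝ} (hH0 : 0 ≤ H) (hHh : H ≤ h) (h2 : 2 ≤ h) (r0 : ℕ) :
    ∑ r ∈ Finset.range (r0 + 1), H ^ r ≤ 2 * h ^ r0 := by
  induction r0 with
  | zero => simp
  | succ n ih =>
    rw [Finset.sum_range_succ]
    have h3 : H ^ (n + 1) ≤ h ^ (n + 1) := pow_le_pow_left₀ hH0 hHh _
    have h4 : 2 * h ^ n ≤ h ^ (n + 1) := by
      rw [pow_succ']
      exact mul_le_mul_of_nonneg_right h2 (pow_nonneg (by linarith) _)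
    linarith

theorem cnt {c : ℝ} (hc : 0 < c) {A : ℕ} (hA : 1 / c ≤ A) (e : List ℕ) (he : ∀ a ∈ e, 1 ≤ a)
    {k B s : ℕ} (hB : 2 ≤ B) (hk : 1 ≤ k) (hs : s.Prime) (hsB : s ≤ B ^ (2 * k)) (H κ' : ℝ)
    (hH0 : 0 ≤ H) (hκ' : 0 < κ') (hsec : secS s (WwB c A e k B) (okB c A e k B s) ≤ H ^ 2)
    (hHQ : H ≤ ((B : ℝ) ^ (k + 1)) ^ (2 * κ')) (h2 : 2 ≤ ((B : ℝ) ^ (k + 1)) ^ (2 * κ')) :
    Exp c (e ++ s :: e) κ' := by
  classical
  obtain ⟨Q, hQ⟩ : ∃ Q, Q = B ^ (k + 1) := ⟨_, rfl⟩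
  have hQ2 : 2 ≤ Q := by
    rw [hQ]
    calc 2 ≤ B := hB
      _ ≤ B ^ (k + 1) := Nat.le_self_pow (by omega) _
  have hF1 := fin_bdd_len A (2 * Nat.log 2 (e.prod * s) + 3)
  have hF3 := fin_bdd A ((A + 1) * B ^ (k + 1))
  obtain ⟨F1, hF1d⟩ : ∃ F : Finset (List ℕ), ∀ w, w ∈ F ↔ Bdd A w ∧
      w.length ≤ 2 * Nat.log 2 (e.prod * s) + 3 := ⟨hF1.toFinset, fun w => by simp⟩
  obtain ⟨F3, hF3d⟩ : ∃ F : Finset (List ℕ), ∀ w, w ∈ F ↔ Bdd A w ∧
      qn w ≤ (A + 1) * B ^ (k + 1) := ⟨hF3.toFinset, fun w => by simp⟩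
  refine ⟨(F1.card : ℝ) * (((s : ℝ) + 1) * 2) * F3.card, fun Y hY => ?_⟩
  obtain ⟨r0, hr0⟩ : ∃ r0, r0 = Nat.log Q ⌊Y⌋₊ := ⟨_, rfl⟩
  have hfl : ⌊Y⌋₊ ≠ 0 := by
    have : 1 ≤ ⌊Y⌋₊ := Nat.le_floor (by simpa using hY)
    omega
  obtain ⟨T, hT⟩ : ∃ T : Finset (List ℕ), T = (Finset.range (r0 + 1)).biUnion fun r =>
      (Finset.range (s + 1)).biUnion fun u => Walk s (WwB c A e k B) (okB c A e k B s) r u :=
    ⟨_, rfl⟩
  have hsub : {w ∈ Lang c (e ++ s :: e) | (qn w : ℝ) ≤ Y} ⊆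
      (((F1 ×ˢ T ×ˢ F3).image fun p => p.1 ++ p.2.1 ++ p.2.2 : Finset (List ℕ)) :
        Set (List ℕ)) := by
    rintro W ⟨hW, hWY⟩
    obtain ⟨W', v, ρ, r, u, hu, h1, h2', h3, h4, h5, h6, rfl⟩ :=
      Cnt_struct hc hA e he hB hk hs hsB W hW
    rw [Finset.mem_coe, Finset.mem_image]
    refine ⟨(W', v, ρ), ?_, rfl⟩
    rw [Finset.mem_product, Finset.mem_product]
    refine ⟨(hF1d _).2 ⟨h1, h2'⟩, ?_, (hF3d _).2 ⟨h4, h5⟩⟩
    rw [hT, Finset.mem_biUnion]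
    refine ⟨r, ?_, ?_⟩
    · rw [Finset.mem_range, Nat.lt_succ_iff, hr0]
      refine (Nat.le_log_iff_pow_le (by omega) hfl).2 ?_
      have h7 : qn v ≤ ⌊Y⌋₊ := by
        refine Nat.le_floor ?_
        have := Cnt_mid (b := v) h1 h4
        exact (Nat.cast_le.2 this).trans hWY
      rw [hQ]
      exact h6.trans h7
    · rw [Finset.mem_biUnion]
      exact ⟨u, Finset.mem_range.2 (by omega), h3⟩
  refine ⟨(Finset.finite_toSet _).subset hsub, ?_⟩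
  have hTcard : (T.card : ℝ) ≤ ((s : ℝ) + 1) * 2 * Y ^ (2 * κ') := by
    have h1 : (T.card : ℝ) ≤ ∑ r ∈ Finset.range (r0 + 1), ((s : ℝ) + 1) * H ^ r := by
      calc (T.card : ℝ) ≤ ((∑ r ∈ Finset.range (r0 + 1), ∑ u ∈ Finset.range (s + 1),
            (Walk s (WwB c A e k B) (okB c A e k B s) r u).card : ℕ) : ℝ) := by
            rw [hT]
            exact_mod_cast Finset.card_biUnion_le.trans
              (Finset.sum_le_sum fun r _ => Finset.card_biUnion_le)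
        _ = ∑ r ∈ Finset.range (r0 + 1), ∑ u ∈ Finset.range (s + 1),
            ((Walk s (WwB c A e k B) (okB c A e k B s) r u).card : ℝ) := by
            push_cast
            rfl
        _ ≤ _ := Finset.sum_le_sum fun r _ => hp s _ _ H hH0 hsec r
    rw [← Finset.mul_sum] at h1
    have h3 := Cnt_geom hH0 hHQ h2 r0
    have h4 : (((B : ℝ) ^ (k + 1)) ^ (2 * κ')) ^ r0 ≤ Y ^ (2 * κ') := by
      have e1 : (((B : ℝ) ^ (k + 1)) ^ (2 * κ')) ^ r0 = (((B : ℝ) ^ (k + 1)) ^ r0) ^ (2 * κ') := by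
        rw [← Real.rpow_natCast, ← Real.rpow_mul (by positivity), mul_comm (2 * κ') (r0 : ℝ),
          Real.rpow_mul (by positivity), Real.rpow_natCast]
      rw [e1]
      refine Real.rpow_le_rpow (by positivity) ?_ (by linarith)
      have h5 : Q ^ r0 ≤ ⌊Y⌋₊ := by
        rw [hr0]
        exact Nat.pow_log_le_self Q hfl
      have h6 : ((Q ^ r0 : ℕ) : ℝ) ≤ Y := (Nat.cast_le.2 h5).trans (Nat.floor_le (by linarith))
      rw [hQ] at h6
      push_cast at h6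
      exact h6
    calc (T.card : ℝ) ≤ ((s : ℝ) + 1) * ∑ r ∈ Finset.range (r0 + 1), H ^ r := h1
      _ ≤ ((s : ℝ) + 1) * (2 * (((B : ℝ) ^ (k + 1)) ^ (2 * κ')) ^ r0) := by gcongr
      _ ≤ ((s : ℝ) + 1) * (2 * Y ^ (2 * κ')) := by gcongr
      _ = _ := by ring
  have hcard : (({w ∈ Lang c (e ++ s :: e) | (qn w : ℝ) ≤ Y}.ncard : ℕ) : ℝ) ≤
      (F1.card : ℝ) * (T.card * F3.card) := by
    have h1 := Set.ncard_le_ncard hsub (Finset.finite_toSet _)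
    rw [Set.ncard_coe_finset] at h1
    have h2' := h1.trans Finset.card_image_le
    rw [Finset.card_product, Finset.card_product] at h2'
    exact_mod_cast h2'
  refine hcard.trans ?_
  calc (F1.card : ℝ) * (T.card * F3.card) ≤
        (F1.card : ℝ) * ((((s : ℝ) + 1) * 2 * Y ^ (2 * κ')) * F3.card) := by gcongr
    _ = _ := by ring

end MLG
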