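import Mathlib

/-! Project MLG (MP_f2d454_nt): mixed Littlewood for generic D.  Definitions. -/

namespace MLG

/-- x is c-badly approximable (all multipliers m >= 1, distance to every integer). -/
def Bad (c x : ℝ) : Prop :=
  ∀ m : ℕ, 1 ≤ m → ∀ n : ℤ, c ≤ (m : ℝ) * |(m : ℝ) * x - n|

/-- the same up to M only. -/
def BadTo (c : ℝ) (M : ℕ) (x : ℝ) : Prop :=
  ∀ m : ℕ, 1 ≤ m → m ≤ M → ∀ n : ℤ, c ≤ (m : ℝ) * |(m : ℝ) * x - n|

/-- `XE c e x`: for the chain of partial products t_i of the list e of ratios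
(t_0 = 1, t_1 = e_1, t_2 = e_1 e_2, ...) all t_i x are c-bad. -/
def XE (c : ℝ) : List ℕ → ℝ → Prop
  | [], x => Bad c x
  | a :: e, x => Bad c x ∧ XE c e ((a : ℝ) * x)

/-- Gauss map. -/
noncomputable def gs (x : ℝ) : ℝ := Int.fract x⁻¹

/-- first continued fraction digit. -/
noncomputable def dg (x : ℝ) : ℕ := ⌊x⁻¹⌋₊

/-- the word of the first n digits of x. -/
noncomputable def wd : ℝ → ℕ → List ℕ
  | _, 0 => []
  | x, n + 1 => dg x :: wd (gs x) n

/-- entries (p', p, q', q) of the product of the matrices [[0,1],[1,a]] over the word. -/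
def cf : List ℕ → ℕ × ℕ × ℕ × ℕ
  | [] => (1, 0, 0, 1)
  | a :: w => ((cf w).2.2.1, (cf w).2.2.2,
      (cf w).1 + a * (cf w).2.2.1, (cf w).2.1 + a * (cf w).2.2.2)

/-- top left entry p'. -/
def pp (w : List ℕ) : ℕ := (cf w).1
/-- top right entry p. -/
def pn (w : List ℕ) : ℕ := (cf w).2.1
/-- bottom left entry q'. -/
def qp (w : List ℕ) : ℕ := (cf w).2.2.1
/-- bottom right entry q. -/
def qn (w : List ℕ) : ℕ := (cf w).2.2.2

@[simp] theorem pp_nil : pp [] = 1 := rfl
@[simp] theorem pn_nil : pn [] = 0 := rfl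
@[simp] theorem qp_nil : qp [] = 0 := rfl
@[simp] theorem qn_nil : qn [] = 1 := rfl
@[simp] theorem pp_cons (a : ℕ) (w : List ℕ) : pp (a :: w) = qp w := rfl
@[simp] theorem pn_cons (a : ℕ) (w : List ℕ) : pn (a :: w) = qn w := rfl
@[simp] theorem qp_cons (a : ℕ) (w : List ℕ) : qp (a :: w) = pp w + a * qp w := rfl
@[simp] theorem qn_cons (a : ℕ) (w : List ℕ) : qn (a :: w) = pn w + a * qn w := rfl

/-- all digits are at least 1. -/
def Pos (w : List ℕ) : Prop := ∀ a ∈ w, 1 ≤ a

/-- all digits are between 1 and A. -/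
def Bdd (A : ℕ) (w : List ℕ) : Prop := ∀ a ∈ w, 1 ≤ a ∧ a ≤ A

/-- irrational point of (0,1). -/
def InI (x : ℝ) : Prop := Irrational x ∧ 0 < x ∧ x < 1

/-- irrational point of (0,1) with all digits at most A. -/
def Dg (A : ℕ) (x : ℝ) : Prop := InI x ∧ ∀ k : ℕ, dg (gs^[k] x) ≤ A

/-- tails of the points of the set X_e(c). -/
def Tail (c : ℝ) (e : List ℕ) (z : ℝ) : Prop :=
  ∃ (x : ℝ) (k : ℕ), 0 < x ∧ x < 1 ∧ XE c e x ∧ z = gs^[k] x

/-- the language: all finite factors of continued fractions of points of X_e(c). -/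
def Lang (c : ℝ) (e : List ℕ) : Set (List ℕ) :=
  {w | ∃ z, Tail c e z ∧ wd z w.length = w}

/-- the language has counting exponent κ. -/
def Exp (c : ℝ) (e : List ℕ) (κ : ℝ) : Prop :=
  ∃ C : ℝ, ∀ Y : ℝ, 1 ≤ Y → {w ∈ Lang c e | (qn w : ℝ) ≤ Y}.Finite ∧
    ({w ∈ Lang c e | (qn w : ℝ) ≤ Y}.ncard : ℝ) ≤ C * Y ^ (2 * κ)

/-! States: the points of the projective line over F_s are numbered 0, ..., s;
`u < s` is the direction (u, 1), `u = s` is the direction (1, 0). -/

/-- first coordinate of state u. -/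
def ux (s u : ℕ) : ℤ := if u = s then 1 else (u : ℤ)
/-- second coordinate of state u. -/
def uy (s u : ℕ) : ℤ := if u = s then 0 else 1

/-- image of the row vector of the state u under the matrix of w. -/
def ax (s u : ℕ) (w : List ℕ) : ℤ := ux s u * pp w + uy s u * qp w
/-- second coordinate of the image. -/
def ay (s u : ℕ) (w : List ℕ) : ℤ := ux s u * pn w + uy s u * qn w

/-- w and w' move the state u to the same state. -/
def Same (s u : ℕ) (w w' : List ℕ) : Prop :=
  (s : ℤ) ∣ ax s u w * ay s u w' - ay s u w * ax s u w'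

open Classical in
/-- the state (number in 0..s) of an integer vector (a, b). -/
noncomputable def stt (s : ℕ) (a b : ℤ) : ℕ :=
  if h : ∃ v : ℕ, v ≤ s ∧ (s : ℤ) ∣ a * uy s v - b * ux s v then Nat.find h else 0

/-- next state. -/
noncomputable def nx (s u : ℕ) (w : List ℕ) : ℕ := stt s (ax s u w) (ay s u w)

/-- coefficients of the binary form D(u) = det(u M_w ; u M_w'). -/
def al (w w' : List ℕ) : ℤ := (pp w : ℤ) * pn w' - pn w * pp w'
/-- middle coefficient. -/
def be (w w' : List ℕ) : ℤ :=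
  (pp w : ℤ) * qn w' + qp w * pn w' - pn w * qp w' - qn w * pp w'
/-- last coefficient. -/
def ga (w w' : List ℕ) : ℤ := (qp w : ℤ) * qn w' - qn w * qp w'

/-- resultant of the two quadratic forms D(w1,w2), D(w1,w3). -/
def res (w1 w2 w3 : List ℕ) : ℤ :=
  (al w1 w2 * ga w1 w3 - al w1 w3 * ga w1 w2) ^ 2
    - (al w1 w2 * be w1 w3 - al w1 w3 * be w1 w2)
      * (be w1 w2 * ga w1 w3 - be w1 w3 * ga w1 w2)

/-- The walk condition (first moment): some integer matrix [[a,b],[g,h]] with entries at most K,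
determinant ± N, rows parallel to the state u mod s, carries the representative point of w close
to the representative point of some word of Wy. -/
def Ok (N K : ℕ) (δ : ℝ) (Wy : Finset (List ℕ)) (zr : List ℕ → ℝ) (s u : ℕ) (w : List ℕ) : Prop :=
  ∃ a b g h : ℤ, |a| ≤ K ∧ |b| ≤ K ∧ |g| ≤ K ∧ |h| ≤ K ∧ |a * h - b * g| = N ∧
    (s : ℤ) ∣ a * uy s u - b * ux s u ∧ (s : ℤ) ∣ g * uy s u - h * ux s u ∧
    ∃ y ∈ Wy, |(a : ℝ) * zr w + b - zr y * ((g : ℝ) * zr w + h)| ≤ δ

open Classical in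
/-- products of r segments along allowed walks starting at state u. -/
noncomputable def Walk (s : ℕ) (Ww : Finset (List ℕ)) (ok : ℕ → List ℕ → Prop) :
    ℕ → ℕ → Finset (List ℕ)
  | 0, _ => {[]}
  | r + 1, u => (Ww.filter (fun w => ok u w)).biUnion
      (fun w => (Walk s Ww ok r (nx s u w)).image (fun v => w ++ v))

end MLG
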