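import Pool.Agent.H52.MLG.CfAlg

/-! MLG DegIrr: irrational common fixed direction, only O(log) words.

PROOF.  Let W' be the filtered set; w1 is in it (al w1 w1 = be = ga = 0).  For w in W' put
X_w = θ pp w + qp w, Y_w = θ pn w + qn w; both are nonzero (θ is not rational: hθ with
(pp w, qp w) ≠ (0,0), (pn w, qn w) ≠ (0,0) by the determinant).  The condition says
X_{w1} Y_w - Y_{w1} X_w = 0 (ring: it is al θ^2 + be θ + ga), so (X_w, Y_w) = μ_w (X_{w1}, Y_{w1}),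
μ_w = Y_w/Y_{w1} ≠ 0.  μ is injective on W': μ_w = μ_v gives θ (pn w - pn v) + (qn w - qn v) = 0 and the same
for pp, qp, so all entries agree and `cf_inj` applies.
For v, w in W': ν = μ_w/μ_v satisfies (X_w,Y_w) = ν (X_v,Y_v), i.e. (θ,1) M_w = ν (θ,1) M_v, so
(θ,1) N = ν (θ,1) for the integer matrix N = M_w adj(M_v) of determinant 1 (even lengths), so
ν^2 - T ν + 1 = 0, T = tr N = pp w qn v - pn w qp v - qp w pn v + qn w pp v integer, |T| <= 2 q1^2.
(α) 1 < |ν| < 2 is impossible: |T| = |ν + 1/ν| < 5/2, T = ±2 gives ν = ±1, |T| <= 1 gives a nonreal root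
with |ν|^2 = product of the two conjugate roots = 1.  By symmetry (1/ν) 1/2 < |ν| < 1 is impossible.
(β) |ν| = 1: |T| <= 2, so T in {-2,..,2} and ν is one of 8 numbers (T = 2: 1; T = -2: -1; T = 1, 0, -1: 2 each).
(γ) |ν| <= |T| + 1 <= 2 q1^2 + 1 <= 4 q1^2 and the same for 1/ν (also a root).
With v = w1: |μ_w| in [1/(4 q1^2), 4 q1^2], so the floor of log2 |μ_w| takes at most
2 (Nat.log 2 (4 q1^2)) + 2 values.  If two words v, w have the same floor then 1/2 < |μ_w/μ_v| < 2, so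
|μ_w/μ_v| = 1 and μ_w is one of 8 numbers μ_v ν.  Total <= 8 (2 log + 3). -/

namespace MLG

private theorem DegIrr_roots : ∃ R : Finset ℂ, R.card ≤ 8 ∧ ∀ (ν : ℂ) (T : ℤ), |T| ≤ 2 →
    ν ^ 2 - T * ν + 1 = 0 → ν ∈ R := by
  classical
  obtain ⟨s, hs⟩ := IsAlgClosed.exists_pow_nat_eq (-3 : ℂ) (n := 2) (by norm_num)
  refine ⟨([1, -1, Complex.I, -Complex.I, (1 + s) / 2, (1 - s) / 2, (-1 + s) / 2, (-1 - s) / 2] :
    List ℂ).toFinset, ?_, ?_⟩
  · exact List.toFinset_card_le _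
  · intro ν T hT h
    rw [List.mem_toFinset]
    obtain ⟨h1, h2⟩ := abs_le.1 hT
    interval_cases T
    · have h3 : (ν + 1) ^ 2 = 0 := by
        rw [← h]; push_cast; ring
      have h4 : ν = -1 := eq_neg_of_add_eq_zero_left (pow_eq_zero_iff (two_ne_zero) |>.1 h3)
      simp [h4]
    · have h3 : (2 * ν + 1 - s) * (2 * ν + 1 + s) = 0 := by
        push_cast at h
        linear_combination 4 * h - hs
      rcases mul_eq_zero.1 h3 with h4 | h4
      · have h5 : ν = (-1 + s) / 2 := by linear_combination h4 / 2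
        simp [h5]
      · have h5 : ν = (-1 - s) / 2 := by linear_combination h4 / 2
        simp [h5]
    · have h3 : (ν - Complex.I) * (ν + Complex.I) = 0 := by
        push_cast at h
        linear_combination h - Complex.I_sq
      rcases mul_eq_zero.1 h3 with h4 | h4
      · have h5 : ν = Complex.I := by linear_combination h4
        simp [h5]
      · have h5 : ν = -Complex.I := by linear_combination h4
        simp [h5]
    · have h3 : (2 * ν - 1 - s) * (2 * ν - 1 + s) = 0 := by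
        push_cast at h
        linear_combination 4 * h - hs
      rcases mul_eq_zero.1 h3 with h4 | h4
      · have h5 : ν = (1 + s) / 2 := by linear_combination h4 / 2
        simp [h5]
      · have h5 : ν = (1 - s) / 2 := by linear_combination h4 / 2
        simp [h5]
    · have h3 : (ν - 1) ^ 2 = 0 := by
        rw [← h]; push_cast; ring
      have h4 : ν = 1 := sub_eq_zero.1 (pow_eq_zero_iff (two_ne_zero) |>.1 h3)
      simp [h4]

private theorem DegIrr_norm {ν : ℂ} {T : ℤ} {M : ℝ} (hM : 0 ≤ M) (hT : |(T : ℝ)| ≤ M)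
    (h : ν ^ 2 - T * ν + 1 = 0) : ‖ν‖ ≤ M + 1 := by
  by_contra hcon
  push Not at hcon
  have h1 : ν ^ 2 = T * ν - 1 := by linear_combination h
  have h2 : ‖ν‖ ^ 2 ≤ |(T : ℝ)| * ‖ν‖ + 1 := by
    rw [← norm_pow, h1]
    refine (norm_sub_le _ _).trans ?_
    rw [norm_mul, Complex.norm_intCast, norm_one]
  have h3 : |(T : ℝ)| * ‖ν‖ ≤ M * ‖ν‖ := mul_le_mul_of_nonneg_right hT (norm_nonneg ν)
  nlinarith [norm_nonneg ν]

private theorem DegIrr_small {ν : ℂ} {T : ℤ} (h1 : 1 / 2 < ‖ν‖) (h2 : ‖ν‖ < 2)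
    (h : ν ^ 2 - T * ν + 1 = 0) : |T| ≤ 2 := by
  have h3 : (T : ℂ) * ν = ν ^ 2 + 1 := by linear_combination -h
  have h4 : |(T : ℝ)| * ‖ν‖ ≤ ‖ν‖ ^ 2 + 1 := by
    have h5 : ‖(T : ℂ) * ν‖ = |(T : ℝ)| * ‖ν‖ := by rw [norm_mul, Complex.norm_intCast]
    rw [← h5, h3]
    refine (norm_add_le _ _).trans ?_
    rw [norm_pow, norm_one]
  have h6 : |(T : ℝ)| * ‖ν‖ < 5 / 2 * ‖ν‖ := by nlinarith
  have h7 : |(T : ℝ)| < 5 / 2 := lt_of_mul_lt_mul_right h6 (norm_nonneg ν)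
  have h8 : |T| < 3 := by
    have h9 : ((|T| : ℤ) : ℝ) < 3 := by
      rw [Int.cast_abs]; linarith
    exact_mod_cast h9
  omega

/-- the two coordinates of the image of the direction -/
private noncomputable def DegIrr_X (θ : ℂ) (w : List ℕ) : ℂ := θ * pp w + qp w

private noncomputable def DegIrr_Y (θ : ℂ) (w : List ℕ) : ℂ := θ * pn w + qn w

private theorem DegIrr_Y_ne {θ : ℂ} (hθ : ∀ a b : ℤ, (a : ℂ) * θ + b = 0 → a = 0 ∧ b = 0)
    {w : List ℕ} (hw : Pos w) : DegIrr_Y θ w ≠ 0 := by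
  intro h
  unfold DegIrr_Y at h
  have h1 := hθ (pn w) (qn w) (by push_cast; linear_combination h)
  have h2 := (entries_le hw).2.2.2
  omega

/-- the trace -/
private def DegIrr_T (w v : List ℕ) : ℤ :=
  (pp w : ℤ) * qn v - pn w * qp v - qp w * pn v + qn w * pp v

private theorem DegIrr_T_le {w v : List ℕ} {q1 : ℕ} (hw : Pos w) (hv : Pos v) (h1 : qn w ≤ q1)
    (h2 : qn v ≤ q1) : |(DegIrr_T w v : ℝ)| ≤ 2 * (q1 : ℝ) ^ 2 := by
  obtain ⟨a1, a2, a3, -⟩ := entries_le hw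
  obtain ⟨b1, b2, b3, -⟩ := entries_le hv
  have e1 : pp w * qn v ≤ q1 * q1 := Nat.mul_le_mul (a1.trans h1) h2
  have e2 : pn w * qp v ≤ q1 * q1 := Nat.mul_le_mul (a2.trans h1) (b3.trans h2)
  have e3 : qp w * pn v ≤ q1 * q1 := Nat.mul_le_mul (a3.trans h1) (b2.trans h2)
  have e4 : qn w * pp v ≤ q1 * q1 := Nat.mul_le_mul h1 (b1.trans h2)
  have h3 : |DegIrr_T w v| ≤ 2 * ((q1 : ℤ) * q1) := by
    unfold DegIrr_T
    rw [abs_le]
    zify at e1 e2 e3 e4
    constructor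
    · have := Int.natCast_nonneg (pp w * qn v)
      have := Int.natCast_nonneg (qn w * pp v)
      push_cast at *
      linarith
    · have := Int.natCast_nonneg (pn w * qp v)
      have := Int.natCast_nonneg (qp w * pn v)
      push_cast at *
      linarith
  have h4 : ((|DegIrr_T w v| : ℤ) : ℝ) ≤ ((2 * ((q1 : ℤ) * q1) : ℤ) : ℝ) := by exact_mod_cast h3
  rw [Int.cast_abs] at h4
  push_cast at h4
  linarith [sq (q1 : ℝ)]

private theorem DegIrr_quad {θ ν : ℂ} {w v : List ℕ} (hw : Even w.length) (hv : Even v.length)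
    (h1 : DegIrr_X θ w = ν * DegIrr_X θ v) (h2 : DegIrr_Y θ w = ν * DegIrr_Y θ v) :
    ν ^ 2 - (DegIrr_T w v : ℤ) * ν + 1 = 0 := by
  have d1 := cf_det w
  have d2 := cf_det v
  rw [hw.neg_one_pow] at d1
  rw [hv.neg_one_pow] at d2
  have c1 : (pp w : ℂ) * qn w - pn w * qp w = 1 := by exact_mod_cast congrArg (Int.cast : ℤ → ℂ) d1
  have c2 : (pp v : ℂ) * qn v - pn v * qp v = 1 := by exact_mod_cast congrArg (Int.cast : ℤ → ℂ) d2
  unfold DegIrr_X at h1
  unfold DegIrr_Y at h2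
  -- `θ (ν - n11) = n21`
  have e1 : θ * (ν - ((pp w : ℂ) * qn v - pn w * qp v)) = (qp w : ℂ) * qn v - qn w * qp v := by
    linear_combination (-(qn v : ℂ)) * h1 + (qp v : ℂ) * h2 - ν * θ * c2
  have e2 : ν - (-(qp w : ℂ) * pn v + qn w * pp v) = θ * (-(pp w : ℂ) * pn v + pn w * pp v) := by
    linear_combination (pn v : ℂ) * h1 - (pp v : ℂ) * h2 - ν * c2
  have e3 : (ν - (-(qp w : ℂ) * pn v + qn w * pp v)) * (ν - ((pp w : ℂ) * qn v - pn w * qp v)) =
      (-(pp w : ℂ) * pn v + pn w * pp v) * ((qp w : ℂ) * qn v - qn w * qp v) := by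
    rw [e2, ← e1]; ring
  unfold DegIrr_T
  push_cast
  linear_combination e3 - ((pp w : ℂ) * qn w - pn w * qp w) * c2 - c1

open Classical in
theorem deg_irr (Ww : Finset (List ℕ)) (q1 : ℕ)
    (h : ∀ w ∈ Ww, Pos w ∧ Even w.length ∧ qn w ≤ q1) {w1 : List ℕ} (h1 : w1 ∈ Ww) (θ : ℂ)
    (hθ : ∀ a b : ℤ, (a : ℂ) * θ + b = 0 → a = 0 ∧ b = 0) :
    (Ww.filter (fun w => (al w1 w : ℂ) * θ ^ 2 + be w1 w * θ + ga w1 w = 0)).card
      ≤ 8 * (2 * Nat.log 2 (4 * q1 ^ 2) + 3) := by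
  obtain ⟨R, hR8, hR⟩ := DegIrr_roots
  obtain ⟨hp1, he1, hq1⟩ := h w1 h1
  have hq0 : 1 ≤ q1 := (entries_le hp1).2.2.2.trans hq1
  set W' := Ww.filter (fun w => (al w1 w : ℂ) * θ ^ 2 + be w1 w * θ + ga w1 w = 0) with hW'
  set L : ℕ := Nat.log 2 (4 * q1 ^ 2) with hL
  have hY1 : DegIrr_Y θ w1 ≠ 0 := DegIrr_Y_ne hθ hp1
  -- the common direction
  have hXY : ∀ w ∈ W', DegIrr_X θ w1 * DegIrr_Y θ w = DegIrr_Y θ w1 * DegIrr_X θ w := by
    intro w hw
    have h2 := (Finset.mem_filter.1 hw).2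
    unfold al be ga at h2
    push_cast at h2
    unfold DegIrr_X DegIrr_Y
    linear_combination h2
  have hprop : ∀ w ∈ W', ∀ v ∈ W', DegIrr_X θ w = DegIrr_Y θ w / DegIrr_Y θ v * DegIrr_X θ v ∧
      DegIrr_Y θ w = DegIrr_Y θ w / DegIrr_Y θ v * DegIrr_Y θ v := by
    intro w hw v hv
    have hYv : DegIrr_Y θ v ≠ 0 := DegIrr_Y_ne hθ (h v (Finset.mem_filter.1 hv).1).1
    have h2 := hXY w hw
    have h3 := hXY v hv
    constructor
    · have h4 : DegIrr_Y θ w1 * DegIrr_Y θ v * (DegIrr_X θ w -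
          DegIrr_Y θ w / DegIrr_Y θ v * DegIrr_X θ v) = 0 := by
        field_simp
        linear_combination (-DegIrr_Y θ v) * h2 + DegIrr_Y θ w * h3
      rcases mul_eq_zero.1 h4 with h5 | h5
      · exact absurd h5 (mul_ne_zero hY1 hYv)
      · exact sub_eq_zero.1 h5
    · rw [div_mul_cancel₀ _ hYv]
  have hprop1 : ∀ w ∈ W', DegIrr_X θ w = DegIrr_Y θ w / DegIrr_Y θ w1 * DegIrr_X θ w1 ∧
      DegIrr_Y θ w = DegIrr_Y θ w / DegIrr_Y θ w1 * DegIrr_Y θ w1 := by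
    intro w hw
    refine ⟨?_, by rw [div_mul_cancel₀ _ hY1]⟩
    have h2 := hXY w hw
    rw [div_mul_eq_mul_div, eq_div_iff hY1]
    linear_combination -h2
  -- the classes
  have hmaps : ∀ w ∈ W', Int.log 2 ‖DegIrr_Y θ w / DegIrr_Y θ w1‖ ∈
      Finset.Icc (-((L : ℤ) + 1)) (L : ℤ) := by
    intro w hw
    obtain ⟨hpw, hew, hqw⟩ := h w (Finset.mem_filter.1 hw).1
    have hYw : DegIrr_Y θ w ≠ 0 := DegIrr_Y_ne hθ hpw
    set ν := DegIrr_Y θ w / DegIrr_Y θ w1 with hν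
    have hν0 : ν ≠ 0 := div_ne_zero hYw hY1
    have hquad := DegIrr_quad hew he1 (hprop1 w hw).1 (hprop1 w hw).2
    have hT := DegIrr_T_le hpw hp1 hqw hq1
    have hq1r : (1 : ℝ) ≤ (q1 : ℝ) := by exact_mod_cast hq0
    have hq1s : (1 : ℝ) ≤ (q1 : ℝ) ^ 2 := one_le_pow₀ hq1r
    have hup : ‖ν‖ ≤ 4 * (q1 : ℝ) ^ 2 := by
      have h2 := DegIrr_norm (by positivity) hT hquad
      linarith
    have hinv : ‖ν⁻¹‖ ≤ 4 * (q1 : ℝ) ^ 2 := by
      have h3 : (ν⁻¹) ^ 2 - (DegIrr_T w w1 : ℤ) * ν⁻¹ + 1 = 0 := by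
        field_simp
        linear_combination hquad
      have h2 := DegIrr_norm (by positivity) hT h3
      linarith
    have hνpos : 0 < ‖ν‖ := norm_pos_iff.2 hν0
    have hLpow : 4 * (q1 : ℝ) ^ 2 < 2 ^ ((L : ℤ) + 1) := by
      have h2 : 4 * q1 ^ 2 < 2 ^ (L + 1) := Nat.lt_pow_succ_log_self (by norm_num) _
      have h3 : ((4 * q1 ^ 2 : ℕ) : ℝ) < ((2 ^ (L + 1) : ℕ) : ℝ) := by exact_mod_cast h2
      push_cast at h3
      have h4 : (2 : ℝ) ^ ((L : ℤ) + 1) = 2 ^ (L + 1) := by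
        rw [← zpow_natCast]; push_cast; rfl
      rw [h4]
      exact h3
    rw [Finset.mem_Icc]
    constructor
    · rw [← Int.zpow_le_iff_le_log (by norm_num : 1 < 2) hνpos]
      push_cast
      rw [zpow_neg]
      rw [norm_inv] at hinv
      rw [inv_le_comm₀ (by positivity) hνpos]
      exact hinv.trans hLpow.le
    · have h2 : Int.log 2 ‖ν‖ < (L : ℤ) + 1 := by
        rw [← Int.lt_zpow_iff_log_lt (by norm_num : 1 < 2) hνpos]
        push_cast
        exact lt_of_le_of_lt hup hLpow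
      omega
  have hfib : ∀ b ∈ Finset.Icc (-((L : ℤ) + 1)) (L : ℤ),
      (W'.filter (fun w => Int.log 2 ‖DegIrr_Y θ w / DegIrr_Y θ w1‖ = b)).card ≤ 8 := by
    intro b _
    rcases (W'.filter (fun w => Int.log 2 ‖DegIrr_Y θ w / DegIrr_Y θ w1‖ = b)).eq_empty_or_nonempty
      with h2 | ⟨v, hv⟩
    · rw [h2]; simp
    · refine le_trans ?_ hR8
      obtain ⟨hvW, hvb⟩ := Finset.mem_filter.1 hv
      obtain ⟨hpv, hev, hqv⟩ := h v (Finset.mem_filter.1 hvW).1
      have hYv : DegIrr_Y θ v ≠ 0 := DegIrr_Y_ne hθ hpv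
      refine Finset.card_le_card_of_injOn (fun w => DegIrr_Y θ w / DegIrr_Y θ v) ?_ ?_
      · intro w hw
        obtain ⟨hwW, hwb⟩ := Finset.mem_filter.1 (Finset.mem_coe.1 hw)
        obtain ⟨hpw, hew, hqw⟩ := h w (Finset.mem_filter.1 hwW).1
        have hYw : DegIrr_Y θ w ≠ 0 := DegIrr_Y_ne hθ hpw
        have hquad := DegIrr_quad hew hev (hprop w hwW v hvW).1 (hprop w hwW v hvW).2
        refine Finset.mem_coe.2 (hR _ (DegIrr_T w v) ?_ hquad)
        have a1 : 0 < ‖DegIrr_Y θ w / DegIrr_Y θ w1‖ := norm_pos_iff.2 (div_ne_zero hYw hY1)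
        have a2 : 0 < ‖DegIrr_Y θ v / DegIrr_Y θ w1‖ := norm_pos_iff.2 (div_ne_zero hYv hY1)
        have a3 := Int.zpow_log_le_self (by norm_num : 1 < 2) a1
        have a4 := Int.lt_zpow_succ_log_self (by norm_num : 1 < 2) ‖DegIrr_Y θ w / DegIrr_Y θ w1‖
        have a5 := Int.zpow_log_le_self (by norm_num : 1 < 2) a2
        have a6 := Int.lt_zpow_succ_log_self (by norm_num : 1 < 2) ‖DegIrr_Y θ v / DegIrr_Y θ w1‖
        rw [hwb] at a3 a4
        rw [hvb] at a5 a6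
        push_cast at a3 a4 a5 a6
        rw [zpow_add_one₀ (by norm_num)] at a4 a6
        have a7 : DegIrr_Y θ w / DegIrr_Y θ v =
            (DegIrr_Y θ w / DegIrr_Y θ w1) / (DegIrr_Y θ v / DegIrr_Y θ w1) := by
          field_simp
        have a8 : ‖DegIrr_Y θ w / DegIrr_Y θ v‖ =
            ‖DegIrr_Y θ w / DegIrr_Y θ w1‖ / ‖DegIrr_Y θ v / DegIrr_Y θ w1‖ := by
          rw [a7, norm_div]
        refine DegIrr_small ?_ ?_ hquad
        · rw [a8, lt_div_iff₀ a2]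
          linarith
        · rw [a8, div_lt_iff₀ a2]
          linarith
      · intro w hw w' hw' heq
        obtain ⟨hwW, -⟩ := Finset.mem_filter.1 (Finset.mem_coe.1 hw)
        obtain ⟨hwW', -⟩ := Finset.mem_filter.1 (Finset.mem_coe.1 hw')
        obtain ⟨hpw, -, -⟩ := h w (Finset.mem_filter.1 hwW).1
        obtain ⟨hpw', -, -⟩ := h w' (Finset.mem_filter.1 hwW').1
        have hYY : DegIrr_Y θ w = DegIrr_Y θ w' := by
          have h3 : DegIrr_Y θ w / DegIrr_Y θ v = DegIrr_Y θ w' / DegIrr_Y θ v := heq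
          rw [div_left_inj' hYv] at h3
          exact h3
        have hXX : DegIrr_X θ w = DegIrr_X θ w' := by
          rw [(hprop1 w hwW).1, (hprop1 w' hwW').1, hYY]
        unfold DegIrr_Y at hYY
        unfold DegIrr_X at hXX
        have b1 := hθ ((pn w : ℤ) - pn w') ((qn w : ℤ) - qn w')
          (by push_cast; linear_combination hYY)
        have b2 := hθ ((pp w : ℤ) - pp w') ((qp w : ℤ) - qp w')
          (by push_cast; linear_combination hXX)
        exact cf_inj hpw hpw' (by omega) (by omega) (by omega) (by omega)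
  have hfin := Finset.card_le_mul_card_image_of_maps_to hmaps 8 hfib
  refine hfin.trans ?_
  rw [Int.card_Icc]
  omega

end MLG
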