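import Pool.Agent.H52.MLG.DgBad

/-! MLG DegRat: rational common fixed direction (a,b), only O(1) words.

PROOF.  Let w be in the filtered set; ζ := (a,b) M_{w1} = (a pp w1 + b qp w1, a pn w1 + b qn w1) and
ζ' := (a,b) M_w are coprime integer vectors (M has determinant 1: even length) and the condition says
det(ζ; ζ') = 0 (ring: al w1 w a^2 + be w1 w a b + ga w1 w b^2), so ζ' = ε ζ with ε = ± 1.
E := M_w - ε M_{w1} satisfies (a,b) E = 0, so E = [[b e1, b e2],[-a e1, -a e2]] with integers e1, e2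
(a, b coprime).  det M_w = 1 = det(ε M_{w1} + E) = 1 + ε (e1 ζ_2 - e2 ζ_1) (det E = 0), so
e1 ζ_2 = e2 ζ_1 and (e1,e2) = k ζ (ζ coprime).  Hence E = k [[b ζ1, b ζ2],[-a ζ1, -a ζ2]] is determined by
(ε, k), so w is determined by (ε,k) (`cf_inj`).  Max entry: |k| max(|a|,|b|) max(|ζ1|,|ζ2|) <= 2 q1
(entries of M_w, M_{w1} are in [0,q1]).
CLAIM max(|a|,|b|) max(|ζ1|,|ζ2|) >= q/(2(A+2)), q = qn w1.  Let z be the point with wd z = w1, Dg A z,
c = 1/(A+2), Bad c z by `dg_bad`, |q z - p| <= 1/q (`err1`), p = pn w1.  If a = 0: |b| = 1, |ζ2| = q.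
If a ≠ 0 and a^2 <= c q^2/2: |ζ2| = |a p + b q| >= q |a z + b| - |a| |q z - p| >= q c/|a| - |a|/q, so
|a| |ζ2| >= q c - a^2/q >= c q/2.  If a^2 > c q^2/2: |a| >= (c/2) q (c/2 < 1) and max |ζi| >= 1.
So |k| <= 4 (A+2) q1/q0 <= 4 (A+2)(A+1)^2 and the number of (ε,k) is <= 2 (2 * 4 (A+2)(A+1)^2 + 1). -/

namespace MLG

private lemma DegRat_det {w : List ℕ} (h : Even w.length) :
    (pp w : ℤ) * qn w - pn w * qp w = 1 := by
  rw [cf_det, h.neg_one_pow]

private lemma DegRat_cop {a b : ℤ} (hab : IsCoprime a b) {w : List ℕ}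
    (h : (pp w : ℤ) * qn w - pn w * qp w = 1) :
    IsCoprime (a * pp w + b * qp w) (a * pn w + b * qn w) := by
  obtain ⟨u, v, huv⟩ := hab
  refine ⟨u * qn w - v * pn w, -u * qp w + v * pp w, ?_⟩
  linear_combination huv + (u * a + v * b) * h

private lemma DegRat_eps {x y x' y' : ℤ} (h : IsCoprime x y) (h' : IsCoprime x' y')
    (he : x * y' = y * x') : ∃ ε : ℤ, (ε = 1 ∨ ε = -1) ∧ x' = ε * x ∧ y' = ε * y := by
  obtain ⟨s, t, hst⟩ := h
  obtain ⟨s', t', hst'⟩ := h'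
  have e1 : x' = (s * x' + t * y') * x := by
    linear_combination -x' * hst - t * he
  have e2 : y' = (s * x' + t * y') * y := by
    linear_combination -y' * hst + s * he
  refine ⟨s * x' + t * y', ?_, e1, e2⟩
  have e3 : (s * x' + t * y') * (s' * x + t' * y) =
      s' * ((s * x' + t * y') * x) + t' * ((s * x' + t * y') * y) := by ring
  rw [← e1, ← e2, hst'] at e3
  exact Int.eq_one_or_neg_one_of_mul_eq_one e3

private lemma DegRat_rep {a b : ℤ} (hab : IsCoprime a b) {w1 w : List ℕ}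
    (h1 : (pp w1 : ℤ) * qn w1 - pn w1 * qp w1 = 1) (h2 : (pp w : ℤ) * qn w - pn w * qp w = 1)
    (hc : al w1 w * a ^ 2 + be w1 w * a * b + ga w1 w * b ^ 2 = 0) :
    ∃ ε k : ℤ, (ε = 1 ∨ ε = -1) ∧
      (pp w : ℤ) = ε * pp w1 + k * b * (a * pp w1 + b * qp w1) ∧
      (pn w : ℤ) = ε * pn w1 + k * b * (a * pn w1 + b * qn w1) ∧
      (qp w : ℤ) = ε * qp w1 - k * a * (a * pp w1 + b * qp w1) ∧
      (qn w : ℤ) = ε * qn w1 - k * a * (a * pn w1 + b * qn w1) := by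
  have c1 := DegRat_cop hab h1
  have c2 := DegRat_cop hab h2
  have he : (a * pp w1 + b * qp w1) * (a * pn w + b * qn w) =
      (a * pn w1 + b * qn w1) * (a * pp w + b * qp w) := by
    unfold al be ga at hc
    linear_combination hc
  obtain ⟨ε, hε, e1, e2⟩ := DegRat_eps c1 c2 he
  obtain ⟨s, t, hst⟩ := hab
  have hεε : ε * ε = 1 := by
    rcases hε with rfl | rfl <;> norm_num
  -- the difference matrix
  have f1 : (pp w : ℤ) - ε * pp w1 = b * (t * ((pp w : ℤ) - ε * pp w1) -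
      s * ((qp w : ℤ) - ε * qp w1)) := by
    linear_combination -((pp w : ℤ) - ε * pp w1) * hst + s * e1
  have f2 : (qp w : ℤ) - ε * qp w1 = -a * (t * ((pp w : ℤ) - ε * pp w1) -
      s * ((qp w : ℤ) - ε * qp w1)) := by
    linear_combination -((qp w : ℤ) - ε * qp w1) * hst + t * e1
  have f3 : (pn w : ℤ) - ε * pn w1 = b * (t * ((pn w : ℤ) - ε * pn w1) -
      s * ((qn w : ℤ) - ε * qn w1)) := by
    linear_combination -((pn w : ℤ) - ε * pn w1) * hst + s * e2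
  have f4 : (qn w : ℤ) - ε * qn w1 = -a * (t * ((pn w : ℤ) - ε * pn w1) -
      s * ((qn w : ℤ) - ε * qn w1)) := by
    linear_combination -((qn w : ℤ) - ε * qn w1) * hst + t * e2
  set E1 : ℤ := t * ((pp w : ℤ) - ε * pp w1) - s * ((qp w : ℤ) - ε * qp w1) with hE1
  set E2 : ℤ := t * ((pn w : ℤ) - ε * pn w1) - s * ((qn w : ℤ) - ε * qn w1) with hE2
  clear_value E1 E2
  have g1 : (pp w : ℤ) = ε * pp w1 + b * E1 := by linear_combination f1
  have g2 : (qp w : ℤ) = ε * qp w1 - a * E1 := by linear_combination f2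
  have g3 : (pn w : ℤ) = ε * pn w1 + b * E2 := by linear_combination f3
  have g4 : (qn w : ℤ) = ε * qn w1 - a * E2 := by linear_combination f4
  have hmix : E1 * (a * pn w1 + b * qn w1) = E2 * (a * pp w1 + b * qp w1) := by
    rw [g1, g2, g3, g4] at h2
    have h3 : ε * (E1 * (a * pn w1 + b * qn w1) - E2 * (a * pp w1 + b * qp w1)) = 0 := by
      linear_combination h2 - ε * ε * h1 - hεε
    have h4 : ε ≠ 0 := by
      rintro rfl
      norm_num at hεε
    rcases mul_eq_zero.1 h3 with h5 | h5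
    · exact absurd h5 h4
    · linear_combination h5
  obtain ⟨s', t', hst'⟩ := c1
  have k1 : E1 = (s' * E1 + t' * E2) * (a * pp w1 + b * qp w1) := by
    linear_combination -E1 * hst' + t' * hmix
  have k2 : E2 = (s' * E1 + t' * E2) * (a * pn w1 + b * qn w1) := by
    linear_combination -E2 * hst' - s' * hmix
  refine ⟨ε, s' * E1 + t' * E2, hε, ?_, ?_, ?_, ?_⟩
  · linear_combination g1 + b * k1
  · linear_combination g3 + b * k2
  · linear_combination g2 - a * k1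
  · linear_combination g4 - a * k2

private lemma DegRat_bad {A : ℕ} {z : ℝ} (hz : Dg A z) {a b : ℤ} (ha : a ≠ 0) :
    1 / ((A : ℝ) + 2) ≤ |(a : ℝ)| * |(a : ℝ) * z + b| := by
  have hb := dg_bad hz
  rcases lt_or_gt_of_ne ha with h | h
  · have h1 := hb a.natAbs (by omega) b
    have h2 : ((a.natAbs : ℕ) : ℝ) = -(a : ℝ) := by
      rw [Nat.cast_natAbs, abs_of_neg h, Int.cast_neg]
    rw [h2] at h1
    have h5 : |(a : ℝ)| = -(a : ℝ) := abs_of_neg (by exact_mod_cast h)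
    have h6 : |-(a : ℝ) * z - b| = |(a : ℝ) * z + b| := by
      rw [← abs_neg]
      congr 1
      ring
    rw [h6] at h1
    rw [h5]
    exact h1
  · have h1 := hb a.natAbs (by omega) (-b)
    have h2 : ((a.natAbs : ℕ) : ℝ) = (a : ℝ) := by
      rw [Nat.cast_natAbs, abs_of_pos h]
    rw [h2] at h1
    have h5 : |(a : ℝ)| = (a : ℝ) := abs_of_pos (by exact_mod_cast h)
    have h6 : |(a : ℝ) * z - ((-b : ℤ) : ℝ)| = |(a : ℝ) * z + b| := by
      congr 1
      push_cast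
      ring
    rw [h6] at h1
    rw [h5]
    exact h1

private lemma DegRat_low {A : ℕ} {w1 : List ℕ} {z : ℝ} (hz : Dg A z)
    (hw : wd z w1.length = w1) (hq : 1 ≤ qn w1) {a b : ℤ} (hab : IsCoprime a b)
    (h1 : (pp w1 : ℤ) * qn w1 - pn w1 * qp w1 = 1) :
    ∃ u v : ℤ, (u = a ∨ u = b) ∧ (v = a * pp w1 + b * qp w1 ∨ v = a * pn w1 + b * qn w1) ∧
      (qn w1 : ℤ) ≤ 2 * (A + 2) * (|u| * |v|) := by
  have hqR : (1 : ℝ) ≤ qn w1 := by exact_mod_cast hq
  have hA : (0 : ℝ) ≤ (A : ℝ) := Nat.cast_nonneg A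
  by_cases ha : a = 0
  · subst ha
    have hb : IsUnit b := isCoprime_zero_left.1 hab
    have hb1 : |b| = 1 := Int.isUnit_iff_abs_eq.1 hb
    refine ⟨b, 0 * pn w1 + b * qn w1, Or.inr rfl, Or.inr rfl, ?_⟩
    have e : |(0 : ℤ) * pn w1 + b * qn w1| = qn w1 := by
      rw [zero_mul, zero_add, abs_mul, hb1, one_mul, Nat.abs_cast]
    rw [e, hb1, one_mul]
    have : (0 : ℤ) ≤ (A : ℤ) := Int.natCast_nonneg A
    have hq' : (1 : ℤ) ≤ qn w1 := by exact_mod_cast hq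
    nlinarith
  · have hbad := DegRat_bad hz (b := b) ha
    have herr := err1 hz.1 w1.length
    have hlt := (iter_InI hz.1 w1.length).2.2
    rw [hw] at herr
    have herr' : (qn w1 : ℝ) * |(qn w1 : ℝ) * z - pn w1| ≤ 1 := by linarith
    have hc0 : (0 : ℝ) < 1 / ((A : ℝ) + 2) := by positivity
    have hc1 : 1 / ((A : ℝ) + 2) ≤ 1 := by
      rw [div_le_one (by positivity)]
      linarith
    have hcA : ((A : ℝ) + 2) * (1 / ((A : ℝ) + 2)) = 1 := by
      field_simp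
    set c : ℝ := 1 / ((A : ℝ) + 2) with hc
    clear_value c
    by_cases hcase : (a : ℝ) ^ 2 ≤ c * (qn w1 : ℝ) ^ 2 / 2
    · refine ⟨a, a * pn w1 + b * qn w1, Or.inl rfl, Or.inr rfl, ?_⟩
      have hkey : c * (qn w1 : ℝ) / 2 ≤ |(a : ℝ)| * |(a : ℝ) * pn w1 + b * qn w1| := by
        have e1 : (qn w1 : ℝ) * ((a : ℝ) * z + b) =
            ((a : ℝ) * pn w1 + b * qn w1) + a * ((qn w1 : ℝ) * z - pn w1) := by ring
        have e2 : (qn w1 : ℝ) * |(a : ℝ) * z + b| ≤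
            |(a : ℝ) * pn w1 + b * qn w1| + |(a : ℝ)| * |(qn w1 : ℝ) * z - pn w1| := by
          calc (qn w1 : ℝ) * |(a : ℝ) * z + b| = |(qn w1 : ℝ) * ((a : ℝ) * z + b)| := by
                rw [abs_mul, Nat.abs_cast]
            _ = |((a : ℝ) * pn w1 + b * qn w1) + a * ((qn w1 : ℝ) * z - pn w1)| := by rw [e1]
            _ ≤ _ := by
                refine (abs_add_le _ _).trans ?_
                rw [abs_mul (a : ℝ)]
        have e3 : |(a : ℝ)| * ((qn w1 : ℝ) * |(a : ℝ) * z + b|) ≤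
            |(a : ℝ)| * (|(a : ℝ) * pn w1 + b * qn w1| +
              |(a : ℝ)| * |(qn w1 : ℝ) * z - pn w1|) :=
          mul_le_mul_of_nonneg_left e2 (abs_nonneg _)
        have e4 : |(a : ℝ)| * (|(a : ℝ)| * |(qn w1 : ℝ) * z - pn w1|) ≤
            c * (qn w1 : ℝ) / 2 := by
          have e5 : |(a : ℝ)| * (|(a : ℝ)| * |(qn w1 : ℝ) * z - pn w1|) =
              (a : ℝ) ^ 2 * |(qn w1 : ℝ) * z - pn w1| := by
            rw [← mul_assoc, abs_mul_abs_self]
            ring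
          rw [e5]
          calc (a : ℝ) ^ 2 * |(qn w1 : ℝ) * z - pn w1|
              ≤ (c * (qn w1 : ℝ) ^ 2 / 2) * |(qn w1 : ℝ) * z - pn w1| :=
                mul_le_mul_of_nonneg_right hcase (abs_nonneg _)
            _ = (c * (qn w1 : ℝ) / 2) * ((qn w1 : ℝ) * |(qn w1 : ℝ) * z - pn w1|) := by ring
            _ ≤ (c * (qn w1 : ℝ) / 2) * 1 :=
                mul_le_mul_of_nonneg_left herr' (by positivity)
            _ = c * (qn w1 : ℝ) / 2 := by ring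
        have e6 : (qn w1 : ℝ) * c ≤ (qn w1 : ℝ) * (|(a : ℝ)| * |(a : ℝ) * z + b|) :=
          mul_le_mul_of_nonneg_left hbad (by positivity)
        nlinarith
      have hfin : (qn w1 : ℝ) ≤ 2 * ((A : ℝ) + 2) *
          (|(a : ℝ)| * |(a : ℝ) * pn w1 + b * qn w1|) := by
        calc (qn w1 : ℝ) = 2 * (((A : ℝ) + 2) * c * (qn w1 : ℝ) / 2) := by rw [hcA]; ring
          _ = 2 * ((A : ℝ) + 2) * (c * (qn w1 : ℝ) / 2) := by ring
          _ ≤ _ := mul_le_mul_of_nonneg_left hkey (by positivity)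
      exact_mod_cast hfin
    · push Not at hcase
      have hbig : c * (qn w1 : ℝ) / 2 ≤ |(a : ℝ)| := by
        by_contra hcon
        push Not at hcon
        have h3 : |(a : ℝ)| ^ 2 < (c * (qn w1 : ℝ) / 2) ^ 2 :=
          pow_lt_pow_left₀ hcon (abs_nonneg _) (by norm_num)
        rw [sq_abs] at h3
        have h4 : (c * (qn w1 : ℝ) / 2) ^ 2 ≤ c * (qn w1 : ℝ) ^ 2 / 2 := by
          have h5 : (c * (qn w1 : ℝ) / 2) ^ 2 = c * (c * (qn w1 : ℝ) ^ 2) / 4 := by ring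
          have h6 : c * (c * (qn w1 : ℝ) ^ 2) ≤ 1 * (c * (qn w1 : ℝ) ^ 2) :=
            mul_le_mul_of_nonneg_right hc1 (by positivity)
          have h7 : 0 ≤ c * (qn w1 : ℝ) ^ 2 := by positivity
          rw [h5]
          linarith
        linarith
      have hcop := DegRat_cop hab h1
      have hne : a * pp w1 + b * qp w1 ≠ 0 ∨ a * pn w1 + b * qn w1 ≠ 0 := hcop.ne_zero_or_ne_zero
      have hfin : ∀ v : ℤ, v ≠ 0 → (qn w1 : ℤ) ≤ 2 * (A + 2) * (|a| * |v|) := by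
        intro v hv
        have hv1 : (1 : ℝ) ≤ |(v : ℝ)| := by
          have := Int.one_le_abs hv
          exact_mod_cast this
        have h8 : (qn w1 : ℝ) ≤ 2 * ((A : ℝ) + 2) * (|(a : ℝ)| * |(v : ℝ)|) := by
          calc (qn w1 : ℝ) = 2 * (((A : ℝ) + 2) * c * (qn w1 : ℝ) / 2) := by rw [hcA]; ring
            _ = 2 * ((A : ℝ) + 2) * (c * (qn w1 : ℝ) / 2 * 1) := by ring
            _ ≤ 2 * ((A : ℝ) + 2) * (|(a : ℝ)| * |(v : ℝ)|) := by
                refine mul_le_mul_of_nonneg_left ?_ (by positivity)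
                exact mul_le_mul hbig hv1 zero_le_one (abs_nonneg _)
        exact_mod_cast h8
      rcases hne with h | h
      · exact ⟨a, _, Or.inl rfl, Or.inl rfl, hfin _ h⟩
      · exact ⟨a, _, Or.inl rfl, Or.inr rfl, hfin _ h⟩

open Classical in
theorem deg_rat (A : ℕ) (Ww : Finset (List ℕ)) (q0 : ℕ) (hq0 : 1 ≤ q0)
    (h : ∀ w ∈ Ww, Pos w ∧ Even w.length ∧ q0 ≤ qn w ∧ qn w ≤ (A + 1) ^ 2 * q0)
    (hz : ∀ w ∈ Ww, ∃ z, Dg A z ∧ wd z w.length = w) {w1 : List ℕ} (h1 : w1 ∈ Ww) (a b : ℤ)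
    (hab : IsCoprime a b) :
    (Ww.filter (fun w => al w1 w * a ^ 2 + be w1 w * a * b + ga w1 w * b ^ 2 = 0)).card
      ≤ 16 * (A + 2) * (A + 1) ^ 2 + 2 := by
  obtain ⟨hp1, hev1, hql1, hqu1⟩ := h w1 h1
  obtain ⟨z, hzd, hzw⟩ := hz w1 h1
  have hd1 := DegRat_det hev1
  obtain ⟨u, v, hu, hv, huv⟩ := DegRat_low hzd hzw (hq0.trans hql1) hab hd1
  set K : ℕ := 4 * (A + 2) * (A + 1) ^ 2 with hK
  set T : Finset (ℤ × ℤ) := ({1, -1} : Finset ℤ) ×ˢ Finset.Icc (-(K : ℤ)) K with hT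
  have hTc : T.card = 16 * (A + 2) * (A + 1) ^ 2 + 2 := by
    rw [hT, Finset.card_product, Int.card_Icc]
    have e1 : ({1, -1} : Finset ℤ).card = 2 := by decide
    have e2 : ((K : ℤ) + 1 - -(K : ℤ)).toNat = 2 * K + 1 := by omega
    rw [e1, e2, hK]
    ring
  rw [← hTc]
  refine Finset.card_le_card_of_forall_subsingleton (fun (w : List ℕ) (x : ℤ × ℤ) =>
      (pp w : ℤ) = x.1 * pp w1 + x.2 * b * (a * pp w1 + b * qp w1) ∧
      (pn w : ℤ) = x.1 * pn w1 + x.2 * b * (a * pn w1 + b * qn w1) ∧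
      (qp w : ℤ) = x.1 * qp w1 - x.2 * a * (a * pp w1 + b * qp w1) ∧
      (qn w : ℤ) = x.1 * qn w1 - x.2 * a * (a * pn w1 + b * qn w1)) ?_ ?_
  · intro w hw
    rw [Finset.mem_filter] at hw
    obtain ⟨hw, hcond⟩ := hw
    obtain ⟨hp, hev, hql, hqu⟩ := h w hw
    obtain ⟨ε, k, hε, r1, r2, r3, r4⟩ := DegRat_rep hab hd1 (DegRat_det hev) hcond
    refine ⟨(ε, k), ?_, r1, r2, r3, r4⟩
    obtain ⟨b1, b2, b3, -⟩ := entries_le hp1
    obtain ⟨c1, c2, c3, -⟩ := entries_le hp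
    set Q : ℤ := ((A : ℤ) + 1) ^ 2 * q0 with hQ
    have hqu' : (qn w : ℤ) ≤ Q := by rw [hQ]; exact_mod_cast hqu
    have hqu1' : (qn w1 : ℤ) ≤ Q := by rw [hQ]; exact_mod_cast hqu1
    have habs : |k| * (|u| * |v|) ≤ 2 * Q := by
      rw [← abs_mul, ← abs_mul]
      have d1 : (0 : ℤ) ≤ pp w1 ∧ (pp w1 : ℤ) ≤ Q := ⟨by positivity, by omega⟩
      have d2 : (0 : ℤ) ≤ pn w1 ∧ (pn w1 : ℤ) ≤ Q := ⟨by positivity, by omega⟩
      have d3 : (0 : ℤ) ≤ qp w1 ∧ (qp w1 : ℤ) ≤ Q := ⟨by positivity, by omega⟩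
      have d4 : (0 : ℤ) ≤ qn w1 ∧ (qn w1 : ℤ) ≤ Q := ⟨by positivity, by omega⟩
      have d5 : (0 : ℤ) ≤ pp w ∧ (pp w : ℤ) ≤ Q := ⟨by positivity, by omega⟩
      have d6 : (0 : ℤ) ≤ pn w ∧ (pn w : ℤ) ≤ Q := ⟨by positivity, by omega⟩
      have d7 : (0 : ℤ) ≤ qp w ∧ (qp w : ℤ) ≤ Q := ⟨by positivity, by omega⟩
      have d8 : (0 : ℤ) ≤ qn w ∧ (qn w : ℤ) ≤ Q := ⟨by positivity, by omega⟩
      have gen : ∀ x y t : ℤ, 0 ≤ x → x ≤ Q → 0 ≤ y → y ≤ Q →
          (t = x - ε * y ∨ t = ε * y - x) → |t| ≤ 2 * Q := by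
        intro x y t hx hx' hy hy' ht
        rw [abs_le]
        rcases hε with rfl | rfl <;> rcases ht with rfl | rfl <;> constructor <;> linarith
      rcases hu with rfl | rfl <;> rcases hv with rfl | rfl
      · exact gen _ _ _ d7.1 d7.2 d3.1 d3.2 (Or.inr (by linear_combination r3))
      · exact gen _ _ _ d8.1 d8.2 d4.1 d4.2 (Or.inr (by linear_combination r4))
      · exact gen _ _ _ d5.1 d5.2 d1.1 d1.2 (Or.inl (by linear_combination -r1))
      · exact gen _ _ _ d6.1 d6.2 d2.1 d2.2 (Or.inl (by linear_combination -r2))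
    have hkK : |k| ≤ K := by
      have hq0' : (0 : ℤ) < q0 := by exact_mod_cast hq0
      have m1 : |k| * (q0 : ℤ) ≤ |k| * (2 * (A + 2) * (|u| * |v|)) := by
        refine mul_le_mul_of_nonneg_left ?_ (abs_nonneg _)
        have : (q0 : ℤ) ≤ qn w1 := by exact_mod_cast hql1
        exact this.trans huv
      have m2 : |k| * (2 * (A + 2) * (|u| * |v|)) = 2 * (A + 2) * (|k| * (|u| * |v|)) := by ring
      have m3 : 2 * ((A : ℤ) + 2) * (|k| * (|u| * |v|)) ≤ 2 * (A + 2) * (2 * Q) :=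
        mul_le_mul_of_nonneg_left habs (by positivity)
      have m4 : 2 * ((A : ℤ) + 2) * (2 * Q) = (K : ℤ) * q0 := by
        rw [hQ, hK]
        push_cast
        ring
      have m5 : |k| * (q0 : ℤ) ≤ (K : ℤ) * q0 := by
        rw [m2] at m1
        exact m1.trans (m3.trans m4.le)
      exact le_of_mul_le_mul_right m5 hq0'
    rw [hT, Finset.mem_product, Finset.mem_Icc]
    refine ⟨?_, ?_⟩
    · rcases hε with rfl | rfl <;> simp
    · exact abs_le.1 hkK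
  · rintro ⟨ε, k⟩ - w ⟨hw, r1, r2, r3, r4⟩ w' ⟨hw', r1', r2', r3', r4'⟩
    rw [Finset.mem_filter] at hw hw'
    refine cf_inj (h w hw.1).1 (h w' hw'.1).1 ?_ ?_ ?_ ?_
    · exact_mod_cast r1.trans r1'.symm
    · exact_mod_cast r2.trans r2'.symm
    · exact_mod_cast r3.trans r3'.symm
    · exact_mod_cast r4.trans r4'.symm

end MLG
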