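import Pool.Agent.H52.MLG.Res
import Pool.Agent.H52.MLG.DegIrr
import Pool.Agent.H52.MLG.DegRat

/-! MLG Deg: degenerate triples.

PROOF.  D(w1,w2) ≠ 0 by `form_ne0`.  By `res_root` every w in the filtered set has a common root
(ξ,η) (normalized: η = 1 or (1,0)) with D(w1,w2).  D(w1,w2) has at most two normalized roots in
the complex numbers.  For a fixed root: (1,0): `deg_rat` with (a,b) = (1,0).  ξ = θ, η = 1: if θ is not
rational (in the sense of hθ of `deg_irr`) use `deg_irr` with q1 = (A+1)^2 q0; otherwise a θ + b = 0 with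
(a,b) ≠ (0,0), so a ≠ 0, θ = -b/a; write (-b, a)/gcd = (a', b') coprime, b' ≠ 0, θ = a'/b', multiply the
equation by b'^2 and cast to the integers: `deg_rat` with (a',b'). -/

namespace MLG

/-- the bound for the number of degenerate third words. -/
def dB (A q1 : ℕ) : ℕ :=
  2 * (8 * (2 * Nat.log 2 (4 * q1 ^ 2) + 3) + (16 * (A + 2) * (A + 1) ^ 2 + 2))

private theorem Deg_two_roots (α β γ : ℂ) (hne : ¬ (α = 0 ∧ β = 0 ∧ γ = 0)) :
    ∃ r1 r2 : ℂ × ℂ, (r1.2 = 1 ∨ (r1.2 = 0 ∧ r1.1 = 1)) ∧ (r2.2 = 1 ∨ (r2.2 = 0 ∧ r2.1 = 1)) ∧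
      ∀ ξ η : ℂ, (η = 1 ∨ (η = 0 ∧ ξ = 1)) → α * ξ ^ 2 + β * ξ * η + γ * η ^ 2 = 0 →
        (ξ, η) = r1 ∨ (ξ, η) = r2 := by
  by_cases hα : α = 0
  · subst hα
    refine ⟨(1, 0), (-γ / β, 1), Or.inr ⟨rfl, rfl⟩, Or.inl rfl, ?_⟩
    intro ξ η hn h
    rcases hn with rfl | ⟨rfl, rfl⟩
    · right
      have hβ : β ≠ 0 := by
        rintro rfl
        apply hne
        refine ⟨rfl, rfl, ?_⟩
        simpa using h
      have : ξ = -γ / β := by
        field_simp
        linear_combination h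
      rw [this]
    · left; rfl
  · obtain ⟨δ, hδ⟩ := IsAlgClosed.exists_pow_nat_eq (β ^ 2 - 4 * α * γ) two_pos
    refine ⟨((-β + δ) / (2 * α), 1), ((-β - δ) / (2 * α), 1), Or.inl rfl, Or.inl rfl, ?_⟩
    intro ξ η hn h
    rcases hn with rfl | ⟨rfl, rfl⟩
    · have h2 : (2 * α * ξ + β - δ) * (2 * α * ξ + β + δ) = 0 := by
        linear_combination 4 * α * h - hδ
      rcases mul_eq_zero.1 h2 with h3 | h3
      · left
        have : ξ = (-β + δ) / (2 * α) := by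
          field_simp
          linear_combination h3
        rw [this]
      · right
        have : ξ = (-β - δ) / (2 * α) := by
          field_simp
          linear_combination h3
        rw [this]
    · exfalso
      apply hα
      linear_combination h

open Classical in
private theorem Deg_one_root (A : ℕ) (Ww : Finset (List ℕ)) (q0 : ℕ) (hq0 : 1 ≤ q0)
    (h : ∀ w ∈ Ww, Pos w ∧ Even w.length ∧ q0 ≤ qn w ∧ qn w ≤ (A + 1) ^ 2 * q0)
    (hz : ∀ w ∈ Ww, ∃ z, Dg A z ∧ wd z w.length = w) {w1 : List ℕ} (h1 : w1 ∈ Ww)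
    (r : ℂ × ℂ) (hr : r.2 = 1 ∨ (r.2 = 0 ∧ r.1 = 1)) :
    (Ww.filter (fun w => (al w1 w : ℂ) * r.1 ^ 2 + be w1 w * r.1 * r.2
        + ga w1 w * r.2 ^ 2 = 0)).card
      ≤ 8 * (2 * Nat.log 2 (4 * ((A + 1) ^ 2 * q0) ^ 2) + 3) + (16 * (A + 2) * (A + 1) ^ 2 + 2) := by
  obtain ⟨ξ, η⟩ := r
  simp only at hr ⊢
  rcases hr with rfl | ⟨rfl, rfl⟩
  · by_cases hθ : ∀ a b : ℤ, (a : ℂ) * ξ + b = 0 → a = 0 ∧ b = 0
    · refine le_trans ?_ (Nat.le_add_right _ _)
      refine le_trans (Finset.card_le_card ?_)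
        (deg_irr Ww ((A + 1) ^ 2 * q0) (fun w hw => ⟨(h w hw).1, (h w hw).2.1, (h w hw).2.2.2⟩)
          h1 ξ hθ)
      intro w hw
      rw [Finset.mem_filter] at hw ⊢
      refine ⟨hw.1, ?_⟩
      linear_combination hw.2
    · push Not at hθ
      obtain ⟨a, b, hab, hab2⟩ := hθ
      have ha : a ≠ 0 := by
        rintro rfl
        apply hab2 rfl
        have : (b : ℂ) = 0 := by simpa using hab
        exact_mod_cast this
      have hg : Int.gcd a b ≠ 0 := by
        intro h0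
        exact ha (Int.gcd_eq_zero_iff.1 h0).1
      obtain ⟨a', b', hcop, ha', hb'⟩ := Int.exists_gcd_one (Nat.pos_of_ne_zero hg)
      have hgC : ((Int.gcd a b : ℕ) : ℂ) ≠ 0 := by exact_mod_cast hg
      have key : (a' : ℂ) * ξ + b' = 0 := by
        have e1 : (a : ℂ) = a' * (Int.gcd a b : ℕ) := by exact_mod_cast congrArg (Int.cast : ℤ → ℂ) ha'
        have e2 : (b : ℂ) = b' * (Int.gcd a b : ℕ) := by exact_mod_cast congrArg (Int.cast : ℤ → ℂ) hb'
        rw [e1, e2] at hab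
        have : ((Int.gcd a b : ℕ) : ℂ) * ((a' : ℂ) * ξ + b') = 0 := by linear_combination hab
        exact (mul_eq_zero.1 this).resolve_left hgC
      have hc : IsCoprime (-b') a' := by
        have : IsCoprime a' b' := Int.isCoprime_iff_gcd_eq_one.2 hcop
        exact this.symm.neg_left
      refine le_trans ?_ (Nat.le_add_left _ _)
      refine le_trans (Finset.card_le_card ?_) (deg_rat A Ww q0 hq0 h hz h1 (-b') a' hc)
      intro w hw
      rw [Finset.mem_filter] at hw ⊢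
      refine ⟨hw.1, ?_⟩
      have hw2 := hw.2
      have h3 : (al w1 w : ℂ) * (-b') ^ 2 + be w1 w * (-b') * a' + ga w1 w * a' ^ 2 = 0 := by
        have e : (-b' : ℂ) = a' * ξ := by linear_combination -key
        rw [e]
        linear_combination (a' : ℂ) ^ 2 * hw2
      exact_mod_cast h3
  · refine le_trans ?_ (Nat.le_add_left _ _)
    refine le_trans (Finset.card_le_card ?_)
      (deg_rat A Ww q0 hq0 h hz h1 1 0 isCoprime_one_left)
    intro w hw
    rw [Finset.mem_filter] at hw ⊢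
    refine ⟨hw.1, ?_⟩
    have hw2 := hw.2
    have h3 : (al w1 w : ℂ) = 0 := by linear_combination hw2
    have h4 : al w1 w = 0 := by exact_mod_cast h3
    rw [h4]
    ring

open Classical in
theorem deg (A : ℕ) (Ww : Finset (List ℕ)) (q0 : ℕ) (hq0 : 1 ≤ q0)
    (h : ∀ w ∈ Ww, Pos w ∧ Even w.length ∧ q0 ≤ qn w ∧ qn w ≤ (A + 1) ^ 2 * q0)
    (hz : ∀ w ∈ Ww, ∃ z, Dg A z ∧ wd z w.length = w) {w1 w2 : List ℕ} (h1 : w1 ∈ Ww)
    (h2 : w2 ∈ Ww) (hne : w1 ≠ w2) :
    (Ww.filter (fun w => res w1 w2 w = 0)).card ≤ dB A ((A + 1) ^ 2 * q0) := by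
  have hform := form_ne0 (h w1 h1).1 (h w2 h2).1 (h w1 h1).2.1 (h w2 h2).2.1 hne
  have hformC : ¬ ((al w1 w2 : ℂ) = 0 ∧ (be w1 w2 : ℂ) = 0 ∧ (ga w1 w2 : ℂ) = 0) := by
    intro hh
    exact hform ⟨by exact_mod_cast hh.1, by exact_mod_cast hh.2.1, by exact_mod_cast hh.2.2⟩
  obtain ⟨r1, r2, hr1, hr2, hr⟩ := Deg_two_roots _ _ _ hformC
  have hsub : Ww.filter (fun w => res w1 w2 w = 0) ⊆
      (Ww.filter (fun w => (al w1 w : ℂ) * r1.1 ^ 2 + be w1 w * r1.1 * r1.2
        + ga w1 w * r1.2 ^ 2 = 0)) ∪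
      (Ww.filter (fun w => (al w1 w : ℂ) * r2.1 ^ 2 + be w1 w * r2.1 * r2.2
        + ga w1 w * r2.2 ^ 2 = 0)) := by
    intro w hw
    rw [Finset.mem_filter] at hw
    obtain ⟨ξ, η, hn, e1, e2⟩ := res_root hw.2 hform
    rw [Finset.mem_union, Finset.mem_filter, Finset.mem_filter]
    rcases hr ξ η hn e1 with hh | hh
    · left
      refine ⟨hw.1, ?_⟩
      rw [← hh]
      exact e2
    · right
      refine ⟨hw.1, ?_⟩
      rw [← hh]
      exact e2
  refine le_trans (Finset.card_le_card hsub) (le_trans (Finset.card_union_le _ _) ?_)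
  have b1 := Deg_one_root A Ww q0 hq0 h hz h1 r1 hr1
  have b2 := Deg_one_root A Ww q0 hq0 h hz h1 r2 hr2
  unfold dB
  omega

end MLG
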