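import Pool.Agent.H52.MLG.Gauss

/-! MLG DgBad: digits at most A imply 1/(A+2)-bad.

PROOF.  Let m >= 1, n an integer.  By `exists_last`-type argument choose k with
q_k <= m < q_{k+1}, where q_k = qn (wd x k), p_k = pn (wd x k) (q_0 = 1; q_k is unbounded).
Note pp (wd x (k+1)) = p_k, qp (wd x (k+1)) = q_k, so by `cf_det` p_k q_{k+1} - p_{k+1} q_k = ±1 and
(m, n) = α (q_k, p_k) + β (q_{k+1}, p_{k+1}) with integers α, β.
e_k = q_k x - p_k and e_{k+1} = q_{k+1} x - p_{k+1} have opposite signs (`err_sign`, `err_sign'` at k+1).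
m x - n = α e_k + β e_{k+1}.  Since 0 < m < q_{k+1}: α ≠ 0, and if β ≠ 0 then α, β have opposite signs
(β >= 1 forces α q_k = m - β q_{k+1} < 0; β <= -1 forces α > 0), so α e_k and β e_{k+1} have the same
sign and |m x - n| >= |α| |e_k| >= |e_k|.  By `err_sign'` at k+1,
|e_k| = 1/(q_k z + q_{k+1}) with 0 < z < 1, and q_{k+1} <= (A+1) q_k (`qn_snoc_le`, digit <= A), so
|e_k| >= 1/((A+2) q_k) >= 1/((A+2) m). -/

namespace MLG

private lemma DgBad_snoc (w : List ℕ) (a : ℕ) :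
    pp (w ++ [a]) = pn w ∧ qp (w ++ [a]) = qn w := by
  rw [pp_append, qp_append]
  simp

private lemma DgBad_last {x : ℝ} (h : InI x) {m : ℕ} (hm : 1 ≤ m) :
    ∃ k, qn (wd x k) ≤ m ∧ m < qn (wd x (k + 1)) := by
  have hex : ∃ k, m < qn (wd x k) := by
    refine ⟨2 * m + 2, ?_⟩
    by_contra hc
    push Not at hc
    have h1 := length_le_log (wd_pos h (2 * m + 2))
    rw [wd_length] at h1
    have h2 : Nat.log 2 (qn (wd x (2 * m + 2))) ≤ qn (wd x (2 * m + 2)) := Nat.log_le_self _ _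
    omega
  classical
  have h1 : m < qn (wd x (Nat.find hex)) := Nat.find_spec hex
  have h2 : Nat.find hex ≠ 0 := by
    intro h0
    rw [h0] at h1
    have h3 : qn (wd x 0) = 1 := rfl
    omega
  obtain ⟨k, hk⟩ := Nat.exists_eq_succ_of_ne_zero h2
  refine ⟨k, ?_, ?_⟩
  · have h3 : ¬ m < qn (wd x k) := Nat.find_min hex (by omega)
    omega
  · rw [hk] at h1
    exact h1

private lemma DgBad_int {qa qb m α β : ℤ} {z : ℝ} (hz0 : 0 ≤ z) (hqa : 0 < qa) (hqb : 0 < qb)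
    (hm0 : 0 < m) (hm : m < qb) (e : m = α * qa + β * qb) : 1 ≤ |(α : ℝ) - β * z| := by
  rcases lt_trichotomy β 0 with hb | hb | hb
  · have h1 : 0 < α * qa := by nlinarith
    have h2 : 1 ≤ α := by
      by_contra h3
      push Not at h3
      nlinarith
    have h3 : (1 : ℝ) ≤ α := by exact_mod_cast h2
    have h4 : (β : ℝ) ≤ 0 := by exact_mod_cast hb.le
    have h5 : (β : ℝ) * z ≤ 0 := mul_nonpos_of_nonpos_of_nonneg h4 hz0
    exact le_trans (by linarith) (le_abs_self _)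
  · subst hb
    have h1 : α ≠ 0 := by
      rintro rfl
      omega
    have h2 : 1 ≤ |α| := Int.one_le_abs h1
    have h3 : (1 : ℝ) ≤ |(α : ℝ)| := by exact_mod_cast h2
    simpa using h3
  · have h1 : α * qa < 0 := by nlinarith
    have h2 : α ≤ -1 := by
      by_contra h3
      push Not at h3
      nlinarith
    have h3 : (α : ℝ) ≤ -1 := by exact_mod_cast h2
    have h4 : (0 : ℝ) ≤ β := by exact_mod_cast hb.le
    have h5 : 0 ≤ (β : ℝ) * z := mul_nonneg h4 hz0
    exact le_trans (by linarith) (neg_le_abs _)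

theorem dg_bad {A : ℕ} {x : ℝ} (h : Dg A x) : Bad (1 / ((A : ℝ) + 2)) x := by
  intro m hm n
  obtain ⟨k, hk1, hk2⟩ := DgBad_last h.1 hm
  set a : ℕ := dg (gs^[k] x) with ha
  have hw : wd x (k + 1) = wd x k ++ [a] := wd_add x k 1
  obtain ⟨e1, e2⟩ := DgBad_snoc (wd x k) a
  rw [← hw] at e1 e2
  have hdet := cf_det (wd x (k + 1))
  rw [wd_length, e1, e2] at hdet
  have s1 := err_sign h.1 (k + 1)
  have s2 := err_sign' h.1 (k + 1)
  rw [e2] at s1
  rw [e1, e2] at s2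
  have hz := iter_InI h.1 (k + 1)
  have hqle : qn (wd x (k + 1)) ≤ (A + 1) * qn (wd x k) := by
    rw [hw]
    refine (qn_snoc_le (wd_pos h.1 k) a).trans ?_
    exact Nat.mul_le_mul_right _ (by have := h.2 k; omega)
  have hq1 : 1 ≤ qn (wd x k) := (entries_le (wd_pos h.1 k)).2.2.2
  have hq2 : 1 ≤ qn (wd x (k + 1)) := (entries_le (wd_pos h.1 (k + 1))).2.2.2
  generalize gs^[k + 1] x = z at s1 s2 hz
  generalize qn (wd x k) = qa at *
  generalize qn (wd x (k + 1)) = qb at *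
  generalize pn (wd x k) = pa at *
  generalize pn (wd x (k + 1)) = pb at *
  obtain ⟨-, hz0, hz1⟩ := hz
  -- the sign
  set ε : ℤ := (-1) ^ (k + 1) with hε
  have hε2 : ε * ε = 1 := by
    rw [hε, ← mul_pow]
    norm_num
  have hεr : ((-1 : ℝ)) ^ (k + 1) = (ε : ℝ) := by
    rw [hε]
    push_cast
    rfl
  rw [hεr] at s1 s2
  have hε2r : (ε : ℝ) * ε = 1 := by exact_mod_cast hε2
  set α : ℤ := ε * (n * qb - m * pb) with hα
  set β : ℤ := ε * (m * pa - n * qa) with hβ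
  have m1 : (m : ℤ) = α * qa + β * qb := by
    rw [hα, hβ]
    linear_combination (-(m : ℤ) * ε) * hdet - (m : ℤ) * hε2
  have m2 : n = α * pa + β * pb := by
    rw [hα, hβ]
    linear_combination (-n * ε) * hdet - n * hε2
  have habs := DgBad_int (z := z) hz0.le (by exact_mod_cast hq1 : (0 : ℤ) < qa)
    (by exact_mod_cast hq2 : (0 : ℤ) < qb) (by exact_mod_cast hm : (0 : ℤ) < m)
    (by exact_mod_cast hk2) m1
  have hqa : (1 : ℝ) ≤ qa := by exact_mod_cast hq1
  have hqb : (1 : ℝ) ≤ qb := by exact_mod_cast hq2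
  set Δ : ℝ := (qa : ℝ) * z + qb with hΔ
  have hΔ0 : 0 < Δ := by
    have : 0 < (qa : ℝ) * z := mul_pos (by linarith) hz0
    linarith
  have m1r : (m : ℝ) = α * qa + β * qb := by exact_mod_cast m1
  have m2r : (n : ℝ) = α * pa + β * pb := by exact_mod_cast m2
  have key : ((m : ℝ) * x - n) * Δ = ε * (-((α : ℝ) - β * z)) := by
    rw [m1r, m2r]
    linear_combination (α : ℝ) * s2 + (β : ℝ) * s1
  have hεabs : |(ε : ℝ)| = 1 := by
    have h1 : |(ε : ℝ)| * |(ε : ℝ)| = 1 := by rw [← abs_mul, hε2r, abs_one]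
    nlinarith [abs_nonneg (ε : ℝ)]
  have key2 : |(m : ℝ) * x - n| * Δ = |(α : ℝ) - β * z| := by
    have h1 := congrArg abs key
    rw [abs_mul, abs_mul, hεabs, one_mul, abs_neg, abs_of_pos hΔ0] at h1
    exact h1
  have hΔle : Δ ≤ ((A : ℝ) + 2) * m := by
    have h1 : (qb : ℝ) ≤ ((A : ℝ) + 1) * qa := by exact_mod_cast hqle
    have h2 : (qa : ℝ) ≤ m := by exact_mod_cast hk1
    have h3 : (qa : ℝ) * z ≤ qa := by
      have := mul_le_mul_of_nonneg_left hz1.le (by linarith : (0 : ℝ) ≤ qa)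
      linarith
    have h4 : ((A : ℝ) + 2) * qa ≤ ((A : ℝ) + 2) * m :=
      mul_le_mul_of_nonneg_left h2 (by positivity)
    linarith
  have hA : (0 : ℝ) < (A : ℝ) + 2 := by positivity
  rw [div_le_iff₀ hA]
  have h1 : |(m : ℝ) * x - n| * Δ ≤ |(m : ℝ) * x - n| * (((A : ℝ) + 2) * m) :=
    mul_le_mul_of_nonneg_left hΔle (abs_nonneg _)
  linarith

end MLG
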