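import Pool.Agent.H52.MLG.EcA

/-! MLG EcB (blk): for every c > 0 there is a finite chain for which no real number is c-bad along it.

PROOF of `ec`.  A = natural number >= 1/c, A2 >= 2/c, A2 >= 1.  `start A2` gives κ2 < 1, C2.
κ = (1 - κ2)/4; `iter` gives e, κ' <= κ with Exp c e κ'; 2κ' + κ2 < 1; `kill`.
PROOF of `blk`.  By contradiction: some α, ε with ε <= (q/t_n) |q α - round| for all q >= 1 and the n with
t_n | q, not t_{n+1} | q.  Let e be from `ec` for c = ε, N with d (N+1+i) = e_i.  x = t_N α.  Show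
XE ε e x: for every prefix of e with product P: t_{N+len} = t_N P and for m >= 1, integer n:
q = m t_N P; the maximal n' with t_{n'} | q exists (t_n >= 2^n) and is >= N + len, so
t_{n'} >= t_N P and ε <= (q/t_{n'}) |q α - round(q α)| <= m |m P x - n|  (round_le).
Use an auxiliary induction on the list (XE c (a :: e) x = Bad c x ∧ XE c e (a x)). -/

namespace MLG

private theorem EcB_two_pow {d : ℕ → ℕ} (hd : ∀ k, 1 ≤ k → 2 ≤ d k) (n : ℕ) :
    2 ^ n ≤ ∏ k ∈ Finset.Icc 1 n, d k := by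
  induction n with
  | zero => simp
  | succ n ih =>
    rw [Finset.prod_Icc_succ_top (by omega), pow_succ]
    exact Nat.mul_le_mul ih (hd _ (by omega))

private theorem EcB_dvd (d : ℕ → ℕ) {m n : ℕ} (h : m ≤ n) :
    (∏ k ∈ Finset.Icc 1 m, d k) ∣ ∏ k ∈ Finset.Icc 1 n, d k :=
  Finset.prod_dvd_prod_of_subset _ _ _ (Finset.Icc_subset_Icc le_rfl h)

private theorem EcB_bad {d : ℕ → ℕ} (hd : ∀ k, 1 ≤ k → 2 ≤ d k) {α ε : ℝ}
    (hbad : ∀ q : ℕ, 1 ≤ q → ∀ n : ℕ, (∏ k ∈ Finset.Icc 1 n, d k) ∣ q →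
      ¬ ((∏ k ∈ Finset.Icc 1 (n + 1), d k) ∣ q) →
      ε ≤ (q : ℝ) / ((∏ k ∈ Finset.Icc 1 n, d k : ℕ) : ℝ) *
        |(q : ℝ) * α - ((round ((q : ℝ) * α) : ℤ) : ℝ)|) (M : ℕ) :
    Bad ε (((∏ k ∈ Finset.Icc 1 M, d k : ℕ) : ℝ) * α) := by
  classical
  intro m hm n
  set t : ℕ → ℕ := fun m => ∏ k ∈ Finset.Icc 1 m, d k with ht
  have htpos : ∀ m, 0 < t m := fun m => lt_of_lt_of_le (by positivity) (EcB_two_pow hd m)
  have hdvd : ∀ {m m' : ℕ}, m ≤ m' → t m ∣ t m' := fun hm => EcB_dvd d hm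
  have hqpos : 0 < t M * m := Nat.mul_pos (htpos M) hm
  have hex : ∃ j, ¬ t j ∣ t M * m := by
    refine ⟨t M * m, fun hdq => ?_⟩
    have h1 := Nat.le_of_dvd hqpos hdq
    have h2 : 2 ^ (t M * m) ≤ t (t M * m) := EcB_two_pow hd _
    have h3 : t M * m < 2 ^ (t M * m) := Nat.lt_two_pow_self
    omega
  have hspec := Nat.find_spec hex
  have hmin : ∀ j, j < Nat.find hex → t j ∣ t M * m :=
    fun j hj => not_not.1 (Nat.find_min hex hj)
  have hMlt : M < Nat.find hex := by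
    by_contra hcon
    exact hspec ((hdvd (not_lt.1 hcon)).trans (Dvd.intro _ rfl))
  obtain ⟨j, hj⟩ : ∃ j, Nat.find hex = j + 1 := ⟨Nat.find hex - 1, by omega⟩
  rw [hj] at hspec hMlt
  have hjq : t j ∣ t M * m := hmin j (by omega)
  have h := hbad (t M * m) hqpos j hjq hspec
  have htj : (0 : ℝ) < (t j : ℝ) := by exact_mod_cast htpos j
  have htM : (t M : ℝ) ≤ (t j : ℝ) := by
    exact_mod_cast Nat.le_of_dvd (htpos j) (hdvd (by omega))
  have hm0 : (0 : ℝ) ≤ (m : ℝ) := Nat.cast_nonneg m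
  have hle : ((t M * m : ℕ) : ℝ) / (t j : ℝ) ≤ (m : ℝ) := by
    rw [div_le_iff₀ htj]
    push_cast
    nlinarith
  have habs : |((t M * m : ℕ) : ℝ) * α - ((round (((t M * m : ℕ) : ℝ) * α) : ℤ) : ℝ)| ≤
      |(m : ℝ) * ((t M : ℝ) * α) - n| := by
    have h1 := round_le (((t M * m : ℕ) : ℝ) * α) n
    have e : ((t M * m : ℕ) : ℝ) * α = (m : ℝ) * ((t M : ℝ) * α) := by
      push_cast
      ring
    rw [e] at h1 ⊢
    exact h1
  exact h.trans (mul_le_mul hle habs (abs_nonneg _) hm0)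

private theorem EcB_chain {d : ℕ → ℕ} {α ε : ℝ}
    (hbad : ∀ M : ℕ, Bad ε (((∏ k ∈ Finset.Icc 1 M, d k : ℕ) : ℝ) * α)) (e : List ℕ) :
    ∀ N : ℕ, (∀ i : ℕ, i < e.length → d (N + 1 + i) = e.getD i 2) →
      XE ε e (((∏ k ∈ Finset.Icc 1 N, d k : ℕ) : ℝ) * α) := by
  induction e with
  | nil =>
    intro N _
    exact hbad N
  | cons a e ih =>
    intro N h
    refine ⟨hbad N, ?_⟩
    have h0 : d (N + 1) = a := by
      have := h 0 (by simp)
      simpa using this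
    have h1 := ih (N + 1) (fun i hi => by
      have := h (i + 1) (by simpa using hi)
      rw [show N + 1 + 1 + i = N + 1 + (i + 1) by ring, this]
      simp)
    have e1 : ((∏ k ∈ Finset.Icc 1 (N + 1), d k : ℕ) : ℝ) * α =
        (a : ℝ) * (((∏ k ∈ Finset.Icc 1 N, d k : ℕ) : ℝ) * α) := by
      rw [Finset.prod_Icc_succ_top (by omega), h0]
      push_cast
      ring
    rw [e1] at h1
    exact h1

theorem blk (d : ℕ → ℕ) (hd : ∀ k, 1 ≤ k → 2 ≤ d k)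
    (hblk : ∀ e : List ℕ, (∀ a ∈ e, 2 ≤ a) → ∃ N : ℕ, ∀ i : ℕ, i < e.length →
      d (N + 1 + i) = e.getD i 2) :
    ∀ α : ℝ, ∀ ε : ℝ, 0 < ε →
        ∃ q : ℕ, 1 ≤ q ∧ ∃ n : ℕ,
          (∏ k ∈ Finset.Icc 1 n, d k) ∣ q ∧
          ¬ ((∏ k ∈ Finset.Icc 1 (n + 1), d k) ∣ q) ∧
          (q : ℝ) / ((∏ k ∈ Finset.Icc 1 n, d k : ℕ) : ℝ) *
            |(q : ℝ) * α - ((round ((q : ℝ) * α) : ℤ) : ℝ)| < ε := by
  intro α ε hε
  by_contra hcon
  obtain ⟨e, he, hno⟩ := ec ε hε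
  obtain ⟨N, hN⟩ := hblk e he
  refine hno _ (EcB_chain (d := d) (α := α) (ε := ε) (fun M => EcB_bad hd ?_ M) e N hN)
  intro q hq n h1 h2
  by_contra hlt
  exact hcon ⟨q, hq, n, h1, h2, not_le.1 hlt⟩

end MLG
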