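import Pool.Agent.H52.MLG.KillA

/-! MLG KillB (kill): the final multiplier.

PROOF of `kill1`.  For s in the filtered set let ζ_s = fract(t s z) (irrational, in (0,1)); BadTo (c/2) B ζ_s.
Let k be the least with qn (wd ζ_s k) > B; all the digits of v_s = wd ζ_s k are <= A2 (`badTo_dg`: the
digit number i+1 is bounded when qn (wd ζ_s i) <= B), so Bdd A2 v_s and
qn v_s <= (A2+1) B (`qn_snoc_le`).  If v_s = v_{s'} then |ζ_s - ζ_{s'}| <= 1/qn(v_s)^2 <= 1/B^2 (`cyl`).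
But t s z - t s' z - integer = ζ_s - ζ_{s'}, and for s ≠ s', m = t|s - s'|:
1/(A+2) <= m |ζ_s - ζ_{s'}| (`dg_bad`), so |s - s'| >= B^2/(t (A+2)).  A set of integers of
[B^2, 2 B^2) with gaps >= G has at most 1 + B^2/G elements: fibers of s ↦ v_s have at most
1 + t (A+2) elements.
PROOF of `kill`.  t = e.prod.  Let C4 = natural number with C4^2 >= 4 t/c, C4 >= 1, Q = C4 B^2.  Words
W = {w in Lang c e : Q <= qn w <= (A+1) Q}: at most C ((A+1) Q)^(2κ) = C' B^(4κ) of them.  For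
each w the number of s in [B^2, 2B^2) with BadTo (c/2) B (t s rep w) is at most
(1 + t(A+2)) C2 ((A2+1) B)^(2κ2) (`kill1`).  4κ + 2κ2 < 2, so for B large the total is < B^2 and some
s in [B^2, 2B^2) is good for all w in W.  Claim: no x satisfies XE c (e ++ [s]) x.  WLOG 0 < x < 1
(subtract floor, `XE_shift`; x irrational).  By `XE_append` XE c e x and Bad c (t s x).  Take a prefix
w = wd x n in W (`exists_len`); |x - rep w| <= 1/Q^2; for 1 <= m <= B and integer n: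
m |m (t s rep w) - n| >= m |m t s x - n| - m^2 t s |x - rep w| >= c - B^2 t 2 B^2/Q^2 >= c/2.
So BadTo (c/2) B (t s rep w): contradiction. -/

namespace MLG

open Filter in
private theorem KillB_exB (K a : ℝ) (ha : a < 2) :
    ∃ B : ℕ, 2 ≤ B ∧ K * (B : ℝ) ^ a < (B : ℝ) ^ 2 := by
  have h1 : Tendsto (fun x : ℝ => x ^ (2 - a)) atTop atTop := tendsto_rpow_atTop (by linarith)
  have h2 : Tendsto (fun B : ℕ => ((B : ℝ)) ^ (2 - a)) atTop atTop :=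
    h1.comp tendsto_natCast_atTop_atTop
  obtain ⟨B, hB, hB2⟩ := ((h2.eventually_gt_atTop K).and (eventually_ge_atTop 2)).exists
  refine ⟨B, hB2, ?_⟩
  have hBpos : (0 : ℝ) < B := by
    have : 0 < B := by omega
    exact_mod_cast this
  have e : (B : ℝ) ^ 2 = (B : ℝ) ^ (2 - a) * (B : ℝ) ^ a := by
    rw [← Real.rpow_add hBpos, ← Real.rpow_natCast]
    congr 1
    push_cast
    ring
  rw [e]
  exact mul_lt_mul_of_pos_right hB (Real.rpow_pos_of_pos hBpos a)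

private theorem KillB_close {c : ℝ} {t s B Q C4 : ℕ} (hB : 1 ≤ B)
    (hQ : Q = C4 * B ^ 2) (hC4 : 1 ≤ C4) (hC : 4 * (t : ℝ) ≤ c * (C4 : ℝ) ^ 2)
    (hs : s ≤ 2 * B ^ 2) {x y : ℝ} (hx : Bad c (((t * s : ℕ) : ℝ) * x))
    (hxy : |x - y| ≤ 1 / (Q : ℝ) ^ 2) : BadTo (c / 2) B (((t * s : ℕ) : ℝ) * y) := by
  intro m hm hmB n
  have h1 := hx m hm n
  have hB0 : (0 : ℝ) < B := by exact_mod_cast hB
  have hC40 : (0 : ℝ) < C4 := by exact_mod_cast hC4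
  have hQ0 : (0 : ℝ) < Q := by
    rw [hQ]; push_cast; positivity
  have hm0 : (0 : ℝ) ≤ m := Nat.cast_nonneg m
  have hmB' : (m : ℝ) ≤ B := by exact_mod_cast hmB
  have hs' : (s : ℝ) ≤ 2 * (B : ℝ) ^ 2 := by exact_mod_cast hs
  have ht0 : (0 : ℝ) ≤ t := Nat.cast_nonneg t
  have hs0 : (0 : ℝ) ≤ s := Nat.cast_nonneg s
  have h2 : |(m : ℝ) * (((t * s : ℕ) : ℝ) * x) - n| ≤
      |(m : ℝ) * (((t * s : ℕ) : ℝ) * y) - n| + (m : ℝ) * (t * s) * |x - y| := by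
    have e : (m : ℝ) * (((t * s : ℕ) : ℝ) * x) - n =
        ((m : ℝ) * (((t * s : ℕ) : ℝ) * y) - n) + ((m : ℝ) * (t * s)) * (x - y) := by
      push_cast
      ring
    rw [e]
    refine le_trans (abs_add_le _ _) ?_
    rw [abs_mul, abs_of_nonneg (by positivity : (0 : ℝ) ≤ (m : ℝ) * (t * s))]
  have h3 : (m : ℝ) * ((m : ℝ) * (t * s) * |x - y|) ≤ c / 2 := by
    calc (m : ℝ) * ((m : ℝ) * (t * s) * |x - y|)
        ≤ (B : ℝ) * ((B : ℝ) * (t * (2 * (B : ℝ) ^ 2)) * (1 / (Q : ℝ) ^ 2)) := by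
          gcongr
      _ = 2 * t / (C4 : ℝ) ^ 2 := by
          rw [hQ]
          push_cast
          field_simp
      _ ≤ c / 2 := by
          rw [div_le_iff₀ (by positivity)]
          linarith
  have h4 : (m : ℝ) * |(m : ℝ) * (((t * s : ℕ) : ℝ) * x) - n| ≤
      (m : ℝ) * (|(m : ℝ) * (((t * s : ℕ) : ℝ) * y) - n| + (m : ℝ) * (t * s) * |x - y|) :=
    mul_le_mul_of_nonneg_left h2 hm0
  rw [mul_add] at h4
  linarith

open Classical in
private theorem KillB_count (c C C2 κ κ2 : ℝ) (A A2 : ℕ) (e : List ℕ) (Q B : ℕ)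
    (hB : 1 ≤ B) (hQ1 : 1 ≤ Q) (hc : 0 < c) (hA : 1 / c ≤ A) (hA2 : 2 / c ≤ A2)
    (he : 1 ≤ e.prod)
    (hC : ∀ Y : ℝ, 1 ≤ Y → {w ∈ Lang c e | (qn w : ℝ) ≤ Y}.Finite ∧
      ({w ∈ Lang c e | (qn w : ℝ) ≤ Y}.ncard : ℝ) ≤ C * Y ^ (2 * κ))
    (hC2 : ∀ Y : ℝ, 1 ≤ Y →
      ({w : List ℕ | Bdd A2 w ∧ (qn w : ℝ) ≤ Y}.ncard : ℝ) ≤ C2 * Y ^ (2 * κ2)) :
    (yset c e A Q).Finite ∧
    (((toF (yset c e A Q)).biUnion (fun w => (Finset.Ico (B ^ 2) (2 * B ^ 2)).filter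
      (fun s => BadTo (c / 2) B (((e.prod * s : ℕ) : ℝ) * rep c e w)))).card : ℝ) ≤
      (C * (((A : ℝ) + 1) * Q) ^ (2 * κ)) *
        ((1 + (e.prod : ℝ) * (A + 2)) * (C2 * (((A2 : ℝ) + 1) * B) ^ (2 * κ2))) := by
  have hQr : (1 : ℝ) ≤ Q := by exact_mod_cast hQ1
  have hBr : (1 : ℝ) ≤ B := by exact_mod_cast hB
  have hA0 : (0 : ℝ) ≤ A := Nat.cast_nonneg A
  have hA20 : (0 : ℝ) ≤ A2 := Nat.cast_nonneg A2
  have hY1 : (1 : ℝ) ≤ ((A : ℝ) + 1) * Q := by nlinarith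
  have hY2 : (1 : ℝ) ≤ ((A2 : ℝ) + 1) * B := by nlinarith
  obtain ⟨hfin, hcard⟩ := hC _ hY1
  have hsub : yset c e A Q ⊆ {w ∈ Lang c e | (qn w : ℝ) ≤ ((A : ℝ) + 1) * Q} := by
    intro w hw
    refine ⟨hw.1, ?_⟩
    have := hw.2.2
    exact_mod_cast this
  have hyf : (yset c e A Q).Finite := hfin.subset hsub
  refine ⟨hyf, ?_⟩
  have h1 : ((toF (yset c e A Q)).card : ℝ) ≤ C * (((A : ℝ) + 1) * Q) ^ (2 * κ) := by
    rw [card_toF hyf]
    refine le_trans ?_ hcard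
    exact_mod_cast Set.ncard_le_ncard hsub hfin
  have h2 : ∀ w ∈ toF (yset c e A Q), (((Finset.Ico (B ^ 2) (2 * B ^ 2)).filter
      (fun s => BadTo (c / 2) B (((e.prod * s : ℕ) : ℝ) * rep c e w))).card : ℝ) ≤
      (1 + (e.prod : ℝ) * (A + 2)) * (C2 * (((A2 : ℝ) + 1) * B) ^ (2 * κ2)) := by
    intro w hw
    have hwl : w ∈ Lang c e := (toF_sub hw).1
    have hz : Dg A (rep c e w) := Tail_Dg hc hA (rep_spec hwl).1
    refine le_trans (kill1 hc hA2 hz e.prod he B hB) ?_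
    exact mul_le_mul_of_nonneg_left (hC2 _ hY2) (by positivity)
  have h3 : (((toF (yset c e A Q)).biUnion (fun w => (Finset.Ico (B ^ 2) (2 * B ^ 2)).filter
      (fun s => BadTo (c / 2) B (((e.prod * s : ℕ) : ℝ) * rep c e w)))).card : ℝ) ≤
      ∑ w ∈ toF (yset c e A Q), (((Finset.Ico (B ^ 2) (2 * B ^ 2)).filter
      (fun s => BadTo (c / 2) B (((e.prod * s : ℕ) : ℝ) * rep c e w))).card : ℝ) := by
    exact_mod_cast Finset.card_biUnion_le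
  refine le_trans h3 (le_trans (Finset.sum_le_sum h2) ?_)
  rw [Finset.sum_const, nsmul_eq_mul]
  have hC20 : 0 ≤ C2 * (((A2 : ℝ) + 1) * B) ^ (2 * κ2) := le_trans (Nat.cast_nonneg _) (hC2 _ hY2)
  exact mul_le_mul_of_nonneg_right h1 (by positivity)

theorem kill {c : ℝ} (hc : 0 < c) {A A2 : ℕ} (hA : 1 / c ≤ A) (hA2 : 2 / c ≤ A2) (e : List ℕ)
    (he : ∀ a ∈ e, 1 ≤ a) {κ κ2 C2 : ℝ} (hκ : 0 < κ) (hκ2 : 0 < κ2) (hsum : 2 * κ + κ2 < 1)
    (hE : Exp c e κ)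
    (hC2 : ∀ Y : ℝ, 1 ≤ Y →
      ({w : List ℕ | Bdd A2 w ∧ (qn w : ℝ) ≤ Y}.ncard : ℝ) ≤ C2 * Y ^ (2 * κ2)) :
    ∃ s : ℕ, 2 ≤ s ∧ ∀ x : ℝ, ¬ XE c (e ++ [s]) x := by
  classical
  obtain ⟨C, hC⟩ := hE
  have hC0 : 0 ≤ C := by
    have := (hC 1 le_rfl).2
    rw [Real.one_rpow, mul_one] at this
    exact le_trans (Nat.cast_nonneg _) this
  have ht : 1 ≤ e.prod := by
    apply Nat.one_le_iff_ne_zero.2
    intro h0
    rw [List.prod_eq_zero_iff] at h0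
    have := he 0 h0
    omega
  obtain ⟨C4, hC4⟩ := exists_nat_ge (1 + 4 * (e.prod : ℝ) / c)
  have hC41 : 1 ≤ C4 := by
    have : (1 : ℝ) ≤ C4 := by
      have h0 : (0 : ℝ) ≤ 4 * (e.prod : ℝ) / c := by positivity
      linarith
    exact_mod_cast this
  have hC4r : (1 : ℝ) ≤ C4 := by exact_mod_cast hC41
  have hC4' : 4 * (e.prod : ℝ) ≤ c * (C4 : ℝ) ^ 2 := by
    have h1 : 4 * (e.prod : ℝ) / c ≤ C4 := by linarith
    rw [div_le_iff₀ hc] at h1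
    nlinarith [mul_nonneg hc.le (mul_nonneg (by linarith : (0 : ℝ) ≤ C4) (by linarith : (0 : ℝ) ≤ (C4 : ℝ) - 1))]
  obtain ⟨B, hB2, hB⟩ := KillB_exB
    ((C * (((A : ℝ) + 1) * C4) ^ (2 * κ)) *
        ((1 + (e.prod : ℝ) * (A + 2)) * (C2 * ((A2 : ℝ) + 1) ^ (2 * κ2)))) (4 * κ + 2 * κ2)
    (by linarith)
  have hB1 : 1 ≤ B := by omega
  have hBpos : (0 : ℝ) < B := by exact_mod_cast hB1
  have hQ1 : 1 ≤ C4 * B ^ 2 := Nat.one_le_iff_ne_zero.2 (by positivity)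
  obtain ⟨hyf, hcount⟩ := KillB_count c C C2 κ κ2 A A2 e (C4 * B ^ 2) B hB1 hQ1 hc hA hA2 ht
    hC hC2
  have hlt : (((toF (yset c e A (C4 * B ^ 2))).biUnion
      (fun w => (Finset.Ico (B ^ 2) (2 * B ^ 2)).filter
      (fun s => BadTo (c / 2) B (((e.prod * s : ℕ) : ℝ) * rep c e w)))).card : ℝ) <
      (B : ℝ) ^ 2 := by
    refine lt_of_le_of_lt hcount (lt_of_eq_of_lt ?_ hB)
    have e1 : (((A : ℝ) + 1) * ((C4 * B ^ 2 : ℕ) : ℝ)) ^ (2 * κ) =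
        (((A : ℝ) + 1) * C4) ^ (2 * κ) * (B : ℝ) ^ (4 * κ) := by
      push_cast
      rw [← mul_assoc, Real.mul_rpow (by positivity) (by positivity)]
      congr 1
      rw [← Real.rpow_natCast (B : ℝ) 2, ← Real.rpow_mul hBpos.le]
      congr 1
      push_cast
      ring
    have e2 : (((A2 : ℝ) + 1) * B) ^ (2 * κ2) = ((A2 : ℝ) + 1) ^ (2 * κ2) * (B : ℝ) ^ (2 * κ2) :=
      Real.mul_rpow (by positivity) hBpos.le
    rw [e1, e2, Real.rpow_add hBpos]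
    ring
  have hex : ∃ s ∈ Finset.Ico (B ^ 2) (2 * B ^ 2), s ∉ (toF (yset c e A (C4 * B ^ 2))).biUnion
      (fun w => (Finset.Ico (B ^ 2) (2 * B ^ 2)).filter
      (fun s => BadTo (c / 2) B (((e.prod * s : ℕ) : ℝ) * rep c e w))) := by
    by_contra hcon
    push Not at hcon
    have hsub : Finset.Ico (B ^ 2) (2 * B ^ 2) ⊆ _ := fun s hs => hcon s hs
    have hc1 := Finset.card_le_card hsub
    rw [Nat.card_Ico] at hc1
    have hc2 : 2 * B ^ 2 - B ^ 2 = B ^ 2 := by omega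
    rw [hc2] at hc1
    refine absurd hlt (not_lt.2 ?_)
    exact_mod_cast hc1
  obtain ⟨s, hs, hsn⟩ := hex
  rw [Finset.mem_Ico] at hs
  have hBB : 4 ≤ B ^ 2 := by nlinarith
  refine ⟨s, by omega, ?_⟩
  intro x hx
  have hirr : Irrational x := bad_irr hc (XE_bad hx)
  have hx' : XE c (e ++ [s]) (Int.fract x) := by
    have := XE_shift hx (-⌊x⌋)
    have e1 : x + ((-⌊x⌋ : ℤ) : ℝ) = Int.fract x := by
      rw [← Int.self_sub_floor]; push_cast; ring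
    rwa [e1] at this
  have h0 : 0 < Int.fract x := by
    rcases (Int.fract_nonneg x).lt_or_eq with hlt0 | heq
    · exact hlt0
    · exfalso
      apply hirr
      rw [Set.mem_range]
      refine ⟨(⌊x⌋ : ℚ), ?_⟩
      have := Int.self_sub_floor x
      push_cast
      linarith
  have h1 : Int.fract x < 1 := Int.fract_lt_one x
  rw [XE_append] at hx'
  obtain ⟨hxe, hxb⟩ := hx'
  have hDg : Dg A (Int.fract x) := bad_dg hc hA h0 h1 (XE_bad hxe)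
  obtain ⟨n, hn1, hn2⟩ := exists_len hDg (C4 * B ^ 2) hQ1
  have hTail : Tail c e (Int.fract x) := ⟨Int.fract x, 0, h0, h1, hxe, rfl⟩
  have hLang : wd (Int.fract x) n ∈ Lang c e := by
    refine ⟨Int.fract x, hTail, ?_⟩
    rw [wd_length]
  obtain ⟨hr1, hr2⟩ := rep_spec hLang
  rw [wd_length] at hr2
  have hcyl := cyl (Tail_Dg hc hA hTail).1 (Tail_Dg hc hA hr1).1 n hr2.symm
  have hQr : (0 : ℝ) < ((C4 * B ^ 2 : ℕ) : ℝ) := by exact_mod_cast hQ1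
  have hclose : |Int.fract x - rep c e (wd (Int.fract x) n)| ≤
      1 / ((C4 * B ^ 2 : ℕ) : ℝ) ^ 2 := by
    refine le_trans hcyl ?_
    apply one_div_le_one_div_of_le (by positivity)
    have : ((C4 * B ^ 2 : ℕ) : ℝ) ≤ (qn (wd (Int.fract x) n) : ℝ) := by exact_mod_cast hn1
    gcongr
  apply hsn
  rw [Finset.mem_biUnion]
  refine ⟨wd (Int.fract x) n, (mem_toF hyf _).2 ⟨hLang, hn1, hn2⟩, ?_⟩
  rw [Finset.mem_filter, Finset.mem_Ico]
  exact ⟨hs, KillB_close hB1 rfl hC41 hC4' hs.2.le hxb hclose⟩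

end MLG
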