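import Pool.Agent.H52.MLG.Step
import Pool.Agent.H52.MLG.Kill

/-! MLG EcA (ec): for every c > 0 there is a finite chain for which no real number is c-bad along it.

PROOF of `ec`.  A = natural number >= 1/c, A2 >= 2/c, A2 >= 1.  `start A2` gives κ2 < 1, C2.
κ = (1 - κ2)/4; `iter` gives e, κ' <= κ with Exp c e κ'; 2κ' + κ2 < 1; `kill`. -/

namespace MLG

theorem ec (c : ℝ) (hc : 0 < c) : ∃ e : List ℕ, (∀ a ∈ e, 2 ≤ a) ∧ ∀ x : ℝ, ¬ XE c e x := by
  obtain ⟨A, hA⟩ := exists_nat_ge (1 / c)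
  obtain ⟨A2, hA2⟩ := exists_nat_ge (2 / c)
  have h2 : 0 < 2 / c := by positivity
  have hA21 : 1 ≤ A2 := by
    rcases Nat.eq_zero_or_pos A2 with h | h
    · subst h
      simp at hA2
      linarith
    · exact h
  obtain ⟨κ2, hκ2, hκ2', C2, hC2, hst⟩ := start A2 hA21
  obtain ⟨e, he, κ', hκ', hle, hE⟩ := iter hc hA ((1 - κ2) / 4) (by linarith)
  obtain ⟨s, hs, hx⟩ := kill (A := A) (A2 := A2) hc hA hA2 e
    (fun a ha => le_trans (by norm_num) (he a ha)) hκ' hκ2 (by linarith) hE hst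
  refine ⟨e ++ [s], ?_, hx⟩
  intro a ha
  rcases List.mem_append.mp ha with h | h
  · exact he a h
  · simp at h
    omega

end MLG
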