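import Pool.Agent.H52.MLG.EcA

/-! MLG EcC: the core theorem in terms of chains of divisors.

PROOF.  From `ec` take e; n = e.length, t i = (e.take i).prod.  t i ∣ t (i+1) with quotient e_i >= 2.
If for some x every (i,m) satisfied m |m (t i x) - round| >= c then XE c e x: show by induction on e (for all
x) that (∀ i ≤ e.length, Bad c ((e.take i).prod x)) → XE c e x; Bad from the round form by `round_le`. -/

namespace MLG

private theorem EcC_chain {c : ℝ} (e : List ℕ) :
    ∀ x : ℝ, (∀ i ≤ e.length, Bad c (((e.take i).prod : ℕ) * x)) → XE c e x := by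
  induction e with
  | nil =>
    intro x h
    have h0 := h 0 le_rfl
    have h1 : Bad c x := by simpa using h0
    exact h1
  | cons a e ih =>
    intro x h
    refine ⟨?_, ih _ fun i hi => ?_⟩
    · have := h 0 (Nat.zero_le _)
      simpa using this
    · have h1 := h (i + 1) (by simpa using hi)
      have e1 : ((((a :: e).take (i + 1)).prod : ℕ) : ℝ) * x =
          (((e.take i).prod : ℕ) : ℝ) * ((a : ℝ) * x) := by
        rw [List.take_succ_cons, List.prod_cons]
        push_cast
        ring
      rw [e1] at h1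
      exact h1

theorem ecC (c : ℝ) (hc : 0 < c) : ∃ (n : ℕ) (t : ℕ → ℕ), t 0 = 1 ∧
    (∀ i, i < n → t i ∣ t (i + 1) ∧ t i < t (i + 1)) ∧
    ∀ x : ℝ, ∃ i ≤ n, ∃ m : ℕ, 1 ≤ m ∧
      (m : ℝ) * |(m : ℝ) * ((t i : ℝ) * x) - round ((m : ℝ) * ((t i : ℝ) * x))| < c := by
  obtain ⟨e, he, hno⟩ := ec c hc
  refine ⟨e.length, fun i => (e.take i).prod, by simp, ?_, ?_⟩
  · intro i hi
    have hs : (e.take (i + 1)).prod = (e.take i).prod * e[i] := List.prod_take_succ e i hi
    have hpos : 0 < (e.take i).prod := by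
      rw [Nat.pos_iff_ne_zero]
      intro h0
      rw [List.prod_eq_zero_iff] at h0
      have := he 0 (List.mem_of_mem_take h0)
      omega
    have h2 : 2 ≤ e[i] := he _ (List.getElem_mem hi)
    show (e.take i).prod ∣ (e.take (i + 1)).prod ∧ (e.take i).prod < (e.take (i + 1)).prod
    rw [hs]
    exact ⟨Dvd.intro _ rfl, by nlinarith⟩
  · intro x
    by_contra hcon
    refine hno x (EcC_chain e x fun i hi m hm n => ?_)
    by_contra hlt
    refine hcon ⟨i, hi, m, hm, lt_of_le_of_lt ?_ (not_le.1 hlt)⟩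
    exact mul_le_mul_of_nonneg_left (round_le _ n) (Nat.cast_nonneg m)

end MLG
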