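import Pool.Agent.H52.MLG.StA

/-! MLG StB (second half): states = points of the projective line over F_s, s prime.

PROOFS.  The vector (ux s u, uy s u) is never 0 mod s (u = s: (1,0); u < s: second coordinate 1).
`stt_spec`: (a,b) not both 0 mod s.  If s | b take v = s: a*0 - b*1.  Otherwise b is invertible mod s,
take v < s with v b = a mod s (v = ((a * b⁻¹ : ZMod s)).val): a * 1 - b * v = 0 mod s.
`state_uniq`: if (a,b) ≠ 0 mod s and s | a uy_u - b ux_u, s | a uy_v - b ux_v then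
s | ux_u uy_v - uy_u ux_v  (work in the field ZMod s), and then u = v: both < s: u - v = 0 mod s;
one equal to s: s | 1 impossible.
`img_ne`: (ax, ay) = (ux,uy) M_w with det M_w = ± 1, so not both are 0 mod s.
`nx_iff`: nx s u w is the unique state parallel to (ax,ay) for w; vectors are parallel iff the states agree.
`nx_bottom`: (qp (P++w), qn (P++w)) = (qp P, qn P) M_w, and (qp P, qn P) (not 0 mod s, it is a row of a
matrix of determinant ± 1) is parallel mod s to (ux,uy) of its state, so the images are parallel. -/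

namespace MLG

private theorem par_trans {s : ℕ} (hs : s.Prime) {a b c d e f : ℤ}
    (h : ¬ ((s : ℤ) ∣ c ∧ (s : ℤ) ∣ d)) (h1 : (s : ℤ) ∣ a * d - b * c)
    (h2 : (s : ℤ) ∣ c * f - d * e) : (s : ℤ) ∣ a * f - b * e := by
  have hp : Prime (s : ℤ) := Nat.prime_iff_prime_int.mp hs
  have e1 : (s : ℤ) ∣ c * (a * f - b * e) := by
    have : c * (a * f - b * e) = a * (c * f - d * e) + e * (a * d - b * c) := by ring
    rw [this]
    exact dvd_add (Dvd.dvd.mul_left h2 _) (Dvd.dvd.mul_left h1 _)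
  have e2 : (s : ℤ) ∣ d * (a * f - b * e) := by
    have : d * (a * f - b * e) = f * (a * d - b * c) + b * (c * f - d * e) := by ring
    rw [this]
    exact dvd_add (Dvd.dvd.mul_left h1 _) (Dvd.dvd.mul_left h2 _)
  rcases hp.dvd_or_dvd e1 with h3 | h3
  · rcases hp.dvd_or_dvd e2 with h4 | h4
    · exact absurd ⟨h3, h4⟩ h
    · exact h4
  · exact h3

private theorem state_ne {s : ℕ} (hs : s.Prime) (v : ℕ) :
    ¬ ((s : ℤ) ∣ ux s v ∧ (s : ℤ) ∣ uy s v) := by
  have h1 : ¬ (s : ℤ) ∣ 1 := by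
    intro h
    have := Int.natCast_dvd_natCast.mp (by simpa using h : (s : ℤ) ∣ ((1 : ℕ) : ℤ))
    exact hs.one_lt.ne' (Nat.dvd_one.mp this)
  rintro ⟨h2, h3⟩
  by_cases hv : v = s
  · simp only [ux, hv, if_true] at h2
    exact h1 h2
  · simp only [uy, hv, if_false] at h3
    exact h1 h3

private theorem par_symm {s : ℕ} {a b c d : ℤ} (h : (s : ℤ) ∣ a * d - b * c) :
    (s : ℤ) ∣ c * b - d * a := by
  have : c * b - d * a = -(a * d - b * c) := by ring
  rw [this]
  exact (dvd_neg).mpr h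

private theorem stt_eq {s : ℕ} (hs : s.Prime) {a b a' b' : ℤ}
    (h : ¬ ((s : ℤ) ∣ a ∧ (s : ℤ) ∣ b)) (h' : ¬ ((s : ℤ) ∣ a' ∧ (s : ℤ) ∣ b'))
    (hp : (s : ℤ) ∣ a * b' - b * a') : stt s a b = stt s a' b' := by
  have h1 := stt_spec hs h
  have h2 := stt_spec hs h'
  have h3 : (s : ℤ) ∣ a * uy s (stt s a' b') - b * ux s (stt s a' b') :=
    par_trans hs h' hp h2
  exact state_uniq hs h (stt_le _ _ _) (stt_le _ _ _) h1 h3

private theorem bot_ne {s : ℕ} (hs : s.Prime) (P : List ℕ) :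
    ¬ ((s : ℤ) ∣ (qp P : ℤ) ∧ (s : ℤ) ∣ (qn P : ℤ)) := by
  rintro ⟨h1, h2⟩
  have hd := cf_det P
  have h3 : (s : ℤ) ∣ (-1) ^ P.length := by
    rw [← hd]
    exact dvd_sub (Dvd.dvd.mul_left h2 _) (Dvd.dvd.mul_left h1 _)
  have hu : IsUnit ((-1 : ℤ) ^ P.length) := (isUnit_one.neg).pow _
  have hp : Prime (s : ℤ) := Nat.prime_iff_prime_int.mp hs
  exact hp.not_unit (isUnit_of_dvd_unit h3 hu)

theorem nx_iff {s : ℕ} (hs : s.Prime) {u : ℕ} (hu : u ≤ s) (w w' : List ℕ) :
    nx s u w = nx s u w' ↔ Same s u w w' := by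
  have h := img_ne hs hu w
  have h' := img_ne hs hu w'
  constructor
  · intro he
    have h1 := stt_spec hs h
    have h2 := stt_spec hs h'
    unfold nx at he
    rw [← he] at h2
    exact par_trans hs (state_ne hs _) h1 (par_symm h2)
  · intro he
    exact stt_eq hs h h' he

theorem nx_bottom {s : ℕ} (hs : s.Prime) (P w : List ℕ) :
    nx s (stt s (qp P) (qn P)) w = stt s (qp (P ++ w)) (qn (P ++ w)) := by
  have h0 := stt_spec hs (bot_ne hs P)
  set u := stt s (qp P : ℤ) (qn P : ℤ) with hu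
  have hule : u ≤ s := stt_le _ _ _
  unfold nx
  refine stt_eq hs (img_ne hs hule w) (bot_ne hs (P ++ w)) ?_
  have e : ax s u w * (qn (P ++ w) : ℤ) - ay s u w * (qp (P ++ w) : ℤ)
      = -(((qp P : ℤ) * uy s u - (qn P : ℤ) * ux s u)
        * ((pp w : ℤ) * qn w - pn w * qp w)) := by
    rw [qn_append, qp_append]
    unfold ax ay
    push_cast
    ring
  rw [e]
  exact (dvd_neg).mpr (Dvd.dvd.mul_right h0 _)

theorem row_par {s : ℕ} (hs : s.Prime) (P : List ℕ) {a b : ℤ}
    (h : (s : ℤ) ∣ a * qn P - b * qp P) :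
    (s : ℤ) ∣ a * uy s (stt s (qp P) (qn P)) - b * ux s (stt s (qp P) (qn P)) :=
  par_trans hs (bot_ne hs P) h (stt_spec hs (bot_ne hs P))

end MLG
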