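import Pool.Agent.H52.MLG.Vcount
import Pool.Agent.H52.MLG.Stt

/-! MLG First: first moment over the primes s.

PROOF.  Map (s,u,w) (s in P, u <= s, w in Ww, Ok) to (w, y, (a,b,g,h)) with a choice of the witnesses
of Ok.  (a,b,g,h) lies in box K and satisfies |a z + b - zr y (g z + h)| <= δ (z = zr w), so for given
(w,y) the number of matrices is at most the bound of `vcount` with β g h = zr y * (g z + h).
The map is injective: w is given; |a h - b g| = t s determines s (t >= 1); the matrix is not 0 mod s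
(otherwise s^2 | t s, so s | t), so one of its rows is not 0 mod s and this row determines u by
`state_uniq`. -/

namespace MLG

/-- the facts shared by a triple `(s, (u, w))` and its image `((w', y), (a, b, g, h))` -/
private def First_rel (t : ℕ) (x : Σ _ : ℕ, ℕ × List ℕ)
    (q : Σ _ : List ℕ × List ℕ, ℤ × ℤ × ℤ × ℤ) : Prop :=
  q.1.1 = x.2.2 ∧ |q.2.1 * q.2.2.2.2 - q.2.2.1 * q.2.2.2.1| = ((t * x.1 : ℕ) : ℤ) ∧
    (x.1 : ℤ) ∣ q.2.1 * uy x.1 x.2.1 - q.2.2.1 * ux x.1 x.2.1 ∧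
    (x.1 : ℤ) ∣ q.2.2.2.1 * uy x.1 x.2.1 - q.2.2.2.2 * ux x.1 x.2.1

private theorem First_inj {t : ℕ} (ht : 1 ≤ t) {s u s' u' : ℕ} {w w' : List ℕ}
    {q : Σ _ : List ℕ × List ℕ, ℤ × ℤ × ℤ × ℤ} (hs : s.Prime) (hst : ¬ s ∣ t)
    (hu : u ≤ s) (hu' : u' ≤ s')
    (h : First_rel t ⟨s, (u, w)⟩ q) (h' : First_rel t ⟨s', (u', w')⟩ q) :
    (⟨s, (u, w)⟩ : Σ _ : ℕ, ℕ × List ℕ) = ⟨s', (u', w')⟩ := by
  obtain ⟨⟨w0, y0⟩, a, b, g, c⟩ := q
  obtain ⟨h1, h2, h3, h4⟩ := h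
  obtain ⟨h1', h2', h3', h4'⟩ := h'
  dsimp only at h1 h2 h3 h4 h1' h2' h3' h4'
  have hw : w = w' := by rw [← h1, h1']
  have hss : s = s' := by
    have e : ((t * s : ℕ) : ℤ) = ((t * s' : ℕ) : ℤ) := by rw [← h2, h2']
    have e' : t * s = t * s' := by exact_mod_cast e
    exact Nat.eq_of_mul_eq_mul_left ht e'
  subst hss
  subst hw
  have huu : u = u' := by
    by_cases hab : (s : ℤ) ∣ a ∧ (s : ℤ) ∣ b
    · by_cases hgh : (s : ℤ) ∣ g ∧ (s : ℤ) ∣ c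
      · exfalso
        apply hst
        have d1 : (s : ℤ) * s ∣ a * c - b * g :=
          dvd_sub (mul_dvd_mul hab.1 hgh.2) (mul_dvd_mul hab.2 hgh.1)
        have d2 : (s : ℤ) * s ∣ ((t * s : ℕ) : ℤ) := by
          rw [← h2]
          exact (dvd_abs _ _).2 d1
        have d3 : s * s ∣ t * s := by exact_mod_cast d2
        exact Nat.dvd_of_mul_dvd_mul_right hs.pos d3
      · exact state_uniq hs hgh hu hu' h4 h4'
    · exact state_uniq hs hab hu hu' h3 h3'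
  rw [huu]

open Classical in
theorem first {A : ℕ} (Ww Wy : Finset (List ℕ)) (zr : List ℕ → ℝ)
    (hz : ∀ w ∈ Ww, Bad (1 / ((A : ℝ) + 2)) (zr w)) (t K : ℕ) (ht : 1 ≤ t) (δ : ℝ) (hδ0 : 0 < δ)
    (hδ : 2 * δ < 1) (P : Finset ℕ) (hP : ∀ s ∈ P, s.Prime ∧ ¬ s ∣ t) :
    ∑ s ∈ P, (((Finset.range (s + 1) ×ˢ Ww).filter
        (fun p : ℕ × List ℕ => Ok (t * s) K δ Wy zr s p.1 p.2)).card : ℝ)
      ≤ (Ww.card : ℝ) * Wy.card * ((2 * (K : ℝ) + 1) ^ 2 * (1 + 4 * K * δ * ((A : ℝ) + 2))) := by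
  have hcard : ∑ s ∈ P, (((Finset.range (s + 1) ×ˢ Ww).filter
        (fun p : ℕ × List ℕ => Ok (t * s) K δ Wy zr s p.1 p.2)).card : ℝ)
      = ((P.sigma (fun s => (Finset.range (s + 1) ×ˢ Ww).filter
        (fun p : ℕ × List ℕ => Ok (t * s) K δ Wy zr s p.1 p.2))).card : ℝ) := by
    rw [Finset.card_sigma]
    push_cast
    rfl
  have hle : (P.sigma (fun s => (Finset.range (s + 1) ×ˢ Ww).filter
        (fun p : ℕ × List ℕ => Ok (t * s) K δ Wy zr s p.1 p.2))).card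
      ≤ ((Ww ×ˢ Wy).sigma (fun q => (box K).filter (fun v : ℤ × ℤ × ℤ × ℤ =>
        |(v.1 : ℝ) * zr q.1 + v.2.1 - zr q.2 * ((v.2.2.1 : ℝ) * zr q.1 + v.2.2.2)| ≤ δ))).card := by
    apply Finset.card_le_card_of_forall_subsingleton (First_rel t)
    · rintro ⟨s, u, w⟩ hx
      rw [Finset.mem_sigma, Finset.mem_filter, Finset.mem_product] at hx
      obtain ⟨hsP, ⟨huR, hwW⟩, a, b, g, h, ha, hb, hg, hh, hdet, hd1, hd2, y, hy, hclose⟩ := hx
      dsimp only at hsP huR hwW hdet hd1 hd2 hclose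
      refine ⟨⟨(w, y), (a, b, g, h)⟩, ?_, rfl, hdet, hd1, hd2⟩
      rw [Finset.mem_sigma, Finset.mem_product, Finset.mem_filter]
      refine ⟨⟨hwW, hy⟩, ?_, hclose⟩
      unfold box
      simp only [Finset.mem_product, Finset.mem_Icc]
      exact ⟨abs_le.1 ha, abs_le.1 hb, abs_le.1 hg, abs_le.1 hh⟩
    · intro q _
      rintro ⟨s, u, w⟩ hx ⟨s', u', w'⟩ hx'
      have hx1 := hx.1
      have hx1' := hx'.1
      rw [Finset.mem_sigma, Finset.mem_filter, Finset.mem_product] at hx1 hx1'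
      have hu : u ≤ s := Nat.lt_succ_iff.1 (Finset.mem_range.1 hx1.2.1.1)
      have hu' : u' ≤ s' := Nat.lt_succ_iff.1 (Finset.mem_range.1 hx1'.2.1.1)
      exact First_inj ht (hP s hx1.1).1 (hP s hx1.1).2 hu hu' hx.2 hx'.2
  have hcnt : (((Ww ×ˢ Wy).sigma (fun q => (box K).filter (fun v : ℤ × ℤ × ℤ × ℤ =>
        |(v.1 : ℝ) * zr q.1 + v.2.1 - zr q.2 * ((v.2.2.1 : ℝ) * zr q.1 + v.2.2.2)| ≤ δ))).card : ℝ)
      ≤ (Ww.card : ℝ) * Wy.card * ((2 * (K : ℝ) + 1) ^ 2 * (1 + 4 * K * δ * ((A : ℝ) + 2))) := by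
    rw [Finset.card_sigma]
    push_cast
    have hb : ∀ q ∈ Ww ×ˢ Wy, (((box K).filter (fun v : ℤ × ℤ × ℤ × ℤ =>
        |(v.1 : ℝ) * zr q.1 + v.2.1 - zr q.2 * ((v.2.2.1 : ℝ) * zr q.1 + v.2.2.2)| ≤ δ)).card : ℝ)
        ≤ (2 * (K : ℝ) + 1) ^ 2 * (1 + 4 * K * δ * ((A : ℝ) + 2)) := by
      intro q hq
      rw [Finset.mem_product] at hq
      exact vcount (hz q.1 hq.1) K δ hδ0 hδ
        (fun g h : ℤ => zr q.2 * ((g : ℝ) * zr q.1 + h))
    refine (Finset.sum_le_sum hb).trans (le_of_eq ?_)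
    rw [Finset.sum_const, Finset.card_product, nsmul_eq_mul]
    push_cast
    ring
  rw [hcard]
  exact (Nat.cast_le.2 hle).trans hcnt

end MLG
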