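import Pool.Agent.H52.MLG.CfAlg

/-! MLG GaA (first third; GaB, GaC have the rest): continued fractions of real numbers of (0,1).

PROOFS.  For irrational x in (0,1): 1/x > 1 is irrational, dg x = floor(1/x) >= 1,
gs x = fract(1/x) in (0,1) irrational, x (dg x + gs x) = 1.  `wd_add`: induction on m.
`mob`: induction on n generalizing x: with y = gs x, v = wd y n, z = gs^[n] y and
y (qp v z + qn v) = pp v z + pn v one gets for w = dg x :: v:
x (qp w z + qn w) = x ((pp v z + pn v) + dg x (qp v z + qn v)) = x (y + dg x)(qp v z + qn v)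
= qp v z + qn v = pp w z + pn w.
`err_sign`, `err_sign'`: multiply out, use `mob` and `cf_det` (length of wd x n is n).
`err1`: qp z + qn >= qn > 0.   `err2`: same.
`cyl`: with w = wd z n = wd z' n, Z = gs^[n] z, Z' = gs^[n] z' in (0,1):
z - z' = (pp Z + pn)/(qp Z + qn) - (pp Z' + pn)/(qp Z' + qn) = ± (Z - Z')/((qp Z + qn)(qp Z' + qn)).
`exists_last`: qn (wd x n) is unbounded (length_le_log) and qn(wd x (n+1)) <= (A+1) qn(wd x n)
(qn_snoc_le), qn (wd x 0) = 1 <= X; take the first n with X < qn (wd x (n+1)) .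
`exists_len`: same, take the first n with Q <= qn (wd x n). -/

namespace MLG

theorem gs_InI {x : ℝ} (h : InI x) : InI (gs x) := by
  obtain ⟨h1, h2, h3⟩ := h
  have hirr : Irrational (gs x) := by
    unfold gs
    rw [Int.fract]
    exact (irrational_inv_iff.2 h1).sub_intCast _
  refine ⟨hirr, ?_, Int.fract_lt_one _⟩
  exact lt_of_le_of_ne (Int.fract_nonneg _) (Ne.symm hirr.ne_zero)

theorem iter_InI {x : ℝ} (h : InI x) (k : ℕ) : InI (gs^[k] x) := by
  induction k generalizing x with
  | zero => exact h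
  | succ k ih =>
    rw [Function.iterate_succ_apply]
    exact ih (gs_InI h)

theorem dg_pos {x : ℝ} (h : InI x) : 1 ≤ dg x := by
  obtain ⟨-, h2, h3⟩ := h
  unfold dg
  apply Nat.le_floor
  rw [Nat.cast_one]
  exact (one_lt_inv₀ h2).2 h3 |>.le

theorem gs_eq {x : ℝ} (h : InI x) : x * ((dg x : ℝ) + gs x) = 1 := by
  obtain ⟨-, h2, -⟩ := h
  have h3 : (0 : ℝ) ≤ x⁻¹ := (inv_pos.2 h2).le
  unfold dg gs
  rw [natCast_floor_eq_intCast_floor h3, Int.floor_add_fract, mul_inv_cancel₀ h2.ne']

theorem wd_length (x : ℝ) (n : ℕ) : (wd x n).length = n := by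
  induction n generalizing x with
  | zero => rfl
  | succ n ih =>
    unfold wd
    rw [List.length_cons, ih]

theorem wd_add (x : ℝ) (m n : ℕ) : wd x (m + n) = wd x m ++ wd (gs^[m] x) n := by
  induction m generalizing x with
  | zero =>
    rw [Nat.zero_add]
    rfl
  | succ m ih =>
    rw [show m + 1 + n = (m + n) + 1 from by ring, Function.iterate_succ_apply]
    change dg x :: wd (gs x) (m + n) = (dg x :: wd (gs x) m) ++ _
    rw [ih, List.cons_append]

theorem wd_pos {x : ℝ} (h : InI x) (n : ℕ) : Pos (wd x n) := by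
  induction n generalizing x with
  | zero =>
    intro a ha
    exact absurd ha List.not_mem_nil
  | succ n ih =>
    intro a ha
    change a ∈ dg x :: wd (gs x) n at ha
    rcases List.mem_cons.1 ha with rfl | h1
    · exact dg_pos h
    · exact ih (gs_InI h) a h1

theorem Dg_iter {A : ℕ} {x : ℝ} (h : Dg A x) (k : ℕ) : Dg A (gs^[k] x) := by
  refine ⟨iter_InI h.1 k, fun j => ?_⟩
  rw [← Function.iterate_add_apply]
  exact h.2 (j + k)

theorem wd_bdd {A : ℕ} {x : ℝ} (h : Dg A x) (n : ℕ) : Bdd A (wd x n) := by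
  induction n generalizing x with
  | zero =>
    intro a ha
    exact absurd ha List.not_mem_nil
  | succ n ih =>
    intro a ha
    change a ∈ dg x :: wd (gs x) n at ha
    rcases List.mem_cons.1 ha with rfl | h1
    · exact ⟨dg_pos h.1, h.2 0⟩
    · exact ih (Dg_iter h 1) a h1

end MLG
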