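import Pool.Agent.H52.MLG.GaA

/-! MLG GaB (second third): continued fractions of real numbers of (0,1).

PROOFS.  For irrational x in (0,1): 1/x > 1 is irrational, dg x = floor(1/x) >= 1,
gs x = fract(1/x) in (0,1) irrational, x (dg x + gs x) = 1.  `wd_add`: induction on m.
`mob`: induction on n generalizing x: with y = gs x, v = wd y n, z = gs^[n] y and
y (qp v z + qn v) = pp v z + pn v one gets for w = dg x :: v:
x (qp w z + qn w) = x ((pp v z + pn v) + dg x (qp v z + qn v)) = x (y + dg x)(qp v z + qn v)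
= qp v z + qn v = pp w z + pn w.
`err_sign`, `err_sign'`: multiply out, use `mob` and `cf_det` (length of wd x n is n).
`err1`: qp z + qn >= qn > 0.   `err2`: same.
`cyl`: with w = wd z n = wd z' n, Z = gs^[n] z, Z' = gs^[n] z' in (0,1):
z - z' = (pp Z + pn)/(qp Z + qn) - (pp Z' + pn)/(qp Z' + qn) = ± (Z - Z')/((qp Z + qn)(qp Z' + qn)).
`exists_last`: qn (wd x n) is unbounded (length_le_log) and qn(wd x (n+1)) <= (A+1) qn(wd x n)
(qn_snoc_le), qn (wd x 0) = 1 <= X; take the first n with X < qn (wd x (n+1)) .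
`exists_len`: same, take the first n with Q <= qn (wd x n). -/

namespace MLG

theorem mob {x : ℝ} (h : InI x) (n : ℕ) :
    x * ((qp (wd x n) : ℝ) * gs^[n] x + qn (wd x n)) = (pp (wd x n) : ℝ) * gs^[n] x + pn (wd x n) := by
  induction n generalizing x with
  | zero => simp [wd]
  | succ n ih =>
    have h1 := ih (gs_InI h)
    have h2 := gs_eq h
    rw [Function.iterate_succ_apply]
    have h3 : wd x (n + 1) = dg x :: wd (gs x) n := rfl
    rw [h3, qp_cons, qn_cons, pp_cons, pn_cons]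
    push_cast
    linear_combination x * (-h1) + ((qp (wd (gs x) n) : ℝ) * gs^[n] (gs x) + qn (wd (gs x) n)) * h2

private theorem GaB_det (x : ℝ) (n : ℕ) :
    (pp (wd x n) : ℝ) * qn (wd x n) - pn (wd x n) * qp (wd x n) = (-1) ^ n := by
  have h := cf_det (wd x n)
  rw [wd_length] at h
  exact_mod_cast h

private theorem GaB_pos {x : ℝ} (h : InI x) (n : ℕ) :
    (qn (wd x n) : ℝ) ≤ (qp (wd x n) : ℝ) * gs^[n] x + qn (wd x n) ∧ (1 : ℝ) ≤ qn (wd x n) ∧
      0 < gs^[n] x ∧ gs^[n] x < 1 := by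
  have h1 := iter_InI h n
  have h2 : 1 ≤ qn (wd x n) := (entries_le (wd_pos h n)).2.2.2
  have h3 : (0 : ℝ) ≤ (qp (wd x n) : ℝ) := Nat.cast_nonneg _
  refine ⟨?_, by exact_mod_cast h2, h1.2.1, h1.2.2⟩
  have := mul_nonneg h3 h1.2.1.le
  linarith

theorem err_sign {x : ℝ} (h : InI x) (n : ℕ) :
    ((qn (wd x n) : ℝ) * x - pn (wd x n)) * ((qp (wd x n) : ℝ) * gs^[n] x + qn (wd x n))
      = (-1) ^ n * gs^[n] x := by
  linear_combination (qn (wd x n) : ℝ) * mob h n + gs^[n] x * GaB_det x n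

theorem err_sign' {x : ℝ} (h : InI x) (n : ℕ) :
    ((qp (wd x n) : ℝ) * x - pp (wd x n)) * ((qp (wd x n) : ℝ) * gs^[n] x + qn (wd x n))
      = -(-1) ^ n := by
  linear_combination (qp (wd x n) : ℝ) * mob h n - GaB_det x n

theorem err1 {x : ℝ} (h : InI x) (n : ℕ) :
    (qn (wd x n) : ℝ) * |(qn (wd x n) : ℝ) * x - pn (wd x n)| ≤ gs^[n] x := by
  obtain ⟨h1, h2, h3, h4⟩ := GaB_pos h n
  have h5 := congrArg abs (err_sign h n)
  rw [abs_mul, abs_mul, abs_pow, abs_neg, abs_one, one_pow, one_mul, abs_of_pos h3,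
    abs_of_pos (show 0 < (qp (wd x n) : ℝ) * gs^[n] x + qn (wd x n) by linarith)] at h5
  have h6 := mul_le_mul_of_nonneg_left h1 (abs_nonneg ((qn (wd x n) : ℝ) * x - pn (wd x n)))
  linarith

theorem err2 {x : ℝ} (h : InI x) (n : ℕ) :
    (qn (wd x n) : ℝ) * |(qp (wd x n) : ℝ) * x - pp (wd x n)| ≤ 1 := by
  obtain ⟨h1, h2, h3, h4⟩ := GaB_pos h n
  have h5 := congrArg abs (err_sign' h n)
  rw [abs_mul, abs_neg, abs_pow, abs_neg, abs_one, one_pow,
    abs_of_pos (show 0 < (qp (wd x n) : ℝ) * gs^[n] x + qn (wd x n) by linarith)] at h5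
  have h6 := mul_le_mul_of_nonneg_left h1 (abs_nonneg ((qp (wd x n) : ℝ) * x - pp (wd x n)))
  linarith

theorem cyl {z z' : ℝ} (h : InI z) (h' : InI z') (n : ℕ) (e : wd z n = wd z' n) :
    |z - z'| ≤ 1 / ((qn (wd z n) : ℝ)) ^ 2 := by
  obtain ⟨h1, h2, h3, h4⟩ := GaB_pos h n
  obtain ⟨h1', h2', h3', h4'⟩ := GaB_pos h' n
  have m := mob h n
  have m' := mob h' n
  have d := GaB_det z n
  rw [← e] at m' h1' h2'
  set A : ℝ := (qp (wd z n) : ℝ) * gs^[n] z + qn (wd z n) with hA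
  set A' : ℝ := (qp (wd z n) : ℝ) * gs^[n] z' + qn (wd z n) with hA'
  have k1 : (z - z') * (A * A') = (-1) ^ n * (gs^[n] z - gs^[n] z') := by
    rw [hA, hA']
    rw [hA] at m
    rw [hA'] at m'
    linear_combination ((qp (wd z n) : ℝ) * gs^[n] z' + qn (wd z n)) * m -
      ((qp (wd z n) : ℝ) * gs^[n] z + qn (wd z n)) * m' + (gs^[n] z - gs^[n] z') * d
  have k2 := congrArg abs k1
  have hA0 : 0 < A := by linarith
  have hA0' : 0 < A' := by linarith
  rw [abs_mul (z - z') (A * A'), abs_of_pos (mul_pos hA0 hA0'), abs_mul ((-1) ^ n), abs_pow,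
    abs_neg, abs_one, one_pow, one_mul] at k2
  have k3 : |gs^[n] z - gs^[n] z'| ≤ 1 := by
    rw [abs_le]
    constructor <;> linarith
  have k4 : (qn (wd z n) : ℝ) ^ 2 ≤ A * A' := by
    rw [pow_two]
    exact mul_le_mul h1 h1' (by linarith) hA0.le
  rw [le_div_iff₀ (by positivity)]
  calc |z - z'| * (qn (wd z n) : ℝ) ^ 2 ≤ |z - z'| * (A * A') :=
        mul_le_mul_of_nonneg_left k4 (abs_nonneg _)
    _ ≤ 1 := by rw [k2]; exact k3

end MLG
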