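import Pool.Agent.H52.MLG.GaB

/-! MLG GaC (last third): continued fractions of real numbers of (0,1).

PROOFS.  For irrational x in (0,1): 1/x > 1 is irrational, dg x = floor(1/x) >= 1,
gs x = fract(1/x) in (0,1) irrational, x (dg x + gs x) = 1.  `wd_add`: induction on m.
`mob`: induction on n generalizing x: with y = gs x, v = wd y n, z = gs^[n] y and
y (qp v z + qn v) = pp v z + pn v one gets for w = dg x :: v:
x (qp w z + qn w) = x ((pp v z + pn v) + dg x (qp v z + qn v)) = x (y + dg x)(qp v z + qn v)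
= qp v z + qn v = pp w z + pn w.
`err_sign`, `err_sign'`: multiply out, use `mob` and `cf_det` (length of wd x n is n).
`err1`: qp z + qn >= qn > 0.   `err2`: same.
`cyl`: with w = wd z n = wd z' n, Z = gs^[n] z, Z' = gs^[n] z' in (0,1):
z - z' = (pp Z + pn)/(qp Z + qn) - (pp Z' + pn)/(qp Z' + qn) = ± (Z - Z')/((qp Z + qn)(qp Z' + qn)).
`exists_last`: qn (wd x n) is unbounded (length_le_log) and qn(wd x (n+1)) <= (A+1) qn(wd x n)
(qn_snoc_le), qn (wd x 0) = 1 <= X; take the first n with X < qn (wd x (n+1)) .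
`exists_len`: same, take the first n with Q <= qn (wd x n). -/

namespace MLG

theorem GaC_step {A : ℕ} {x : ℝ} (h : Dg A x) (n : ℕ) :
    qn (wd x (n + 1)) ≤ (A + 1) * qn (wd x n) := by
  have h1 : wd x (n + 1) = wd x n ++ [dg (gs^[n] x)] := by
    rw [wd_add x n 1]
    rfl
  rw [h1]
  exact (qn_snoc_le (wd_pos h.1 n) _).trans
    (Nat.mul_le_mul_right _ (Nat.succ_le_succ (h.2 n)))

theorem GaC_unb {A : ℕ} {x : ℝ} (h : Dg A x) (M : ℕ) : ∃ n : ℕ, M < qn (wd x n) := by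
  by_contra hc
  push Not at hc
  have h1 := length_le_log (wd_pos h.1 (2 * Nat.log 2 M + 2))
  rw [wd_length] at h1
  have h2 : Nat.log 2 (qn (wd x (2 * Nat.log 2 M + 2))) ≤ Nat.log 2 M :=
    Nat.log_mono_right (hc _)
  omega

theorem exists_last {A : ℕ} {x : ℝ} (h : Dg A x) (X : ℝ) (hX : 1 ≤ X) :
    ∃ n : ℕ, (qn (wd x n) : ℝ) ≤ X ∧ X < ((A : ℝ) + 1) * qn (wd x n) := by
  classical
  have hex : ∃ n : ℕ, X < (qn (wd x n) : ℝ) := by
    obtain ⟨n, hn⟩ := GaC_unb h ⌈X⌉₊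
    exact ⟨n, (Nat.le_ceil X).trans_lt (by exact_mod_cast hn)⟩
  have hm := Nat.find_spec hex
  have hmin := fun k hk => Nat.find_min hex (m := k) hk
  generalize Nat.find hex = m at hm hmin
  rcases m with _ | n
  · exfalso
    have h0 : qn (wd x 0) = 1 := rfl
    rw [h0] at hm
    push_cast at hm
    linarith
  · have h1 := hmin n (Nat.lt_succ_self n)
    have h2 : (qn (wd x (n + 1)) : ℝ) ≤ ((A : ℝ) + 1) * qn (wd x n) := by
      exact_mod_cast GaC_step h n
    exact ⟨n, not_lt.1 h1, hm.trans_le h2⟩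

theorem exists_len {A : ℕ} {x : ℝ} (h : Dg A x) (Q : ℕ) (hQ : 1 ≤ Q) :
    ∃ n : ℕ, Q ≤ qn (wd x n) ∧ qn (wd x n) ≤ (A + 1) * Q := by
  classical
  have hex : ∃ n : ℕ, Q ≤ qn (wd x n) := by
    obtain ⟨n, hn⟩ := GaC_unb h Q
    exact ⟨n, hn.le⟩
  have hm := Nat.find_spec hex
  have hmin := fun k hk => Nat.find_min hex (m := k) hk
  generalize Nat.find hex = m at hm hmin
  rcases m with _ | n
  · refine ⟨0, hm, ?_⟩
    have h0 : qn (wd x 0) = 1 := rfl
    rw [h0]
    exact Nat.succ_le_of_lt (Nat.mul_pos (Nat.succ_pos A) hQ)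
  · have h1 := hmin n (Nat.lt_succ_self n)
    refine ⟨n + 1, hm, (GaC_step h n).trans (Nat.mul_le_mul_left _ (not_le.1 h1).le)⟩

end MLG
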