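import Pool.Agent.H52.MLG.Stt

/-! MLG HpA (hp): walks and the Hilbert-Schmidt norm. -/

namespace MLG

open Classical in
/-- number of walks. -/
private noncomputable def HpA_P (s : ℕ) (Ww : Finset (List ℕ)) (ok : ℕ → List ℕ → Prop) :
    ℕ → ℕ → ℝ
  | 0, _ => 1
  | r + 1, u => ∑ w ∈ Ww.filter (fun w => ok u w), HpA_P s Ww ok r (nx s u w)

private theorem HpA_P_nonneg (s : ℕ) (Ww : Finset (List ℕ)) (ok : ℕ → List ℕ → Prop) (r : ℕ) :
    ∀ u, 0 ≤ HpA_P s Ww ok r u := by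
  induction r with
  | zero => intro u; simp [HpA_P]
  | succ r ih => intro u; exact Finset.sum_nonneg fun w _ => ih _

private theorem HpA_card (s : ℕ) (Ww : Finset (List ℕ)) (ok : ℕ → List ℕ → Prop) (r : ℕ) :
    ∀ u, ((Walk s Ww ok r u).card : ℝ) ≤ HpA_P s Ww ok r u := by
  classical
  induction r with
  | zero => intro u; simp [HpA_P, Walk]
  | succ r ih =>
    intro u
    unfold Walk HpA_P
    refine le_trans (Nat.cast_le.mpr Finset.card_biUnion_le) ?_
    push_cast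
    refine Finset.sum_le_sum fun w _ => ?_
    exact le_trans (Nat.cast_le.mpr Finset.card_image_le) (ih _)

open Classical in
theorem hp (s : ℕ) (Ww : Finset (List ℕ)) (ok : ℕ → List ℕ → Prop) (H : ℝ) (hH : 0 ≤ H)
    (hb : ∑ u ∈ Finset.range (s + 1), ∑ w ∈ Ww.filter (fun w => ok u w),
      ((Ww.filter (fun w' => ok u w' ∧ nx s u w' = nx s u w)).card : ℝ) ≤ H ^ 2) (r : ℕ) :
    ∑ u ∈ Finset.range (s + 1), ((Walk s Ww ok r u).card : ℝ) ≤ ((s : ℝ) + 1) * H ^ r := by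
  set P := HpA_P s Ww ok with hP
  set b : ℕ → ℕ → ℝ := fun u v => ((Ww.filter (fun w' => ok u w' ∧ nx s u w' = v)).card : ℝ) with hbdef
  have hmaps : ∀ u, ∀ w ∈ Ww.filter (fun w => ok u w), nx s u w ∈ Finset.range (s + 1) := by
    intro u w _
    exact Finset.mem_range.mpr (Nat.lt_succ_of_le (nx_le s u w))
  have hfib : ∀ u (f : ℕ → ℝ), ∑ w ∈ Ww.filter (fun w => ok u w), f (nx s u w) =
      ∑ v ∈ Finset.range (s + 1), b u v * f v := by
    intro u f
    rw [← Finset.sum_fiberwise_of_maps_to (hmaps u)]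
    refine Finset.sum_congr rfl fun v _ => ?_
    have : ∑ w ∈ (Ww.filter (fun w => ok u w)).filter (fun w => nx s u w = v), f (nx s u w) =
        ∑ w ∈ (Ww.filter (fun w => ok u w)).filter (fun w => nx s u w = v), f v := by
      refine Finset.sum_congr rfl fun w hw => ?_
      rw [(Finset.mem_filter.mp hw).2]
    rw [this, Finset.sum_const, nsmul_eq_mul, Finset.filter_filter]
  have hb2 : ∑ u ∈ Finset.range (s + 1), ∑ v ∈ Finset.range (s + 1), b u v ^ 2 ≤ H ^ 2 := by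
    refine le_trans (le_of_eq ?_) hb
    refine Finset.sum_congr rfl fun u _ => ?_
    rw [hfib u (fun v => b u v)]
    refine Finset.sum_congr rfl fun v _ => ?_
    ring
  have hstep : ∀ r, ∑ u ∈ Finset.range (s + 1), P (r + 1) u ^ 2 ≤
      H ^ 2 * ∑ u ∈ Finset.range (s + 1), P r u ^ 2 := by
    intro r
    have h1 : ∀ u, P (r + 1) u ^ 2 ≤ (∑ v ∈ Finset.range (s + 1), b u v ^ 2) *
        ∑ v ∈ Finset.range (s + 1), P r v ^ 2 := by
      intro u
      have : P (r + 1) u = ∑ v ∈ Finset.range (s + 1), b u v * P r v := hfib u (P r)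
      rw [this]
      exact Finset.sum_mul_sq_le_sq_mul_sq _ _ _
    calc ∑ u ∈ Finset.range (s + 1), P (r + 1) u ^ 2
        ≤ ∑ u ∈ Finset.range (s + 1), (∑ v ∈ Finset.range (s + 1), b u v ^ 2) *
            ∑ v ∈ Finset.range (s + 1), P r v ^ 2 := Finset.sum_le_sum fun u _ => h1 u
      _ = (∑ u ∈ Finset.range (s + 1), ∑ v ∈ Finset.range (s + 1), b u v ^ 2) *
            ∑ v ∈ Finset.range (s + 1), P r v ^ 2 := by rw [Finset.sum_mul]
      _ ≤ H ^ 2 * ∑ u ∈ Finset.range (s + 1), P r u ^ 2 :=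
          mul_le_mul_of_nonneg_right hb2 (Finset.sum_nonneg fun _ _ => sq_nonneg _)
  have hall : ∀ r, ∑ u ∈ Finset.range (s + 1), P r u ^ 2 ≤ ((s : ℝ) + 1) * (H ^ r) ^ 2 := by
    intro r
    induction r with
    | zero => simp [hP, HpA_P]
    | succ r ih =>
      refine le_trans (hstep r) ?_
      calc H ^ 2 * ∑ u ∈ Finset.range (s + 1), P r u ^ 2
          ≤ H ^ 2 * (((s : ℝ) + 1) * (H ^ r) ^ 2) := mul_le_mul_of_nonneg_left ih (sq_nonneg _)
        _ = ((s : ℝ) + 1) * (H ^ (r + 1)) ^ 2 := by ring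
  have hsq : (∑ u ∈ Finset.range (s + 1), P r u) ^ 2 ≤ (((s : ℝ) + 1) * H ^ r) ^ 2 := by
    have h1 : (∑ u ∈ Finset.range (s + 1), P r u) ^ 2 ≤
        ((Finset.range (s + 1)).card : ℝ) * ∑ u ∈ Finset.range (s + 1), P r u ^ 2 :=
      sq_sum_le_card_mul_sum_sq
    rw [Finset.card_range] at h1
    refine le_trans h1 ?_
    push_cast
    calc ((s : ℝ) + 1) * ∑ u ∈ Finset.range (s + 1), P r u ^ 2
        ≤ ((s : ℝ) + 1) * (((s : ℝ) + 1) * (H ^ r) ^ 2) :=
          mul_le_mul_of_nonneg_left (hall r) (by positivity)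
      _ = (((s : ℝ) + 1) * H ^ r) ^ 2 := by ring
  have h0 : 0 ≤ ∑ u ∈ Finset.range (s + 1), P r u :=
    Finset.sum_nonneg fun u _ => HpA_P_nonneg s Ww ok r u
  have h2 : ∑ u ∈ Finset.range (s + 1), P r u ≤ ((s : ℝ) + 1) * H ^ r := by
    have h3 : 0 ≤ ((s : ℝ) + 1) * H ^ r := by positivity
    exact (pow_le_pow_iff_left₀ h0 h3 two_ne_zero).mp hsq
  exact le_trans (Finset.sum_le_sum fun u _ => HpA_card s Ww ok r u) h2

end MLG
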