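import Pool.Agent.H52.MLG.Sets
import Pool.Agent.H52.MLG.DgBad

/-! MLG KillA (kill1): the final multiplier.

PROOF of `kill1`.  For s in the filtered set let ζ_s = fract(t s z) (irrational, in (0,1)); BadTo (c/2) B ζ_s.
Let k be the least with qn (wd ζ_s k) > B; all the digits of v_s = wd ζ_s k are <= A2 (`badTo_dg`: the
digit number i+1 is bounded when qn (wd ζ_s i) <= B), so Bdd A2 v_s and
qn v_s <= (A2+1) B (`qn_snoc_le`).  If v_s = v_{s'} then |ζ_s - ζ_{s'}| <= 1/qn(v_s)^2 <= 1/B^2 (`cyl`).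
But t s z - t s' z - integer = ζ_s - ζ_{s'}, and for s ≠ s', m = t|s - s'|:
1/(A+2) <= m |ζ_s - ζ_{s'}| (`dg_bad`), so |s - s'| >= B^2/(t (A+2)).  A set of integers of
[B^2, 2 B^2) with gaps >= G has at most 1 + B^2/G elements: fibers of s ↦ v_s have at most
1 + t (A+2) elements.
PROOF of `kill`.  t = e.prod.  Let C4 = natural number with C4^2 >= 4 t/c, C4 >= 1, Q = C4 B^2.  Words
W = {w in Lang c e : Q <= qn w <= (A+1) Q}: at most C ((A+1) Q)^(2κ) = C' B^(4κ) of them.  For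
each w the number of s in [B^2, 2B^2) with BadTo (c/2) B (t s rep w) is at most
(1 + t(A+2)) C2 ((A2+1) B)^(2κ2) (`kill1`).  4κ + 2κ2 < 2, so for B large the total is < B^2 and some
s in [B^2, 2B^2) is good for all w in W.  Claim: no x satisfies XE c (e ++ [s]) x.  WLOG 0 < x < 1
(subtract floor, `XE_shift`; x irrational).  By `XE_append` XE c e x and Bad c (t s x).  Take a prefix
w = wd x n in W (`exists_len`); |x - rep w| <= 1/Q^2; for 1 <= m <= B and integer n:
m |m (t s rep w) - n| >= m |m t s x - n| - m^2 t s |x - rep w| >= c - B^2 t 2 B^2/Q^2 >= c/2.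
So BadTo (c/2) B (t s rep w): contradiction. -/

namespace MLG

private theorem KillA_mem {x : ℝ} {n a : ℕ} (h : a ∈ wd x n) :
    ∃ i, i < n ∧ a = dg (gs^[i] x) := by
  induction n generalizing x with
  | zero => exact absurd h List.not_mem_nil
  | succ n ih =>
    change a ∈ dg x :: wd (gs x) n at h
    rcases List.mem_cons.1 h with rfl | h1
    · exact ⟨0, by omega, rfl⟩
    · obtain ⟨i, hi, ha⟩ := ih h1
      exact ⟨i + 1, by omega, by rw [Function.iterate_succ_apply]; exact ha⟩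

private theorem KillA_fract {c x : ℝ} {M : ℕ} (h : BadTo c M x) : BadTo c M (Int.fract x) := by
  intro m h1 h2 n
  have h3 := h m h1 h2 (n + m * ⌊x⌋)
  have e : (m : ℝ) * x - ((n + m * ⌊x⌋ : ℤ) : ℝ) = m * Int.fract x - n := by
    push_cast
    rw [Int.fract]
    ring
  rwa [e] at h3

private theorem KillA_find {x : ℝ} (hx : InI x) (B : ℕ) :
    ∃ k, B < qn (wd x k) ∧ ∀ i < k, qn (wd x i) ≤ B := by
  have hex : ∃ k, B < qn (wd x k) := by
    refine ⟨2 * Nat.log 2 B + 2, ?_⟩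
    by_contra hcon
    rw [not_lt] at hcon
    have h1 := length_le_log (wd_pos hx (2 * Nat.log 2 B + 2))
    rw [wd_length] at h1
    have h2 := Nat.log_mono_right (b := 2) hcon
    omega
  exact ⟨Nat.find hex, Nat.find_spec hex, fun i hi => not_lt.1 (Nat.find_min hex hi)⟩

private theorem KillA_word {c : ℝ} (hc : 0 < c) {A2 : ℕ} (hA2 : 2 / c ≤ A2) {B : ℕ} (hB : 1 ≤ B)
    {x : ℝ} (hx : InI x) (hb : BadTo (c / 2) B x) {k : ℕ} (hk : B < qn (wd x k))
    (hk' : ∀ i < k, qn (wd x i) ≤ B) :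
    Bdd A2 (wd x k) ∧ (qn (wd x k) : ℝ) ≤ ((A2 : ℝ) + 1) * B := by
  have hc2 : 0 < c / 2 := by linarith
  have hA2' : 1 / (c / 2) ≤ (A2 : ℝ) := by
    rw [one_div_div]
    exact hA2
  have hdg : ∀ i < k, dg (gs^[i] x) ≤ A2 := fun i hi => badTo_dg hc2 hA2' hx hb i (hk' i hi)
  constructor
  · intro a ha
    obtain ⟨i, hi, rfl⟩ := KillA_mem ha
    exact ⟨dg_pos (iter_InI hx i), hdg i hi⟩
  · cases k with
    | zero =>
      change B < 1 at hk
      omega
    | succ j =>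
      have e : wd x (j + 1) = wd x j ++ [dg (gs^[j] x)] := by
        rw [wd_add]
        rfl
      have h1 := qn_snoc_le (wd_pos hx j) (dg (gs^[j] x))
      rw [← e] at h1
      have h2 : qn (wd x (j + 1)) ≤ (A2 + 1) * B :=
        le_trans h1 (Nat.mul_le_mul (by have := hdg j (by omega); omega) (hk' j (by omega)))
      exact_mod_cast h2

/-- two different elements of a fiber are far apart -/
private theorem KillA_gap {A : ℕ} {z : ℝ} (hz : Dg A z) {t : ℕ} (ht : 1 ≤ t) {B s s' k : ℕ}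
    (hss : s' < s) (h1 : InI (Int.fract (((t * s : ℕ) : ℝ) * z)))
    (h2 : InI (Int.fract (((t * s' : ℕ) : ℝ) * z)))
    (he : wd (Int.fract (((t * s : ℕ) : ℝ) * z)) k = wd (Int.fract (((t * s' : ℕ) : ℝ) * z)) k)
    (hk : B < qn (wd (Int.fract (((t * s : ℕ) : ℝ) * z)) k)) :
    B ^ 2 < (s - s') * (t * (A + 2)) := by
  have hcyl := cyl h1 h2 k he
  obtain ⟨q, hq⟩ : ∃ q, q = qn (wd (Int.fract (((t * s : ℕ) : ℝ) * z)) k) := ⟨_, rfl⟩
  rw [← hq] at hcyl hk
  have hm : 1 ≤ t * (s - s') := Nat.mul_pos ht (by omega)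
  have hbad := dg_bad hz (t * (s - s')) hm (⌊((t * s : ℕ) : ℝ) * z⌋ - ⌊((t * s' : ℕ) : ℝ) * z⌋)
  have e : ((t * (s - s') : ℕ) : ℝ) * z -
      ((⌊((t * s : ℕ) : ℝ) * z⌋ - ⌊((t * s' : ℕ) : ℝ) * z⌋ : ℤ) : ℝ) =
      Int.fract (((t * s : ℕ) : ℝ) * z) - Int.fract (((t * s' : ℕ) : ℝ) * z) := by
    rw [Int.fract, Int.fract]
    push_cast [Nat.cast_sub hss.le]
    ring
  rw [e] at hbad
  have hq0 : (0 : ℝ) < q := by exact_mod_cast (by omega : 0 < q)
  have hm0 : (0 : ℝ) ≤ ((t * (s - s') : ℕ) : ℝ) := Nat.cast_nonneg _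
  have h3 : 1 / ((A : ℝ) + 2) ≤ ((t * (s - s') : ℕ) : ℝ) * (1 / (q : ℝ) ^ 2) :=
    le_trans hbad (mul_le_mul_of_nonneg_left hcyl hm0)
  have hA0 : (0 : ℝ) < (A : ℝ) + 2 := by positivity
  rw [mul_one_div, div_le_div_iff₀ hA0 (by positivity), one_mul] at h3
  have h4 : q ^ 2 ≤ t * (s - s') * (A + 2) := by exact_mod_cast h3
  have h5 : B ^ 2 < q ^ 2 := Nat.pow_lt_pow_left hk (by norm_num)
  calc B ^ 2 < q ^ 2 := h5
    _ ≤ t * (s - s') * (A + 2) := h4
    _ = (s - s') * (t * (A + 2)) := by ring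

open Classical in
theorem kill1 {c : ℝ} (hc : 0 < c) {A A2 : ℕ} (hA2 : 2 / c ≤ A2) {z : ℝ} (hz : Dg A z) (t : ℕ)
    (ht : 1 ≤ t) (B : ℕ) (hB : 1 ≤ B) :
    (((Finset.Ico (B ^ 2) (2 * B ^ 2)).filter
        (fun s => BadTo (c / 2) B (((t * s : ℕ) : ℝ) * z))).card : ℝ)
      ≤ (1 + (t : ℝ) * (A + 2)) *
        ({w : List ℕ | Bdd A2 w ∧ (qn w : ℝ) ≤ ((A2 : ℝ) + 1) * B}.ncard : ℝ) := by
  obtain ⟨F, hF⟩ : ∃ F, F = (Finset.Ico (B ^ 2) (2 * B ^ 2)).filter
        (fun s => BadTo (c / 2) B (((t * s : ℕ) : ℝ) * z)) := ⟨_, rfl⟩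
  rw [← hF]
  have hB2 : 0 < B ^ 2 := by positivity
  have hmem : ∀ s ∈ F, B ^ 2 ≤ s ∧ s < 2 * B ^ 2 ∧ BadTo (c / 2) B (((t * s : ℕ) : ℝ) * z) := by
    intro s hs
    rw [hF, Finset.mem_filter, Finset.mem_Ico] at hs
    exact ⟨hs.1.1, hs.1.2, hs.2⟩
  have hInI : ∀ s ∈ F, InI (Int.fract (((t * s : ℕ) : ℝ) * z)) := by
    intro s hs
    have hs0 : t * s ≠ 0 := by
      have := (hmem s hs).1
      have h1 : 0 < s := by omega
      positivity
    have h1 : Irrational (((t * s : ℕ) : ℝ) * z) := hz.1.1.natCast_mul hs0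
    have h2 : Irrational (Int.fract (((t * s : ℕ) : ℝ) * z)) := by
      rw [Int.fract]
      exact h1.sub_intCast _
    exact ⟨h2, lt_of_le_of_ne (Int.fract_nonneg _) (Ne.symm h2.ne_zero), Int.fract_lt_one _⟩
  have hkey : ∀ s ∈ F, ∃ k, B < qn (wd (Int.fract (((t * s : ℕ) : ℝ) * z)) k) ∧
      ∀ i < k, qn (wd (Int.fract (((t * s : ℕ) : ℝ) * z)) i) ≤ B :=
    fun s hs => KillA_find (hInI s hs) B
  choose! k hk1 hk2 using hkey
  have hWfin : {w : List ℕ | Bdd A2 w ∧ (qn w : ℝ) ≤ ((A2 : ℝ) + 1) * B}.Finite := by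
    apply (fin_bdd A2 ((A2 + 1) * B)).subset
    rintro w ⟨h1, h2⟩
    refine ⟨h1, ?_⟩
    exact_mod_cast h2
  have hcard : F.card ≤ (hWfin.toFinset ×ˢ Finset.range (t * (A + 2))).card := by
    apply Finset.card_le_card_of_injOn (fun s => (wd (Int.fract (((t * s : ℕ) : ℝ) * z)) (k s),
      (s - B ^ 2) * (t * (A + 2)) / B ^ 2))
    · intro s hs
      rw [Finset.mem_coe] at hs
      rw [Finset.coe_product, Set.mem_prod]
      constructor
      · rw [Finset.mem_coe, Set.Finite.mem_toFinset]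
        exact KillA_word hc hA2 hB (hInI s hs) (KillA_fract (hmem s hs).2.2) (hk1 s hs) (hk2 s hs)
      · rw [Finset.mem_coe, Finset.mem_range]
        apply Nat.div_lt_of_lt_mul
        apply Nat.mul_lt_mul_of_pos_right
        · have := (hmem s hs).2.1
          omega
        · positivity
    · have hinj : ∀ s ∈ F, ∀ s' ∈ F, s' < s →
          wd (Int.fract (((t * s : ℕ) : ℝ) * z)) (k s) =
            wd (Int.fract (((t * s' : ℕ) : ℝ) * z)) (k s') →
          (s - B ^ 2) * (t * (A + 2)) / B ^ 2 = (s' - B ^ 2) * (t * (A + 2)) / B ^ 2 →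
          False := by
        intro s hs s' hs' hss he1 he2
        have hkk : k s = k s' := by
          have h3 := congrArg List.length he1
          rwa [wd_length, wd_length] at h3
        rw [← hkk] at he1
        have hgap := KillA_gap hz ht hss (hInI s hs) (hInI s' hs') he1 (hk1 s hs)
        have h4 := Nat.lt_mul_div_succ ((s - B ^ 2) * (t * (A + 2))) hB2
        have h5 := Nat.mul_div_le ((s' - B ^ 2) * (t * (A + 2))) (B ^ 2)
        rw [he2] at h4
        have h6 := (hmem s' hs').1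
        have h7 : (s - B ^ 2) * (t * (A + 2)) =
            (s' - B ^ 2) * (t * (A + 2)) + (s - s') * (t * (A + 2)) := by
          rw [← Nat.add_mul]
          congr 1
          omega
        rw [h7] at h4
        generalize t * (A + 2) = T at h4 h5 hgap
        rw [Nat.mul_add (B ^ 2), Nat.mul_one] at h4
        omega
      intro s hs s' hs' he
      rw [Finset.mem_coe] at hs hs'
      have he1 := congrArg Prod.fst he
      have he2 := congrArg Prod.snd he
      dsimp only at he1 he2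
      rcases lt_trichotomy s s' with h | h | h
      · exact (hinj s' hs' s hs h he1.symm he2.symm).elim
      · exact h
      · exact (hinj s hs s' hs' h he1 he2).elim
  rw [Finset.card_product, Finset.card_range, ← Set.ncard_eq_toFinset_card _ hWfin] at hcard
  obtain ⟨W, hW⟩ : ∃ W, W = {w : List ℕ | Bdd A2 w ∧ (qn w : ℝ) ≤ ((A2 : ℝ) + 1) * B}.ncard :=
    ⟨_, rfl⟩
  rw [← hW] at hcard ⊢
  have h8 : (F.card : ℝ) ≤ (W : ℝ) * ((t : ℝ) * (A + 2)) := by exact_mod_cast hcard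
  have h9 : (0 : ℝ) ≤ W := Nat.cast_nonneg _
  linarith

end MLG
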