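import Pool.Agent.H52.MLG.Deg

/-! MLG NumB (logb): real analysis for the step and the number of primes.

PROOFS.  `prim`: the number of primes up to S = B^(2k) is >= (S log 2 - log (S+1))/log S
(Mathlib: Chebyshev.pi_ge, Nat.primeCounting), log S = 2 k log B, log 2 > 0.69; subtract
2 (A+1)^2 B^(k+1) = o(S/log B) (k >= 2).
`logb`: elementary (Nat.log 2 m <= Real.logb 2 m, log of a product/power).
`num`: with L = log B >= 1: OK <= 8 k C1 L N Y, and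
A2 <= 16 k C2 L^2 N^3 / B^(2k) + 4 C2 L N^2 <= C4 L^2 N^2 because N <= C3 B^(2κ(k+1)) <= C3 B^(2k).
So OK + √(OK A2) <= C5 L^2 (N Y + √(N^3 Y)) and N Y <= C3^2 B^(κ(4k+2)), √(N^3 Y) <= C3^2 B^(κ(4k+3)),
and L^2 C6 <= B^(κ/2) for B large (isLittleO_log_rpow_rpow_atTop or similar). -/

namespace MLG

open Filter

private theorem NumB_one_le_log {B : ℕ} (hB : 3 ≤ B) : 1 ≤ Real.log (B : ℝ) := by
  rw [Real.le_log_iff_exp_le (by positivity)]
  have h1 : Real.exp 1 < 3 := lt_trans Real.exp_one_lt_d9 (by norm_num)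
  have h2 : (3 : ℝ) ≤ (B : ℝ) := by exact_mod_cast hB
  linarith

private theorem NumB_log (c n : ℕ) (hc : 1 ≤ c) : ∃ C : ℝ, 0 ≤ C ∧ ∀ B : ℕ, 3 ≤ B →
    (Nat.log 2 (c * B ^ n) : ℝ) ≤ C * Real.log B := by
  have hl2 : 0 < Real.log 2 := Real.log_pos (by norm_num)
  have hc1 : (1 : ℝ) ≤ (c : ℝ) := by exact_mod_cast hc
  have hlc : 0 ≤ Real.log (c : ℝ) := Real.log_nonneg hc1
  refine ⟨(Real.log c + n) / Real.log 2, by positivity, ?_⟩
  intro B hB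
  have hL : 1 ≤ Real.log (B : ℝ) := NumB_one_le_log hB
  have hB0 : (B : ℝ) ≠ 0 := by
    have : B ≠ 0 := by omega
    exact_mod_cast this
  have hc0 : (c : ℝ) ≠ 0 := by linarith
  have h1 : ((Nat.log 2 (c * B ^ n) : ℕ) : ℝ) ≤ Real.logb 2 ((c * B ^ n : ℕ) : ℝ) := by
    have := Real.natLog_le_logb (c * B ^ n) 2
    exact_mod_cast this
  have h2 : Real.logb 2 ((c * B ^ n : ℕ) : ℝ) = (Real.log c + n * Real.log B) / Real.log 2 := by
    unfold Real.logb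
    push_cast
    rw [Real.log_mul hc0 (pow_ne_zero _ hB0), Real.log_pow]
  rw [h2] at h1
  refine h1.trans ?_
  rw [div_mul_eq_mul_div]
  apply div_le_div_of_nonneg_right _ hl2.le
  have h3 : Real.log c ≤ Real.log c * Real.log B := le_mul_of_one_le_right hlc hL
  linarith

theorem logb (A k : ℕ) : ∃ C : ℝ, 0 < C ∧ ∀ B : ℕ, 3 ≤ B →
    (Nat.log 2 (20 * ((A + 1) ^ 2 * B ^ (k + 1)) ^ 8) : ℝ) ≤ C * Real.log B ∧
    (dB A ((A + 1) ^ 2 * B ^ (k + 1)) : ℝ) ≤ C * Real.log B := by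
  obtain ⟨C1, hC1, h1⟩ := NumB_log (20 * (A + 1) ^ 16) (8 * (k + 1))
    (Nat.one_le_iff_ne_zero.2 (by positivity))
  obtain ⟨C2, hC2, h2⟩ := NumB_log (4 * (A + 1) ^ 4) (2 * (k + 1))
    (Nat.one_le_iff_ne_zero.2 (by positivity))
  obtain ⟨D, hD⟩ : ∃ D : ℝ, D = 16 * ((A : ℝ) + 2) * ((A : ℝ) + 1) ^ 2 + 2 := ⟨_, rfl⟩
  have hD0 : 0 < D := by rw [hD]; positivity
  refine ⟨C1 + 2 * (8 * (2 * C2 + 3) + D), by positivity, ?_⟩
  intro B hB
  have hL : 1 ≤ Real.log (B : ℝ) := NumB_one_le_log hB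
  have e1 : 20 * ((A + 1) ^ 2 * B ^ (k + 1)) ^ 8 = 20 * (A + 1) ^ 16 * B ^ (8 * (k + 1)) := by
    ring
  have e2 : 4 * ((A + 1) ^ 2 * B ^ (k + 1)) ^ 2 = 4 * (A + 1) ^ 4 * B ^ (2 * (k + 1)) := by
    ring
  have h1' := h1 B hB
  have h2' := h2 B hB
  constructor
  · rw [e1]
    refine h1'.trans ?_
    apply mul_le_mul_of_nonneg_right _ (by linarith)
    have : 0 ≤ 2 * (8 * (2 * C2 + 3) + D) := by positivity
    linarith
  · unfold dB
    rw [e2]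
    push_cast
    have h3 : (D : ℝ) ≤ D * Real.log B := le_mul_of_one_le_right hD0.le hL
    have h4 : 0 ≤ C1 * Real.log B := by positivity
    rw [hD] at h3 ⊢
    nlinarith [h2', h3, h4, hL]

end MLG
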