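import Mathlib

/-! MLG NumC (num): real analysis for the step and the number of primes.

PROOFS.  `prim`: the number of primes up to S = B^(2k) is >= (S log 2 - log (S+1))/log S
(Mathlib: Chebyshev.pi_ge, Nat.primeCounting), log S = 2 k log B, log 2 > 0.69; subtract
2 (A+1)^2 B^(k+1) = o(S/log B) (k >= 2).
`logb`: elementary (Nat.log 2 m <= Real.logb 2 m, log of a product/power).
`num`: with L = log B >= 1: OK <= 8 k C1 L N Y, and
A2 <= 16 k C2 L^2 N^3 / B^(2k) + 4 C2 L N^2 <= C4 L^2 N^2 because N <= C3 B^(2κ(k+1)) <= C3 B^(2k).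
So OK + √(OK A2) <= C5 L^2 (N Y + √(N^3 Y)) and N Y <= C3^2 B^(κ(4k+2)), √(N^3 Y) <= C3^2 B^(κ(4k+3)),
and L^2 C6 <= B^(κ/2) for B large (isLittleO_log_rpow_rpow_atTop or similar). -/

namespace MLG

open Filter

private theorem NumC_core (C1 C2 C3 κ : ℝ) (k : ℕ) (hC1 : 0 < C1) (hC2 : 0 < C2) (hC3 : 0 < C3)
    (hκ : 0 < κ) (hk : 2 ≤ k) (hκk : κ * (k + 1) ≤ k) (b L : ℝ) (hb : 1 ≤ b) (hL : 1 ≤ L)
    (N Y n OK A2 : ℝ) (hN : 0 ≤ N) (hY : 0 ≤ Y) (hN1 : N ≤ C3 * b ^ (2 * κ * (k + 1)))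
    (hY1 : Y ≤ C3 * b ^ (2 * κ * k)) (hn : b ^ (2 * k) / (4 * k * L) ≤ n) (_hOK : 0 ≤ OK)
    (hA2 : 0 ≤ A2) (h1 : OK ≤ 2 * (N * Y * C1 * b ^ (2 * k)) / n)
    (h2 : A2 ≤ 2 * (2 * N ^ 3 * (C2 * L) + n * (2 * N ^ 2 * (C2 * L))) / n) :
    OK + √(OK * A2) ≤ (8 * k * C1 * C3 ^ 2 + √(8 * k * C1 * (16 * k * C2 * C3 + 4 * C2)) * C3 ^ 2)
      * L ^ 2 * b ^ (κ * (4 * k + 3)) := by
  have hk' : (2 : ℝ) ≤ k := by exact_mod_cast hk
  have hk0 : (0 : ℝ) < k := by linarith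
  have hb0 : 0 < b := by linarith
  have hL0 : 0 < L := by linarith
  obtain ⟨S, hS⟩ : ∃ S, S = b ^ (2 * k) := ⟨_, rfl⟩
  obtain ⟨E, hE⟩ : ∃ E, E = b ^ (κ * (4 * k + 3)) := ⟨_, rfl⟩
  obtain ⟨C4, hC4⟩ : ∃ C4, C4 = 16 * k * C2 * C3 + 4 * C2 := ⟨_, rfl⟩
  have hC40 : 0 < C4 := by rw [hC4]; positivity
  rw [← hS] at hn h1
  rw [← hE, ← hC4]
  have hS1 : 1 ≤ S := by rw [hS]; exact one_le_pow₀ hb
  have hE0 : 0 < E := by rw [hE]; exact Real.rpow_pos_of_pos hb0 _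
  have h4kL : 0 < 4 * k * L := by positivity
  have hn0 : 0 < n := lt_of_lt_of_le (div_pos (by linarith) h4kL) hn
  have hSn : S ≤ n * (4 * k * L) := by rwa [div_le_iff₀ h4kL] at hn
  -- bound for OK
  have hOK1 : OK ≤ 8 * k * C1 * L * (N * Y) := by
    refine le_trans h1 ?_
    rw [div_le_iff₀ hn0]
    have h3 : 0 ≤ 2 * (N * Y * C1) := by positivity
    have h4 := mul_le_mul_of_nonneg_left hSn h3
    linarith
  -- bound of N by S
  have hNS : N ≤ C3 * S := by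
    refine le_trans hN1 (mul_le_mul_of_nonneg_left ?_ hC3.le)
    rw [hS, ← Real.rpow_natCast]
    apply Real.rpow_le_rpow_of_exponent_le hb
    push_cast
    linarith
  have hA21 : A2 ≤ C4 * L ^ 2 * N ^ 2 := by
    refine le_trans h2 ?_
    rw [div_le_iff₀ hn0]
    have h5 : N ^ 3 ≤ N ^ 2 * (C3 * (n * (4 * k * L))) := by
      have h6 : N ≤ C3 * (n * (4 * k * L)) :=
        le_trans hNS (mul_le_mul_of_nonneg_left hSn hC3.le)
      calc N ^ 3 = N ^ 2 * N := by ring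
        _ ≤ N ^ 2 * (C3 * (n * (4 * k * L))) := mul_le_mul_of_nonneg_left h6 (by positivity)
    have h7 : L ≤ L ^ 2 := by nlinarith
    have h8 : 0 ≤ 4 * (C2 * L) := by positivity
    have h9 := mul_le_mul_of_nonneg_left h5 h8
    have h10 : 0 ≤ 4 * C2 * N ^ 2 * n := by positivity
    have h11 := mul_le_mul_of_nonneg_left h7 h10
    rw [hC4]
    nlinarith
  -- powers
  have hp0 : 0 ≤ b ^ (2 * κ * (k + 1)) := Real.rpow_nonneg hb0.le _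
  have hq0 : 0 ≤ b ^ (2 * κ * k) := Real.rpow_nonneg hb0.le _
  have hNY : N * Y ≤ C3 ^ 2 * E := by
    calc N * Y ≤ (C3 * b ^ (2 * κ * (k + 1))) * (C3 * b ^ (2 * κ * k)) :=
          mul_le_mul hN1 hY1 hY (by positivity)
      _ = C3 ^ 2 * (b ^ (2 * κ * (k + 1)) * b ^ (2 * κ * k)) := by ring
      _ = C3 ^ 2 * b ^ (2 * κ * (k + 1) + 2 * κ * k) := by rw [Real.rpow_add hb0]
      _ ≤ C3 ^ 2 * E := by
          apply mul_le_mul_of_nonneg_left _ (by positivity)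
          rw [hE]
          apply Real.rpow_le_rpow_of_exponent_le hb
          nlinarith
  have hN3Y : N ^ 3 * Y ≤ C3 ^ 4 * E ^ 2 := by
    calc N ^ 3 * Y ≤ (C3 * b ^ (2 * κ * (k + 1))) ^ 3 * (C3 * b ^ (2 * κ * k)) :=
          mul_le_mul (pow_le_pow_left₀ hN hN1 3) hY1 hY (by positivity)
      _ = C3 ^ 4 * ((b ^ (2 * κ * (k + 1))) ^ 3 * b ^ (2 * κ * k)) := by ring
      _ = C3 ^ 4 * E ^ 2 := by
          rw [hE, ← Real.rpow_mul_natCast hb0.le, ← Real.rpow_mul_natCast hb0.le,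
            ← Real.rpow_add hb0]
          congr 2
          push_cast
          ring
  have hL12 : L ≤ L ^ 2 := by nlinarith
  have hsum1 : OK ≤ 8 * k * C1 * C3 ^ 2 * L ^ 2 * E := by
    calc OK ≤ 8 * k * C1 * L * (N * Y) := hOK1
      _ ≤ 8 * k * C1 * L * (C3 ^ 2 * E) := mul_le_mul_of_nonneg_left hNY (by positivity)
      _ = (8 * k * C1 * C3 ^ 2 * E) * L := by ring
      _ ≤ (8 * k * C1 * C3 ^ 2 * E) * L ^ 2 := mul_le_mul_of_nonneg_left hL12 (by positivity)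
      _ = 8 * k * C1 * C3 ^ 2 * L ^ 2 * E := by ring
  have hsum2 : √(OK * A2) ≤ √(8 * k * C1 * C4) * C3 ^ 2 * L ^ 2 * E := by
    rw [Real.sqrt_le_iff]
    refine ⟨by positivity, ?_⟩
    have h12 : (√(8 * k * C1 * C4) * C3 ^ 2 * L ^ 2 * E) ^ 2 =
        8 * k * C1 * C4 * (C3 ^ 4 * E ^ 2) * L ^ 4 := by
      rw [mul_pow, mul_pow, mul_pow, Real.sq_sqrt (by positivity)]
      ring
    rw [h12]
    have hL34 : L ^ 3 ≤ L ^ 4 := pow_le_pow_right₀ hL (by norm_num)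
    calc OK * A2 ≤ (8 * k * C1 * L * (N * Y)) * (C4 * L ^ 2 * N ^ 2) :=
          mul_le_mul hOK1 hA21 hA2 (by positivity)
      _ = (8 * k * C1 * C4 * (N ^ 3 * Y)) * L ^ 3 := by ring
      _ ≤ (8 * k * C1 * C4 * (N ^ 3 * Y)) * L ^ 4 :=
          mul_le_mul_of_nonneg_left hL34 (by positivity)
      _ ≤ 8 * k * C1 * C4 * (C3 ^ 4 * E ^ 2) * L ^ 4 := by
          apply mul_le_mul_of_nonneg_right _ (by positivity)
          exact mul_le_mul_of_nonneg_left hN3Y (by positivity)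
  linarith

theorem num (C1 C2 C3 κ : ℝ) (k : ℕ) (hC1 : 0 < C1) (hC2 : 0 < C2) (hC3 : 0 < C3) (hκ : 0 < κ)
    (hk : 2 ≤ k) (hκk : κ * (k + 1) ≤ k) :
    ∀ᶠ B : ℕ in atTop, ∀ N Y n OK A2 : ℝ, 0 ≤ N → 0 ≤ Y →
      N ≤ C3 * (B : ℝ) ^ (2 * κ * (k + 1)) → Y ≤ C3 * (B : ℝ) ^ (2 * κ * k) →
      (B : ℝ) ^ (2 * k) / (4 * k * Real.log B) ≤ n → 0 ≤ OK → 0 ≤ A2 →
      OK ≤ 2 * (N * Y * C1 * (B : ℝ) ^ (2 * k)) / n →
      A2 ≤ 2 * (2 * N ^ 3 * (C2 * Real.log B) + n * (2 * N ^ 2 * (C2 * Real.log B))) / n →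
      OK + √(OK * A2) ≤ (B : ℝ) ^ (κ * (4 * k + 7 / 2)) := by
  obtain ⟨C6, hC6⟩ : ∃ C6, C6 = 8 * k * C1 * C3 ^ 2 +
    √(8 * k * C1 * (16 * k * C2 * C3 + 4 * C2)) * C3 ^ 2 := ⟨_, rfl⟩
  have hk0 : (0 : ℝ) < k := by exact_mod_cast (by omega : 0 < k)
  have hC60 : 0 < C6 := by rw [hC6]; positivity
  have hlo := (isLittleO_log_rpow_rpow_atTop (s := κ / 2) 2 (by linarith)).comp_tendsto
    (tendsto_natCast_atTop_atTop (R := ℝ))
  have hbd := hlo.bound (c := 1 / C6) (by positivity)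
  filter_upwards [hbd, eventually_ge_atTop 3] with B hB1 hB3 N Y n OK A2 hN hY hN1 hY1 hn hOK
    hA2 h1 h2
  have hB3' : (3 : ℝ) ≤ B := by exact_mod_cast hB3
  have hB0 : (0 : ℝ) < B := by linarith
  have hL1 : 1 ≤ Real.log B := by
    rw [Real.le_log_iff_exp_le hB0]
    have := Real.exp_one_lt_d9
    linarith
  have hcore := NumC_core C1 C2 C3 κ k hC1 hC2 hC3 hκ hk hκk B (Real.log B) (by linarith) hL1
    N Y n OK A2 hN hY hN1 hY1 hn hOK hA2 h1 h2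
  refine le_trans hcore ?_
  rw [← hC6]
  have h3 : C6 * Real.log B ^ 2 ≤ (B : ℝ) ^ (κ / 2) := by
    simp only [Function.comp_apply, Real.norm_eq_abs] at hB1
    rw [Real.rpow_two, abs_of_nonneg (by positivity), abs_of_nonneg (Real.rpow_nonneg hB0.le _),
      one_div, inv_mul_eq_div, le_div_iff₀ hC60] at hB1
    linarith
  calc C6 * Real.log B ^ 2 * (B : ℝ) ^ (κ * (4 * k + 3)) ≤
        (B : ℝ) ^ (κ / 2) * (B : ℝ) ^ (κ * (4 * k + 3)) :=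
        mul_le_mul_of_nonneg_right h3 (Real.rpow_nonneg hB0.le _)
    _ = (B : ℝ) ^ (κ * (4 * k + 7 / 2)) := by
        rw [← Real.rpow_add hB0]
        congr 1
        ring

end MLG
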