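import Pool.Agent.H52.MLG.Sets

/-! MLG NumA (prim): real analysis for the step and the number of primes.

PROOFS.  `prim`: the number of primes up to S = B^(2k) is >= (S log 2 - log (S+1))/log S
(Mathlib: Chebyshev.pi_ge, Nat.primeCounting), log S = 2 k log B, log 2 > 0.69; subtract
2 (A+1)^2 B^(k+1) = o(S/log B) (k >= 2).
`logb`: elementary (Nat.log 2 m <= Real.logb 2 m, log of a product/power).
`num`: with L = log B >= 1: OK <= 8 k C1 L N Y, and
A2 <= 16 k C2 L^2 N^3 / B^(2k) + 4 C2 L N^2 <= C4 L^2 N^2 because N <= C3 B^(2κ(k+1)) <= C3 B^(2k).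
So OK + √(OK A2) <= C5 L^2 (N Y + √(N^3 Y)) and N Y <= C3^2 B^(κ(4k+2)), √(N^3 Y) <= C3^2 B^(κ(4k+3)),
and L^2 C6 <= B^(κ/2) for B large (isLittleO_log_rpow_rpow_atTop or similar). -/

namespace MLG

open Filter

theorem prim (A k : ℕ) (hk : 2 ≤ k) :
    ∀ᶠ B : ℕ in atTop, (B : ℝ) ^ (2 * k) / (4 * k * Real.log B) ≤ ((pset A k B).card : ℝ) := by
  have hC : ∀ C : ℝ, 0 < C → ∀ᶠ B : ℕ in atTop, C * Real.log B ≤ B := by
    intro C hC
    have h1 := (Real.isLittleO_log_id_atTop.comp_tendsto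
      (tendsto_natCast_atTop_atTop (R := ℝ))).def (inv_pos.2 hC)
    filter_upwards [h1] with B h2
    have h4 : 0 ≤ Real.log B := Real.log_natCast_nonneg B
    simp only [Function.comp, id, Real.norm_eq_abs, abs_of_nonneg h4, Nat.abs_cast] at h2
    calc C * Real.log B ≤ C * (C⁻¹ * B) := by gcongr
      _ = B := by field_simp
  filter_upwards [hC (40 * k * (A + 1) ^ 2) (by positivity), hC (12 * (2 * k + 1)) (by positivity),
    eventually_ge_atTop 3] with B h1 h2 h3
  have hB : (3 : ℝ) ≤ B := by exact_mod_cast h3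
  have hB1 : (1 : ℝ) ≤ B := by linarith
  have hL : 0 < Real.log B := Real.log_pos (by linarith)
  set L := Real.log B with hLdef
  set S : ℕ := B ^ (2 * k) with hS
  set T : ℕ := 2 * ((A + 1) ^ 2 * B ^ (k + 1)) with hT
  -- counting
  have hcard : Nat.primeCounting S ≤ (pset A k B).card + T := by
    have e1 : Nat.primeCounting S = ((Finset.range (S + 1)).filter Nat.Prime).card := by
      rw [Nat.primeCounting, Nat.primeCounting', Nat.count_eq_card_filter_range]
    rw [e1]
    have e2 : (Finset.range (S + 1)).filter Nat.Prime ⊆ pset A k B ∪ Finset.Icc 1 T := by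
      intro p hp
      rw [Finset.mem_filter, Finset.mem_range] at hp
      rw [Finset.mem_union]
      by_cases hpT : p ≤ T
      · right
        exact Finset.mem_Icc.2 ⟨hp.2.one_le, hpT⟩
      · left
        rw [pset, Finset.mem_filter, Finset.mem_Icc]
        exact ⟨⟨hp.2.one_le, by omega⟩, hp.2, by omega⟩
    calc _ ≤ (pset A k B ∪ Finset.Icc 1 T).card := Finset.card_le_card e2
      _ ≤ (pset A k B).card + (Finset.Icc 1 T).card := Finset.card_union_le _ _
      _ = _ := by simp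
  have hcard' : (Nat.primeCounting S : ℝ) ≤ (pset A k B).card + T := by exact_mod_cast hcard
  have hpi := Chebyshev.pi_ge S
  have hSr : (S : ℝ) = (B : ℝ) ^ (2 * k) := by rw [hS]; push_cast; rfl
  have hTr : (T : ℝ) = 2 * ((A + 1) ^ 2 * (B : ℝ) ^ (k + 1)) := by rw [hT]; push_cast; rfl
  have hlogS : Real.log S = 2 * k * L := by
    rw [hSr, Real.log_pow]; push_cast; rfl
  have hSpos : (1 : ℝ) ≤ S := by rw [hSr]; exact one_le_pow₀ hB1
  have hlogS1 : Real.log (S + 1) ≤ (2 * k + 1) * L := by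
    have e1 : (S : ℝ) + 1 ≤ (B : ℝ) ^ (2 * k + 1) := by
      rw [pow_succ, ← hSr]; nlinarith
    calc Real.log (S + 1) ≤ Real.log ((B : ℝ) ^ (2 * k + 1)) :=
          Real.log_le_log (by positivity) e1
      _ = _ := by rw [Real.log_pow]; push_cast; rfl
  have hBS : (B : ℝ) ≤ S := by
    rw [hSr]
    exact le_self_pow₀ hB1 (by omega)
  have hBk : (B : ℝ) ^ (k + 1) * B ≤ S := by
    rw [hSr, ← pow_succ]
    exact pow_le_pow_right₀ hB1 (by omega)
  have hkr : (2 : ℝ) ≤ k := by exact_mod_cast hk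
  have hk0 : (0 : ℝ) < k := by linarith
  -- the two error terms
  have e1 : 4 * k * L * T ≤ S / 5 := by
    have hp : 0 < (B : ℝ) ^ (k + 1) := by positivity
    have : 40 * k * (A + 1) ^ 2 * L * (B : ℝ) ^ (k + 1) ≤ S :=
      calc 40 * k * (A + 1) ^ 2 * L * (B : ℝ) ^ (k + 1) ≤ B * (B : ℝ) ^ (k + 1) := by gcongr
        _ ≤ S := by rw [mul_comm]; exact hBk
    rw [hTr]
    nlinarith
  have e2 : 2 * Real.log (S + 1) ≤ S / 6 := by
    have : 12 * (2 * k + 1) * L ≤ (S : ℝ) := h2.trans hBS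
    linarith
  have hlog2 : (0.6931471803 : ℝ) < Real.log 2 := Real.log_two_gt_d9
  have e3 : (S : ℝ) + 4 * k * L * T ≤ 2 * (S * Real.log 2 - Real.log (S + 1)) := by
    nlinarith
  have e4 : (S : ℝ) / (4 * k * L) + T ≤ (S * Real.log 2 - Real.log (S + 1)) / Real.log S := by
    rw [hlogS]
    have hk4 : 0 < 4 * k * L := by positivity
    have e5 : (S : ℝ) / (4 * k * L) + T = ((S : ℝ) + 4 * k * L * T) / (4 * k * L) := by
      field_simp
    have e6 : (S * Real.log 2 - Real.log (S + 1)) / (2 * k * L)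
        = (2 * (S * Real.log 2 - Real.log (S + 1))) / (4 * k * L) := by
      field_simp
      ring
    rw [e5, e6]
    exact div_le_div_of_nonneg_right e3 hk4.le
  rw [← hSr]
  linarith

end MLG
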