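import Pool.Agent.H52.MLG.RtA

/-! MLG ResA (res_dvd, res_le): the resultant.

PROOFS.  Write f = (α,β,γ) = (al,be,ga) w1 w2, g = (α',β',γ') = (al,be,ga) w1 w3,
E = α β' - α' β, F = α γ' - α' γ, G = β γ' - β' γ, res = F^2 - E G.
`res_dvd`: by `same_form`, modulo s: α x^2 + β x y + γ y^2 = 0 and the same for g with
(x,y) = (ux,uy).  u = s: (1,0): α = α' = 0, F = E = 0.  u < s, y = 1: α g - α' f = E x + F = 0,
β g - β' f = - E x^2 + G = 0, so G = E x^2 = - F x and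
F^2 - E G = F^2 + E x F = F (F + E x) = 0 mod s.
`res_le`: |al| <= q1^2, |ga| <= q1^2, |be| <= 2 q1^2 (differences of nonnegative numbers; `entries_le`),
|F| <= 2 q1^4, |E|, |G| <= 4 q1^4, |res| <= 4 q1^8 + 16 q1^8.
`res_root`: if α = 0 and α' = 0: (1,0).  If α = 0, α' ≠ 0: res = α' (α' γ^2 - β' β γ + γ' β^2); β ≠ 0
(otherwise res = α'^2 γ^2 ≠ 0) and ξ = -γ/β, η = 1.  If α ≠ 0: let θ1, θ2 be the complex roots of
α X^2 + β X + γ; then res = α^2 g(θ1) g(θ2) (θ1 + θ2 = -β/α, θ1 θ2 = γ/α), so one g(θi) = 0. -/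

namespace MLG

theorem res_dvd {s : ℕ} (hs : s.Prime) {u : ℕ} (hu : u ≤ s) {w1 w2 w3 : List ℕ}
    (h2 : Same s u w1 w2) (h3 : Same s u w1 w3) : (s : ℤ) ∣ res w1 w2 w3 := by
  unfold Same at h2 h3
  rw [same_form] at h2 h3
  unfold res
  generalize al w1 w2 = a at *
  generalize be w1 w2 = b at *
  generalize ga w1 w2 = c at *
  generalize al w1 w3 = a' at *
  generalize be w1 w3 = b' at *
  generalize ga w1 w3 = c' at *
  by_cases h : u = s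
  · have hx : ux s u = 1 := by simp [ux, h]
    have hy : uy s u = 0 := by simp [uy, h]
    rw [hx, hy] at h2 h3
    obtain ⟨k, hk⟩ := h2
    obtain ⟨l, hl⟩ := h3
    have ha : a = s * k := by linarith
    have ha' : a' = s * l := by linarith
    refine ⟨(k * c' - l * c) * (a * c' - a' * c) - (k * b' - l * b) * (b * c' - b' * c), ?_⟩
    rw [ha, ha']
    ring
  · have hy : uy s u = 1 := by simp [uy, h]
    rw [hy] at h2 h3
    generalize ux s u = x at *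
    obtain ⟨k, hk⟩ := h2
    obtain ⟨l, hl⟩ := h3
    have e1 : (a * c' - a' * c) ^ 2 - (a * b' - a' * b) * (b * c' - b' * c) =
        ((a * c' - a' * c) - (a * b' - a' * b) * x) *
          (a * (a' * x ^ 2 + b' * x * 1 + c' * 1 ^ 2) - a' * (a * x ^ 2 + b * x * 1 + c * 1 ^ 2)) -
        (a * b' - a' * b) *
          (b * (a' * x ^ 2 + b' * x * 1 + c' * 1 ^ 2) - b' * (a * x ^ 2 + b * x * 1 + c * 1 ^ 2)) := by
      ring
    rw [e1, hk, hl]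
    refine ⟨((a * c' - a' * c) - (a * b' - a' * b) * x) * (a * l - a' * k) -
      (a * b' - a' * b) * (b * l - b' * k), ?_⟩
    ring

private theorem ResA_prod {x y q : ℤ} (hx0 : 0 ≤ x) (hx : x ≤ q) (hy0 : 0 ≤ y) (hy : y ≤ q) :
    0 ≤ x * y ∧ x * y ≤ q ^ 2 := by
  refine ⟨mul_nonneg hx0 hy0, ?_⟩
  calc x * y ≤ q * q := mul_le_mul hx hy hy0 (le_trans hx0 hx)
    _ = q ^ 2 := by ring

private theorem ResA_coef {q1 : ℕ} {w w' : List ℕ} (h : Pos w) (h' : Pos w') (k : qn w ≤ q1)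
    (k' : qn w' ≤ q1) :
    |al w w'| ≤ (q1 : ℤ) ^ 2 ∧ |be w w'| ≤ 2 * (q1 : ℤ) ^ 2 ∧ |ga w w'| ≤ (q1 : ℤ) ^ 2 := by
  obtain ⟨a1, a2, a3, -⟩ := entries_le h
  obtain ⟨b1, b2, b3, -⟩ := entries_le h'
  have hp : (pp w : ℤ) ≤ q1 := by exact_mod_cast a1.trans k
  have hn : (pn w : ℤ) ≤ q1 := by exact_mod_cast a2.trans k
  have hr : (qp w : ℤ) ≤ q1 := by exact_mod_cast a3.trans k
  have hq : (qn w : ℤ) ≤ q1 := by exact_mod_cast k
  have hp' : (pp w' : ℤ) ≤ q1 := by exact_mod_cast b1.trans k'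
  have hn' : (pn w' : ℤ) ≤ q1 := by exact_mod_cast b2.trans k'
  have hr' : (qp w' : ℤ) ≤ q1 := by exact_mod_cast b3.trans k'
  have hq' : (qn w' : ℤ) ≤ q1 := by exact_mod_cast k'
  have z : ∀ n : ℕ, (0 : ℤ) ≤ n := fun n => Int.natCast_nonneg n
  obtain ⟨c1, c2⟩ := ResA_prod (z _) hp (z _) hn'
  obtain ⟨c3, c4⟩ := ResA_prod (z _) hn (z _) hp'
  obtain ⟨c5, c6⟩ := ResA_prod (z _) hp (z _) hq'
  obtain ⟨c7, c8⟩ := ResA_prod (z _) hr (z _) hn'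
  obtain ⟨c9, c10⟩ := ResA_prod (z _) hn (z _) hr'
  obtain ⟨c11, c12⟩ := ResA_prod (z _) hq (z _) hp'
  obtain ⟨c13, c14⟩ := ResA_prod (z _) hr (z _) hq'
  obtain ⟨c15, c16⟩ := ResA_prod (z _) hq (z _) hr'
  refine ⟨?_, ?_, ?_⟩
  · unfold al
    rw [abs_le]
    constructor <;> linarith
  · unfold be
    rw [abs_le]
    constructor <;> linarith
  · unfold ga
    rw [abs_le]
    constructor <;> linarith

private theorem ResA_mul {x y A B : ℤ} (hx : |x| ≤ A) (hy : |y| ≤ B) : |x * y| ≤ A * B := by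
  rw [abs_mul]
  exact mul_le_mul hx hy (abs_nonneg _) (le_trans (abs_nonneg _) hx)

private theorem ResA_sub {x y A B : ℤ} (hx : |x| ≤ A) (hy : |y| ≤ B) : |x - y| ≤ A + B :=
  (abs_sub _ _).trans (add_le_add hx hy)

theorem res_le {q1 : ℕ} {w1 w2 w3 : List ℕ} (h1 : Pos w1) (h2 : Pos w2) (h3 : Pos w3)
    (k1 : qn w1 ≤ q1) (k2 : qn w2 ≤ q1) (k3 : qn w3 ≤ q1) :
    |res w1 w2 w3| ≤ 20 * (q1 : ℤ) ^ 8 := by
  obtain ⟨a1, b1, c1⟩ := ResA_coef h1 h2 k1 k2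
  obtain ⟨a2, b2, c2⟩ := ResA_coef h1 h3 k1 k3
  unfold res
  have hF := ResA_sub (ResA_mul a1 c2) (ResA_mul a2 c1)
  have hE := ResA_sub (ResA_mul a1 b2) (ResA_mul a2 b1)
  have hG := ResA_sub (ResA_mul b1 c2) (ResA_mul b2 c1)
  have hR := ResA_sub (ResA_mul hF hF) (ResA_mul hE hG)
  rw [pow_two (al w1 w2 * ga w1 w3 - al w1 w3 * ga w1 w2)]
  refine hR.trans (le_of_eq ?_)
  ring

end MLG
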