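import Pool.Agent.H52.MLG.RtA

/-! MLG ResB (res_root): the resultant.

PROOFS.  Write f = (α,β,γ) = (al,be,ga) w1 w2, g = (α',β',γ') = (al,be,ga) w1 w3,
E = α β' - α' β, F = α γ' - α' γ, G = β γ' - β' γ, res = F^2 - E G.
`res_dvd`: by `same_form`, modulo s: α x^2 + β x y + γ y^2 = 0 and the same for g with
(x,y) = (ux,uy).  u = s: (1,0): α = α' = 0, F = E = 0.  u < s, y = 1: α g - α' f = E x + F = 0,
β g - β' f = - E x^2 + G = 0, so G = E x^2 = - F x and
F^2 - E G = F^2 + E x F = F (F + E x) = 0 mod s.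
`res_le`: |al| <= q1^2, |ga| <= q1^2, |be| <= 2 q1^2 (differences of nonnegative numbers; `entries_le`),
|F| <= 2 q1^4, |E|, |G| <= 4 q1^4, |res| <= 4 q1^8 + 16 q1^8.
`res_root`: if α = 0 and α' = 0: (1,0).  If α = 0, α' ≠ 0: res = α' (α' γ^2 - β' β γ + γ' β^2); β ≠ 0
(otherwise res = α'^2 γ^2 ≠ 0) and ξ = -γ/β, η = 1.  If α ≠ 0: let θ1, θ2 be the complex roots of
α X^2 + β X + γ; then res = α^2 g(θ1) g(θ2) (θ1 + θ2 = -β/α, θ1 θ2 = γ/α), so one g(θi) = 0. -/

namespace MLG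

private theorem ResB_core (a b c a' b' c' : ℂ)
    (h : (a * c' - a' * c) ^ 2 - (a * b' - a' * b) * (b * c' - b' * c) = 0)
    (hne : ¬ (a = 0 ∧ b = 0 ∧ c = 0)) :
    ∃ ξ η : ℂ, (η = 1 ∨ (η = 0 ∧ ξ = 1)) ∧
      a * ξ ^ 2 + b * ξ * η + c * η ^ 2 = 0 ∧
      a' * ξ ^ 2 + b' * ξ * η + c' * η ^ 2 = 0 := by
  by_cases ha : a = 0
  · by_cases ha' : a' = 0
    · exact ⟨1, 0, Or.inr ⟨rfl, rfl⟩, by rw [ha]; ring, by rw [ha']; ring⟩
    · have hb : b ≠ 0 := by
        intro hb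
        have hc : c ≠ 0 := fun hc => hne ⟨ha, hb, hc⟩
        rw [ha, hb] at h
        have h2 : (a' * c) ^ 2 = 0 := by linear_combination h
        exact (mul_ne_zero ha' hc) (pow_eq_zero_iff two_ne_zero |>.1 h2)
      refine ⟨-c / b, 1, Or.inl rfl, ?_, ?_⟩
      · rw [ha]; field_simp; ring
      · rw [ha] at h
        have h3 : a' * (a' * c ^ 2 - b' * b * c + c' * b ^ 2) = 0 := by linear_combination h
        have h4 := (mul_eq_zero.1 h3).resolve_left ha'
        field_simp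
        linear_combination h4
  · obtain ⟨d, hd⟩ := IsAlgClosed.exists_pow_nat_eq (b ^ 2 - 4 * a * c) (n := 2) (by norm_num)
    have key : (a' * ((-b + d) / (2 * a)) ^ 2 + b' * ((-b + d) / (2 * a)) + c') *
        (a' * ((-b - d) / (2 * a)) ^ 2 + b' * ((-b - d) / (2 * a)) + c') = 0 := by
      have e1 : (-b + d) / (2 * a) + (-b - d) / (2 * a) = - b / a := by field_simp; ring
      have e2 : ((-b + d) / (2 * a)) * ((-b - d) / (2 * a)) = c / a := by
        field_simp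
        linear_combination (-1 : ℂ) * hd
      generalize (-b + d) / (2 * a) = t1 at *
      generalize (-b - d) / (2 * a) = t2 at *
      have e1' : a * (t1 + t2) = - b := by rw [e1]; field_simp
      have e2' : a * (t1 * t2) = c := by rw [e2]; field_simp
      have h5 : a ^ 2 * ((a' * t1 ^ 2 + b' * t1 + c') * (a' * t2 ^ 2 + b' * t2 + c')) = 0 := by
        have hb2 : b = - (a * (t1 + t2)) := by rw [e1']; ring
        rw [← e2', hb2] at h
        have h6 : a ^ 2 * ((a' * t1 ^ 2 + b' * t1 + c') * (a' * t2 ^ 2 + b' * t2 + c')) =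
          (a * c' - a' * (a * (t1 * t2))) ^ 2 - (a * b' - a' * -(a * (t1 + t2))) *
            (-(a * (t1 + t2)) * c' - b' * (a * (t1 * t2))) := by ring
        rw [h6]; exact h
      rcases mul_eq_zero.1 h5 with h7 | h7
      · exact absurd (pow_eq_zero_iff two_ne_zero |>.1 h7) ha
      · exact h7
    have r1 : a * ((-b + d) / (2 * a)) ^ 2 + b * ((-b + d) / (2 * a)) + c = 0 := by
      field_simp
      linear_combination hd
    have r2 : a * ((-b - d) / (2 * a)) ^ 2 + b * ((-b - d) / (2 * a)) + c = 0 := by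
      field_simp
      linear_combination hd
    rcases mul_eq_zero.1 key with h7 | h7
    · exact ⟨(-b + d) / (2 * a), 1, Or.inl rfl, by simpa using r1, by simpa using h7⟩
    · exact ⟨(-b - d) / (2 * a), 1, Or.inl rfl, by simpa using r2, by simpa using h7⟩

theorem res_root {w1 w2 w3 : List ℕ} (h : res w1 w2 w3 = 0)
    (hne : ¬ (al w1 w2 = 0 ∧ be w1 w2 = 0 ∧ ga w1 w2 = 0)) :
    ∃ ξ η : ℂ, (η = 1 ∨ (η = 0 ∧ ξ = 1)) ∧
      (al w1 w2 : ℂ) * ξ ^ 2 + be w1 w2 * ξ * η + ga w1 w2 * η ^ 2 = 0 ∧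
      (al w1 w3 : ℂ) * ξ ^ 2 + be w1 w3 * ξ * η + ga w1 w3 * η ^ 2 = 0 := by
  apply ResB_core
  · have h2 : ((res w1 w2 w3 : ℤ) : ℂ) = 0 := by rw [h]; simp
    unfold res at h2
    push_cast at h2
    exact h2
  · rintro ⟨h1, h2, h3⟩
    exact hne ⟨by exact_mod_cast h1, by exact_mod_cast h2, by exact_mod_cast h3⟩

end MLG
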