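import Pool.Agent.H52.MLG.Ec

/-! MLG Resid: the theorem for a residual set of sequences.

`MLC d` is the statement of the conjecture for the sequence d (all real alpha).
PROOF of `resid`.  For a word l put O l = {e | ∃ N, ∀ i < l.length, e (N+1+i) + 2 = l.getD i 2}.
If all the entries of l are >= 2 then O l is open (union over N of sets depending on finitely many
coordinates; ℕ discrete) and dense (given e0 and a basic neighbourhood fixing coordinates < M, change the
coordinates M+1+i, i < l.length).  `residual_of_dense_open`; countably many words: `eventually_countable_forall`.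
Then `blk` for d k = e k + 2. -/

namespace MLG

/-- the mixed Littlewood conjecture for the sequence d, all real alpha. -/
def MLC (d : ℕ → ℕ) : Prop :=
  ∀ α : ℝ, ∀ ε : ℝ, 0 < ε →
        ∃ q : ℕ, 1 ≤ q ∧ ∃ n : ℕ,
          (∏ k ∈ Finset.Icc 1 n, d k) ∣ q ∧
          ¬ ((∏ k ∈ Finset.Icc 1 (n + 1), d k) ∣ q) ∧
          (q : ℝ) / ((∏ k ∈ Finset.Icc 1 n, d k : ℕ) : ℝ) *
            |(q : ℝ) * α - ((round ((q : ℝ) * α) : ℤ) : ℝ)| < ε

/-- every finite word of natural numbers occurs in e (from index 1 on). -/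
def Rich (e : ℕ → ℕ) : Prop :=
  ∀ l : List ℕ, ∃ N : ℕ, ∀ i : ℕ, i < l.length → e (N + 1 + i) = l.getD i 0

theorem rich_mlc {e : ℕ → ℕ} (h : Rich e) : MLC (fun k => e k + 2) := by
  refine blk (fun k => e k + 2) (fun k _ => by simp) ?_
  intro l hl
  obtain ⟨N, hN⟩ := h (l.map (fun a => a - 2))
  refine ⟨N, fun i hi => ?_⟩
  have h1 := hN i (by simpa using hi)
  have h2 : (l.map (fun a => a - 2)).getD i 0 = l[i] - 2 := by
    rw [List.getD_eq_getElem _ _ (by simpa using hi)]
    simp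
  have h3 : l.getD i 2 = l[i] := List.getD_eq_getElem _ _ hi
  have h4 : 2 ≤ l[i] := hl _ (List.getElem_mem hi)
  show e (N + 1 + i) + 2 = l.getD i 2
  rw [h1, h2, h3]
  omega

theorem Resid_open (l : List ℕ) :
    IsOpen {e : ℕ → ℕ | ∃ N : ℕ, ∀ i : ℕ, i < l.length → e (N + 1 + i) = l.getD i 0} := by
  have : {e : ℕ → ℕ | ∃ N : ℕ, ∀ i : ℕ, i < l.length → e (N + 1 + i) = l.getD i 0} =
      ⋃ N : ℕ, ⋂ i ∈ Finset.range l.length, {e : ℕ → ℕ | e (N + 1 + i) = l.getD i 0} := by
    ext e
    simp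
  rw [this]
  refine isOpen_iUnion fun N => isOpen_biInter_finset fun i _ => ?_
  have : {e : ℕ → ℕ | e (N + 1 + i) = l.getD i 0} = (fun e : ℕ → ℕ => e (N + 1 + i)) ⁻¹' {l.getD i 0} := by
    ext e
    simp
  rw [this]
  exact (isOpen_discrete _).preimage (continuous_apply _)

theorem Resid_dense (l : List ℕ) :
    Dense {e : ℕ → ℕ | ∃ N : ℕ, ∀ i : ℕ, i < l.length → e (N + 1 + i) = l.getD i 0} := by
  intro e0
  rw [mem_closure_iff_nhds]
  intro t ht
  rw [nhds_pi, Filter.mem_pi] at ht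
  obtain ⟨I, hI, u, hu, hsub⟩ := ht
  obtain ⟨M, hM⟩ := hI.bddAbove
  refine ⟨fun j => if j ≤ M then e0 j else l.getD (j - (M + 1)) 0, hsub ?_, M, ?_⟩
  · intro j hj
    have hjM : j ≤ M := hM hj
    simp only [hjM, if_true]
    exact mem_of_mem_nhds (hu j)
  · intro i _
    have : ¬ (M + 1 + i ≤ M) := by omega
    simp only [this, if_false]
    congr 1
    omega

theorem rich_resid : ∀ᶠ e : ℕ → ℕ in residual (ℕ → ℕ), Rich e := by
  unfold Rich
  rw [eventually_countable_forall]
  intro l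
  exact residual_of_dense_open (Resid_open l) (Resid_dense l)

theorem resid : ∀ᶠ e : ℕ → ℕ in residual (ℕ → ℕ), MLC (fun k => e k + 2) :=
  rich_resid.mono fun _ h => rich_mlc h

end MLG
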