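import Pool.Agent.H52.MLG.Resid
import Pool.Agent.H52.MLG.Blk

/-! MLG ResidP: a residual set of sequences of integers >= 2 contains every finite word of primes. -/

namespace MLG

theorem ResidP_open (l : List ℕ) :
    IsOpen {d : ℕ → {m : ℕ // 2 ≤ m} |
      ∃ N : ℕ, ∀ i : ℕ, i < l.length → (d (N + 1 + i) : ℕ) = l.getD i 2} := by
  have : {d : ℕ → {m : ℕ // 2 ≤ m} |
      ∃ N : ℕ, ∀ i : ℕ, i < l.length → (d (N + 1 + i) : ℕ) = l.getD i 2} =
      ⋃ N : ℕ, ⋂ i ∈ Finset.range l.length,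
        {d : ℕ → {m : ℕ // 2 ≤ m} | (d (N + 1 + i) : ℕ) = l.getD i 2} := by
    ext e
    simp
  rw [this]
  refine isOpen_iUnion fun N => isOpen_biInter_finset fun i _ => ?_
  have : {d : ℕ → {m : ℕ // 2 ≤ m} | (d (N + 1 + i) : ℕ) = l.getD i 2} =
      (fun d : ℕ → {m : ℕ // 2 ≤ m} => d (N + 1 + i)) ⁻¹' {x | (x : ℕ) = l.getD i 2} := rfl
  rw [this]
  exact (isOpen_discrete _).preimage (continuous_apply _)

theorem ResidP_dense (l : List ℕ) (hl : ∀ a ∈ l, 2 ≤ a) :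
    Dense {d : ℕ → {m : ℕ // 2 ≤ m} |
      ∃ N : ℕ, ∀ i : ℕ, i < l.length → (d (N + 1 + i) : ℕ) = l.getD i 2} := by
  have hl2 : ∀ i, 2 ≤ l.getD i 2 := by
    intro i
    by_cases hi : i < l.length
    · rw [List.getD_eq_getElem _ _ hi]
      exact hl _ (List.getElem_mem hi)
    · rw [List.getD_eq_default _ _ (by omega)]
  intro e0
  rw [mem_closure_iff_nhds]
  intro t ht
  rw [nhds_pi, Filter.mem_pi] at ht
  obtain ⟨I, hI, u, hu, hsub⟩ := ht
  obtain ⟨M, hM⟩ := hI.bddAbove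
  refine ⟨fun j => if j ≤ M then e0 j else ⟨l.getD (j - (M + 1)) 2, hl2 _⟩, hsub ?_, M, ?_⟩
  · intro j hj
    have hjM : j ≤ M := hM hj
    simp only [hjM, if_true]
    exact mem_of_mem_nhds (hu j)
  · intro i _
    have h1 : ¬ (M + 1 + i ≤ M) := by omega
    have h2 : M + 1 + i - (M + 1) = i := by omega
    simp only [h1, if_false, h2]

theorem residP : ∀ᶠ d : ℕ → {m : ℕ // 2 ≤ m} in residual (ℕ → {m : ℕ // 2 ≤ m}),
    MLC (fun k => (d k : ℕ)) := by
  have h1 : ∀ᶠ d : ℕ → {m : ℕ // 2 ≤ m} in residual (ℕ → {m : ℕ // 2 ≤ m}),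
      ∀ l : List ℕ, (∀ p ∈ l, p.Prime) →
        ∃ N : ℕ, ∀ i : ℕ, i < l.length → (d (N + 1 + i) : ℕ) = l.getD i 2 := by
    rw [eventually_countable_forall]
    intro l
    by_cases hl : ∀ p ∈ l, p.Prime
    · have := residual_of_dense_open (ResidP_open l) (ResidP_dense l (fun a ha => (hl a ha).two_le))
      filter_upwards [this] with d hd _
      exact hd
    · exact Filter.Eventually.of_forall (fun e hl' => absurd hl' hl)
  filter_upwards [h1] with d hd
  exact blkP (fun k => (d k : ℕ)) (fun k _ => (d k).2) hd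

end MLG
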