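import Pool.Agent.H52.MLG.RtA

/-! MLG RtB (roots_le_two): two different words move at most two states u to the same state.

PROOFS.  `same_form`: ring identity
ax w * ay w' - ay w * ax w' = al ux^2 + be ux uy + ga uy^2.
`form_ne`: if s | al, be, ga then (work in the field ZMod s) M_w adj(M_w') =
[[pp qn' - pn qp', -al'],[ga', qn pp' - qp pn']] has off-diagonal entries ∓al, ga = 0 and difference of
the diagonal entries = be = 0, so it is λ I, so M_w = λ M_w' (det M_w' = 1, even length) and λ^2 = 1 by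
determinants, λ = ± 1.  All entries are in [0, q1], 2 q1 < s: λ = 1 gives equal entries, so w = w'
(`cf_inj`); λ = -1 gives qn w + qn w' = 0 mod s with 2 <= qn w + qn w' <= 2 q1 < s: impossible.
`form_ne0` (over the integers): the same with λ rational, or apply `form_ne` with a large prime s.
`roots_le_two`: states u < s are roots of the polynomial al X^2 + be X + ga over the field ZMod s
(u ↦ (u : ZMod s) injective on u < s), u = s is counted iff al = 0 mod s.  If al ≠ 0: at most 2 roots and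
u = s is not a root.  If al = 0: at most one root u < s (be X + ga, (be, ga) ≠ 0) plus u = s. -/

namespace MLG

theorem RtB_sub {s u v : ℕ} (hu : u < s) (hv : v < s) (huv : u ≠ v) :
    ¬ (s : ℤ) ∣ (u : ℤ) - v := by
  intro h
  have h0 : (u : ℤ) - v = 0 := by
    apply Int.eq_zero_of_abs_lt_dvd h
    rw [abs_lt]
    constructor <;> omega
  omega

/-- two roots below s and leading coefficient zero. -/
theorem RtB_two {s : ℕ} (hs : s.Prime) {a b c : ℤ} {u v : ℕ} (hu : u < s) (hv : v < s)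
    (huv : u ≠ v) (ha : (s : ℤ) ∣ a) (h1 : (s : ℤ) ∣ a * (u : ℤ) ^ 2 + b * u + c)
    (h2 : (s : ℤ) ∣ a * (v : ℤ) ^ 2 + b * v + c) : (s : ℤ) ∣ b ∧ (s : ℤ) ∣ c := by
  have hp : Prime (s : ℤ) := Nat.prime_iff_prime_int.1 hs
  have e1 : (s : ℤ) ∣ b * u + c := by
    have := dvd_sub h1 (ha.mul_right ((u : ℤ) ^ 2))
    have e : a * (u : ℤ) ^ 2 + b * u + c - a * (u : ℤ) ^ 2 = b * u + c := by ring
    rwa [e] at this
  have e2 : (s : ℤ) ∣ b * v + c := by
    have := dvd_sub h2 (ha.mul_right ((v : ℤ) ^ 2))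
    have e : a * (v : ℤ) ^ 2 + b * v + c - a * (v : ℤ) ^ 2 = b * v + c := by ring
    rwa [e] at this
  have e3 : (s : ℤ) ∣ b * ((u : ℤ) - v) := by
    have := dvd_sub e1 e2
    have e : b * (u : ℤ) + c - (b * v + c) = b * ((u : ℤ) - v) := by ring
    rwa [e] at this
  have hb : (s : ℤ) ∣ b := by
    rcases hp.dvd_or_dvd e3 with h | h
    · exact h
    · exact absurd h (RtB_sub hu hv huv)
  refine ⟨hb, ?_⟩
  have := dvd_sub e1 (hb.mul_right (u : ℤ))
  have e : b * (u : ℤ) + c - b * (u : ℤ) = c := by ring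
  rwa [e] at this

/-- three roots below s. -/
theorem RtB_three {s : ℕ} (hs : s.Prime) {a b c : ℤ} {u v w : ℕ} (hu : u < s) (hv : v < s)
    (hw : w < s) (huv : u ≠ v) (huw : u ≠ w) (hvw : v ≠ w)
    (h1 : (s : ℤ) ∣ a * (u : ℤ) ^ 2 + b * u + c) (h2 : (s : ℤ) ∣ a * (v : ℤ) ^ 2 + b * v + c)
    (h3 : (s : ℤ) ∣ a * (w : ℤ) ^ 2 + b * w + c) : (s : ℤ) ∣ a := by
  have hp : Prime (s : ℤ) := Nat.prime_iff_prime_int.1 hs
  have k1 : (s : ℤ) ∣ a * ((u : ℤ) + v) + b := by
    have := dvd_sub h1 h2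
    have e : a * (u : ℤ) ^ 2 + b * u + c - (a * (v : ℤ) ^ 2 + b * v + c) =
      (a * ((u : ℤ) + v) + b) * ((u : ℤ) - v) := by ring
    rw [e] at this
    rcases hp.dvd_or_dvd this with h | h
    · exact h
    · exact absurd h (RtB_sub hu hv huv)
  have k2 : (s : ℤ) ∣ a * ((u : ℤ) + w) + b := by
    have := dvd_sub h1 h3
    have e : a * (u : ℤ) ^ 2 + b * u + c - (a * (w : ℤ) ^ 2 + b * w + c) =
      (a * ((u : ℤ) + w) + b) * ((u : ℤ) - w) := by ring
    rw [e] at this
    rcases hp.dvd_or_dvd this with h | h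
    · exact h
    · exact absurd h (RtB_sub hu hw huw)
  have k3 := dvd_sub k1 k2
  have e : a * ((u : ℤ) + v) + b - (a * ((u : ℤ) + w) + b) = a * ((v : ℤ) - w) := by ring
  rw [e] at k3
  rcases hp.dvd_or_dvd k3 with h | h
  · exact h
  · exact absurd h (RtB_sub hv hw hvw)

/-- the condition at a state below s. -/
theorem RtB_lt {s u : ℕ} (hu : u < s) {w w' : List ℕ} (h : Same s u w w') :
    (s : ℤ) ∣ al w w' * (u : ℤ) ^ 2 + be w w' * u + ga w w' := by
  unfold Same at h
  rw [same_form] at h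
  unfold ux uy at h
  rw [if_neg (ne_of_lt hu), if_neg (ne_of_lt hu)] at h
  have e : al w w' * (u : ℤ) ^ 2 + be w w' * u * 1 + ga w w' * 1 ^ 2 =
    al w w' * (u : ℤ) ^ 2 + be w w' * u + ga w w' := by ring
  rwa [e] at h

/-- the condition at the last state. -/
theorem RtB_eq {s : ℕ} {w w' : List ℕ} (h : Same s s w w') : (s : ℤ) ∣ al w w' := by
  unfold Same at h
  rw [same_form] at h
  unfold ux uy at h
  rw [if_pos rfl, if_pos rfl] at h
  have e : al w w' * (1 : ℤ) ^ 2 + be w w' * 1 * 0 + ga w w' * 0 ^ 2 = al w w' := by ring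
  rwa [e] at h

open Classical in
theorem roots_le_two {s q1 : ℕ} (hs : s.Prime) (hq : 2 * q1 < s) {w w' : List ℕ} (hw : Pos w)
    (hw' : Pos w') (he : Even w.length) (he' : Even w'.length) (h1 : qn w ≤ q1) (h2 : qn w' ≤ q1)
    (hne : w ≠ w') : ((Finset.range (s + 1)).filter (fun u => Same s u w w')).card ≤ 2 := by
  have hform := form_ne hs hq hw hw' he he' h1 h2 hne
  by_contra hcon
  push Not at hcon
  rw [Finset.two_lt_card] at hcon
  obtain ⟨x, hx, y, hy, z, hz, hxy, hxz, hyz⟩ := hcon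
  rw [Finset.mem_filter, Finset.mem_range] at hx hy hz
  obtain ⟨hxs, hx⟩ := hx
  obtain ⟨hys, hy⟩ := hy
  obtain ⟨hzs, hz⟩ := hz
  have key : ∀ x y : ℕ, x < s → y < s → x ≠ y → Same s x w w' → Same s y w w' →
      (s : ℤ) ∣ al w w' → False := by
    intro x y hx' hy' hne' h h' ha
    obtain ⟨hb, hc⟩ := RtB_two hs hx' hy' hne' ha (RtB_lt hx' h) (RtB_lt hy' h')
    exact hform ⟨ha, hb, hc⟩
  by_cases ex : x = s
  · subst ex
    exact key y z (by omega) (by omega) hyz hy hz (RtB_eq hx)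
  · by_cases ey : y = s
    · subst ey
      exact key x z (by omega) (by omega) hxz hx hz (RtB_eq hy)
    · by_cases ez : z = s
      · subst ez
        exact key x y (by omega) (by omega) hxy hx hy (RtB_eq hz)
      · have hx' : x < s := by omega
        have hy' : y < s := by omega
        have hz' : z < s := by omega
        exact key x y hx' hy' hxy hx hy
          (RtB_three hs hx' hy' hz' hxy hxz hyz (RtB_lt hx' hx) (RtB_lt hy' hy) (RtB_lt hz' hz))

end MLG
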