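import Pool.Agent.H52.MLG.CfAlg

/-! MLG RtA (forms): two different words move at most two states u to the same state.

PROOFS.  `same_form`: ring identity
ax w * ay w' - ay w * ax w' = al ux^2 + be ux uy + ga uy^2.
`form_ne`: if s | al, be, ga then (work in the field ZMod s) M_w adj(M_w') =
[[pp qn' - pn qp', -al'],[ga', qn pp' - qp pn']] has off-diagonal entries ∓al, ga = 0 and difference of
the diagonal entries = be = 0, so it is λ I, so M_w = λ M_w' (det M_w' = 1, even length) and λ^2 = 1 by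
determinants, λ = ± 1.  All entries are in [0, q1], 2 q1 < s: λ = 1 gives equal entries, so w = w'
(`cf_inj`); λ = -1 gives qn w + qn w' = 0 mod s with 2 <= qn w + qn w' <= 2 q1 < s: impossible.
`form_ne0` (over the integers): the same with λ rational, or apply `form_ne` with a large prime s.
`roots_le_two`: states u < s are roots of the polynomial al X^2 + be X + ga over the field ZMod s
(u ↦ (u : ZMod s) injective on u < s), u = s is counted iff al = 0 mod s.  If al ≠ 0: at most 2 roots and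
u = s is not a root.  If al = 0: at most one root u < s (be X + ga, (be, ga) ≠ 0) plus u = s. -/

namespace MLG

theorem same_form (s u : ℕ) (w w' : List ℕ) :
    ax s u w * ay s u w' - ay s u w * ax s u w' =
      al w w' * ux s u ^ 2 + be w w' * ux s u * uy s u + ga w w' * uy s u ^ 2 := by
  unfold ax ay al be ga
  ring

private theorem RtA_eq_of_dvd {s q1 : ℕ} (hq : 2 * q1 < s) {x y : ℕ} (hx : x ≤ q1) (hy : y ≤ q1)
    (h : (s : ℤ) ∣ (x : ℤ) - y) : x = y := by
  have h1 : (x : ℤ) - y = 0 := by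
    apply Int.eq_zero_of_abs_lt_dvd h
    rw [abs_lt]
    constructor <;> omega
  omega

theorem form_ne {s q1 : ℕ} (hs : s.Prime) (hq : 2 * q1 < s) {w w' : List ℕ} (hw : Pos w)
    (hw' : Pos w') (he : Even w.length) (he' : Even w'.length) (h1 : qn w ≤ q1) (h2 : qn w' ≤ q1)
    (hne : w ≠ w') : ¬ ((s : ℤ) ∣ al w w' ∧ (s : ℤ) ∣ be w w' ∧ (s : ℤ) ∣ ga w w') := by
  rintro ⟨hal, hbe, hga⟩
  have hd : (pp w : ℤ) * qn w - pn w * qp w = 1 := by rw [cf_det, he.neg_one_pow]
  have hd' : (pp w' : ℤ) * qn w' - pn w' * qp w' = 1 := by rw [cf_det, he'.neg_one_pow]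
  obtain ⟨e1, e2, e3, e4⟩ := entries_le hw
  obtain ⟨f1, f2, f3, f4⟩ := entries_le hw'
  have hsp : Prime (s : ℤ) := Nat.prime_iff_prime_int.mp hs
  obtain ⟨x, hx⟩ := hal
  obtain ⟨y, hy⟩ := hbe
  obtain ⟨z, hz⟩ := hga
  have hprod : (s : ℤ) ∣ (((pp w : ℤ) * qn w' - pn w * qp w') - 1) *
      (((pp w : ℤ) * qn w' - pn w * qp w') + 1) := by
    have : (((pp w : ℤ) * qn w' - pn w * qp w') - 1) * (((pp w : ℤ) * qn w' - pn w * qp w') + 1) =
        ((pp w : ℤ) * qn w' - pn w * qp w') * be w w' - al w w' * ga w w' := by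
      have h2 : ((pp w : ℤ) * qn w - pn w * qp w) * ((pp w' : ℤ) * qn w' - pn w' * qp w') = 1 := by
        rw [hd, hd']; ring
      unfold al be ga
      linear_combination (1 : ℤ) * h2
    rw [this, hx, hy, hz]
    exact ⟨((pp w : ℤ) * qn w' - pn w * qp w') * y - x * (s * z), by ring⟩
  rcases hsp.dvd_or_dvd hprod with hl | hl
  · obtain ⟨t, ht⟩ := hl
    apply hne
    apply cf_inj hw hw'
    · apply RtA_eq_of_dvd hq (e1.trans h1) (f1.trans h2)
      refine ⟨t * pp w' - qp w' * x, ?_⟩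
      unfold al at hx
      linear_combination (pp w' : ℤ) * ht - (qp w' : ℤ) * hx - (pp w : ℤ) * hd'
    · apply RtA_eq_of_dvd hq (e2.trans h1) (f2.trans h2)
      refine ⟨t * pn w' - qn w' * x, ?_⟩
      unfold al at hx
      linear_combination (pn w' : ℤ) * ht - (qn w' : ℤ) * hx - (pn w : ℤ) * hd'
    · apply RtA_eq_of_dvd hq (e3.trans h1) (f3.trans h2)
      refine ⟨t * qp w' - y * qp w' + pp w' * z, ?_⟩
      unfold be at hy
      unfold ga at hz
      linear_combination (qp w' : ℤ) * ht - (qp w' : ℤ) * hy + (pp w' : ℤ) * hz - (qp w : ℤ) * hd'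
    · apply RtA_eq_of_dvd hq h1 h2
      refine ⟨t * qn w' - y * qn w' + pn w' * z, ?_⟩
      unfold be at hy
      unfold ga at hz
      linear_combination (qn w' : ℤ) * ht - (qn w' : ℤ) * hy + (pn w' : ℤ) * hz - (qn w : ℤ) * hd'
  · obtain ⟨t, ht⟩ := hl
    have hdv : (s : ℤ) ∣ (qn w : ℤ) + qn w' := by
      refine ⟨t * qn w' - y * qn w' + pn w' * z, ?_⟩
      unfold be at hy
      unfold ga at hz
      linear_combination (qn w' : ℤ) * ht - (qn w' : ℤ) * hy + (pn w' : ℤ) * hz - (qn w : ℤ) * hd'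
    have hle := Int.le_of_dvd (by omega) hdv
    omega

theorem form_ne0 {w w' : List ℕ} (hw : Pos w)
    (hw' : Pos w') (he : Even w.length) (he' : Even w'.length)
    (hne : w ≠ w') : ¬ (al w w' = 0 ∧ be w w' = 0 ∧ ga w w' = 0) := by
  rintro ⟨h1, h2, h3⟩
  obtain ⟨s, hs1, hs⟩ := Nat.exists_infinite_primes (2 * (qn w + qn w') + 1)
  refine form_ne hs (q1 := qn w + qn w') (by omega) hw hw' he he' (by omega) (by omega) hne ?_
  rw [h1, h2, h3]
  exact ⟨dvd_zero _, dvd_zero _, dvd_zero _⟩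

end MLG
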