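import Pool.Agent.H52.MLG.SegA

/-! MLG SegB (seg): factors of points of X_{e s e} are walks.

PROOF of `seg_ok`.  t = e.prod, N = t s.  By `XE_append` XE c e x and XE c e (N x); with
j0 = floor(N x) and y = N x - j0 also XE c e y (`XE_shift`), 0 < y < 1 (irrational), and both x, y are in
Dg A (`XE_bad`, `bad_dg`).  z = gs^[j] x is in Tail c e, w = wd z m is in Lang c e, so in WwB (finite set:
subset of {Bdd A, qn <= ..}, `fin_bdd`).  `vlem` (k := j): l, a, b, g, h; √N <= t B^k because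
N = t s <= t B^(2k) <= (t B^k)^2, so all entries are <= (A+2) t B^k = Kc.  s | N gives the two row
congruences with (qp, qn) of wd x j, `row_par` turns them into the state u.
y_l = gs^[l] y is in Tail c e, Dg A; by `exists_len` with Q = B^k a prefix v = wd y_l m' is in
yset; |y_l - rep v| <= 1/qn(v)^2 <= 1/B^(2k) and |z - rep w| <= 1/qn(w)^2 <= 1/B^(2k) (`cyl`).
|a rep w + b - rep v (g rep w + h)| <= |a rep w + b - y_l (g rep w + h)| + |y_l - rep v| |g rep w + h|
and the first is |(a - y_l g)(rep w - z)| <= 2K/B^(2k), the second <= 2K/B^(2k).  Total <= dl.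
PROOF of `seg`.  Strong induction on n, generalizing j (qn (wd x j) is nondecreasing in j, so hj persists).
z = gs^[j] x.  If qn (wd z m) < Q := B^(k+1) for every even m <= n: r = 0, v = [], ρ = wd z n;
n even: qn ρ < Q; n odd: qn ρ <= (A+1) qn (wd z (n-1)) (`qn_snoc_le`).  Otherwise take the least even m <= n
with qn (wd z m) >= Q; m >= 2 (qn [] = 1 < Q), qn (wd z m) <= (A+1)^2 qn (wd z (m-2)) <= (A+1)^2 Q, so
w = wd z m is in WwB and okB by `seg_ok`; induction for j + m, n - m with u' = stt of wd x (j+m) =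
nx s u w (`nx_bottom`, `wd_add`), and (B^(k+1))^(r+1) <= qn w * qn v <= qn (w ++ v) (`qn_append_ge`). -/

namespace MLG

/-- one more digit. -/
theorem SegB_succ {A : ℕ} {z : ℝ} (hz : Dg A z) (m : ℕ) :
    qn (wd z (m + 1)) ≤ (A + 1) * qn (wd z m) := by
  have e : wd z (m + 1) = wd z m ++ [dg (gs^[m] z)] := by
    rw [wd_add]
    rfl
  rw [e]
  have h1 := qn_snoc_le (wd_pos hz.1 m) (dg (gs^[m] z))
  have h2 : dg (gs^[m] z) ≤ A := hz.2 m
  exact h1.trans (Nat.mul_le_mul_right _ (by omega))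

open Classical in
/-- membership in walks. -/
theorem SegB_walk {s : ℕ} {Ww : Finset (List ℕ)} {ok : ℕ → List ℕ → Prop} {r u : ℕ}
    {w v : List ℕ} (hw : w ∈ Ww) (hok : ok u w) (hv : v ∈ Walk s Ww ok r (nx s u w)) :
    w ++ v ∈ Walk s Ww ok (r + 1) u := by
  unfold Walk
  exact Finset.mem_biUnion.2 ⟨w, Finset.mem_filter.2 ⟨hw, hok⟩, Finset.mem_image.2 ⟨v, hv, rfl⟩⟩

theorem seg {c : ℝ} (hc : 0 < c) {A : ℕ} (hA : 1 / c ≤ A) (e : List ℕ) (he : ∀ a ∈ e, 1 ≤ a)
    {k B s : ℕ} (hB : 2 ≤ B) (hk : 1 ≤ k) (hs : s.Prime) (hsB : s ≤ B ^ (2 * k)) {x : ℝ}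
    (h0 : 0 < x) (h1 : x < 1) (hx : XE c (e ++ s :: e) x) (n j : ℕ)
    (hj : e.prod * s ≤ (qn (wd x j)) ^ 2) :
    ∃ (r : ℕ) (v ρ : List ℕ),
      v ∈ Walk s (WwB c A e k B) (okB c A e k B s) r (stt s (qp (wd x j)) (qn (wd x j))) ∧
      Bdd A ρ ∧ qn ρ ≤ (A + 1) * B ^ (k + 1) ∧ (B ^ (k + 1)) ^ r ≤ qn v ∧
      wd (gs^[j] x) n = v ++ ρ := by
  have hDx : Dg A x := bad_dg hc hA h0 h1 (XE_bad hx)
  have hQ : 2 ≤ B ^ (k + 1) := hB.trans (Nat.le_self_pow (by omega) B)
  induction n using Nat.strong_induction_on generalizing j with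
  | _ n ih =>
    have hDz : Dg A (gs^[j] x) := Dg_iter hDx j
    by_cases hcase : ∃ m, m ≤ n ∧ Even m ∧ B ^ (k + 1) ≤ qn (wd (gs^[j] x) m)
    · classical
      -- the least even prefix which is long
      obtain ⟨hmn, hme, hmQ⟩ := Nat.find_spec hcase
      have hmin : ∀ m' < Nat.find hcase, ¬ (m' ≤ n ∧ Even m' ∧
          B ^ (k + 1) ≤ qn (wd (gs^[j] x) m')) := fun m' h => Nat.find_min hcase h
      set m := Nat.find hcase with hm
      have hm0 : m ≠ 0 := by
        intro h
        rw [h] at hmQ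
        have : qn (wd (gs^[j] x) 0) = 1 := rfl
        omega
      have hm2 : 2 ≤ m := by
        rcases hme with ⟨t, ht⟩
        omega
      have hprev : qn (wd (gs^[j] x) (m - 2)) < B ^ (k + 1) := by
        by_contra hcon
        push Not at hcon
        refine hmin (m - 2) (by omega) ⟨by omega, ?_, hcon⟩
        rcases hme with ⟨t, ht⟩
        exact ⟨t - 1, by omega⟩
      have hle : qn (wd (gs^[j] x) m) ≤ (A + 1) ^ 2 * B ^ (k + 1) := by
        have e1 := SegB_succ hDz (m - 2)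
        have e2 := SegB_succ hDz (m - 2 + 1)
        have e3 : m - 2 + 1 + 1 = m := by omega
        rw [e3] at e2
        calc qn (wd (gs^[j] x) m) ≤ (A + 1) * qn (wd (gs^[j] x) (m - 2 + 1)) := e2
          _ ≤ (A + 1) * ((A + 1) * qn (wd (gs^[j] x) (m - 2))) := Nat.mul_le_mul_left _ e1
          _ ≤ (A + 1) * ((A + 1) * B ^ (k + 1)) :=
              Nat.mul_le_mul_left _ (Nat.mul_le_mul_left _ hprev.le)
          _ = (A + 1) ^ 2 * B ^ (k + 1) := by ring
      obtain ⟨hw, hok⟩ := seg_ok hc hA e he hB hk hs hsB h0 h1 hx j hj m hme hmQ hle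
      have hadd : wd x (j + m) = wd x j ++ wd (gs^[j] x) m := wd_add x j m
      have hj' : e.prod * s ≤ (qn (wd x (j + m))) ^ 2 := by
        refine hj.trans (Nat.pow_le_pow_left ?_ 2)
        rw [hadd]
        refine le_trans ?_ (qn_append_ge _ _)
        have : 1 ≤ qn (wd (gs^[j] x) m) := by omega
        exact Nat.le_mul_of_pos_right _ this
      obtain ⟨r, v, ρ, hv, hρ, hρq, hvq, hvρ⟩ := ih (n - m) (by omega) (j + m) hj'
      refine ⟨r + 1, wd (gs^[j] x) m ++ v, ρ, ?_, hρ, hρq, ?_, ?_⟩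
      · apply SegB_walk hw hok
        rw [nx_bottom hs, ← hadd]
        exact hv
      · refine le_trans ?_ (qn_append_ge _ _)
        rw [pow_succ, mul_comm]
        exact Nat.mul_le_mul hmQ hvq
      · have e1 : n = m + (n - m) := by omega
        have e2 : gs^[m] (gs^[j] x) = gs^[j + m] x := by
          rw [add_comm j m, Function.iterate_add_apply]
        rw [List.append_assoc, ← hvρ, ← e2, ← wd_add, ← e1]
    · push Not at hcase
      refine ⟨0, [], wd (gs^[j] x) n, ?_, wd_bdd hDz n, ?_, ?_, rfl⟩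
      · unfold Walk
        exact Finset.mem_singleton_self _
      · rcases Nat.even_or_odd n with hn | hn
        · have := hcase n le_rfl hn
          calc qn (wd (gs^[j] x) n) ≤ 1 * B ^ (k + 1) := by omega
            _ ≤ (A + 1) * B ^ (k + 1) := Nat.mul_le_mul_right _ (by omega)
        · obtain ⟨t, ht⟩ := hn
          have h2 := hcase (2 * t) (by omega) ⟨t, by ring⟩
          have h3 := SegB_succ hDz (2 * t)
          rw [← ht] at h3
          exact h3.trans (Nat.mul_le_mul_left _ h2.le)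
      · rw [pow_zero]
        exact le_refl _

end MLG
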