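import Pool.Agent.H52.MLG.Gauss

/-! MLG Vlem: the relation between tails of x and of y = N x - j.

PROOF.  Write p', p, q', q for the entries of wd x k, z = gs^[k] x.  √N <= q, so by `exists_last`
for y with X = q/√N >= 1 there is l with Q <= q/√N < (A+1) Q, where P', P, Q', Q are the entries of
wd y l, and y_l = gs^[l] y.  Put  ε = P' Q - P Q' = ±1  and
[[a,b],[g,h]] = ε [[Q,-P],[-Q',P']] * [[N p' - j q', N p - j q],[q',q]], i.e.
a = ε (Q (N p' - j q') - P q'),  b = ε (Q (N p - j q) - P q),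
g = ε (-Q' (N p' - j q') + P' q'), h = ε (-Q' (N p - j q) + P' q).
Determinant: ε^2 (P'Q - P Q') N (p' q - p q') = ± N.
Bounds: N p - j q = q y + N (p - q x), so b = ±(q (Q y - P) + Q N (p - q x)),
|Q y - P| <= 1/Q (`err1`, y_l < 1), |p - q x| <= 1/q: |b| <= q/Q + Q N/q <= (A+1)√N + √N.
Same for a with q' <= q and |p' - q' x| <= 1/q (`err2`), for h, g with |Q' y - P'| <= 1/Q, Q' <= Q.
Relation: by `mob` (p' z + p, q' z + q) = (q' z + q) (x, 1); applying [[N,-j],[0,1]] gives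
(q' z + q)(y, 1); and [[Q,-P],[-Q',P']] (y,1) = ε (y_l, 1)/(Q' y_l + Q) (again `mob` for y).
So (a z + b, g z + h) = ((q' z + q)/(Q' y_l + Q)) (y_l, 1).
Divisibility: a q - b q' = ε Q N (p' q - p q'), g q - h q' = -ε Q' N (p' q - p q'). -/

namespace MLG

/-- the bound of the entries. -/
private lemma Vlem_bd {q Q A s r R t1 t2 : ℝ} (hA : 0 ≤ A) (hs : 0 < s) (hQ : 0 < Q)
    (hr0 : 0 ≤ r) (hr : r ≤ q) (hR0 : 0 ≤ R) (hR : R ≤ Q) (h1 : Q * |t1| ≤ 1)
    (h2 : q * |t2| ≤ 1) (hl1 : Q * s ≤ q) (hl2 : q ≤ (A + 1) * Q * s) :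
    |r * t1 + R * (s * s) * t2| ≤ (A + 2) * s := by
  have e1 : |r * t1| ≤ (A + 1) * s := by
    rw [abs_mul, abs_of_nonneg hr0]
    calc r * |t1| ≤ ((A + 1) * Q * s) * |t1| :=
          mul_le_mul_of_nonneg_right (hr.trans hl2) (abs_nonneg _)
      _ = ((A + 1) * s) * (Q * |t1|) := by ring
      _ ≤ ((A + 1) * s) * 1 := mul_le_mul_of_nonneg_left h1 (by positivity)
      _ = (A + 1) * s := mul_one _
  have e2 : |R * (s * s) * t2| ≤ s := by
    rw [abs_mul, abs_of_nonneg (by positivity)]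
    calc R * (s * s) * |t2| ≤ Q * (s * s) * |t2| := by
          refine mul_le_mul_of_nonneg_right ?_ (abs_nonneg _)
          exact mul_le_mul_of_nonneg_right hR (by positivity)
      _ = s * ((Q * s) * |t2|) := by ring
      _ ≤ s * (q * |t2|) := by
          refine mul_le_mul_of_nonneg_left ?_ hs.le
          exact mul_le_mul_of_nonneg_right hl1 (abs_nonneg _)
      _ ≤ s * 1 := mul_le_mul_of_nonneg_left h2 hs.le
      _ = s := mul_one s
  calc |r * t1 + R * (s * s) * t2| ≤ |r * t1| + |R * (s * s) * t2| := abs_add_le _ _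
    _ ≤ (A + 1) * s + s := add_le_add e1 e2
    _ = (A + 2) * s := by ring

private lemma Vlem_alg (p' p q' q P' P Q' Q N j e : ℤ) (x y z yl s A : ℝ) (hA : 0 ≤ A)
    (hs : 0 < s) (hsN : s * s = N) (hN : 0 ≤ N) (hQ1 : 1 ≤ Q) (hq'0 : 0 ≤ q') (hq' : q' ≤ q)
    (hQ'0 : 0 ≤ Q') (hQ' : Q' ≤ Q) (hd : |p' * q - p * q'| = 1) (he : e = P' * Q - P * Q')
    (he1 : |e| = 1)
    (mx : x * (q' * z + q) = p' * z + p) (my : y * (Q' * yl + Q) = P' * yl + P)
    (e1x : q * |q * x - p| ≤ 1) (e2x : q * |q' * x - p'| ≤ 1) (e1y : Q * |Q * y - P| ≤ 1)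
    (e2y : Q * |Q' * y - P'| ≤ 1) (hl1 : Q * s ≤ q) (hl2 : q ≤ (A + 1) * Q * s)
    (hj : y = N * x - j) :
    ∃ a b g h : ℤ, |(a : ℝ)| ≤ (A + 2) * s ∧ |(b : ℝ)| ≤ (A + 2) * s ∧
      |(g : ℝ)| ≤ (A + 2) * s ∧ |(h : ℝ)| ≤ (A + 2) * s ∧
      |a * h - b * g| = N ∧ (a : ℝ) * z + b = yl * ((g : ℝ) * z + h) ∧
      N ∣ a * q - b * q' ∧ N ∣ g * q - h * q' := by
  have hq0 : (0 : ℝ) ≤ q := by
    have : (0 : ℤ) ≤ q := hq'0.trans hq'
    exact_mod_cast this
  have hQ0 : (0 : ℝ) < Q := by exact_mod_cast (by omega : 0 < Q)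
  have hq'0r : (0 : ℝ) ≤ q' := by exact_mod_cast hq'0
  have hq'r : (q' : ℝ) ≤ q := by exact_mod_cast hq'
  have hQ'0r : (0 : ℝ) ≤ Q' := by exact_mod_cast hQ'0
  have hQ'r : (Q' : ℝ) ≤ Q := by exact_mod_cast hQ'
  have her : |(e : ℝ)| = 1 := by exact_mod_cast he1
  have hee : (e : ℝ) * e = 1 := by
    have := abs_mul_abs_self (e : ℝ)
    rw [her] at this
    linarith
  refine ⟨e * (Q * (N * p' - j * q') - P * q'), e * (Q * (N * p - j * q) - P * q),
    e * (-Q' * (N * p' - j * q') + P' * q'), e * (-Q' * (N * p - j * q) + P' * q),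
    ?_, ?_, ?_, ?_, ?_, ?_, ?_, ?_⟩
  · push_cast
    rw [abs_mul, her, one_mul]
    have h1 := Vlem_bd (t1 := Q * y - P) (t2 := -(q' * x - p')) hA hs hQ0 hq'0r hq'r hQ0.le le_rfl
      e1y (by rw [abs_neg]; exact e2x) hl1 hl2
    rw [hsN] at h1
    have e1 : (Q : ℝ) * (N * p' - j * q') - P * q' =
        q' * (Q * y - P) + Q * N * (-(q' * x - p')) := by
      rw [hj]; ring
    rw [e1]
    exact h1
  · push_cast
    rw [abs_mul, her, one_mul]
    have h1 := Vlem_bd (t1 := Q * y - P) (t2 := -(q * x - p)) hA hs hQ0 hq0 le_rfl hQ0.le le_rfl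
      e1y (by rw [abs_neg]; exact e1x) hl1 hl2
    rw [hsN] at h1
    have e1 : (Q : ℝ) * (N * p - j * q) - P * q =
        q * (Q * y - P) + Q * N * (-(q * x - p)) := by
      rw [hj]; ring
    rw [e1]
    exact h1
  · push_cast
    rw [abs_mul, her, one_mul]
    have h1 := Vlem_bd (t1 := -(Q' * y - P')) (t2 := q' * x - p') hA hs hQ0 hq'0r hq'r hQ'0r hQ'r
      (by rw [abs_neg]; exact e2y) e2x hl1 hl2
    rw [hsN] at h1
    have e1 : -(Q' : ℝ) * (N * p' - j * q') + P' * q' =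
        q' * (-(Q' * y - P')) + Q' * N * (q' * x - p') := by
      rw [hj]; ring
    rw [e1]
    exact h1
  · push_cast
    rw [abs_mul, her, one_mul]
    have h1 := Vlem_bd (t1 := -(Q' * y - P')) (t2 := q * x - p) hA hs hQ0 hq0 le_rfl hQ'0r hQ'r
      (by rw [abs_neg]; exact e2y) e1x hl1 hl2
    rw [hsN] at h1
    have e1 : -(Q' : ℝ) * (N * p - j * q) + P' * q =
        q * (-(Q' * y - P')) + Q' * N * (q * x - p) := by
      rw [hj]; ring
    rw [e1]
    exact h1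
  · have e1 : e * (Q * (N * p' - j * q') - P * q') * (e * (-Q' * (N * p - j * q) + P' * q)) -
        e * (Q * (N * p - j * q) - P * q) * (e * (-Q' * (N * p' - j * q') + P' * q')) =
        e * e * (P' * Q - P * Q') * N * (p' * q - p * q') := by ring
    rw [e1, ← he, abs_mul, hd, mul_one, abs_mul, abs_mul, abs_mul, he1, abs_of_nonneg hN]
    ring
  · have hy1 : (Q : ℝ) * y - P = yl * (P' - Q' * y) := by linear_combination my
    have h2 : (N : ℝ) * (p' * z + p) - j * (q' * z + q) = y * (q' * z + q) := by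
      rw [hj]
      linear_combination (-(N : ℝ)) * mx
    push_cast
    have e1 : (e : ℝ) * (Q * (N * p' - j * q') - P * q') * z + e * (Q * (N * p - j * q) - P * q) =
        e * (Q * ((N : ℝ) * (p' * z + p) - j * (q' * z + q)) - P * (q' * z + q)) := by ring
    have e2 : (e : ℝ) * (-Q' * (N * p' - j * q') + P' * q') * z +
        e * (-Q' * (N * p - j * q) + P' * q) =
        e * (-Q' * ((N : ℝ) * (p' * z + p) - j * (q' * z + q)) + P' * (q' * z + q)) := by ring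
    rw [e1, e2, h2]
    linear_combination (e * (q' * z + q)) * hy1
  · refine ⟨e * Q * (p' * q - p * q'), ?_⟩
    ring
  · refine ⟨-e * Q' * (p' * q - p * q'), ?_⟩
    ring

theorem vlem {A : ℕ} {x y : ℝ} (hx : Dg A x) (hy : Dg A y) {N : ℕ} (hN : 1 ≤ N) {j : ℤ}
    (hj : y = (N : ℝ) * x - j) (k : ℕ) (hk : N ≤ (qn (wd x k)) ^ 2) :
    ∃ (l : ℕ) (a b g h : ℤ),
      |(a : ℝ)| ≤ ((A : ℝ) + 2) * √(N : ℝ) ∧ |(b : ℝ)| ≤ ((A : ℝ) + 2) * √(N : ℝ) ∧
      |(g : ℝ)| ≤ ((A : ℝ) + 2) * √(N : ℝ) ∧ |(h : ℝ)| ≤ ((A : ℝ) + 2) * √(N : ℝ) ∧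
      |a * h - b * g| = (N : ℤ) ∧
      (a : ℝ) * gs^[k] x + b = gs^[l] y * ((g : ℝ) * gs^[k] x + h) ∧
      (N : ℤ) ∣ a * qn (wd x k) - b * qp (wd x k) ∧
      (N : ℤ) ∣ g * qn (wd x k) - h * qp (wd x k) := by
  have hNr : (1 : ℝ) ≤ (N : ℝ) := by exact_mod_cast hN
  have hs : 0 < √(N : ℝ) := Real.sqrt_pos.2 (by linarith)
  have hsN : √(N : ℝ) * √(N : ℝ) = ((N : ℤ) : ℝ) := by
    rw [Real.mul_self_sqrt (by linarith)]
    simp
  have hsq : √(N : ℝ) ≤ (qn (wd x k) : ℝ) := by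
    rw [Real.sqrt_le_left (Nat.cast_nonneg _)]
    exact_mod_cast hk
  have hX : 1 ≤ (qn (wd x k) : ℝ) / √(N : ℝ) := by
    rw [le_div_iff₀ hs, one_mul]
    exact hsq
  obtain ⟨l, hl1, hl2⟩ := exists_last hy _ hX
  rw [le_div_iff₀ hs] at hl1
  rw [div_lt_iff₀ hs] at hl2
  obtain ⟨-, -, hq', -⟩ := entries_le (wd_pos hx.1 k)
  obtain ⟨-, -, hQ', hQ1⟩ := entries_le (wd_pos hy.1 l)
  have hdx := cf_det (wd x k)
  have hdy := cf_det (wd y l)
  have hpow : ∀ n : ℕ, |(-1 : ℤ) ^ n| = 1 := fun n => by rw [abs_pow]; simp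
  have hzx := (iter_InI hx.1 k).2
  have hzy := (iter_InI hy.1 l).2
  refine ⟨l, ?_⟩
  have key := Vlem_alg (pp (wd x k)) (pn (wd x k)) (qp (wd x k)) (qn (wd x k)) (pp (wd y l))
    (pn (wd y l)) (qp (wd y l)) (qn (wd y l)) (N : ℤ) j _ x y (gs^[k] x) (gs^[l] y) (√(N : ℝ)) A
    (Nat.cast_nonneg A) hs hsN (by positivity) (by exact_mod_cast hQ1) (by positivity)
    (by exact_mod_cast hq') (by positivity) (by exact_mod_cast hQ') (by rw [hdx]; exact hpow _)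
    rfl (by rw [hdy]; exact hpow _)
    (by simpa using mob hx.1 k) (by simpa using mob hy.1 l)
    (by simpa using (err1 hx.1 k).trans hzx.2.le) (by simpa using err2 hx.1 k)
    (by simpa using (err1 hy.1 l).trans hzy.2.le) (by simpa using err2 hy.1 l)
    (by simpa using hl1) (by simpa using hl2.le) (by simpa using hj)
  exact key

end MLG
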