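import Pool.Agent.H52.MLG.Sets
import Pool.Agent.H52.MLG.Vlem
import Pool.Agent.H52.MLG.Stt

/-! MLG SegA (wset_fin, yset_fin, seg_ok): factors of points of X_{e s e} are walks.

PROOF of `seg_ok`.  t = e.prod, N = t s.  By `XE_append` XE c e x and XE c e (N x); with
j0 = floor(N x) and y = N x - j0 also XE c e y (`XE_shift`), 0 < y < 1 (irrational), and both x, y are in
Dg A (`XE_bad`, `bad_dg`).  z = gs^[j] x is in Tail c e, w = wd z m is in Lang c e, so in WwB (finite set: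
subset of {Bdd A, qn <= ..}, `fin_bdd`).  `vlem` (k := j): l, a, b, g, h; √N <= t B^k because
N = t s <= t B^(2k) <= (t B^k)^2, so all entries are <= (A+2) t B^k = Kc.  s | N gives the two row
congruences with (qp, qn) of wd x j, `row_par` turns them into the state u.
y_l = gs^[l] y is in Tail c e, Dg A; by `exists_len` with Q = B^k a prefix v = wd y_l m' is in
yset; |y_l - rep v| <= 1/qn(v)^2 <= 1/B^(2k) and |z - rep w| <= 1/qn(w)^2 <= 1/B^(2k) (`cyl`).
|a rep w + b - rep v (g rep w + h)| <= |a rep w + b - y_l (g rep w + h)| + |y_l - rep v| |g rep w + h|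
and the first is |(a - y_l g)(rep w - z)| <= 2K/B^(2k), the second <= 2K/B^(2k).  Total <= dl.
PROOF of `seg`.  Strong induction on n, generalizing j (qn (wd x j) is nondecreasing in j, so hj persists).
z = gs^[j] x.  If qn (wd z m) < Q := B^(k+1) for every even m <= n: r = 0, v = [], ρ = wd z n;
n even: qn ρ < Q; n odd: qn ρ <= (A+1) qn (wd z (n-1)) (`qn_snoc_le`).  Otherwise take the least even m <= n
with qn (wd z m) >= Q; m >= 2 (qn [] = 1 < Q), qn (wd z m) <= (A+1)^2 qn (wd z (m-2)) <= (A+1)^2 Q, so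
w = wd z m is in WwB and okB by `seg_ok`; induction for j + m, n - m with u' = stt of wd x (j+m) =
nx s u w (`nx_bottom`, `wd_add`), and (B^(k+1))^(r+1) <= qn w * qn v <= qn (w ++ v) (`qn_append_ge`). -/

namespace MLG

theorem wset_fin {c : ℝ} (hc : 0 < c) {A : ℕ} (hA : 1 / c ≤ A) (e : List ℕ) (q0 : ℕ) :
    (wset c e A q0).Finite :=
  (fin_bdd A ((A + 1) ^ 2 * q0)).subset fun _ hw => ⟨Lang_Bdd hc hA hw.1, hw.2.2.2⟩

theorem yset_fin {c : ℝ} (hc : 0 < c) {A : ℕ} (hA : 1 / c ≤ A) (e : List ℕ) (q0 : ℕ) :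
    (yset c e A q0).Finite :=
  (fin_bdd A ((A + 1) * q0)).subset fun _ hw => ⟨Lang_Bdd hc hA hw.1, hw.2.2⟩

private theorem SegA_prod {e : List ℕ} (he : ∀ a ∈ e, 1 ≤ a) : 1 ≤ e.prod := by
  induction e with
  | nil => simp
  | cons a e ih =>
    rw [List.prod_cons]
    exact Nat.mul_pos (he a List.mem_cons_self) (ih fun b hb => he b (List.mem_cons_of_mem _ hb))

/-- the estimate with real numbers. -/
private theorem SegA_est {a b g h z z0 y y0 K ε : ℝ} (ha : |a| ≤ K) (hg : |g| ≤ K)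
    (hh : |h| ≤ K) (hz0 : 0 < z0) (hz1 : z0 < 1) (hy0 : 0 < y) (hy1 : y < 1)
    (hrel : a * z + b = y * (g * z + h)) (e1 : |z - z0| ≤ ε) (e2 : |y - y0| ≤ ε) :
    |a * z0 + b - y0 * (g * z0 + h)| ≤ 4 * K * ε := by
  have hK : 0 ≤ K := (abs_nonneg a).trans ha
  have h1 : a * z0 + b - y0 * (g * z0 + h) =
      -((a - y * g) * (z - z0)) + (y - y0) * (g * z0 + h) := by
    linear_combination hrel
  have h2 : |a - y * g| ≤ 2 * K := by
    calc |a - y * g| ≤ |a| + |y * g| := abs_sub _ _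
      _ ≤ K + 1 * K := by
        rw [abs_mul, abs_of_pos hy0]
        have := mul_le_mul hy1.le hg (abs_nonneg g) (by norm_num)
        linarith
      _ = 2 * K := by ring
  have h3 : |g * z0 + h| ≤ 2 * K := by
    calc |g * z0 + h| ≤ |g * z0| + |h| := abs_add_le _ _
      _ ≤ K * 1 + K := by
        rw [abs_mul, abs_of_pos hz0]
        have := mul_le_mul hg hz1.le hz0.le hK
        linarith
      _ = 2 * K := by ring
  rw [h1]
  calc |-((a - y * g) * (z - z0)) + (y - y0) * (g * z0 + h)|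
      ≤ |-((a - y * g) * (z - z0))| + |(y - y0) * (g * z0 + h)| := abs_add_le _ _
    _ = |a - y * g| * |z - z0| + |y - y0| * |g * z0 + h| := by rw [abs_neg, abs_mul, abs_mul]
    _ ≤ 2 * K * ε + ε * (2 * K) := by
        have hε : 0 ≤ ε := (abs_nonneg _).trans e1
        exact add_le_add (mul_le_mul h2 e1 (abs_nonneg _) (by linarith))
          (mul_le_mul e2 h3 (abs_nonneg _) hε)
    _ = 4 * K * ε := by ring

theorem seg_ok {c : ℝ} (hc : 0 < c) {A : ℕ} (hA : 1 / c ≤ A) (e : List ℕ) (he : ∀ a ∈ e, 1 ≤ a)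
    {k B s : ℕ} (hB : 2 ≤ B) (hk : 1 ≤ k) (hs : s.Prime) (hsB : s ≤ B ^ (2 * k)) {x : ℝ}
    (h0 : 0 < x) (h1 : x < 1) (hx : XE c (e ++ s :: e) x) (j : ℕ)
    (hj : e.prod * s ≤ (qn (wd x j)) ^ 2) (m : ℕ) (hm : Even m)
    (hm1 : B ^ (k + 1) ≤ qn (wd (gs^[j] x) m))
    (hm2 : qn (wd (gs^[j] x) m) ≤ (A + 1) ^ 2 * B ^ (k + 1)) :
    wd (gs^[j] x) m ∈ WwB c A e k B ∧
      okB c A e k B s (stt s (qp (wd x j)) (qn (wd x j))) (wd (gs^[j] x) m) := by
  classical
  obtain ⟨hx1, hx2⟩ := (XE_append c e s e x).1 hx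
  have hpe : 1 ≤ e.prod := SegA_prod he
  have hN1 : 1 ≤ e.prod * s := Nat.mul_pos hpe hs.pos
  set N : ℕ := e.prod * s with hN
  have hB0 : 0 < B := by omega
  -- the point y
  have hy1 := XE_shift hx2 (-⌊(N : ℝ) * x⌋)
  set y : ℝ := (N : ℝ) * x + ((-⌊(N : ℝ) * x⌋ : ℤ) : ℝ) with hydef
  have hyf : y = Int.fract ((N : ℝ) * x) := by
    rw [hydef, Int.fract]
    push_cast
    ring
  have hyirr : Irrational y := bad_irr hc (XE_bad hy1)
  have hy0 : 0 < y := by
    rcases lt_or_eq_of_le (show 0 ≤ y by rw [hyf]; exact Int.fract_nonneg _) with h | h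
    · exact h
    · exact absurd h.symm hyirr.ne_zero
  have hy01 : y < 1 := by
    rw [hyf]
    exact Int.fract_lt_one _
  have hDx : Dg A x := bad_dg hc hA h0 h1 (XE_bad hx1)
  have hDy : Dg A y := bad_dg hc hA hy0 hy01 (XE_bad hy1)
  -- the word is in the language
  have hTz : Tail c e (gs^[j] x) := ⟨x, j, h0, h1, hx1, rfl⟩
  have hwL : wd (gs^[j] x) m ∈ Lang c e := ⟨gs^[j] x, hTz, by rw [wd_length]⟩
  refine ⟨?_, ?_⟩
  · unfold WwB
    rw [mem_toF (wset_fin hc hA e _)]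
    exact ⟨hwL, by rw [wd_length]; exact hm, hm1, hm2⟩
  · obtain ⟨l, a, b, g, h, ha, hb, hg, hh, hdet, hrel, d1, d2⟩ :=
      vlem hDx hDy hN1 (j := ⌊(N : ℝ) * x⌋) (by rw [hydef]; push_cast; ring) j hj
    -- bound
    have hsq : √(N : ℝ) ≤ (e.prod : ℝ) * (B : ℝ) ^ k := by
      have h2 : (N : ℝ) ≤ ((e.prod : ℝ) * (B : ℝ) ^ k) ^ 2 := by
        have h3 : N ≤ (e.prod * B ^ k) ^ 2 := by
          calc N = e.prod * s := hN
            _ ≤ e.prod * B ^ (2 * k) := Nat.mul_le_mul_left _ hsB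
            _ ≤ e.prod ^ 2 * B ^ (2 * k) := by
                refine Nat.mul_le_mul_right _ ?_
                rw [pow_two]
                exact Nat.le_mul_of_pos_left _ hpe
            _ = (e.prod * B ^ k) ^ 2 := by
                rw [mul_pow, ← pow_mul, Nat.mul_comm k 2]
        exact_mod_cast h3
      exact Real.sqrt_le_iff.2 ⟨by positivity, h2⟩
    have hKc : ((A : ℝ) + 2) * √(N : ℝ) ≤ (Kc A e k B : ℝ) := by
      have h2 : (Kc A e k B : ℝ) = ((A : ℝ) + 2) * ((e.prod : ℝ) * (B : ℝ) ^ k) := by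
        unfold Kc
        rw [Nat.cast_mul, Nat.cast_mul, Nat.cast_pow, Nat.cast_add, Nat.cast_ofNat, mul_assoc]
      rw [h2]
      exact mul_le_mul_of_nonneg_left hsq (by positivity)
    have hint : ∀ t : ℤ, |(t : ℝ)| ≤ ((A : ℝ) + 2) * √(N : ℝ) → |t| ≤ (Kc A e k B : ℤ) := by
      intro t ht
      have h2 := ht.trans hKc
      rw [← Int.cast_abs] at h2
      exact_mod_cast h2
    have hsN : (s : ℤ) ∣ (N : ℤ) := by
      rw [hN]
      exact_mod_cast Dvd.intro_left e.prod rfl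
    -- the prefix of the tail of y
    have hDyl : Dg A (gs^[l] y) := Dg_iter hDy l
    obtain ⟨m', hm'1, hm'2⟩ := exists_len hDyl (B ^ k) (Nat.pos_of_ne_zero (by positivity))
    have hTy : Tail c e (gs^[l] y) := ⟨y, l, hy0, hy01, hy1, rfl⟩
    have hvL : wd (gs^[l] y) m' ∈ Lang c e := ⟨gs^[l] y, hTy, by rw [wd_length]⟩
    obtain ⟨hr1, hr2⟩ := rep_spec hwL
    obtain ⟨hv1, hv2⟩ := rep_spec hvL
    rw [wd_length] at hr2 hv2
    have hIz := iter_InI hDx.1 j
    have hIy := hDyl.1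
    have hIr := (Tail_Dg hc hA hr1).1
    have hIv := (Tail_Dg hc hA hv1).1
    have c1 := cyl hIz hIr m hr2.symm
    have c2 := cyl hIy hIv m' hv2.symm
    have hBk : (0 : ℝ) < (B : ℝ) ^ k := by positivity
    have c1' : |gs^[j] x - rep c e (wd (gs^[j] x) m)| ≤ 1 / ((B : ℝ) ^ k) ^ 2 := by
      refine c1.trans ?_
      have h2 : B ^ k ≤ qn (wd (gs^[j] x) m) :=
        (Nat.pow_le_pow_right hB0 (by omega)).trans hm1
      have h3 : (B : ℝ) ^ k ≤ (qn (wd (gs^[j] x) m) : ℝ) := by exact_mod_cast h2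
      gcongr
    have c2' : |gs^[l] y - rep c e (wd (gs^[l] y) m')| ≤ 1 / ((B : ℝ) ^ k) ^ 2 := by
      refine c2.trans ?_
      have h3 : (B : ℝ) ^ k ≤ (qn (wd (gs^[l] y) m') : ℝ) := by exact_mod_cast hm'1
      gcongr
    refine ⟨a, b, g, h, hint a ha, hint b hb, hint g hg, hint h hh, hdet,
      row_par hs _ (hsN.trans d1), row_par hs _ (hsN.trans d2), wd (gs^[l] y) m', ?_, ?_⟩
    · rw [mem_toF (yset_fin hc hA e _)]
      exact ⟨hvL, hm'1, hm'2⟩
    · have h4 := SegA_est (K := (Kc A e k B : ℝ)) (ha.trans hKc) (hg.trans hKc) (hh.trans hKc)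
        hIr.2.1 hIr.2.2 hIy.2.1 hIy.2.2 hrel c1' c2'
      refine h4.trans (le_of_eq ?_)
      unfold dl
      ring

end MLG
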