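import Pool.Agent.H52.MLG.Deg

/-! MLG Third: third moment over primes.

PROOF.  Σ_s Σ_u Σ_w1 (#{w' ≠ w1 : Same})^2 = Σ_s #{(u,w1,w2,w3) : w2 ≠ w1, w3 ≠ w1, Same s u w1 w2,
Same s u w1 w3}.  For given (s,w1,w2), w2 ≠ w1, at most 2 states u (`roots_le_two`, q1 = (A+1)^2 q0).
If such a u exists for (w1,w2,w3) then s | res w1 w2 w3 (`res_dvd`).
Triples with res ≠ 0: at most Nat.log 2 (20 q1^8) primes s divide it (2^(number of distinct prime
divisors) <= |res| <= 20 q1^8, `res_le`): contribution <= 2 N^3 log, N = card Ww.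
Triples with res = 0: for each s and (w1,w2) at most 2 states u and `deg` words w3: <= |P| 2 N^2 dB. -/

namespace MLG

private theorem Third_primes (P : Finset ℕ) (hP : ∀ s ∈ P, s.Prime) {n : ℤ} (hn : n ≠ 0) {M : ℕ}
    (hM : |n| ≤ (M : ℤ)) : (P.filter (fun s : ℕ => (s : ℤ) ∣ n)).card ≤ Nat.log 2 M := by
  apply Nat.le_log_of_pow_le (by norm_num)
  have h1 : ∏ s ∈ P.filter (fun s : ℕ => (s : ℤ) ∣ n), s ∣ n.natAbs := by
    apply Finset.prod_primes_dvd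
    · intro s hs
      exact (hP s (Finset.mem_filter.1 hs).1).prime
    · intro s hs
      exact Int.natCast_dvd.1 (Finset.mem_filter.1 hs).2
  have h2 : ∏ s ∈ P.filter (fun s : ℕ => (s : ℤ) ∣ n), s ≤ n.natAbs :=
    Nat.le_of_dvd (Int.natAbs_pos.2 hn) h1
  have h3 : 2 ^ (P.filter (fun s : ℕ => (s : ℤ) ∣ n)).card ≤
      ∏ s ∈ P.filter (fun s : ℕ => (s : ℤ) ∣ n), s := by
    rw [← Finset.prod_const]
    exact Finset.prod_le_prod (fun _ _ => by norm_num)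
      (fun s hs => (hP s (Finset.mem_filter.1 hs).1).two_le)
  have h4 : n.natAbs ≤ M := by
    zify
    exact hM
  exact h3.trans (h2.trans h4)

open Classical in
theorem third (A : ℕ) (Ww : Finset (List ℕ)) (q0 : ℕ) (hq0 : 1 ≤ q0)
    (h : ∀ w ∈ Ww, Pos w ∧ Even w.length ∧ q0 ≤ qn w ∧ qn w ≤ (A + 1) ^ 2 * q0)
    (hz : ∀ w ∈ Ww, ∃ z, Dg A z ∧ wd z w.length = w) (P : Finset ℕ)
    (hP : ∀ s ∈ P, s.Prime ∧ 2 * ((A + 1) ^ 2 * q0) < s) :
    ∑ s ∈ P, ∑ u ∈ Finset.range (s + 1), ∑ w ∈ Ww,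
        ((Ww.filter (fun w' => w' ≠ w ∧ Same s u w w')).card) ^ 2
      ≤ 2 * Ww.card ^ 3 * Nat.log 2 (20 * ((A + 1) ^ 2 * q0) ^ 8)
        + P.card * (2 * Ww.card ^ 2 * dB A ((A + 1) ^ 2 * q0)) := by
  set q1 := (A + 1) ^ 2 * q0 with hq1
  -- the square as a double sum
  have hsq : ∀ s u : ℕ, ∀ w ∈ Ww, ((Ww.filter (fun w' => w' ≠ w ∧ Same s u w w')).card) ^ 2 ≤
      ∑ w2 ∈ Ww, ∑ w3 ∈ Ww, if w ≠ w2 ∧ Same s u w w2 ∧ Same s u w w3 then 1 else 0 := by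
    intro s u w _
    rw [Finset.card_filter, sq, Finset.sum_mul_sum]
    refine Finset.sum_le_sum fun w2 _ => Finset.sum_le_sum fun w3 _ => ?_
    by_cases h1 : w2 ≠ w ∧ Same s u w w2
    · by_cases h2 : w3 ≠ w ∧ Same s u w w3
      · rw [if_pos h1, if_pos h2, if_pos ⟨h1.1.symm, h1.2, h2.2⟩, mul_one]
      · rw [if_neg h2, mul_zero]
        exact Nat.zero_le _
    · rw [if_neg h1, zero_mul]
      exact Nat.zero_le _
  -- the number of states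
  have hu : ∀ s ∈ P, ∀ w1 ∈ Ww, ∀ w2 ∈ Ww, ∀ w3 ∈ Ww,
      (∑ u ∈ Finset.range (s + 1), if w1 ≠ w2 ∧ Same s u w1 w2 ∧ Same s u w1 w3 then 1 else 0) ≤
        (if res w1 w2 w3 ≠ 0 ∧ (s : ℤ) ∣ res w1 w2 w3 then 2 else 0) +
          (if w1 ≠ w2 ∧ res w1 w2 w3 = 0 then 2 else 0) := by
    intro s hs w1 h1 w2 h2 w3 _
    obtain ⟨hsp, hsq1⟩ := hP s hs
    obtain ⟨p1, e1, -, k1⟩ := h w1 h1
    obtain ⟨p2, e2, -, k2⟩ := h w2 h2
    by_cases hne : w1 = w2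
    · rw [Finset.sum_eq_zero]
      · exact Nat.zero_le _
      · intro u _
        rw [if_neg]
        rintro ⟨h3, -⟩
        exact h3 hne
    · have hle2 : (∑ u ∈ Finset.range (s + 1),
          if w1 ≠ w2 ∧ Same s u w1 w2 ∧ Same s u w1 w3 then 1 else 0) ≤ 2 := by
        refine le_trans ?_ (roots_le_two hsp hsq1 p1 p2 e1 e2 k1 k2 hne)
        rw [Finset.card_filter]
        refine Finset.sum_le_sum fun u _ => ?_
        by_cases h3 : Same s u w1 w2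
        · rw [if_pos h3]
          split_ifs <;> omega
        · rw [if_neg h3, if_neg]
          rintro ⟨-, h4, -⟩
          exact h3 h4
      by_cases hd : (s : ℤ) ∣ res w1 w2 w3
      · by_cases h0 : res w1 w2 w3 = 0
        · rw [if_pos (⟨hne, h0⟩ : w1 ≠ w2 ∧ res w1 w2 w3 = 0)]
          omega
        · rw [if_pos (⟨h0, hd⟩ : res w1 w2 w3 ≠ 0 ∧ (s : ℤ) ∣ res w1 w2 w3)]
          omega
      · rw [Finset.sum_eq_zero]
        · exact Nat.zero_le _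
        · intro u hu
          rw [if_neg]
          rintro ⟨-, h3, h4⟩
          exact hd (res_dvd hsp (by have := Finset.mem_range.1 hu; omega) h3 h4)
  -- exchange of the sums
  have hstep : ∀ s ∈ P, (∑ u ∈ Finset.range (s + 1), ∑ w ∈ Ww,
        ((Ww.filter (fun w' => w' ≠ w ∧ Same s u w w')).card) ^ 2) ≤
      ∑ w1 ∈ Ww, ∑ w2 ∈ Ww, ∑ w3 ∈ Ww,
        ((if res w1 w2 w3 ≠ 0 ∧ (s : ℤ) ∣ res w1 w2 w3 then 2 else 0) +
          (if w1 ≠ w2 ∧ res w1 w2 w3 = 0 then 2 else 0)) := by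
    intro s hs
    calc (∑ u ∈ Finset.range (s + 1), ∑ w ∈ Ww,
          ((Ww.filter (fun w' => w' ≠ w ∧ Same s u w w')).card) ^ 2)
        ≤ ∑ u ∈ Finset.range (s + 1), ∑ w1 ∈ Ww, ∑ w2 ∈ Ww, ∑ w3 ∈ Ww,
            (if w1 ≠ w2 ∧ Same s u w1 w2 ∧ Same s u w1 w3 then 1 else 0) :=
          Finset.sum_le_sum fun u _ => Finset.sum_le_sum fun w hw => hsq s u w hw
      _ = ∑ w1 ∈ Ww, ∑ w2 ∈ Ww, ∑ w3 ∈ Ww, ∑ u ∈ Finset.range (s + 1),
            (if w1 ≠ w2 ∧ Same s u w1 w2 ∧ Same s u w1 w3 then 1 else 0) := by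
          rw [Finset.sum_comm]
          refine Finset.sum_congr rfl fun w1 _ => ?_
          rw [Finset.sum_comm]
          refine Finset.sum_congr rfl fun w2 _ => ?_
          rw [Finset.sum_comm]
      _ ≤ _ := Finset.sum_le_sum fun w1 h1 => Finset.sum_le_sum fun w2 h2 =>
          Finset.sum_le_sum fun w3 h3 => hu s hs w1 h1 w2 h2 w3 h3
  -- the sum over the primes
  have hprimes : ∀ w1 ∈ Ww, ∀ w2 ∈ Ww, ∀ w3 ∈ Ww,
      (∑ s ∈ P, if res w1 w2 w3 ≠ 0 ∧ (s : ℤ) ∣ res w1 w2 w3 then 2 else 0) ≤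
        2 * Nat.log 2 (20 * q1 ^ 8) := by
    intro w1 h1 w2 h2 w3 h3
    obtain ⟨p1, -, -, k1⟩ := h w1 h1
    obtain ⟨p2, -, -, k2⟩ := h w2 h2
    obtain ⟨p3, -, -, k3⟩ := h w3 h3
    by_cases h0 : res w1 w2 w3 = 0
    · rw [Finset.sum_eq_zero]
      · exact Nat.zero_le _
      · intro s _
        rw [if_neg]
        rintro ⟨h4, -⟩
        exact h4 h0
    · have h4 : (∑ s ∈ P, if res w1 w2 w3 ≠ 0 ∧ (s : ℤ) ∣ res w1 w2 w3 then 2 else 0) =
          2 * (P.filter (fun s : ℕ => (s : ℤ) ∣ res w1 w2 w3)).card := by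
        rw [Finset.card_filter, Finset.mul_sum]
        refine Finset.sum_congr rfl fun s _ => ?_
        by_cases h5 : (s : ℤ) ∣ res w1 w2 w3
        · rw [if_pos ⟨h0, h5⟩, if_pos h5, mul_one]
        · rw [if_neg (fun h6 => h5 h6.2), if_neg h5, mul_zero]
      rw [h4]
      refine Nat.mul_le_mul_left 2 (Third_primes P (fun s hs => (hP s hs).1) h0 ?_)
      have h6 := res_le p1 p2 p3 k1 k2 k3
      push_cast
      exact h6
  -- the degenerate triples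
  have hdeg : ∀ w1 ∈ Ww, ∀ w2 ∈ Ww,
      (∑ w3 ∈ Ww, if w1 ≠ w2 ∧ res w1 w2 w3 = 0 then 2 else 0) ≤ 2 * dB A q1 := by
    intro w1 h1 w2 h2
    by_cases hne : w1 = w2
    · rw [Finset.sum_eq_zero]
      · exact Nat.zero_le _
      · intro w3 _
        rw [if_neg]
        rintro ⟨h3, -⟩
        exact h3 hne
    · have h4 : (∑ w3 ∈ Ww, if w1 ≠ w2 ∧ res w1 w2 w3 = 0 then 2 else 0) =
          2 * (Ww.filter (fun w => res w1 w2 w = 0)).card := by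
        rw [Finset.card_filter, Finset.mul_sum]
        refine Finset.sum_congr rfl fun w3 _ => ?_
        by_cases h5 : res w1 w2 w3 = 0
        · rw [if_pos ⟨hne, h5⟩, if_pos h5, mul_one]
        · rw [if_neg (fun h6 => h5 h6.2), if_neg h5, mul_zero]
      rw [h4]
      exact Nat.mul_le_mul_left 2 (deg A Ww q0 hq0 h hz h1 h2 hne)
  calc ∑ s ∈ P, ∑ u ∈ Finset.range (s + 1), ∑ w ∈ Ww,
        ((Ww.filter (fun w' => w' ≠ w ∧ Same s u w w')).card) ^ 2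
      ≤ ∑ s ∈ P, ∑ w1 ∈ Ww, ∑ w2 ∈ Ww, ∑ w3 ∈ Ww,
        ((if res w1 w2 w3 ≠ 0 ∧ (s : ℤ) ∣ res w1 w2 w3 then 2 else 0) +
          (if w1 ≠ w2 ∧ res w1 w2 w3 = 0 then 2 else 0)) := Finset.sum_le_sum hstep
    _ = ∑ w1 ∈ Ww, ∑ w2 ∈ Ww, ((∑ w3 ∈ Ww, ∑ s ∈ P,
          (if res w1 w2 w3 ≠ 0 ∧ (s : ℤ) ∣ res w1 w2 w3 then 2 else 0)) +
          P.card * ∑ w3 ∈ Ww, (if w1 ≠ w2 ∧ res w1 w2 w3 = 0 then 2 else 0)) := by
        rw [Finset.sum_comm]
        refine Finset.sum_congr rfl fun w1 _ => ?_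
        rw [Finset.sum_comm]
        refine Finset.sum_congr rfl fun w2 _ => ?_
        rw [Finset.sum_comm]
        simp_rw [Finset.sum_add_distrib]
        rw [Finset.mul_sum]
        congr 1
        refine Finset.sum_congr rfl fun w3 _ => ?_
        rw [Finset.sum_const, smul_eq_mul]
    _ ≤ ∑ w1 ∈ Ww, ∑ w2 ∈ Ww, (Ww.card * (2 * Nat.log 2 (20 * q1 ^ 8)) +
          P.card * (2 * dB A q1)) := by
        refine Finset.sum_le_sum fun w1 h1 => Finset.sum_le_sum fun w2 h2 => ?_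
        refine Nat.add_le_add ?_ (Nat.mul_le_mul_left _ (hdeg w1 h1 w2 h2))
        have h3 := Finset.sum_le_card_nsmul Ww (fun w3 => ∑ s ∈ P,
          (if res w1 w2 w3 ≠ 0 ∧ (s : ℤ) ∣ res w1 w2 w3 then 2 else 0))
          (2 * Nat.log 2 (20 * q1 ^ 8)) (fun w3 h3 => hprimes w1 h1 w2 h2 w3 h3)
        rwa [smul_eq_mul] at h3
    _ = 2 * Ww.card ^ 3 * Nat.log 2 (20 * q1 ^ 8) + P.card * (2 * Ww.card ^ 2 * dB A q1) := by
        rw [Finset.sum_const, Finset.sum_const, smul_eq_mul, smul_eq_mul]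
        ring

end MLG
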