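import Pool.Agent.H52.MLG.Num
import Pool.Agent.H52.MLG.First
import Pool.Agent.H52.MLG.Third
import Pool.Agent.H52.MLG.Hp
import Pool.Agent.H52.MLG.DgBad

/-! MLG Sel: choice of the prime s.

PROOF.  P = pset A k B, t = e.prod >= 1, N = card WwB, Y = card of toF (yset ..).
For B large every s in P is prime, > 2 (A+1)^2 B^(k+1) > t, so s does not divide t.
All words of the two sets are in Lang, so their representatives are in Dg A (`rep_spec`, `Tail_Dg`) and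
Bad (1/(A+2)) (`dg_bad`), and the words are Bdd A (`Lang_Bdd`), hence Pos.
Exp c e κ gives (C0 >= 1 wlog) N <= C0 ((A+1)^2 B^(k+1))^(2κ) and Y <= C0 ((A+1) B^k)^(2κ) (toF sets are
contained in {w in Lang | qn w <= Y}; finite).
`first` with K = Kc, δ = dl: δ > 0, 2 δ < 1 for B large (δ = 4 (A+2) t / B^k), and
(2K+1)^2 (1 + 4 K δ (A+2)) <= 9 K^2 (1 + 16 (A+2)^3 t^2) = C1 B^(2k)  (K >= 1).
`third` with q0 = B^(k+1), and `logb`.
Averaging: if Σ_{s in P} f(s) <= F, Σ_{s in P} g(s) <= G, f, g >= 0, n = card P > 0 then some s has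
f(s) <= 2F/n and g(s) <= 2G/n (otherwise each s has f(s)/(2F/n) > 1 or g(s)/(2G/n) > 1, sum > n; treat
F = 0 or G = 0 separately, or count the bad s: fewer than n/2 + n/2).
Then `sec` and `num`. -/

namespace MLG

open Filter

private theorem Sel_real (A t B k : ℕ) (K δ : ℝ) (ht : (1 : ℝ) ≤ t) (hB : (1 : ℝ) ≤ (B : ℝ) ^ k)
    (hK : K = ((A : ℝ) + 2) * t * (B : ℝ) ^ k) (hδ : δ = 4 * (((A : ℝ) + 2) * t) / (B : ℝ) ^ k) :
    (2 * K + 1) ^ 2 * (1 + 4 * K * δ * ((A : ℝ) + 2)) ≤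
      9 * (((A : ℝ) + 2) * t) ^ 2 * (1 + 16 * ((A : ℝ) + 2) ^ 3 * t ^ 2) * (B : ℝ) ^ (2 * k) := by
  have hA : (0 : ℝ) ≤ A := Nat.cast_nonneg A
  have h2 : (1 : ℝ) ≤ K := by
    rw [hK]
    have h3 : (1 : ℝ) ≤ ((A : ℝ) + 2) * t := by nlinarith
    nlinarith
  have h3 : (2 * K + 1) ^ 2 ≤ 9 * K ^ 2 := by nlinarith
  have hB0 : (B : ℝ) ^ k ≠ 0 := by positivity
  have h4 : 4 * K * δ * ((A : ℝ) + 2) = 16 * ((A : ℝ) + 2) ^ 3 * t ^ 2 := by
    rw [hK, hδ]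
    field_simp
    ring
  have h5 : 9 * K ^ 2 * (1 + 16 * ((A : ℝ) + 2) ^ 3 * t ^ 2) =
      9 * (((A : ℝ) + 2) * t) ^ 2 * (1 + 16 * ((A : ℝ) + 2) ^ 3 * t ^ 2) * (B : ℝ) ^ (2 * k) := by
    rw [hK]
    ring
  rw [h4, ← h5]
  exact mul_le_mul_of_nonneg_right h3 (by positivity)

private theorem Sel_half (P : Finset ℕ) (hP : 0 < P.card) (f : ℕ → ℝ) (F : ℝ)
    (hf : ∀ s ∈ P, 0 ≤ f s) (hF : ∑ s ∈ P, f s ≤ F) :
    2 * (P.filter (fun s => 2 * F / P.card < f s)).card < P.card := by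
  have hF0 : 0 ≤ F := (Finset.sum_nonneg hf).trans hF
  have hPr : (0 : ℝ) < P.card := by exact_mod_cast hP
  by_contra hcon
  push Not at hcon
  set Q := P.filter (fun s => 2 * F / P.card < f s) with hQ
  have hQne : Q.Nonempty := by
    rw [← Finset.card_pos]; omega
  have h1 : ∑ s ∈ Q, (2 * F / P.card) < ∑ s ∈ Q, f s := by
    apply Finset.sum_lt_sum_of_nonempty hQne
    intro s hs
    rw [hQ, Finset.mem_filter] at hs
    exact hs.2
  rw [Finset.sum_const, nsmul_eq_mul] at h1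
  have h2 : ∑ s ∈ Q, f s ≤ ∑ s ∈ P, f s :=
    Finset.sum_le_sum_of_subset_of_nonneg (Finset.filter_subset _ _) (fun s hs _ => hf s hs)
  have h3 : F ≤ (Q.card : ℝ) * (2 * F / P.card) := by
    have h4 : (P.card : ℝ) ≤ 2 * Q.card := by exact_mod_cast hcon
    rw [mul_div_assoc', le_div_iff₀ hPr]
    nlinarith
  linarith

private theorem Sel_card {c : ℝ} {e : List ℕ} {κ C : ℝ}
    (hC : ∀ Y : ℝ, 1 ≤ Y → {w ∈ Lang c e | (qn w : ℝ) ≤ Y}.Finite ∧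
      ({w ∈ Lang c e | (qn w : ℝ) ≤ Y}.ncard : ℝ) ≤ C * Y ^ (2 * κ))
    {S : Set (List ℕ)} (M : ℕ) (hM : 1 ≤ M) (hS : ∀ w ∈ S, w ∈ Lang c e ∧ qn w ≤ M) :
    ((toF S).card : ℝ) ≤ C * (M : ℝ) ^ (2 * κ) := by
  obtain ⟨h1, h2⟩ := hC M (by exact_mod_cast hM)
  have hsub : S ⊆ {w ∈ Lang c e | (qn w : ℝ) ≤ M} := by
    intro w hw
    exact ⟨(hS w hw).1, by exact_mod_cast (hS w hw).2⟩
  have hfin : S.Finite := h1.subset hsub
  rw [card_toF hfin]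
  refine le_trans ?_ h2
  exact_mod_cast Set.ncard_le_ncard hsub h1

theorem avg2 (P : Finset ℕ) (hP : 0 < P.card) (f g : ℕ → ℝ) (F G : ℝ)
    (hf : ∀ s ∈ P, 0 ≤ f s) (hg : ∀ s ∈ P, 0 ≤ g s)
    (hF : ∑ s ∈ P, f s ≤ F) (hG : ∑ s ∈ P, g s ≤ G) :
    ∃ s ∈ P, f s ≤ 2 * F / P.card ∧ g s ≤ 2 * G / P.card := by
  by_contra hcon
  push Not at hcon
  have h1 := Sel_half P hP f F hf hF
  have h2 := Sel_half P hP g G hg hG
  have h3 : P ⊆ P.filter (fun s => 2 * F / P.card < f s) ∪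
      P.filter (fun s => 2 * G / P.card < g s) := by
    intro s hs
    rw [Finset.mem_union, Finset.mem_filter, Finset.mem_filter]
    by_cases h : f s ≤ 2 * F / P.card
    · exact Or.inr ⟨hs, hcon s hs h⟩
    · exact Or.inl ⟨hs, not_le.1 h⟩
  have h4 := (Finset.card_le_card h3).trans (Finset.card_union_le _ _)
  omega

theorem sel {c : ℝ} (hc : 0 < c) {A : ℕ} (hA : 1 / c ≤ A) (e : List ℕ) (he : ∀ a ∈ e, 1 ≤ a)
    {κ : ℝ} (hκ : 0 < κ) (hE : Exp c e κ) (k : ℕ) (hk : 2 ≤ k) (hκk : κ * (k + 1) ≤ k) :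
    ∀ᶠ B : ℕ in atTop, ∃ s ∈ pset A k B,
      secS s (WwB c A e k B) (okB c A e k B s) ≤ (B : ℝ) ^ (κ * (4 * k + 7 / 2)) := by
  classical
  obtain ⟨C, hC⟩ := id hE
  set t : ℕ := e.prod with ht
  have ht1 : 1 ≤ t := by
    rw [ht]
    exact Nat.one_le_iff_ne_zero.2 (by
      intro h0
      rw [List.prod_eq_zero_iff] at h0
      have := he 0 h0
      omega)
  set C0 : ℝ := max C 1 with hC0
  have hC0' : ∀ Y : ℝ, 1 ≤ Y → {w ∈ Lang c e | (qn w : ℝ) ≤ Y}.Finite ∧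
      ({w ∈ Lang c e | (qn w : ℝ) ≤ Y}.ncard : ℝ) ≤ C0 * Y ^ (2 * κ) := by
    intro Y hY
    obtain ⟨h1, h2⟩ := hC Y hY
    refine ⟨h1, h2.trans ?_⟩
    have : 0 ≤ Y ^ (2 * κ) := Real.rpow_nonneg (by linarith) _
    exact mul_le_mul_of_nonneg_right (le_max_left _ _) this
  obtain ⟨C2, hC2, hlogb⟩ := logb A k
  have hC0p : 0 < C0 := lt_of_lt_of_le one_pos (le_max_right _ _)
  set C1 : ℝ := 9 * (((A : ℝ) + 2) * t) ^ 2 * (1 + 16 * ((A : ℝ) + 2) ^ 3 * t ^ 2) with hC1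
  have htr : (1 : ℝ) ≤ t := by exact_mod_cast ht1
  have hC1p : 0 < C1 := by
    have : (0 : ℝ) < t := by linarith
    positivity
  set C3 : ℝ := C0 * ((A : ℝ) + 1) ^ (4 * κ) with hC3
  have hA1 : (1 : ℝ) ≤ (A : ℝ) + 1 := by
    have : (0 : ℝ) ≤ A := Nat.cast_nonneg A
    linarith
  have hC3p : 0 < C3 := mul_pos hC0p (Real.rpow_pos_of_pos (by linarith) _)
  filter_upwards [num C1 C2 C3 κ k hC1p hC2 hC3p hκ hk hκk, prim A k hk, eventually_ge_atTop 3,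
    eventually_ge_atTop (8 * ((A + 2) * t) + 1)] with B hnum hprim hB3 hBt
  have hB1 : 1 ≤ B := by omega
  have hBr : (3 : ℝ) ≤ B := by exact_mod_cast hB3
  have hB0 : (0 : ℝ) < B := by linarith
  have hL : 0 < Real.log B := Real.log_pos (by linarith)
  have hkr : (2 : ℝ) ≤ k := by exact_mod_cast hk
  set P := pset A k B with hP
  have hn0 : (0 : ℝ) < P.card := lt_of_lt_of_le (by positivity) hprim
  have hn : 0 < P.card := by exact_mod_cast hn0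
  have hBk : B ≤ B ^ (k + 1) := Nat.le_self_pow (by omega) B
  have hBk' : B ≤ B ^ k := Nat.le_self_pow (by omega) B
  have hPs : ∀ s ∈ P, s.Prime ∧ 2 * ((A + 1) ^ 2 * B ^ (k + 1)) < s := by
    intro s hs
    rw [hP, pset, Finset.mem_filter] at hs
    exact hs.2
  have htB : t < B := by
    have : t ≤ (A + 2) * t := Nat.le_mul_of_pos_left t (by omega)
    omega
  have hPt : ∀ s ∈ P, s.Prime ∧ ¬ s ∣ t := by
    intro s hs
    obtain ⟨h1, h2⟩ := hPs s hs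
    refine ⟨h1, fun hd => ?_⟩
    have h3 := Nat.le_of_dvd (by omega) hd
    have h4 : B ^ (k + 1) ≤ (A + 1) ^ 2 * B ^ (k + 1) :=
      Nat.le_mul_of_pos_left _ (by positivity)
    omega
  set Ww := WwB c A e k B with hWw
  set Wy := toF (yset c e A (B ^ k)) with hWy
  have hWwm : ∀ w ∈ Ww, w ∈ wset c e A (B ^ (k + 1)) := fun w hw => toF_sub hw
  have hWym : ∀ w ∈ Wy, w ∈ yset c e A (B ^ k) := fun w hw => toF_sub hw
  have hDg : ∀ w ∈ Ww, Dg A (rep c e w) ∧ wd (rep c e w) w.length = w := by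
    intro w hw
    have h1 := rep_spec (hWwm w hw).1
    exact ⟨Tail_Dg hc hA h1.1, h1.2⟩
  -- parameters
  set K : ℕ := Kc A e k B with hK
  set δ : ℝ := dl A e k B with hδ
  have hKr : (K : ℝ) = ((A : ℝ) + 2) * t * (B : ℝ) ^ k := by
    rw [hK, Kc, ← ht]
    simp only [Nat.cast_mul, Nat.cast_add, Nat.cast_pow, Nat.cast_ofNat]
  have hBkr : (B : ℝ) ≤ (B : ℝ) ^ k := by exact_mod_cast hBk'
  have hBkp : (0 : ℝ) < (B : ℝ) ^ k := by positivity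
  have hδr : δ = 4 * (((A : ℝ) + 2) * t) / (B : ℝ) ^ k := by
    rw [hδ, dl, ← hK, hKr]
    field_simp
  have hAt : 0 < ((A : ℝ) + 2) * t := by
    have : (0 : ℝ) ≤ A := Nat.cast_nonneg A
    positivity
  have hδ0 : 0 < δ := by rw [hδr]; positivity
  have hδ1 : 2 * δ < 1 := by
    rw [hδr, ← mul_div_assoc, div_lt_one hBkp]
    have h1 : (8 * (((A : ℝ) + 2) * t) + 1) ≤ B := by exact_mod_cast hBt
    linarith
  have hfirst := first (A := A) Ww Wy (rep c e) (fun w hw => dg_bad (hDg w hw).1) t K ht1 δ hδ0 hδ1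
    P hPt
  have hthird := third A Ww (B ^ (k + 1)) (Nat.one_le_pow _ _ hB1)
    (fun w hw => ⟨fun a ha => (Lang_Bdd hc hA (hWwm w hw).1 a ha).1, (hWwm w hw).2.1,
      (hWwm w hw).2.2.1, (hWwm w hw).2.2.2⟩)
    (fun w hw => ⟨rep c e w, hDg w hw⟩) P hPs
  -- sizes
  have hN : (Ww.card : ℝ) ≤ C3 * (B : ℝ) ^ (2 * κ * (k + 1)) := by
    have h1 := Sel_card hC0' (S := wset c e A (B ^ (k + 1))) ((A + 1) ^ 2 * B ^ (k + 1))
      (Nat.one_le_iff_ne_zero.2 (by positivity)) (fun w hw => ⟨hw.1, hw.2.2.2⟩)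
    refine h1.trans (le_of_eq ?_)
    push_cast
    rw [Real.mul_rpow (by positivity) (by positivity), ← Real.rpow_natCast ((A : ℝ) + 1) 2,
      ← Real.rpow_natCast (B : ℝ) (k + 1), ← Real.rpow_mul (by positivity),
      ← Real.rpow_mul (by positivity), hC3]
    push_cast
    rw [show (2 : ℝ) * (2 * κ) = 4 * κ by ring, show ((k : ℝ) + 1) * (2 * κ) = 2 * κ * (k + 1) by
      ring]
    ring
  have hY : (Wy.card : ℝ) ≤ C3 * (B : ℝ) ^ (2 * κ * k) := by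
    have h1 := Sel_card hC0' (S := yset c e A (B ^ k)) ((A + 1) * B ^ k)
      (Nat.one_le_iff_ne_zero.2 (by positivity)) (fun w hw => ⟨hw.1, hw.2.2⟩)
    refine h1.trans ?_
    push_cast
    rw [Real.mul_rpow (by positivity) (by positivity), ← Real.rpow_natCast (B : ℝ) k,
      ← Real.rpow_mul (by positivity), show (k : ℝ) * (2 * κ) = 2 * κ * k by ring, hC3]
    have h2 : ((A : ℝ) + 1) ^ (2 * κ) ≤ ((A : ℝ) + 1) ^ (4 * κ) :=
      Real.rpow_le_rpow_of_exponent_le hA1 (by linarith)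
    have h3 : (0 : ℝ) ≤ (B : ℝ) ^ (2 * κ * k) := Real.rpow_nonneg hB0.le _
    rw [mul_assoc C0]
    exact mul_le_mul_of_nonneg_left (mul_le_mul_of_nonneg_right h2 h3) hC0p.le
  -- first moment
  have hF : ∑ s ∈ P, (((Finset.range (s + 1) ×ˢ Ww).filter
        (fun p : ℕ × List ℕ => okB c A e k B s p.1 p.2)).card : ℝ)
      ≤ (Ww.card : ℝ) * Wy.card * C1 * (B : ℝ) ^ (2 * k) := by
    refine le_trans hfirst ?_
    have h1 : (2 * (K : ℝ) + 1) ^ 2 * (1 + 4 * K * δ * ((A : ℝ) + 2)) ≤ C1 * (B : ℝ) ^ (2 * k) :=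
      Sel_real A t B k K δ htr (by linarith) hKr hδr
    calc (Ww.card : ℝ) * Wy.card * ((2 * (K : ℝ) + 1) ^ 2 * (1 + 4 * K * δ * ((A : ℝ) + 2)))
        ≤ (Ww.card : ℝ) * Wy.card * (C1 * (B : ℝ) ^ (2 * k)) :=
          mul_le_mul_of_nonneg_left h1 (by positivity)
      _ = _ := by ring
  have hG : ∑ s ∈ P, ∑ u ∈ Finset.range (s + 1), ∑ w ∈ Ww,
        ((Ww.filter (fun w' => w' ≠ w ∧ Same s u w w')).card : ℝ) ^ 2
      ≤ 2 * (Ww.card : ℝ) ^ 3 * (C2 * Real.log B)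
        + P.card * (2 * (Ww.card : ℝ) ^ 2 * (C2 * Real.log B)) := by
    have h1 : ((∑ s ∈ P, ∑ u ∈ Finset.range (s + 1), ∑ w ∈ Ww,
        ((Ww.filter (fun w' => w' ≠ w ∧ Same s u w w')).card) ^ 2 : ℕ) : ℝ)
      ≤ ((2 * Ww.card ^ 3 * Nat.log 2 (20 * ((A + 1) ^ 2 * B ^ (k + 1)) ^ 8)
        + P.card * (2 * Ww.card ^ 2 * dB A ((A + 1) ^ 2 * B ^ (k + 1))) : ℕ) : ℝ) := by
      exact_mod_cast hthird
    push_cast at h1
    refine le_trans h1 ?_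
    obtain ⟨h2, h3⟩ := hlogb B hB3
    have h4 := mul_le_mul_of_nonneg_left h2 (show (0 : ℝ) ≤ 2 * (Ww.card : ℝ) ^ 3 by positivity)
    have h5 := mul_le_mul_of_nonneg_left h3 (show (0 : ℝ) ≤ 2 * (Ww.card : ℝ) ^ 2 by positivity)
    have h6 := mul_le_mul_of_nonneg_left h5 hn0.le
    linarith
  obtain ⟨s, hs, hs1, hs2⟩ := avg2 P hn _ _ _ _ (fun s _ => Nat.cast_nonneg _)
    (fun s _ => Finset.sum_nonneg fun u _ => Finset.sum_nonneg fun w _ => by positivity) hF hG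
  refine ⟨s, hs, ?_⟩
  have hsec := sec s (hPs s hs).1 Ww (okB c A e k B s)
  refine le_trans hsec ?_
  exact hnum Ww.card Wy.card P.card _ _ (Nat.cast_nonneg _) (Nat.cast_nonneg _) hN hY hprim
    (Nat.cast_nonneg _)
    (Finset.sum_nonneg fun u _ => Finset.sum_nonneg fun w _ => by positivity) hs1 hs2

end MLG
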