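import Pool.Agent.H52.MLG.BadDg

/-! MLG Sets: the finite sets of words of the step. -/

namespace MLG

open Classical in
/-- a finite set as a Finset. -/
noncomputable def toF (S : Set (List ℕ)) : Finset (List ℕ) :=
  if h : S.Finite then h.toFinset else ∅

theorem mem_toF {S : Set (List ℕ)} (h : S.Finite) (w : List ℕ) : w ∈ toF S ↔ w ∈ S := by
  simp [toF, h]

theorem toF_sub {S : Set (List ℕ)} {w : List ℕ} (h : w ∈ toF S) : w ∈ S := by
  unfold toF at h
  split_ifs at h with hf
  · simpa using h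
  · simp at h

theorem card_toF {S : Set (List ℕ)} (h : S.Finite) : (toF S).card = S.ncard := by
  rw [Set.ncard_eq_toFinset_card S h]
  simp [toF, h]

/-- segments: words of the language of even length with q0 <= q(w) <= (A+1)^2 q0. -/
def wset (c : ℝ) (e : List ℕ) (A q0 : ℕ) : Set (List ℕ) :=
  {w | w ∈ Lang c e ∧ Even w.length ∧ q0 ≤ qn w ∧ qn w ≤ (A + 1) ^ 2 * q0}

/-- words of the language with q0 <= q(w) <= (A+1) q0. -/
def yset (c : ℝ) (e : List ℕ) (A q0 : ℕ) : Set (List ℕ) :=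
  {w | w ∈ Lang c e ∧ q0 ≤ qn w ∧ qn w ≤ (A + 1) * q0}

open Classical in
/-- a tail of a point of X_e(c) with prefix w. -/
noncomputable def rep (c : ℝ) (e : List ℕ) (w : List ℕ) : ℝ :=
  if h : w ∈ Lang c e then Classical.choose h else 0

theorem rep_spec {c : ℝ} {e : List ℕ} {w : List ℕ} (h : w ∈ Lang c e) :
    Tail c e (rep c e w) ∧ wd (rep c e w) w.length = w := by
  unfold rep
  rw [dif_pos h]
  exact Classical.choose_spec h

/-- the primes of the step. -/
def pset (A k B : ℕ) : Finset ℕ :=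
  (Finset.Icc 1 (B ^ (2 * k))).filter (fun s => s.Prime ∧ 2 * ((A + 1) ^ 2 * B ^ (k + 1)) < s)

/-- bound for the entries of the matrices. -/
def Kc (A : ℕ) (e : List ℕ) (k B : ℕ) : ℕ := (A + 2) * e.prod * B ^ k

/-- the precision. -/
noncomputable def dl (A : ℕ) (e : List ℕ) (k B : ℕ) : ℝ :=
  4 * (Kc A e k B : ℝ) / ((B : ℝ) ^ k) ^ 2

/-- the segments of the step. -/
noncomputable def WwB (c : ℝ) (A : ℕ) (e : List ℕ) (k B : ℕ) : Finset (List ℕ) :=
  toF (wset c e A (B ^ (k + 1)))

/-- the allowed pairs (state, segment) of the step. -/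
def okB (c : ℝ) (A : ℕ) (e : List ℕ) (k B s u : ℕ) (w : List ℕ) : Prop :=
  Ok (e.prod * s) (Kc A e k B) (dl A e k B) (toF (yset c e A (B ^ k))) (rep c e) s u w

open Classical in
/-- the sum of squares of the matrix b(u,v). -/
noncomputable def secS (s : ℕ) (Ww : Finset (List ℕ)) (ok : ℕ → List ℕ → Prop) : ℝ :=
  ∑ u ∈ Finset.range (s + 1), ∑ w ∈ Ww.filter (fun w => ok u w),
      ((Ww.filter (fun w' => ok u w' ∧ nx s u w' = nx s u w)).card : ℝ)

end MLG
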