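import Pool.Agent.H52.MLG.CfAlg

/-! MLG StA (first half): states = points of the projective line over F_s, s prime.

PROOFS.  The vector (ux s u, uy s u) is never 0 mod s (u = s: (1,0); u < s: second coordinate 1).
`stt_spec`: (a,b) not both 0 mod s.  If s | b take v = s: a*0 - b*1.  Otherwise b is invertible mod s,
take v < s with v b = a mod s (v = ((a * b⁻¹ : ZMod s)).val): a * 1 - b * v = 0 mod s.
`state_uniq`: if (a,b) ≠ 0 mod s and s | a uy_u - b ux_u, s | a uy_v - b ux_v then
s | ux_u uy_v - uy_u ux_v  (work in the field ZMod s), and then u = v: both < s: u - v = 0 mod s;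
one equal to s: s | 1 impossible.
`img_ne`: (ax, ay) = (ux,uy) M_w with det M_w = ± 1, so not both are 0 mod s.
`nx_iff`: nx s u w is the unique state parallel to (ax,ay) for w; vectors are parallel iff the states agree.
`nx_bottom`: (qp (P++w), qn (P++w)) = (qp P, qn P) M_w, and (qp P, qn P) (not 0 mod s, it is a row of a
matrix of determinant ± 1) is parallel mod s to (ux,uy) of its state, so the images are parallel. -/

namespace MLG

theorem stt_le (s : ℕ) (a b : ℤ) : stt s a b ≤ s := by
  classical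
  unfold stt
  split_ifs with h
  · exact (Nat.find_spec h).1
  · exact Nat.zero_le _

theorem nx_le (s u : ℕ) (w : List ℕ) : nx s u w ≤ s := by
  exact stt_le _ _ _

theorem stt_spec {s : ℕ} (hs : s.Prime) {a b : ℤ} (h : ¬ ((s : ℤ) ∣ a ∧ (s : ℤ) ∣ b)) :
    (s : ℤ) ∣ a * uy s (stt s a b) - b * ux s (stt s a b) := by
  classical
  have hex : ∃ v : ℕ, v ≤ s ∧ (s : ℤ) ∣ a * uy s v - b * ux s v := by
    by_cases hb : (s : ℤ) ∣ b
    · refine ⟨s, le_rfl, ?_⟩
      simp only [uy, ux, if_true]
      simpa using hb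
    · haveI : Fact s.Prime := ⟨hs⟩
      obtain ⟨v, hv⟩ : ∃ v, v = ((a : ZMod s) * (b : ZMod s)⁻¹).val := ⟨_, rfl⟩
      have hvs : v < s := by
        rw [hv]
        exact ZMod.val_lt _
      refine ⟨v, hvs.le, ?_⟩
      simp only [uy, ux, if_neg hvs.ne]
      rw [← ZMod.intCast_zmod_eq_zero_iff_dvd]
      have hb' : (b : ZMod s) ≠ 0 := by
        rw [Ne, ZMod.intCast_zmod_eq_zero_iff_dvd]
        exact hb
      have hv' : (v : ZMod s) = (a : ZMod s) * (b : ZMod s)⁻¹ := by
        rw [hv, ZMod.natCast_zmod_val]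
      push_cast
      rw [hv']
      field_simp
      ring
  unfold stt
  rw [dif_pos hex]
  exact (Nat.find_spec hex).2

theorem state_uniq {s : ℕ} (hs : s.Prime) {a b : ℤ} (h : ¬ ((s : ℤ) ∣ a ∧ (s : ℤ) ∣ b))
    {u v : ℕ} (hu : u ≤ s) (hv : v ≤ s) (h1 : (s : ℤ) ∣ a * uy s u - b * ux s u)
    (h2 : (s : ℤ) ∣ a * uy s v - b * ux s v) : u = v := by
  by_cases hus : u = s
  · by_cases hvs : v = s
    · rw [hus, hvs]
    · exfalso
      simp only [uy, ux, if_pos hus, if_neg hvs] at h1 h2
      have hb : (s : ℤ) ∣ b := by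
        simpa using h1
      refine h ⟨?_, hb⟩
      have h3 := dvd_add h2 (hb.mul_right (v : ℤ))
      simpa using h3
  · by_cases hvs : v = s
    · exfalso
      simp only [uy, ux, if_neg hus, if_pos hvs] at h1 h2
      have hb : (s : ℤ) ∣ b := by
        simpa using h2
      refine h ⟨?_, hb⟩
      have h3 := dvd_add h1 (hb.mul_right (u : ℤ))
      simpa using h3
    · simp only [uy, ux, if_neg hus, if_neg hvs] at h1 h2
      have h3 : (s : ℤ) ∣ b * ((v : ℤ) - u) := by
        have := dvd_sub h1 h2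
        have e : a * 1 - b * (u : ℤ) - (a * 1 - b * (v : ℤ)) = b * ((v : ℤ) - u) := by ring
        rwa [e] at this
      rcases (Nat.prime_iff_prime_int.1 hs).dvd_or_dvd h3 with hb | hd
      · exfalso
        refine h ⟨?_, hb⟩
        have h4 := dvd_add h1 (hb.mul_right (u : ℤ))
        simpa using h4
      · have h5 : (v : ℤ) - u = 0 := by
          apply Int.eq_zero_of_abs_lt_dvd hd
          rw [abs_lt]
          constructor <;> omega
        omega

theorem img_ne {s : ℕ} (hs : s.Prime) {u : ℕ} (hu : u ≤ s) (w : List ℕ) :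
    ¬ ((s : ℤ) ∣ ax s u w ∧ (s : ℤ) ∣ ay s u w) := by
  rintro ⟨h1, h2⟩
  have hdet := cf_det w
  have hunit : IsUnit (((pp w : ℤ) * qn w - pn w * qp w)) := by
    rw [hdet]
    exact (isUnit_one.neg).pow _
  have hx : (s : ℤ) ∣ ux s u := by
    have h3 : (s : ℤ) ∣ ux s u * ((pp w : ℤ) * qn w - pn w * qp w) := by
      have h4 := dvd_sub (h1.mul_right (qn w : ℤ)) (h2.mul_right (qp w : ℤ))
      have e : ax s u w * (qn w : ℤ) - ay s u w * (qp w : ℤ) =
          ux s u * ((pp w : ℤ) * qn w - pn w * qp w) := by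
        unfold ax ay
        ring
      rwa [e] at h4
    exact (hunit.dvd_mul_right).1 h3
  have hy : (s : ℤ) ∣ uy s u := by
    have h3 : (s : ℤ) ∣ uy s u * ((pp w : ℤ) * qn w - pn w * qp w) := by
      have h4 := dvd_sub (h2.mul_right (pp w : ℤ)) (h1.mul_right (pn w : ℤ))
      have e : ay s u w * (pp w : ℤ) - ax s u w * (pn w : ℤ) =
          uy s u * ((pp w : ℤ) * qn w - pn w * qp w) := by
        unfold ax ay
        ring
      rwa [e] at h4
    exact (hunit.dvd_mul_right).1 h3
  have hs1 : ¬ (s : ℤ) ∣ 1 := (Nat.prime_iff_prime_int.1 hs).not_dvd_one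
  by_cases hus : u = s
  · simp only [ux, if_pos hus] at hx
    exact hs1 hx
  · simp only [uy, if_neg hus] at hy
    exact hs1 hy

end MLG
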