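import Pool.Agent.H52.MLG.CfAlg

/-! MLG Start: the words with digits <= A have counting exponent 2 κ < 2.

PROOF.  Put |w| := 1/(q (q + q')) with q = qn w, q' = qp w (length of the cylinder).
qn (w++[a]) = a q + q', qp (w++[a]) = q, so |w++[a]| = 1/((a q + q')((a+1) q + q')) and
the sum over 1 <= a <= A telescopes: (1/q)(1/(q+q') - 1/((A+1) q + q'))
 = |w| (1 - (q+q')/((A+1)q+q')) <= |w| (1 - 1/(A+1)).
Also |w++[a]| >= |w|/(A+2)^2 (a q + q' <= (A+1) q ... , (a+1) q + q' <= (A+2)(q+q')/1, any such constant).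
Let σ = 1 - η, θ = 1 - 1/(2(A+1)), η in (0,1) so small that ((A+2)^2)^η (1 - 1/(A+1)) <= θ:
sum_{a<=A} |w++[a]|^σ = sum |w++[a]| |w++[a]|^(-η) <= θ |w|^σ.
By induction the sum over words of length n (digits 1..A) of |w|^σ is <= θ^n |[]|^σ = θ^n.
If qn w <= Y then |w| >= 1/(2 Y^2), so the number of words of length n with qn w <= Y is
<= θ^n (2 Y^2)^σ; sum over n: <= (2 Y^2)^σ/(1-θ) <= C Y^(2σ).  Take κ = σ. -/

namespace MLG

/-- length of the cylinder of w -/
private noncomputable def Start_cyl (w : List ℕ) : ℝ := 1 / ((qn w : ℝ) * (qn w + qp w))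

private theorem Start_posw {A : ℕ} {w : List ℕ} (h : Bdd A w) : Pos w := fun a ha => (h a ha).1

private theorem Start_q {w : List ℕ} (h : Pos w) :
    (1 : ℝ) ≤ qn w ∧ (qp w : ℝ) ≤ qn w ∧ (0 : ℝ) ≤ qp w := by
  obtain ⟨-, -, h1, h2⟩ := entries_le h
  exact ⟨by exact_mod_cast h2, by exact_mod_cast h1, Nat.cast_nonneg _⟩

private theorem Start_snoc_q (w : List ℕ) (a : ℕ) :
    (qn (w ++ [a]) : ℝ) = a * qn w + qp w := by
  rw [qn_append]
  simp
  ring

private theorem Start_snoc_q' (w : List ℕ) (a : ℕ) : (qp (w ++ [a]) : ℝ) = qn w := by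
  rw [qp_append]
  simp

private theorem Start_cyl_snoc (w : List ℕ) (a : ℕ) : Start_cyl (w ++ [a]) =
    1 / (((a : ℝ) * qn w + qp w) * (((a : ℝ) + 1) * qn w + qp w)) := by
  unfold Start_cyl
  rw [Start_snoc_q, Start_snoc_q']
  congr 2
  ring

private theorem Start_cyl_pos {w : List ℕ} (h : Pos w) : 0 < Start_cyl w := by
  obtain ⟨h1, h2, h3⟩ := Start_q h
  unfold Start_cyl
  apply one_div_pos.2
  apply mul_pos <;> linarith

private theorem Start_tel {q q' : ℝ} (hq : 1 ≤ q) (hq' : 0 ≤ q') (n : ℕ) :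
    ∑ a ∈ Finset.Icc 1 n, 1 / (((a : ℝ) * q + q') * (((a : ℝ) + 1) * q + q')) =
      1 / q * (1 / (q + q') - 1 / (((n : ℝ) + 1) * q + q')) := by
  have hq0 : 0 < q := by linarith
  induction n with
  | zero => simp
  | succ n ih =>
    rw [Finset.sum_Icc_succ_top (by omega), ih]
    push_cast
    have h1 : ((n : ℝ) + 1) * q + q' ≠ 0 := by positivity
    have h2 : ((n : ℝ) + 1 + 1) * q + q' ≠ 0 := by positivity
    have h3 : q + q' ≠ 0 := by positivity
    field_simp
    ring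

private theorem Start_step {A : ℕ} (hA : 1 ≤ A) {η : ℝ} (h0 : 0 < η)
    (hη : (((A : ℝ) + 2) ^ 2) ^ η = (2 * (A : ℝ) + 1) / (2 * A)) {w : List ℕ} (hw : Bdd A w) :
    ∑ a ∈ Finset.Icc 1 A, (Start_cyl (w ++ [a])) ^ (1 - η) ≤
      ((2 * (A : ℝ) + 1) / (2 * (A + 1))) * (Start_cyl w) ^ (1 - η) := by
  obtain ⟨h1, h2, h3⟩ := Start_q (Start_posw hw)
  have hA' : (1 : ℝ) ≤ A := by exact_mod_cast hA
  have hL := Start_cyl_pos (Start_posw hw)
  have hLdef : Start_cyl w = 1 / ((qn w : ℝ) * (qn w + qp w)) := rfl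
  simp only [Start_cyl_snoc]
  generalize (qn w : ℝ) = q at h1 h2 hLdef ⊢
  generalize (qp w : ℝ) = q' at h2 h3 hLdef ⊢
  generalize Start_cyl w = L at hL hLdef ⊢
  have hq0 : 0 < q := by linarith
  have hLη : 0 < L ^ η := Real.rpow_pos_of_pos hL _
  have hterm : ∀ a ∈ Finset.Icc 1 A,
      (1 / (((a : ℝ) * q + q') * (((a : ℝ) + 1) * q + q'))) ^ (1 - η) ≤
        (1 / (((a : ℝ) * q + q') * (((a : ℝ) + 1) * q + q'))) *
          (((2 * (A : ℝ) + 1) / (2 * A)) / L ^ η) := by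
    intro a ha
    obtain ⟨ha1, ha2⟩ := Finset.mem_Icc.1 ha
    have ha1' : (1 : ℝ) ≤ a := by exact_mod_cast ha1
    have ha2' : (a : ℝ) ≤ A := by exact_mod_cast ha2
    have hpos1 : 0 < (a : ℝ) * q + q' := by positivity
    have hpos2 : 0 < ((a : ℝ) + 1) * q + q' := by positivity
    have hposA : 0 < 1 / (((a : ℝ) * q + q') * (((a : ℝ) + 1) * q + q')) :=
      one_div_pos.2 (mul_pos hpos1 hpos2)
    have hlow : L / ((A : ℝ) + 2) ^ 2 ≤
        1 / (((a : ℝ) * q + q') * (((a : ℝ) + 1) * q + q')) := by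
      rw [hLdef, div_div]
      apply one_div_le_one_div_of_le (mul_pos hpos1 hpos2)
      have e1 : (a : ℝ) * q + q' ≤ ((A : ℝ) + 2) * q := by nlinarith
      have e2 : ((a : ℝ) + 1) * q + q' ≤ ((A : ℝ) + 2) * (q + q') := by nlinarith
      calc ((a : ℝ) * q + q') * (((a : ℝ) + 1) * q + q')
          ≤ (((A : ℝ) + 2) * q) * (((A : ℝ) + 2) * (q + q')) :=
            mul_le_mul e1 e2 hpos2.le (by positivity)
        _ = q * (q + q') * ((A : ℝ) + 2) ^ 2 := by ring
    rw [Real.rpow_sub hposA, Real.rpow_one, div_eq_mul_inv]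
    apply mul_le_mul_of_nonneg_left _ hposA.le
    rw [inv_eq_one_div, ← hη]
    have e3 : L ^ η / (((A : ℝ) + 2) ^ 2) ^ η ≤
        (1 / (((a : ℝ) * q + q') * (((a : ℝ) + 1) * q + q'))) ^ η := by
      rw [← Real.div_rpow hL.le (by positivity)]
      exact Real.rpow_le_rpow (by positivity) hlow h0.le
    have e4 : 0 < (((A : ℝ) + 2) ^ 2) ^ η := by positivity
    rw [div_le_div_iff₀ (Real.rpow_pos_of_pos hposA _) hLη, one_mul]
    rw [div_le_iff₀ e4] at e3
    linarith
  refine (Finset.sum_le_sum hterm).trans ?_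
  rw [← Finset.sum_mul, Start_tel h1 h3 A]
  have hsum : 1 / q * (1 / (q + q') - 1 / (((A : ℝ) + 1) * q + q')) ≤ L * (A / (A + 1)) := by
    rw [hLdef]
    have e5 : 1 / q * (1 / (q + q') - 1 / (((A : ℝ) + 1) * q + q')) =
        A / ((q + q') * (((A : ℝ) + 1) * q + q')) := by
      field_simp
      ring
    have e6 : 1 / (q * (q + q')) * ((A : ℝ) / (A + 1)) = A / ((q + q') * (((A : ℝ) + 1) * q)) := by
      field_simp
    rw [e5, e6]
    apply div_le_div_of_nonneg_left (by positivity) (by positivity)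
    apply mul_le_mul_of_nonneg_left _ (by positivity)
    linarith
  calc 1 / q * (1 / (q + q') - 1 / (((A : ℝ) + 1) * q + q')) *
        (((2 * (A : ℝ) + 1) / (2 * A)) / L ^ η)
      ≤ L * (A / (A + 1)) * (((2 * (A : ℝ) + 1) / (2 * A)) / L ^ η) :=
        mul_le_mul_of_nonneg_right hsum (by positivity)
    _ = ((2 * (A : ℝ) + 1) / (2 * (A + 1))) * L ^ (1 - η) := by
        rw [Real.rpow_sub hL, Real.rpow_one]
        have hA0 : (A : ℝ) ≠ 0 := by positivity
        field_simp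

/-- words of length n with digits 1..A -/
private noncomputable def Start_W (A : ℕ) : ℕ → Finset (List ℕ)
  | 0 => {[]}
  | n + 1 => (Start_W A n ×ˢ Finset.Icc 1 A).image (fun x => x.1 ++ [x.2])

private theorem Start_W_bdd {A n : ℕ} : ∀ w ∈ Start_W A n, Bdd A w := by
  induction n with
  | zero =>
    intro w hw
    rw [Start_W, Finset.mem_singleton] at hw
    subst hw
    intro a ha
    simp at ha
  | succ n ih =>
    intro w hw
    rw [Start_W, Finset.mem_image] at hw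
    obtain ⟨⟨v, a⟩, hva, rfl⟩ := hw
    rw [Finset.mem_product] at hva
    intro b hb
    rw [List.mem_append, List.mem_singleton] at hb
    rcases hb with hb | hb
    · exact ih v hva.1 b hb
    · rw [hb]
      exact Finset.mem_Icc.1 hva.2

private theorem Start_mem_W {A : ℕ} (w : List ℕ) : Bdd A w → w ∈ Start_W A w.length := by
  induction w using List.reverseRecOn with
  | nil =>
    intro _
    rw [List.length_nil, Start_W]
    exact Finset.mem_singleton_self _
  | append_singleton w a ih =>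
    intro h
    have h1 : (w ++ [a]).length = w.length + 1 := by simp
    rw [h1, Start_W, Finset.mem_image]
    refine ⟨(w, a), Finset.mem_product.2 ⟨ih fun b hb => h b (by simp [hb]), ?_⟩, rfl⟩
    exact Finset.mem_Icc.2 (h a (by simp))

private theorem Start_sum {A : ℕ} (hA : 1 ≤ A) {η : ℝ} (h0 : 0 < η)
    (hη : (((A : ℝ) + 2) ^ 2) ^ η = (2 * (A : ℝ) + 1) / (2 * A)) (n : ℕ) :
    ∑ w ∈ Start_W A n, (Start_cyl w) ^ (1 - η) ≤ ((2 * (A : ℝ) + 1) / (2 * (A + 1))) ^ n := by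
  induction n with
  | zero =>
    rw [Start_W, Finset.sum_singleton, pow_zero]
    simp [Start_cyl]
  | succ n ih =>
    have hinj : Set.InjOn (fun x : List ℕ × ℕ => x.1 ++ [x.2])
        (↑(Start_W A n ×ˢ Finset.Icc 1 A) : Set (List ℕ × ℕ)) := by
      rintro ⟨v, a⟩ _ ⟨v', a'⟩ _ h
      obtain ⟨h1, h2⟩ := List.append_inj' h rfl
      simp only [List.cons.injEq, and_true] at h2
      simp only at h1
      rw [h1, h2]
    rw [Start_W, Finset.sum_image hinj, Finset.sum_product]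
    have h1 : ∀ w ∈ Start_W A n, ∑ a ∈ Finset.Icc 1 A, (Start_cyl (w ++ [a])) ^ (1 - η) ≤
        ((2 * (A : ℝ) + 1) / (2 * (A + 1))) * (Start_cyl w) ^ (1 - η) :=
      fun w hw => Start_step hA h0 hη (Start_W_bdd w hw)
    refine (Finset.sum_le_sum h1).trans ?_
    rw [← Finset.mul_sum, pow_succ, mul_comm]
    exact mul_le_mul_of_nonneg_right ih (by positivity)

theorem start (A : ℕ) (hA : 1 ≤ A) : ∃ κ : ℝ, 0 < κ ∧ κ < 1 ∧ ∃ C : ℝ, 0 < C ∧
    ∀ Y : ℝ, 1 ≤ Y →
      ({w : List ℕ | Bdd A w ∧ (qn w : ℝ) ≤ Y}.ncard : ℝ) ≤ C * Y ^ (2 * κ) := by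
  have hA' : (1 : ℝ) ≤ A := by exact_mod_cast hA
  have hρ : 1 < (2 * (A : ℝ) + 1) / (2 * A) := by
    rw [lt_div_iff₀ (by positivity)]
    linarith
  have hρ2 : (2 * (A : ℝ) + 1) / (2 * A) < ((A : ℝ) + 2) ^ 2 := by
    rw [div_lt_iff₀ (by positivity)]
    nlinarith
  have hlogρ := Real.log_pos hρ
  have hlog2 : 0 < Real.log (((A : ℝ) + 2) ^ 2) := Real.log_pos (hρ.trans hρ2)
  set η : ℝ := Real.log ((2 * (A : ℝ) + 1) / (2 * A)) / Real.log (((A : ℝ) + 2) ^ 2) with hηdef
  have h0 : 0 < η := div_pos hlogρ hlog2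
  have h1 : η < 1 := by
    rw [hηdef, div_lt_one hlog2]
    exact Real.log_lt_log (by positivity) hρ2
  have hη : (((A : ℝ) + 2) ^ 2) ^ η = (2 * (A : ℝ) + 1) / (2 * A) := by
    rw [Real.rpow_def_of_pos (by positivity), hηdef, mul_div_cancel₀ _ hlog2.ne',
      Real.exp_log (by positivity)]
  set θ : ℝ := (2 * (A : ℝ) + 1) / (2 * (A + 1)) with hθdef
  have hθ0 : 0 ≤ θ := by positivity
  have hθ1 : θ < 1 := by
    rw [hθdef, div_lt_one (by positivity)]
    linarith
  refine ⟨1 - η, by linarith, by linarith, 2 ^ (1 - η) / (1 - θ), ?_, ?_⟩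
  · exact div_pos (Real.rpow_pos_of_pos (by norm_num) _) (by linarith)
  · intro Y hY
    have hY0 : 0 < Y := by linarith
    have hfin : {w : List ℕ | Bdd A w ∧ (qn w : ℝ) ≤ Y}.Finite := by
      refine (fin_bdd A ⌊Y⌋₊).subset ?_
      rintro w ⟨hw1, hw2⟩
      exact ⟨hw1, (Nat.le_floor_iff hY0.le).2 hw2⟩
    rw [Set.ncard_eq_toFinset_card _ hfin]
    set F := hfin.toFinset with hF
    have hmem : ∀ w ∈ F, Bdd A w ∧ (qn w : ℝ) ≤ Y := fun w hw => by
      rw [hF, Set.Finite.mem_toFinset] at hw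
      exact hw
    set N := F.sup List.length + 1 with hN
    have hmaps : ∀ w ∈ F, w.length ∈ Finset.range N := fun w hw => by
      rw [Finset.mem_range, hN]
      exact Nat.lt_succ_of_le (Finset.le_sup (f := List.length) hw)
    have hone : ∀ w ∈ F, (1 : ℝ) ≤ (2 * Y ^ 2) ^ (1 - η) * (Start_cyl w) ^ (1 - η) := by
      intro w hw
      obtain ⟨hw1, hw2⟩ := hmem w hw
      obtain ⟨g1, g2, g3⟩ := Start_q (Start_posw hw1)
      rw [← Real.mul_rpow (by positivity) (Start_cyl_pos (Start_posw hw1)).le]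
      apply Real.one_le_rpow _ (by linarith)
      unfold Start_cyl
      rw [mul_one_div, one_le_div (by nlinarith)]
      nlinarith
    have hsum : ∑ w ∈ F, (Start_cyl w) ^ (1 - η) ≤ 1 / (1 - θ) := by
      rw [← Finset.sum_fiberwise_of_maps_to hmaps]
      have h2 : ∀ n ∈ Finset.range N, ∑ w ∈ F with w.length = n, (Start_cyl w) ^ (1 - η) ≤
          θ ^ n := by
        intro n _
        refine (Finset.sum_le_sum_of_subset_of_nonneg ?_ ?_).trans (Start_sum hA h0 hη n)
        · intro w hw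
          rw [Finset.mem_filter] at hw
          rw [← hw.2]
          exact Start_mem_W w (hmem w hw.1).1
        · intro w hw _
          exact Real.rpow_nonneg (Start_cyl_pos (Start_posw (Start_W_bdd w hw))).le _
      refine (Finset.sum_le_sum h2).trans ?_
      rw [one_div, ← tsum_geometric_of_lt_one hθ0 hθ1]
      exact Summable.sum_le_tsum _ (fun n _ => pow_nonneg hθ0 n)
        (summable_geometric_of_lt_one hθ0 hθ1)
    calc (F.card : ℝ) = ∑ w ∈ F, (1 : ℝ) := by simp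
      _ ≤ ∑ w ∈ F, (2 * Y ^ 2) ^ (1 - η) * (Start_cyl w) ^ (1 - η) := Finset.sum_le_sum hone
      _ = (2 * Y ^ 2) ^ (1 - η) * ∑ w ∈ F, (Start_cyl w) ^ (1 - η) := by rw [Finset.mul_sum]
      _ ≤ (2 * Y ^ 2) ^ (1 - η) * (1 / (1 - θ)) :=
          mul_le_mul_of_nonneg_left hsum (by positivity)
      _ = 2 ^ (1 - η) / (1 - θ) * Y ^ (2 * (1 - η)) := by
          rw [Real.mul_rpow (by norm_num) (by positivity), ← Real.rpow_natCast Y 2,
            ← Real.rpow_mul hY0.le]
          push_cast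
          ring

end MLG
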