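import Pool.Agent.H52.MLG.StepA

/-! MLG StepB (iter): iteration of the step.

PROOF of `iter`.  `start` gives κ0 < 1 and a bound for all words Bdd A, so Exp c [] κ0
(`Lang_Bdd`, `fin_bdd`).  Choose k >= 2 with κ0 (k+1) <= k.  Induction: for all n there is e (all >= 2) with
Exp c e (κ0 (1 - 1/(8(k+1)))^n); then let n be large. -/

namespace MLG

private theorem StepB_exp0 {c : ℝ} (hc : 0 < c) {A : ℕ} (hA : 1 / c ≤ A) :
    ∃ κ : ℝ, 0 < κ ∧ κ < 1 ∧ Exp c [] κ := by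
  have h2 : 0 < 1 / c := by positivity
  have hA1 : 1 ≤ A := by
    rcases Nat.eq_zero_or_pos A with h | h
    · subst h
      simp at hA
      linarith
    · exact h
  obtain ⟨κ, hκ, hκ1, C, hC, hst⟩ := start A hA1
  refine ⟨κ, hκ, hκ1, C, fun Y hY => ?_⟩
  have hfin : {w : List ℕ | Bdd A w ∧ (qn w : ℝ) ≤ Y}.Finite := by
    refine (fin_bdd A ⌊Y⌋₊).subset ?_
    rintro w ⟨h1, h3⟩
    exact ⟨h1, Nat.le_floor h3⟩
  have hsub : {w ∈ Lang c [] | (qn w : ℝ) ≤ Y} ⊆ {w : List ℕ | Bdd A w ∧ (qn w : ℝ) ≤ Y} := by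
    rintro w ⟨h1, h3⟩
    exact ⟨Lang_Bdd hc hA h1, h3⟩
  refine ⟨hfin.subset hsub, le_trans ?_ (hst Y hY)⟩
  exact_mod_cast Set.ncard_le_ncard hsub hfin

theorem iter {c : ℝ} (hc : 0 < c) {A : ℕ} (hA : 1 / c ≤ A) (κ : ℝ) (hκ : 0 < κ) :
    ∃ e : List ℕ, (∀ a ∈ e, 2 ≤ a) ∧ ∃ κ' : ℝ, 0 < κ' ∧ κ' ≤ κ ∧ Exp c e κ' := by
  obtain ⟨κ0, h0, h1, hE0⟩ := StepB_exp0 hc hA
  -- choice of k
  obtain ⟨m, hm⟩ := exists_nat_ge (κ0 / (1 - κ0))
  set k : ℕ := m + 2 with hk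
  have h10 : 0 < 1 - κ0 := by linarith
  have hmk : κ0 ≤ m * (1 - κ0) := by
    rwa [div_le_iff₀ h10] at hm
  have hκk : κ0 * ((k : ℝ) + 1) ≤ k := by
    have : (k : ℝ) = m + 2 := by rw [hk]; push_cast; ring
    rw [this]
    nlinarith
  set g : ℝ := 1 - 1 / (8 * ((k : ℝ) + 1)) with hg
  have hkpos : (0 : ℝ) < (k : ℝ) + 1 := by positivity
  have hg0 : 0 < g := by
    have : 1 / (8 * ((k : ℝ) + 1)) ≤ 1 / 8 := by
      apply one_div_le_one_div_of_le (by norm_num)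
      have : (0 : ℝ) ≤ k := by positivity
      linarith
    rw [hg]
    linarith
  have hg1 : g < 1 := by
    have : 0 < 1 / (8 * ((k : ℝ) + 1)) := by positivity
    rw [hg]
    linarith
  have key : ∀ n : ℕ, ∃ e : List ℕ, (∀ a ∈ e, 2 ≤ a) ∧ Exp c e (κ0 * g ^ n) := by
    intro n
    induction n with
    | zero => exact ⟨[], by simp, by simpa using hE0⟩
    | succ n ih =>
      obtain ⟨e, he, hE⟩ := ih
      have hpos : 0 < κ0 * g ^ n := by positivity
      have hle : κ0 * g ^ n * ((k : ℝ) + 1) ≤ k := by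
        have h3 : g ^ n ≤ 1 := pow_le_one₀ hg0.le hg1.le
        have h4 : κ0 * g ^ n ≤ κ0 := by nlinarith
        nlinarith
      obtain ⟨s, hs, hS⟩ := step hc hA e (fun a ha => le_trans (by norm_num) (he a ha)) hpos hE k
        (by omega) hle
      refine ⟨e ++ s :: e, ?_, ?_⟩
      · intro a ha
        rcases List.mem_append.mp ha with h | h
        · exact he a h
        · rcases List.mem_cons.mp h with h | h
          · omega
          · exact he a h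
      · have : κ0 * g ^ (n + 1) = κ0 * g ^ n * (1 - 1 / (8 * ((k : ℝ) + 1))) := by
          rw [pow_succ, ← hg]
          ring
        rw [this]
        exact hS
  obtain ⟨n, hn⟩ := exists_pow_lt_of_lt_one (show (0 : ℝ) < κ / κ0 by positivity) hg1
  obtain ⟨e, he, hE⟩ := key n
  refine ⟨e, he, κ0 * g ^ n, by positivity, ?_, hE⟩
  rw [lt_div_iff₀ h0] at hn
  linarith

end MLG
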