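import Pool.Agent.H52.MLG.Cnt
import Pool.Agent.H52.MLG.Sel
import Pool.Agent.H52.MLG.Start

/-! MLG StepA (step).

PROOF of `step`.  κ' = κ (1 - 1/(8(k+1))) > 0.  Take B large from `sel` with B >= 2 and
2 <= (B^(k+1))^(2κ').  H := B^(κ(4k+7/2)/2); H^2 = B^(κ(4k+7/2)); (B^(k+1))^(2κ') = B^(κ(2k+7/4)) = H.
s prime so s >= 2.  `cnt`.
PROOF of `iter`.  `start` gives κ0 < 1 and a bound for all words Bdd A, so Exp c [] κ0
(`Lang_Bdd`, `fin_bdd`).  Choose k >= 2 with κ0 (k+1) <= k.  Induction: for all n there is e (all >= 2) with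
Exp c e (κ0 (1 - 1/(8(k+1)))^n); then let n be large. -/

namespace MLG

open Filter in
private theorem StepA_large {a : ℝ} (ha : 0 < a) :
    ∀ᶠ B : ℕ in atTop, (2 : ℝ) ≤ (B : ℝ) ^ a :=
  ((tendsto_rpow_atTop ha).comp tendsto_natCast_atTop_atTop).eventually_ge_atTop 2

theorem step {c : ℝ} (hc : 0 < c) {A : ℕ} (hA : 1 / c ≤ A) (e : List ℕ) (he : ∀ a ∈ e, 1 ≤ a)
    {κ : ℝ} (hκ : 0 < κ) (hE : Exp c e κ) (k : ℕ) (hk : 2 ≤ k) (hκk : κ * (k + 1) ≤ k) :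
    ∃ s : ℕ, 2 ≤ s ∧ Exp c (e ++ s :: e) (κ * (1 - 1 / (8 * ((k : ℝ) + 1)))) := by
  have hk0 : (0 : ℝ) < (k : ℝ) + 1 := by positivity
  have hk1 : (2 : ℝ) ≤ (k : ℝ) := by exact_mod_cast hk
  have ha : 0 < κ * (2 * k + 7 / 4) := by positivity
  have hev := ((sel hc hA e he hκ hE k hk hκk).and
    (StepA_large ha)).and (Filter.eventually_ge_atTop 2)
  obtain ⟨B, ⟨⟨s, hs, hsec⟩, hlarge⟩, hB⟩ := hev.exists
  have hsp : s.Prime ∧ s ≤ B ^ (2 * k) := by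
    unfold pset at hs
    rw [Finset.mem_filter, Finset.mem_Icc] at hs
    exact ⟨hs.2.1, hs.1.2⟩
  have hB0 : (0 : ℝ) ≤ (B : ℝ) := Nat.cast_nonneg B
  have hBpos : (0 : ℝ) < (B : ℝ) := by
    have : 0 < B := by omega
    exact_mod_cast this
  have hHQ : ((B : ℝ) ^ (k + 1)) ^ (2 * (κ * (1 - 1 / (8 * ((k : ℝ) + 1)))))
      = (B : ℝ) ^ (κ * (2 * k + 7 / 4)) := by
    rw [← Real.rpow_natCast (B : ℝ) (k + 1), ← Real.rpow_mul hB0]
    congr 1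
    push_cast
    field_simp
    ring
  have hH2 : ((B : ℝ) ^ (κ * (2 * k + 7 / 4))) ^ 2 = (B : ℝ) ^ (κ * (4 * k + 7 / 2)) := by
    rw [← Real.rpow_natCast ((B : ℝ) ^ (κ * (2 * k + 7 / 4))) 2, ← Real.rpow_mul hB0]
    congr 1
    push_cast
    ring
  refine ⟨s, hsp.1.two_le, ?_⟩
  have hκ' : 0 < κ * (1 - 1 / (8 * ((k : ℝ) + 1))) := by
    apply mul_pos hκ
    rw [sub_pos, div_lt_one (by positivity)]
    linarith
  refine cnt hc hA e he hB (by omega) hsp.1 hsp.2 ((B : ℝ) ^ (κ * (2 * k + 7 / 4)))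
    (κ * (1 - 1 / (8 * ((k : ℝ) + 1)))) (by positivity) hκ' ?_ ?_ ?_
  · rw [hH2]
    exact hsec
  · rw [hHQ]
  · rw [hHQ]
    exact hlarge

end MLG
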