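import Pool.Agent.H52.MLG.Defs

/-! MLG Vcount: counting the integer matrices.

PROOF.  For each of the (2K+1)^2 pairs (g,h) bound the number of (a,b) with |a|,|b| <= K and
|a z + b - β| <= δ (β = β g h).  Two different such pairs: difference (a0,b0) with |a0 z + b0| <= 2δ < 1,
|a0| <= 2K; a0 = 0 would give |b0| < 1, b0 = 0.  So the a-coordinates are distinct, and by
Bad (1/(A+2)) z:  1/(A+2) <= |a0| |a0 z + b0| <= |a0| 2δ, i.e. |a0| >= 1/(2δ(A+2)).
A set of integers in [-K,K] with all gaps >= G > 0 has at most 1 + 2K/G elements.  So the number of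
(a,b) is <= 1 + 2K * 2δ(A+2). -/

namespace MLG

/-- the box of integer quadruples. -/
noncomputable def box (K : ℕ) : Finset (ℤ × ℤ × ℤ × ℤ) :=
  Finset.Icc (-(K : ℤ)) K ×ˢ Finset.Icc (-(K : ℤ)) K ×ˢ Finset.Icc (-(K : ℤ)) K ×ˢ
    Finset.Icc (-(K : ℤ)) K

private theorem Vcount_inj {A : ℕ} {z : ℝ} (hz : Bad (1 / ((A : ℝ) + 2)) z) (δ : ℝ)
    (hδ : 2 * δ < 1) (β : ℝ) (a b a' b' : ℤ) (h1 : |(a : ℝ) * z + b - β| ≤ δ)
    (h2 : |(a' : ℝ) * z + b' - β| ≤ δ) (K : ℝ)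
    (hF : ⌊((a : ℝ) + K) * (2 * δ * ((A : ℝ) + 2))⌋ = ⌊((a' : ℝ) + K) * (2 * δ * ((A : ℝ) + 2))⌋) :
    a = a' ∧ b = b' := by
  have hA : (0 : ℝ) < (A : ℝ) + 2 := by positivity
  have hd : |((a : ℝ) - a') * z + ((b : ℝ) - b')| ≤ 2 * δ := by
    have e : ((a : ℝ) - a') * z + ((b : ℝ) - b')
        = ((a : ℝ) * z + b - β) - ((a' : ℝ) * z + b' - β) := by ring
    rw [e]
    exact (abs_sub _ _).trans (by linarith)
  by_cases haa : a = a'
  · refine ⟨haa, ?_⟩
    subst haa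
    rw [sub_self, zero_mul, zero_add] at hd
    have h3 : |((b - b' : ℤ) : ℝ)| < 1 := by
      push_cast
      linarith
    have h4 : |b - b'| < 1 := by
      rw [← Int.cast_abs] at h3
      exact_mod_cast h3
    have h5 := Int.abs_lt_one_iff.1 h4
    omega
  · exfalso
    have hfl := Int.abs_sub_lt_one_of_floor_eq_floor hF
    have e1 : ((a : ℝ) + K) * (2 * δ * ((A : ℝ) + 2)) - ((a' : ℝ) + K) * (2 * δ * ((A : ℝ) + 2))
        = ((a : ℝ) - a') * (2 * δ * ((A : ℝ) + 2)) := by ring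
    rw [e1, abs_mul] at hfl
    have hδ0 : 0 ≤ δ := (abs_nonneg _).trans h1
    have hc : |2 * δ * ((A : ℝ) + 2)| = 2 * δ * ((A : ℝ) + 2) := abs_of_nonneg (by positivity)
    rw [hc] at hfl
    have key : 1 / ((A : ℝ) + 2) ≤ |(a : ℝ) - a'| * (2 * δ) := by
      have hm : 1 ≤ (a - a').natAbs := by
        rw [Nat.one_le_iff_ne_zero]
        intro h0
        rw [Int.natAbs_eq_zero] at h0
        omega
      have hcast : (((a - a').natAbs : ℕ) : ℝ) = |(a : ℝ) - a'| := by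
        rw [Nat.cast_natAbs]
        push_cast
        rfl
      rcases le_total 0 (a - a') with h0 | h0
      · have hb := hz (a - a').natAbs hm (-(b - b'))
        rw [hcast] at hb
        have h0' : (0 : ℝ) ≤ (a : ℝ) - a' := by exact_mod_cast h0
        have e2 : |(a : ℝ) - a'| * z - ((-(b - b') : ℤ) : ℝ)
            = ((a : ℝ) - a') * z + ((b : ℝ) - b') := by
          rw [abs_of_nonneg h0']
          push_cast
          ring
        rw [e2] at hb
        exact hb.trans (mul_le_mul_of_nonneg_left hd (abs_nonneg _))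
      · have hb := hz (a - a').natAbs hm (b - b')
        rw [hcast] at hb
        have h0' : (a : ℝ) - a' ≤ 0 := by exact_mod_cast h0
        have e2 : |(a : ℝ) - a'| * z - ((b - b' : ℤ) : ℝ)
            = -(((a : ℝ) - a') * z + ((b : ℝ) - b')) := by
          rw [abs_of_nonpos h0']
          push_cast
          ring
        rw [e2, abs_neg] at hb
        exact hb.trans (mul_le_mul_of_nonneg_left hd (abs_nonneg _))
    rw [div_le_iff₀ hA] at key
    have : |(a : ℝ) - a'| * (2 * δ) * ((A : ℝ) + 2) = |(a : ℝ) - a'| * (2 * δ * ((A : ℝ) + 2)) := by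
      ring
    rw [this] at key
    linarith

open Classical in
theorem vcount {A : ℕ} {z : ℝ} (hz : Bad (1 / ((A : ℝ) + 2)) z) (K : ℕ) (δ : ℝ) (hδ0 : 0 < δ)
    (hδ : 2 * δ < 1) (β : ℤ → ℤ → ℝ) :
    (((box K).filter (fun v : ℤ × ℤ × ℤ × ℤ =>
        |(v.1 : ℝ) * z + v.2.1 - β v.2.2.1 v.2.2.2| ≤ δ)).card : ℝ)
      ≤ (2 * (K : ℝ) + 1) ^ 2 * (1 + 4 * K * δ * ((A : ℝ) + 2)) := by
  set c : ℝ := 2 * δ * ((A : ℝ) + 2) with hc
  have hc0 : 0 ≤ c := by positivity
  set M : ℤ := ⌊2 * (K : ℝ) * c⌋ with hM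
  have hM0 : 0 ≤ M := Int.floor_nonneg.2 (by positivity)
  set tgt : Finset (ℤ × ℤ × ℤ) :=
    Finset.Icc (-(K : ℤ)) K ×ˢ Finset.Icc (-(K : ℤ)) K ×ˢ Finset.Icc (0 : ℤ) M with htgt
  have hcard : ((box K).filter (fun v : ℤ × ℤ × ℤ × ℤ =>
        |(v.1 : ℝ) * z + v.2.1 - β v.2.2.1 v.2.2.2| ≤ δ)).card ≤ tgt.card := by
    refine Finset.card_le_card_of_injOn
      (fun v => (v.2.2.1, v.2.2.2, ⌊((v.1 : ℝ) + K) * c⌋)) ?_ ?_
    · intro v hv
      rw [Finset.mem_coe, Finset.mem_filter] at hv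
      obtain ⟨hb, _⟩ := hv
      unfold box at hb
      rw [Finset.mem_product, Finset.mem_product, Finset.mem_product] at hb
      obtain ⟨h1, h2, h3, h4⟩ := hb
      rw [Finset.mem_Icc] at h1
      rw [htgt, Finset.mem_coe, Finset.mem_product, Finset.mem_product]
      refine ⟨h3, h4, ?_⟩
      rw [Finset.mem_Icc]
      have h1a : (-(K : ℝ)) ≤ (v.1 : ℝ) := by exact_mod_cast h1.1
      have h1b : (v.1 : ℝ) ≤ K := by exact_mod_cast h1.2
      constructor
      · refine Int.floor_nonneg.2 (mul_nonneg (by linarith) hc0)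
      · refine Int.floor_le_floor (mul_le_mul_of_nonneg_right (by linarith) hc0)
    · intro v hv w hw hvw
      rw [Finset.mem_coe, Finset.mem_filter] at hv hw
      simp only [Prod.mk.injEq] at hvw
      obtain ⟨e1, e2, e3⟩ := hvw
      have hw2 := hw.2
      rw [← e1, ← e2] at hw2
      obtain ⟨e4, e5⟩ := Vcount_inj hz δ hδ _ v.1 v.2.1 w.1 w.2.1 hv.2 hw2 K e3
      exact Prod.ext e4 (Prod.ext e5 (Prod.ext e1 e2))
  have hct : (tgt.card : ℝ) = (2 * (K : ℝ) + 1) * ((2 * (K : ℝ) + 1) * ((M : ℝ) + 1)) := by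
    rw [htgt, Finset.card_product, Finset.card_product, Int.card_Icc, Int.card_Icc]
    have e1 : ((((K : ℤ) + 1 - -(K : ℤ)).toNat : ℕ) : ℝ) = 2 * (K : ℝ) + 1 := by
      have h0 : (K : ℤ) + 1 - -(K : ℤ) = ((2 * K + 1 : ℕ) : ℤ) := by push_cast; ring
      rw [h0, Int.toNat_natCast]
      push_cast
      ring
    have e2 : (((M + 1 - 0).toNat : ℕ) : ℝ) = (M : ℝ) + 1 := by
      have h0 : 0 ≤ M + 1 - 0 := by omega
      have h1 : (((M + 1 - 0).toNat : ℤ) : ℝ) = ((M + 1 - 0 : ℤ) : ℝ) := by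
        rw [Int.toNat_of_nonneg h0]
      rw [Int.cast_natCast] at h1
      rw [h1]
      push_cast
      ring
    rw [Nat.cast_mul, Nat.cast_mul, e1, e2]
  have hMle : (M : ℝ) ≤ 4 * K * δ * ((A : ℝ) + 2) := by
    refine (Int.floor_le _).trans (le_of_eq ?_)
    rw [hc]
    ring
  calc (((box K).filter (fun v : ℤ × ℤ × ℤ × ℤ =>
        |(v.1 : ℝ) * z + v.2.1 - β v.2.2.1 v.2.2.2| ≤ δ)).card : ℝ)
      ≤ (tgt.card : ℝ) := by exact_mod_cast hcard
    _ = (2 * (K : ℝ) + 1) ^ 2 * (1 + (M : ℝ)) := by rw [hct]; ring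
    _ ≤ _ := by
      refine mul_le_mul_of_nonneg_left ?_ (by positivity)
      linarith

end MLG
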